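import Pool.Agent.H838R2.PL.Defs

/-!
# Basic facts about labelled diagrams
-/

set_option autoImplicit false
set_option linter.unusedSectionVars false
set_option linter.unusedSimpArgs false

namespace Pool.Agent.H838R2.PL

open Relation

variable {Λ Λ' Λ'' : Type} [Palette Λ] [Palette Λ'] [Palette Λ'']

@[simp] theorem path_nil (F F' : List Λ) : Path F [] F' ↔ F = F' := Iff.rfl

@[simp] theorem path_cons (F F' : List Λ) (s : Slice Λ) (w : Word Λ) :
    Path F (s :: w) F' ↔ s.src = F ∧ Path s.tgt w F' := Iff.rfl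

theorem path_append {u v : Word Λ} : ∀ {F F' : List Λ},
    Path F (u ++ v) F' ↔ ∃ G, Path F u G ∧ Path G v F' := by
  induction u with
  | nil => intro F F'; simp
  | cons s u ih =>
    intro F F'
    simp only [List.cons_append, path_cons, ih]
    constructor
    · rintro ⟨h, G, h1, h2⟩; exact ⟨G, ⟨h, h1⟩, h2⟩
    · rintro ⟨G, ⟨h, h1⟩, h2⟩; exact ⟨h, G, h1, h2⟩

theorem Path.append {u v : Word Λ} {F G H : List Λ} (h : Path F u G) (h' : Path G v H) :
    Path F (u ++ v) H := path_append.2 ⟨G, h, h'⟩

theorem Path.tgt_unique {w : Word Λ} : ∀ {F G G' : List Λ}, Path F w G → Path F w G' → G = G' := by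
  induction w with
  | nil => intro F G G' h h'; exact h.symm.trans h'
  | cons s w ih => intro F G G' h h'; exact ih h.2 h'.2

theorem Path.src_unique {w : Word Λ} (hw : w ≠ []) {F F' G G' : List Λ} (h : Path F w G)
    (h' : Path F' w G') : F = F' := by
  cases w with
  | nil => exact absurd rfl hw
  | cons s w => exact h.1.symm.trans h'.1

@[simp] theorem ctx_nil (P Q : List Λ) : ctx P Q ([] : Word Λ) = [] := rfl

@[simp] theorem ctx_cons (P Q : List Λ) (s : Slice Λ) (w : Word Λ) :
    ctx P Q (s :: w) = ⟨P ++ s.L, s.p, s.R ++ Q⟩ :: ctx P Q w := rfl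

@[simp] theorem ctx_append (P Q : List Λ) (u v : Word Λ) :
    ctx P Q (u ++ v) = ctx P Q u ++ ctx P Q v := by simp [ctx]

theorem ctx_ctx (P P' Q Q' : List Λ) (w : Word Λ) :
    ctx P Q (ctx P' Q' w) = ctx (P ++ P') (Q' ++ Q) w := by
  simp [ctx, Function.comp_def]

@[simp] theorem ctx_nil_nil (w : Word Λ) : ctx [] [] w = w := by
  simp [ctx]

theorem Path.ctx {w : Word Λ} (P Q : List Λ) : ∀ {F G : List Λ}, Path F w G →
    Path (P ++ F ++ Q) (ctx P Q w) (P ++ G ++ Q) := by
  induction w with
  | nil => intro F G h; cases h; simp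
  | cons s w ih =>
    intro F G h
    rw [ctx_cons, path_cons]
    refine ⟨?_, ?_⟩
    · rw [← h.1]; simp [Slice.src]
    · have := ih h.2
      simpa [Slice.tgt] using this

/-- a path of slices which all have the vertical strands `P` on the left and `Q` on the right -/
theorem path_ctx_iff {w : Word Λ} (P Q : List Λ) : ∀ {F : List Λ} {G : List Λ},
    Path (P ++ F ++ Q) (PL.ctx P Q w) G ↔ ∃ G', G = P ++ G' ++ Q ∧ Path F w G' := by
  induction w with
  | nil =>
    intro F G
    constructor
    · intro h; exact ⟨F, h.symm, rfl⟩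
    · rintro ⟨G', h, h'⟩; cases h'; exact h.symm
  | cons s w ih =>
    intro F G
    have e : (⟨P ++ s.L, s.p, s.R ++ Q⟩ : Slice Λ).tgt = P ++ s.tgt ++ Q := by simp [Slice.tgt]
    have e' : (⟨P ++ s.L, s.p, s.R ++ Q⟩ : Slice Λ).src = P ++ s.src ++ Q := by simp [Slice.src]
    rw [ctx_cons, path_cons, e, e', ih]
    constructor
    · rintro ⟨h, G', h1, h2⟩
      refine ⟨G', h1, ?_, h2⟩
      simpa using h
    · rintro ⟨G', h1, h2, h3⟩
      exact ⟨by rw [h2], G', h1, h3⟩

@[simp] theorem path_ctx_left {w : Word Λ} (a : Λ) {F : List Λ} {G : List Λ} :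
    Path (a :: F) (PL.ctx [a] [] w) G ↔ ∃ G', G = a :: G' ∧ Path F w G' := by
  have := path_ctx_iff (w := w) [a] [] (F := F) (G := G)
  simpa using this

/-! ### labels of crossings -/

theorem out_true (x y : Λ) : out true x y = (Palette.l y x, x) := rfl
theorem out_false (x y : Λ) : out false x y = (y, Palette.r x y) := rfl

@[simp] theorem l_star (x y : Λ) : Palette.l x (star y) = Palette.r x y := by
  rw [← Palette.r_star, Palette.star_star]

@[simp] theorem l_self (x : Λ) : Palette.l x x = x := by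
  have := Palette.l_r x x; rwa [Palette.r_self] at this

theorem star_l (x y : Λ) : star (Palette.l x y) = Palette.l (star x) y := by
  rw [← Palette.r_star, Palette.star_r, Palette.r_star]

theorem l_l (x y z : Λ) : Palette.l (Palette.l x y) z = Palette.l (Palette.l x z) (Palette.l y z) := by
  have h := Palette.r_r (Palette.l (Palette.l x z) (Palette.l y z)) (Palette.l y z) z
  rw [Palette.r_l, Palette.r_l, Palette.r_l] at h
  have h2 := congrArg (fun t => Palette.l (Palette.l t y) z) h
  simpa using h2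

theorem r_l_r (x y z : Λ) : Palette.r (Palette.l x y) z = Palette.l (Palette.r x z) (Palette.r y z) := by
  have h := Palette.r_r (Palette.l x y) y z
  rw [Palette.r_l] at h
  rw [h, Palette.l_r]

theorem l_r_l (x y z : Λ) : Palette.l (Palette.r x y) z = Palette.r (Palette.l x z) (Palette.l y z) := by
  have h := Palette.r_r (Palette.l x z) (Palette.l y z) z
  rw [Palette.r_l, Palette.r_l] at h
  rw [← h, Palette.l_r]

@[simp] theorem l_star_self (x : Λ) : Palette.l (star x) x = star x := by
  rw [← Palette.r_star, Palette.r_self]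

@[simp] theorem r_star_self (x : Λ) : Palette.r (star x) x = star x := by
  rw [← Palette.star_r, Palette.r_self]

theorem out_involutive (b : Bool) (x y : Λ) : out (!b) (out b x y).1 (out b x y).2 = (x, y) := by
  cases b <;> simp [out]

/-! ### the local moves -/

theorem BM.path {A A' : List Λ} {l r : Word Λ} (h : BM A l r A') : Path A l A' ∧ Path A r A' := by
  cases h with
  | zig1 x => simp [Path, Slice.src, Slice.tgt, Loc.src, Loc.tgt]
  | zig2 x => simp [Path, Slice.src, Slice.tgt, Loc.src, Loc.tgt]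
  | rb b a => cases b <;> simp [Path, Slice.src, Slice.tgt, Loc.src, Loc.tgt, out]
  | rd b a => cases b <;> simp [Path, Slice.src, Slice.tgt, Loc.src, Loc.tgt, out]
  | r2 b x y => cases b <;> simp [Path, Slice.src, Slice.tgt, Loc.src, Loc.tgt, out]
  | r3 a b c h x y z u₁ u₂ v₁ v₂ w₁ w₂ p₁ p₂ q₁ hu hv hw hp q₂ hq =>
    have key : out a q₂ p₂ = (w₂, v₂) ∧ q₁ = w₁ := by
      cases a <;> cases b <;> cases c <;> simp [out] at h hu hv hw hp hq ⊢ <;>
        obtain ⟨rfl, rfl⟩ := hu <;> obtain ⟨rfl, rfl⟩ := hv <;> obtain ⟨rfl, rfl⟩ := hw <;>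
        obtain ⟨rfl, rfl⟩ := hp <;> obtain ⟨rfl, rfl⟩ := hq
      · simpa using (Palette.r_r x y z).symm
      · simpa using (Palette.r_r x (Palette.l z y) y)
      · simpa using (l_l z (Palette.r x y) y).symm
      · simpa using (r_l_r y x z).symm
      · simpa using (l_r_l y z x)
      · simpa using (l_l z y x)
    obtain ⟨k1, k2⟩ := key
    subst k2
    simp [Path, Slice.src, Slice.tgt, Loc.src, Loc.tgt, hu, hv, hw, hp, hq, k1]
  | sb b a s a' h =>
    cases b <;> simp at h <;> subst h <;>
      simp [Path, Slice.src, Slice.tgt, Loc.src, Loc.tgt, out, Palette.star_r]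
  | sd b x y z h =>
    cases b <;> simp at h <;> subst h <;>
      simp [Path, Slice.src, Slice.tgt, Loc.src, Loc.tgt, out, Palette.star_r, star_l]
  | far p q M => simp [Path, Slice.src, Slice.tgt]

theorem Step.closed {D E : Diag Λ} (h : Step D E) : Closed D ∧ Closed E := by
  cases h with
  | loc F P Q x y hb hx hy =>
    obtain ⟨h1, h2⟩ := hb.path
    exact ⟨(hx.append (h1.ctx P Q)).append hy, (hx.append (h2.ctx P Q)).append hy⟩
  | conj hu hv => exact ⟨hu.append hv, hv.append hu⟩
  | @left a F w hw =>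
    refine ⟨hw, ?_⟩
    refine ⟨by simp [Slice.src, Loc.src], ?_⟩
    have := hw.ctx [star a] []
    refine Path.append (G := star a :: a :: F) (by simpa [Slice.tgt, Loc.tgt] using this) ?_
    simp [Path, Slice.src, Slice.tgt, Loc.src, Loc.tgt]
  | @right a F w hw =>
    refine ⟨hw, ?_⟩
    refine ⟨by simp [Slice.src, Loc.src], ?_⟩
    have := hw.ctx [] [star a]
    refine Path.append (G := F ++ [a] ++ [star a]) (by simpa [Slice.tgt, Loc.tgt] using this) ?_
    simp [Path, Slice.src, Slice.tgt, Loc.src, Loc.tgt]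

theorem Iso.closed_iff {D E : Diag Λ} (h : Iso D E) : Closed D ↔ Closed E := by
  induction h with
  | rel _ _ h => exact ⟨fun _ => h.closed.2, fun _ => h.closed.1⟩
  | refl _ => exact Iff.rfl
  | symm _ _ _ ih => exact ih.symm
  | trans _ _ _ _ _ ih1 ih2 => exact ih1.trans ih2

theorem Iso.closed {D E : Diag Λ} (h : Iso D E) (hD : Closed D) : Closed E := h.closed_iff.1 hD

end Pool.Agent.H838R2.PL
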