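import Pool.Agent.H838R2.PL.Stubs

/-! Task A10 (helper760): closing a diagram on the right. -/

set_option autoImplicit false
set_option linter.unusedSectionVars false

namespace Pool.Agent.H838R2.PL

open Relation

section

variable {Λ : Type} [Palette Λ]

theorem a10_bar_snoc (F : List Λ) (a : Λ) : bar (F ++ [a]) = star a :: bar F := by
  simp [bar]

theorem a10_births_snoc (a : Λ) : ∀ (F P : List Λ),
    births P (F ++ [a]) = births P F ++ [⟨P ++ F, .birth a, bar (P ++ F)⟩]
  | [], P => by simp [births]
  | b :: F, P => by
    rw [List.cons_append, births, births, a10_births_snoc a F (P ++ [b])]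
    simp

theorem a10_deaths_snoc (a : Λ) : ∀ (F P : List Λ),
    deaths P (F ++ [a]) = ⟨P ++ F, .death a, bar (P ++ F)⟩ :: deaths P F
  | [], P => by simp [deaths]
  | b :: F, P => by
    rw [List.cons_append, deaths, deaths, a10_deaths_snoc a F (P ++ [b])]
    simp

theorem a10_iso (F : List Λ) : ∀ w : Word Λ, Path F w F → Iso (F, w) (closeUp (F, w)) := by
  induction F using List.reverseRecOn with
  | nil =>
    intro w _
    simp only [closeUp, births, deaths, bar, List.map_nil, List.reverse_nil, List.nil_append,
      List.append_nil, ctx_nil_nil]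
    exact EqvGen.refl _
  | append_singleton F a ih =>
    intro w hw
    have h1 : Step (F ++ [a], w)
        (F, ⟨F, .birth a, []⟩ :: (ctx [] [star a] w ++ [⟨F, .death a, []⟩])) := Step.right hw
    have h2 := ih _ h1.closed.2
    refine EqvGen.trans _ _ _ (EqvGen.rel _ _ h1) ?_
    have h3 : closeUp (F, ⟨F, .birth a, []⟩ :: (ctx [] [star a] w ++ [⟨F, .death a, []⟩])) =
        closeUp (F ++ [a], w) := by
      simp only [closeUp, a10_births_snoc, a10_deaths_snoc, a10_bar_snoc, ctx_cons, ctx_append,
        ctx_ctx, ctx_nil, List.nil_append, List.append_assoc, List.cons_append, List.singleton_append]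
    rw [h3] at h2
    exact h2

theorem a10_count_ctx (P Q : List Λ) (w : Word Λ) (F G : List Λ) :
    cross (F, ctx P Q w) = cross (G, w) := by
  induction w with
  | nil => rfl
  | cons s w ih =>
    obtain ⟨L, p, R⟩ := s
    simp only [cross, ctx_cons, List.countP_cons] at ih ⊢
    rw [ih]

theorem a10_count_append (F : List Λ) (u v : Word Λ) :
    cross (F, u ++ v) = cross (F, u) + cross (F, v) := by
  simp only [cross, List.countP_append]

theorem a10_count_births (G : List Λ) : ∀ F P : List Λ, cross (G, births P F) = 0
  | [], _ => rfl
  | a :: F, P => by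
    have := a10_count_births G F (P ++ [a])
    simp only [cross, births, List.countP_cons] at this ⊢
    rw [this]
    simp

theorem a10_count_deaths (G : List Λ) : ∀ F P : List Λ, cross (G, deaths P F) = 0
  | [], _ => rfl
  | a :: F, P => by
    rw [deaths, a10_count_append, a10_count_deaths G F (P ++ [a])]
    simp [cross]

end

theorem stClose : StClose := by
  intro Λ _ D hD
  obtain ⟨F, w⟩ := D
  have h := a10_iso F w hD
  refine ⟨h.closed hD, h, ?_⟩
  rw [closeUp, a10_count_append, a10_count_append, a10_count_births, a10_count_deaths,
    a10_count_ctx _ _ w [] F, zero_add, add_zero]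

end Pool.Agent.H838R2.PL
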