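import Pool.Agent.H838R2.PL.Stubs

/-!
# (E1) Counting
-/

set_option autoImplicit false
set_option linter.unusedSectionVars false

namespace Pool.Agent.H838R2.PL

open Relation

/-- equal links have isotopic diagrams -/
theorem iso_of_mk_eq {D E : Diag Pl} {hD : IsDiagram D} {hE : IsDiagram E}
    (h : mk D hD = mk E hE) : Iso D E := by
  have h1 := Quot.eqvGen_exact h
  have key : ∀ x y : {D : Diag Pl // IsDiagram D},
      EqvGen (fun D E : {D : Diag Pl // IsDiagram D} => Step D.1 E.1) x y → Iso x.1 y.1 := by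
    intro x y hxy
    induction hxy with
    | rel _ _ h => exact EqvGen.rel _ _ h
    | refl _ => exact EqvGen.refl _
    | symm _ _ _ ih => exact EqvGen.symm _ _ ih
    | trans _ _ _ _ _ ih1 ih2 => exact EqvGen.trans _ _ _ ih1 ih2
  exact key _ _ h1

/-- isotopic diagrams give equal links -/
theorem mk_eq_of_iso (hI : StInv) {D E : Diag Pl} (h : Iso D E) :
    ∀ (hD : IsDiagram D) (hE : IsDiagram E), mk D hD = mk E hE := by
  induction h with
  | rel _ _ h => intro hD hE; exact Quot.sound h
  | refl _ => intro hD hE; rfl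
  | symm _ _ _ ih => intro hD hE; exact (ih hE hD).symm
  | trans x y z h1 _ ih1 ih2 =>
    intro hD hE
    have hy : IsDiagram y := (hI _ _ h1).1.1 hD
    exact (ih1 hD hy).trans (ih2 hy hE)

/-- the rooted diagram of a prime link, with the minimal number of crossings -/
theorem exists_good (hI : StInv) (hGL : StGoodLink) (hGK : StGoodKnot) (L : Link)
    (hp : IsPrime L) : ∃ R : Diag Pl, Good R ∧ cross R = crossingNumber L ∧
      (∀ h : IsDiagram R, mk R h = L) ∧ ∀ E, Iso R E → crossingNumber L ≤ cross E := by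
  obtain ⟨D, hD, hDL, hDp⟩ := hp
  have hmem : crossingNumber L ∈ {n | ∃ D h, mk D h = L ∧ cross D = n} :=
    Nat.sInf_mem ⟨cross D, D, hD, hDL, rfl⟩
  obtain ⟨D', hD', hDL', hcr⟩ := hmem
  have hiso : Iso D D' := iso_of_mk_eq (hDL.trans hDL'.symm)
  have hD'p : IsPrimeDiag D' := ((hI _ _ hiso).2.2.2.2.2 hD.1).1 hDp
  have hlow : ∀ E, Iso D' E → crossingNumber L ≤ cross E := by
    intro E hE
    have hEd : IsDiagram E := (hI _ _ hE).1.1 hD'
    apply Nat.sInf_le
    exact ⟨E, hEd, (mk_eq_of_iso hI hE hD' hEd).symm.trans hDL', rfl⟩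
  have hR : ∃ R, Good R ∧ Iso D' R ∧ cross R = cross D' := by
    by_cases hk : IsKnot D'
    · exact hGK D' hD' hD'p hk
    · exact hGL D' hD' hD'p hk
  obtain ⟨R, hR, hR1, hR2⟩ := hR
  refine ⟨R, hR, hR2.trans hcr, ?_, ?_⟩
  · intro h
    exact (mk_eq_of_iso hI hR1 hD' h).symm.trans hDL'
  · intro E hE
    exact hlow E (EqvGen.trans _ _ _ hR1 hE)

/-- the blocks of the ring -/
def blocks {k f : ℕ} (a : ℕ) (R0 : Fin f → Diag Pl) (H T : Diag Pl) (t : Fin k → Fin f) (i : ℕ) :
    Diag Pl :=
  if h : i < k then R0 (t ⟨i, h⟩) else if i < k + a then H else T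

theorem sum_blocks (k a b m : ℕ) :
    ∑ i ∈ Finset.range (k + a + b), ((if i < k then m else if i < k + a then 2 else 3) + 6) =
      k * (m + 6) + 8 * a + 9 * b := by
  rw [Finset.sum_range_add, Finset.sum_range_add]
  have h1 : ∑ i ∈ Finset.range k, ((if i < k then m else if i < k + a then 2 else 3) + 6) =
      k * (m + 6) := by
    rw [Finset.sum_congr rfl (g := fun _ => m + 6)]
    · simp
    · intro i hi
      rw [if_pos (Finset.mem_range.1 hi)]
  have h2 : ∑ i ∈ Finset.range a,
      ((if k + i < k then m else if k + i < k + a then 2 else 3) + 6) = 8 * a := by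
    rw [Finset.sum_congr rfl (g := fun _ => 8)]
    · simp [mul_comm]
    · intro i hi
      have := Finset.mem_range.1 hi
      rw [if_neg (by omega), if_pos (by omega)]
  have h3 : ∑ i ∈ Finset.range b,
      ((if k + a + i < k then m else if k + a + i < k + a then 2 else 3) + 6) = 9 * b := by
    rw [Finset.sum_congr rfl (g := fun _ => 9)]
    · simp [mul_comm]
    · intro i hi
      rw [if_neg (by omega), if_neg (by omega)]
  rw [h1, h2, h3]

/-- (E1) -/
theorem stCount (hI : StInv) (hGL : StGoodLink) (hGK : StGoodKnot) (hH : StHopf)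
    (hT : StTrefoil) (hRing : StRing) (hRP : StRingPrime) (hRC : StRingCross) (hM : StMult) :
    StCount := by
  classical
  intro m k a b N K f hK hK3 hN hf
  have hK2 : 2 ≤ K := by omega
  -- the links
  obtain ⟨s, hs, hcard⟩ := Set.exists_subset_encard_eq hf
  have hfin : s.Finite := Set.finite_of_encard_eq_coe hcard
  have hsc : hfin.toFinset.card = f := by
    have h1 := hfin.encard_eq_coe_toFinset_card
    rw [hcard] at h1
    exact_mod_cast h1.symm
  let e := (Finset.equivFinOfCardEq hsc).symm
  let L : Fin f → Link := fun j => (e j).1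
  have hLinj : Function.Injective L := fun i j hij => e.injective (Subtype.ext hij)
  have hLmem : ∀ j, IsPrime (L j) ∧ crossingNumber (L j) = m := by
    intro j
    have h1 : L j ∈ s := by
      have := (e j).2
      exact hfin.mem_toFinset.1 this
    exact hs h1
  have hR0 := fun j => exists_good hI hGL hGK (L j) (hLmem j).1
  choose R0 hR0g hR0c hR0m hR0l using hR0
  obtain ⟨H, hHg, hHc, hHl⟩ := hH
  obtain ⟨T, hTg, hTc, hTl⟩ := hT
  let R : (Fin k → Fin f) → ℕ → Diag Pl := blocks a R0 H T
  have hRdef : ∀ t i, R t i = if h : i < k then R0 (t ⟨i, h⟩) else if i < k + a then H else T :=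
    fun t i => rfl
  have hgood : ∀ t i, Good (R t i) := by
    intro t i
    rw [hRdef]
    split_ifs
    · exact hR0g _
    · exact hHg
    · exact hTg
  have hlow : ∀ t i, ∀ E, Iso (R t i) E →
      (if i < k then m else if i < k + a then 2 else 3) ≤ cross E := by
    intro t i E
    rw [hRdef]
    split_ifs
    · intro hE
      have := hR0l _ E hE
      rwa [(hLmem _).2] at this
    · exact hHl E
    · exact hTl E
  have hcross : ∀ t i, cross (R t i) = if i < k then m else if i < k + a then 2 else 3 := by
    intro t i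
    rw [hRdef]
    split_ifs
    · rw [hR0c, (hLmem _).2]
    · exact hHc
    · exact hTc
  have hprops : ∀ t, RingProps K (R t) := fun t =>
    hRing K (R t) hK2 (fun i _ => ⟨(hgood t i).diag, (hgood t i).front⟩)
  have hcr : ∀ t, cross (ring K (R t)) = N := by
    intro t
    rw [(hprops t).cross]
    simp only [hcross]
    rw [hK, hN]
    exact sum_blocks k a b m
  have hcn : ∀ t, crossingNumber (mk (ring K (R t)) (hprops t).diagram) = N := by
    intro t
    apply le_antisymm
    · apply Nat.sInf_le
      exact ⟨_, _, rfl, hcr t⟩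
    · have hne : {n | ∃ D h, mk D h = mk (ring K (R t)) (hprops t).diagram ∧ cross D = n}.Nonempty :=
        ⟨N, _, _, rfl, hcr t⟩
      obtain ⟨D, hD, hDL, hDc⟩ := Nat.sInf_mem hne
      have h1 := hRC K (R t) (fun i => if i < k then m else if i < k + a then 2 else 3) hK2
        (fun i _ => hgood t i) (hprops t) (fun i _ => hlow t i) D (iso_of_mk_eq hDL).symm
      have h2 := sum_blocks k a b m
      rw [← hK, ← hN] at h2
      have h3 : crossingNumber (mk (ring K (R t)) (hprops t).diagram) = cross D := hDc.symm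
      rw [h3]
      rw [h2] at h1
      exact h1
  let Φ : (Fin k → Fin f) → Link := fun t => mk (ring K (R t)) (hprops t).diagram
  have hΦ : ∀ t, Φ t ∈ {L : Link | IsPrime L ∧ crossingNumber L = N} := fun t =>
    ⟨⟨_, _, rfl, hRP K (R t) hK2 (fun i _ => hgood t i) (hprops t)⟩, hcn t⟩
  have hKN : K ≤ N := by
    rw [hK, hN]
    nlinarith [Nat.zero_le (k * m)]
  have hpos : 0 < N.choose K * K ^ 2 := by
    have := Nat.choose_pos hKN
    positivity
  have hfib : ∀ L' : Link, (Finset.univ.filter (fun t => Φ t = L')).card ≤ N.choose K * K ^ 2 := by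
    intro L'
    by_cases hne : ∃ t0, Φ t0 = L'
    · obtain ⟨t0, ht0⟩ := hne
      have h1 := hM K hK2 (ring K (R t0)) (hprops t0).diagram.1 {t : Fin k → Fin f // Φ t = L'}
        (fun t => R t.1) (fun t i _ => hgood t.1 i) (fun t => hprops t.1)
        (fun t => iso_of_mk_eq (t.2.trans ht0.symm)) (by
          intro t t' hiso
          apply Subtype.ext
          funext i
          apply hLinj
          have h2 := hiso i.1 (by omega)
          have e1 : R t.1 i.1 = R0 (t.1 i) := by rw [hRdef, dif_pos i.2]
          have e2 : R t'.1 i.1 = R0 (t'.1 i) := by rw [hRdef, dif_pos i.2]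
          rw [e1, e2] at h2
          rw [← hR0m (t.1 i) (hR0g _).diag, ← hR0m (t'.1 i) (hR0g _).diag]
          exact mk_eq_of_iso hI h2 _ _)
      rw [hcr t0] at h1
      refine le_trans (le_of_eq ?_) (h1.trans (Nat.mul_le_mul_left _ (by nlinarith)))
      rw [Fintype.card_subtype]
    · have : Finset.univ.filter (fun t => Φ t = L') = ∅ := by
        rw [Finset.filter_eq_empty_iff]
        intro t _ ht
        exact hne ⟨t, ht⟩
      rw [this]
      simp
  by_cases hSf : {L : Link | IsPrime L ∧ crossingNumber L = N}.Finite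
  · have h1 := Finset.card_le_mul_card_image_of_maps_to (s := (Finset.univ : Finset (Fin k → Fin f)))
      (t := hSf.toFinset) (f := Φ) (fun t _ => hSf.mem_toFinset.2 (hΦ t)) (N.choose K * K ^ 2)
      (fun L' _ => hfib L')
    have h2 : (Finset.univ : Finset (Fin k → Fin f)).card = f ^ k := by simp
    rw [h2, mul_comm] at h1
    have h3 : l N = (hSf.toFinset.card : ℕ∞) := hSf.encard_eq_coe_toFinset_card
    rw [h3]
    exact_mod_cast h1
  · have h3 : l N = ⊤ := Set.encard_eq_top_iff.2 hSf
    rw [h3, ENat.top_mul (by exact_mod_cast hpos.ne')]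
    exact le_top

end Pool.Agent.H838R2.PL
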