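import Pool.Agent.H838R2.PL.Count

/-!
# The product inequality
-/

set_option autoImplicit false
set_option linter.unusedSectionVars false

namespace Pool.Agent.H838R2.PL

open Relation

namespace C2

/-- The product inequality for finite lower bounds. -/
theorem prod_fin (hI : StInv) (hGL : StGoodLink) (hGK : StGoodKnot) (hRing : StRing)
    (hRP : StRingPrime) (hRC : StRingCross) (hM : StMult)
    (K : ℕ) (hK2 : 2 ≤ K) (m f : ℕ → ℕ) (N : ℕ) (hN : N = ∑ i ∈ Finset.range K, (m i + 6))
    (hf : ∀ i < K, (f i : ℕ∞) ≤ l (m i)) :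
    ((∏ i ∈ Finset.range K, f i : ℕ) : ℕ∞) ≤ l N * ((N.choose K * K : ℕ) : ℕ∞) := by
  classical
  -- the links
  have hL : ∀ i : Fin K, ∃ L : Fin (f i) → Link, Function.Injective L ∧
      ∀ j, IsPrime (L j) ∧ crossingNumber (L j) = m i := by
    intro i
    obtain ⟨s, hs, hcard⟩ := Set.exists_subset_encard_eq (hf i i.2)
    have hfin : s.Finite := Set.finite_of_encard_eq_coe hcard
    have hsc : hfin.toFinset.card = f i := by
      have h1 := hfin.encard_eq_coe_toFinset_card
      rw [hcard] at h1
      exact_mod_cast h1.symm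
    let e := (Finset.equivFinOfCardEq hsc).symm
    refine ⟨fun j => (e j).1, fun i j hij => e.injective (Subtype.ext hij), fun j => ?_⟩
    exact hs (hfin.mem_toFinset.1 (e j).2)
  choose L hLinj hLmem using hL
  have hR0 := fun (i : Fin K) j => exists_good hI hGL hGK (L i j) (hLmem i j).1
  choose R0 hR0g hR0c hR0m hR0l using hR0
  let R : (∀ i : Fin K, Fin (f i)) → ℕ → Diag Pl := fun t i =>
    if h : i < K then R0 ⟨i, h⟩ (t ⟨i, h⟩) else ([], [])
  have hRdef : ∀ t i (h : i < K), R t i = R0 ⟨i, h⟩ (t ⟨i, h⟩) := fun t i h => dif_pos h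
  have hgood : ∀ t, ∀ i < K, Good (R t i) := by
    intro t i hi
    rw [hRdef t i hi]
    exact hR0g _ _
  have hlow : ∀ t, ∀ i < K, ∀ E, Iso (R t i) E → m i ≤ cross E := by
    intro t i hi E hE
    rw [hRdef t i hi] at hE
    have := hR0l _ _ E hE
    rwa [(hLmem _ _).2] at this
  have hcross : ∀ t, ∀ i < K, cross (R t i) = m i := by
    intro t i hi
    rw [hRdef t i hi, hR0c, (hLmem _ _).2]
  have hprops : ∀ t, RingProps K (R t) := fun t =>
    hRing K (R t) hK2 (fun i hi => ⟨(hgood t i hi).diag, (hgood t i hi).front⟩)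
  have hcr : ∀ t, cross (ring K (R t)) = N := by
    intro t
    rw [(hprops t).cross, hN]
    refine Finset.sum_congr rfl fun i hi => ?_
    rw [hcross t i (Finset.mem_range.1 hi)]
  have hcn : ∀ t, crossingNumber (mk (ring K (R t)) (hprops t).diagram) = N := by
    intro t
    apply le_antisymm
    · apply Nat.sInf_le
      exact ⟨_, _, rfl, hcr t⟩
    · have hne : {n | ∃ D h, mk D h = mk (ring K (R t)) (hprops t).diagram ∧ cross D = n}.Nonempty :=
        ⟨N, _, _, rfl, hcr t⟩
      obtain ⟨D, hD, hDL, hDc⟩ := Nat.sInf_mem hne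
      have h1 := hRC K (R t) m hK2
        (fun i hi => hgood t i hi) (hprops t) (hlow t) D (iso_of_mk_eq hDL).symm
      rw [← hN] at h1
      have h3 : crossingNumber (mk (ring K (R t)) (hprops t).diagram) = cross D := hDc.symm
      rw [h3]
      exact h1
  let Φ : (∀ i : Fin K, Fin (f i)) → Link := fun t => mk (ring K (R t)) (hprops t).diagram
  have hΦ : ∀ t, Φ t ∈ {L : Link | IsPrime L ∧ crossingNumber L = N} := fun t =>
    ⟨⟨_, _, rfl, hRP K (R t) hK2 (fun i hi => hgood t i hi) (hprops t)⟩, hcn t⟩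
  have hKN : K ≤ N := by
    rw [hN, Finset.sum_add_distrib, Finset.sum_const, Finset.card_range, smul_eq_mul]
    nlinarith [Nat.zero_le (∑ i ∈ Finset.range K, m i)]
  have hpos : 0 < N.choose K * K := by
    have := Nat.choose_pos hKN
    positivity
  have hfib : ∀ L' : Link, (Finset.univ.filter (fun t => Φ t = L')).card ≤ N.choose K * K := by
    intro L'
    by_cases hne : ∃ t0, Φ t0 = L'
    · obtain ⟨t0, ht0⟩ := hne
      have h1 := hM K hK2 (ring K (R t0)) (hprops t0).diagram.1
        {t : (∀ i : Fin K, Fin (f i)) // Φ t = L'}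
        (fun t => R t.1) (fun t i hi => hgood t.1 i hi) (fun t => hprops t.1)
        (fun t => iso_of_mk_eq (t.2.trans ht0.symm)) (by
          intro t t' hiso
          apply Subtype.ext
          funext i
          apply hLinj i
          have h2 := hiso i.1 i.2
          rw [hRdef _ _ i.2, hRdef _ _ i.2] at h2
          rw [← hR0m i (t.1 i) (hR0g _ _).diag, ← hR0m i (t'.1 i) (hR0g _ _).diag]
          exact mk_eq_of_iso hI h2 _ _)
      rw [hcr t0] at h1
      refine le_trans (le_of_eq ?_) h1
      rw [Fintype.card_subtype]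
    · have : Finset.univ.filter (fun t => Φ t = L') = ∅ := by
        rw [Finset.filter_eq_empty_iff]
        intro t _ ht
        exact hne ⟨t, ht⟩
      rw [this]
      simp
  by_cases hSf : {L : Link | IsPrime L ∧ crossingNumber L = N}.Finite
  · have h1 := Finset.card_le_mul_card_image_of_maps_to
      (s := (Finset.univ : Finset (∀ i : Fin K, Fin (f i))))
      (t := hSf.toFinset) (f := Φ) (fun t _ => hSf.mem_toFinset.2 (hΦ t)) (N.choose K * K)
      (fun L' _ => hfib L')
    have h2 : (Finset.univ : Finset (∀ i : Fin K, Fin (f i))).card =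
        ∏ i ∈ Finset.range K, f i := by
      simp [Fintype.card_pi, Finset.prod_range]
    rw [h2, mul_comm] at h1
    have h3 : l N = (hSf.toFinset.card : ℕ∞) := hSf.encard_eq_coe_toFinset_card
    rw [h3]
    exact_mod_cast h1
  · have h3 : l N = ⊤ := Set.encard_eq_top_iff.2 hSf
    rw [h3, ENat.top_mul (by exact_mod_cast hpos.ne')]
    exact le_top

/-- from finite lower bounds to the product -/
theorem prod_le_of_fin (K : ℕ) (a : ℕ → ℕ∞) (b : ℕ∞)
    (h : ∀ f : ℕ → ℕ, (∀ i < K, (f i : ℕ∞) ≤ a i) → ((∏ i ∈ Finset.range K, f i : ℕ) : ℕ∞) ≤ b) :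
    ∏ i ∈ Finset.range K, a i ≤ b := by
  by_cases hb : b = ⊤
  · rw [hb]; exact le_top
  by_cases h0 : ∃ i ∈ Finset.range K, a i = 0
  · obtain ⟨i, hi, h0⟩ := h0
    rw [Finset.prod_eq_zero hi h0]; exact zero_le
  push Not at h0
  by_cases ht : ∃ j ∈ Finset.range K, a j = ⊤
  · exfalso
    obtain ⟨j, hj, hjt⟩ := ht
    obtain ⟨c, rfl⟩ := ENat.ne_top_iff_exists.1 hb
    have h1 := h (fun i => if i = j then c + 1 else 1) (by
      intro i hi
      by_cases hij : i = j
      · simp only [if_pos hij]; rw [hij, hjt]; exact le_top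
      · simp only [if_neg hij]
        have := h0 i (Finset.mem_range.2 hi)
        rw [Nat.cast_one]
        exact Order.one_le_iff_ne_zero.2 this)
    have h2 : (∏ i ∈ Finset.range K, if i = j then c + 1 else 1) = c + 1 := by
      rw [Finset.prod_ite_eq' (Finset.range K) j (fun _ => c + 1), if_pos hj]
    rw [h2] at h1
    have h3 : c + 1 ≤ c := by exact_mod_cast h1
    omega
  · push Not at ht
    have h1 := h (fun i => (a i).toNat) (by
      intro i hi
      rw [ENat.natCast_toNat (ht i (Finset.mem_range.2 hi))])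
    refine le_trans (le_of_eq ?_) h1
    rw [Nat.cast_prod]
    refine Finset.prod_congr rfl fun i hi => ?_
    rw [ENat.natCast_toNat (ht i hi)]

end C2

/-- the product inequality -/
def StProduct : Prop := ∀ (K : ℕ) (m : ℕ → ℕ) (N : ℕ), 2 ≤ K →
  N = ∑ i ∈ Finset.range K, (m i + 6) →
  ∏ i ∈ Finset.range K, l (m i) ≤ ((K * N.choose K : ℕ) : ℕ∞) * l N

theorem stProduct (hI : StInv) (hGL : StGoodLink) (hGK : StGoodKnot) (hRing : StRing)
    (hRP : StRingPrime) (hRC : StRingCross) (hM : StMult) : StProduct := by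
  intro K m N hK hN
  apply C2.prod_le_of_fin
  intro f hf
  have := C2.prod_fin hI hGL hGK hRing hRP hRC hM K hK m f N hN hf
  rw [mul_comm] at this
  rwa [Nat.mul_comm K]

/-! ### Mirror images -/

/-- the mirror image of a slice -/
def mirrorS {Λ : Type} (s : Slice Λ) : Slice Λ := ⟨s.L, match s.p with
  | .birth a => .birth a
  | .death a => .death a
  | .cr b x y => .cr (!b) x y, s.R⟩

/-- the mirror image of a diagram: all crossings are changed -/
def mirrorD {Λ : Type} (D : Diag Λ) : Diag Λ := (D.1, D.2.map mirrorS)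

theorem mirrorS_src (s : Slice Pl) : (mirrorS s).src = s.src := by
  obtain ⟨L, p, R⟩ := s
  cases p <;> rfl

theorem mirrorS_tgt (s : Slice Pl) : (mirrorS s).tgt = s.tgt := by
  obtain ⟨L, p, R⟩ := s
  cases p with
  | birth a => rfl
  | death a => rfl
  | cr b x y => cases b <;> rfl

theorem mirrorS_mirrorS (s : Slice Pl) : mirrorS (mirrorS s) = s := by
  obtain ⟨L, p, R⟩ := s
  cases p <;> simp [mirrorS]

theorem path_mirror (w : Word Pl) : ∀ {F G : List Pl}, Path F w G → Path F (w.map mirrorS) G := by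
  induction w with
  | nil => intro F G h; exact h
  | cons s w ih =>
    intro F G h
    exact ⟨by rw [mirrorS_src]; exact h.1, by rw [mirrorS_tgt]; exact ih h.2⟩

theorem ctx_mirror (P Q : List Pl) (w : Word Pl) : (ctx P Q w).map mirrorS =
    ctx P Q (w.map mirrorS) := by
  unfold ctx
  rw [List.map_map, List.map_map]
  rfl

theorem bm_mirror {A B : List Pl} {l r : Word Pl} (h : BM A l r B) :
    BM A (l.map mirrorS) (r.map mirrorS) B := by
  cases h with
  | zig1 x => exact BM.zig1 x
  | zig2 x => exact BM.zig2 x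
  | rb b a => exact BM.rb (!b) a
  | rd b a => exact BM.rd (!b) a
  | r2 b x y =>
    have := BM.r2 (!b) x y
    cases b <;> exact this
  | r3 a b c h x y z u₁ u₂ v₁ v₂ w₁ w₂ p₁ p₂ q₁ hu hv hw hp q₂ hq =>
    exact BM.r3 (!a) (!b) (!c) (fun h' => by
      have : a = c := by cases a <;> cases c <;> simp_all
      rw [h this]) x y z u₁ u₂ v₁ v₂ w₁ w₂ p₁ p₂ q₁ (Subsingleton.elim _ _)
      (Subsingleton.elim _ _) (Subsingleton.elim _ _) (Subsingleton.elim _ _) q₂
      (Subsingleton.elim _ _)
  | sb b a s a' h =>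
    have := BM.sb (!b) a s a' (Subsingleton.elim _ _)
    cases b <;> exact this
  | sd b x y z h =>
    have := BM.sd (!b) x y z (Subsingleton.elim _ _)
    cases b <;> exact this
  | far p q M =>
    have key : ∀ p : Loc Pl, (mirrorS ⟨[], p, []⟩).p.src = p.src ∧
        (mirrorS ⟨[], p, []⟩).p.tgt = p.tgt := by
      intro p
      cases p with
      | birth a => exact ⟨rfl, rfl⟩
      | death a => exact ⟨rfl, rfl⟩
      | cr b x y => cases b <;> exact ⟨rfl, rfl⟩
    have h1 := BM.far (mirrorS ⟨[], p, []⟩).p (mirrorS ⟨[], q, []⟩).p M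
    rw [(key p).1, (key q).1, (key p).2, (key q).2] at h1
    exact h1

theorem step_mirror {D E : Diag Pl} (h : Step D E) : Step (mirrorD D) (mirrorD E) := by
  cases h with
  | loc F P Q x y hb hx hy =>
    have := Step.loc F P Q (x.map mirrorS) (y.map mirrorS) (bm_mirror hb) (path_mirror _ hx)
      (path_mirror _ hy)
    simpa [mirrorD, ctx_mirror] using this
  | conj hu hv =>
    have := Step.conj (path_mirror _ hu) (path_mirror _ hv)
    simpa [mirrorD] using this
  | @left a F w hw =>
    have := Step.left (path_mirror _ hw)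
    simpa [mirrorD, ctx_mirror, mirrorS] using this
  | @right a F w hw =>
    have := Step.right (path_mirror _ hw)
    simpa [mirrorD, ctx_mirror, mirrorS] using this

theorem mer_punit_r (x y : Mer PUnit) : Palette.r x y = x := rfl
theorem mer_punit_l (x y : Mer PUnit) : Palette.l x y = x := rfl

theorem path_mirror_dir (w : Word (Mer PUnit)) : ∀ {F G : List (Mer PUnit)}, Path F w G →
    Path F (w.map mirrorS) G := by
  have h1 : ∀ s : Slice (Mer PUnit), (mirrorS s).src = s.src := by
    rintro ⟨L, p, R⟩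
    cases p <;> rfl
  have h2 : ∀ s : Slice (Mer PUnit), (mirrorS s).tgt = s.tgt := by
    rintro ⟨L, p, R⟩
    cases p with
    | birth a => rfl
    | death a => rfl
    | cr b x y => cases b <;> rfl
  induction w with
  | nil => intro F G h; exact h
  | cons s w ih =>
    intro F G h
    exact ⟨by rw [h1]; exact h.1, by rw [h2]; exact ih h.2⟩

theorem plain_mirror {Λ : Type} [Palette Λ] (E : Diag Λ) : plain (mirrorD E) = mirrorD (plain E) := by
  obtain ⟨F, w⟩ := E
  simp only [plain, relabel, mirrorD, List.map_map, Prod.mk.injEq, true_and]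
  refine List.map_congr_left fun s _ => ?_
  obtain ⟨L, p, R⟩ := s
  cases p <;> rfl

theorem isDiagram_mirror {D : Diag Pl} (h : IsDiagram D) : IsDiagram (mirrorD D) := by
  obtain ⟨h1, E, hE, rfl⟩ := h
  exact ⟨path_mirror _ h1, mirrorD E, path_mirror_dir _ hE, plain_mirror E⟩

/-- the mirror image of a link -/
def Link.mirror : Link → Link :=
  Quot.map (fun D => ⟨mirrorD D.1, isDiagram_mirror D.2⟩) fun _ _ h => step_mirror h

/-- The number of prime links with crossing number `n`, a link and its mirror image are counted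
once. -/
noncomputable def lm (n : ℕ) : ℕ∞ :=
  Set.encard {s : Set Link | ∃ L, IsPrime L ∧ crossingNumber L = n ∧ s = {L, L.mirror}}

theorem lm_le (n : ℕ) : lm n ≤ l n := by
  have : {s : Set Link | ∃ L, IsPrime L ∧ crossingNumber L = n ∧ s = {L, L.mirror}} ⊆
      (fun L : Link => ({L, L.mirror} : Set Link)) '' {L | IsPrime L ∧ crossingNumber L = n} := by
    rintro s ⟨L, h1, h2, rfl⟩
    exact ⟨L, ⟨h1, h2⟩, rfl⟩
  exact (Set.encard_le_encard this).trans (Set.encard_image_le _ _)

theorem le_lm (n : ℕ) : l n ≤ 2 * lm n := by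
  classical
  by_cases hf : {s : Set Link | ∃ L, IsPrime L ∧ crossingNumber L = n ∧ s = {L, L.mirror}}.Finite
  · have h1 : {L : Link | IsPrime L ∧ crossingNumber L = n} ⊆
        ⋃ s ∈ hf.toFinset, s := by
      intro L hL
      simp only [Set.mem_iUnion]
      refine ⟨{L, L.mirror}, ?_, by simp⟩
      rw [hf.mem_toFinset]
      exact ⟨L, hL.1, hL.2, rfl⟩
    refine (Set.encard_le_encard h1).trans ?_
    have h2 : ∀ S : Finset (Set Link), (∀ s ∈ S, s.encard ≤ 2) →
        (⋃ s ∈ S, s).encard ≤ 2 * (S.card : ℕ∞) := by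
      intro S
      induction S using Finset.induction_on with
      | empty => intro _; simp
      | insert a S ha ih =>
        intro hS
        rw [Finset.set_biUnion_insert, Finset.card_insert_of_notMem ha]
        refine (Set.encard_union_le _ _).trans ?_
        have := ih fun s hs => hS s (Finset.mem_insert_of_mem hs)
        have h3 := hS a (Finset.mem_insert_self _ _)
        push_cast
        rw [mul_add, mul_one, add_comm (2 * (S.card : ℕ∞))]
        exact add_le_add h3 this
    have h3 := h2 hf.toFinset (by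
      intro s hs
      rw [hf.mem_toFinset] at hs
      obtain ⟨L, _, _, rfl⟩ := hs
      refine (Set.encard_insert_le _ _).trans ?_
      rw [Set.encard_singleton]
      exact le_of_eq one_add_one_eq_two)
    refine h3.trans (le_of_eq ?_)
    unfold lm
    rw [hf.encard_eq_coe_toFinset_card]
  · have : lm n = ⊤ := Set.encard_eq_top_iff.2 hf
    rw [this]
    simp

/-- the product inequality, mirror images identified -/
def StProductM : Prop := ∀ (K : ℕ) (m : ℕ → ℕ) (N : ℕ), 2 ≤ K →
  N = ∑ i ∈ Finset.range K, (m i + 6) →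
  ∏ i ∈ Finset.range K, lm (m i) ≤ ((2 * K * N.choose K : ℕ) : ℕ∞) * lm N

theorem stProductM (h : StProduct) : StProductM := by
  intro K m N hK hN
  calc ∏ i ∈ Finset.range K, lm (m i) ≤ ∏ i ∈ Finset.range K, l (m i) :=
        Finset.prod_le_prod' fun i _ => lm_le (m i)
    _ ≤ ((K * N.choose K : ℕ) : ℕ∞) * l N := h K m N hK hN
    _ ≤ ((K * N.choose K : ℕ) : ℕ∞) * (2 * lm N) := by gcongr; exact le_lm N
    _ = ((2 * K * N.choose K : ℕ) : ℕ∞) * lm N := by
        push_cast
        ring

end Pool.Agent.H838R2.PL
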