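import Mathlib

/-!
# Link diagrams with labelled strands

A link diagram is drawn in an annulus (a sphere minus two points) which has been cut along a ray;
it is read from top to bottom.  The cut diagram is a word in elementary slices: a slice consists of
vertical strands and one maximum (`birth`), one minimum (`death`) or one crossing (`cr`).  The
strands at the bottom are joined with the strands at the top around the annulus (if there are no
such strands, one has an ordinary diagram in the plane).

All strands carry labels from a `Palette` (the trivial labels give the diagram itself, other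
palettes give colourings of the components, directions, homomorphisms from the group of the link
to other groups).
-/

set_option autoImplicit false

namespace Pool.Agent.H838R2.PL

/-- The structure needed for labels of strands. `star x` is the label of a strand if it is labelled
`x` when it is turned around (at a maximum or a minimum); `r x y` (`l x y`) is the label of a strand
after it has passed below a strand with the label `y` from the left to the right (from the right to
the left), if it was `x` before. -/
class Palette (Λ : Type) where
  star : Λ → Λ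
  r : Λ → Λ → Λ
  l : Λ → Λ → Λ
  star_star : ∀ x, star (star x) = x
  l_r : ∀ x y, l (r x y) y = x
  r_l : ∀ x y, r (l x y) y = x
  r_star : ∀ x y, r x (star y) = l x y
  star_r : ∀ x y, star (r x y) = r (star x) y
  r_self : ∀ x, r x x = x
  r_r : ∀ x y z, r (r x y) z = r (r x z) (r y z)

export Palette (star)

attribute [simp] Palette.star_star Palette.l_r Palette.r_l Palette.r_self Palette.r_star

variable {Λ Λ' : Type} [Palette Λ] [Palette Λ']

/-- The labels below a crossing of the strands with the labels `x` (left) and `y` (right) above the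
crossing; `b` says that the strand from the top left to the bottom right passes over. -/
def out (b : Bool) (x y : Λ) : Λ × Λ := if b then (Palette.l y x, x) else (y, Palette.r x y)

/-- Maxima, minima and crossings, with the labels of their strands. -/
inductive Loc (Λ : Type) : Type
  | birth (a : Λ)
  | death (a : Λ)
  | cr (b : Bool) (x y : Λ)

/-- the labels of the strands above -/
def Loc.src : Loc Λ → List Λ
  | .birth _ => []
  | .death a => [a, star a]
  | .cr _ x y => [x, y]

/-- the labels of the strands below -/
def Loc.tgt : Loc Λ → List Λ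
  | .birth a => [a, star a]
  | .death _ => []
  | .cr b x y => [(out b x y).1, (out b x y).2]

/-- An elementary slice: strands on the left, a maximum, minimum or crossing, strands on the
right. -/
structure Slice (Λ : Type) : Type where
  L : List Λ
  p : Loc Λ
  R : List Λ

def Slice.src (s : Slice Λ) : List Λ := s.L ++ s.p.src ++ s.R
def Slice.tgt (s : Slice Λ) : List Λ := s.L ++ s.p.tgt ++ s.R

abbrev Word (Λ : Type) : Type := List (Slice Λ)

/-- The slices fit together, the labels of the strands above them are `F`, those below them are
`F'`. -/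
def Path : List Λ → Word Λ → List Λ → Prop
  | F, [], F' => F = F'
  | F, s :: w, F' => s.src = F ∧ Path s.tgt w F'

/-- Annular diagrams: the labels of the strands at the cut, and the slices. -/
abbrev Diag (Λ : Type) : Type := List Λ × Word Λ

/-- The slices fit together, also at the cut. -/
def Closed (D : Diag Λ) : Prop := Path D.1 D.2 D.1

/-- Adding the vertical strands `P` on the left and `Q` on the right. -/
def ctx (P Q : List Λ) (w : Word Λ) : Word Λ := w.map fun s => ⟨P ++ s.L, s.p, s.R ++ Q⟩

/-- The local moves (with the labels of the strands above and below): planar isotopy (`zig1`,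
`zig2`, `sb`, `sd`, `far`) and the three Reidemeister moves (`rb`, `rd`; `r2`, and together with
them `sb`, `sd`; `r3`). -/
inductive BM : List Λ → Word Λ → Word Λ → List Λ → Prop
  | zig1 (x : Λ) : BM [x] [⟨[], .birth x, [x]⟩, ⟨[x], .death (star x), []⟩] [] [x]
  | zig2 (x : Λ) : BM [x] [⟨[x], .birth (star x), []⟩, ⟨[], .death x, [x]⟩] [] [x]
  | rb (b : Bool) (a : Λ) : BM [] [⟨[], .birth a, []⟩, ⟨[], .cr b a (star a), []⟩]
      [⟨[], .birth (star a), []⟩] [star a, a]
  | rd (b : Bool) (a : Λ) : BM [a, star a] [⟨[], .cr b a (star a), []⟩, ⟨[], .death (star a), []⟩]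
      [⟨[], .death a, []⟩] []
  | r2 (b : Bool) (x y : Λ) : BM [x, y]
      [⟨[], .cr b x y, []⟩, ⟨[], .cr (!b) (out b x y).1 (out b x y).2, []⟩] [] [x, y]
  | r3 (a b c : Bool) (h : a = c → b = a) (x y z u₁ u₂ v₁ v₂ w₁ w₂ p₁ p₂ q₁ : Λ)
      (hu : out a x y = (u₁, u₂)) (hv : out b u₂ z = (v₁, v₂)) (hw : out c u₁ v₁ = (w₁, w₂))
      (hp : out c y z = (p₁, p₂)) (q₂ : Λ) (hq : out b x p₁ = (q₁, q₂)) : BM [x, y, z]
      [⟨[], .cr a x y, [z]⟩, ⟨[u₁], .cr b u₂ z, []⟩, ⟨[], .cr c u₁ v₁, [v₂]⟩]
      [⟨[x], .cr c y z, []⟩, ⟨[], .cr b x p₁, [p₂]⟩, ⟨[q₁], .cr a q₂ p₂, []⟩] [w₁, w₂, v₂]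
  | sb (b : Bool) (a s a' : Λ) (h : a' = if b then a else Palette.r a s) : BM [s]
      [⟨[], .birth a, [s]⟩, ⟨[a], .cr b (star a) s, []⟩]
      [⟨[s], .birth a', []⟩, ⟨[], .cr (!b) s a', [star a']⟩]
      [a, (out b (star a) s).1, (out b (star a) s).2]
  | sd (b : Bool) (x y z : Λ) (h : z = if b then Palette.r (star x) y else star x) : BM [x, y, z]
      [⟨[x], .cr b y z, []⟩, ⟨[], .death x, [(out b y z).2]⟩]
      [⟨[], .cr (!b) x y, [z]⟩, ⟨[(out (!b) x y).1], .death (out (!b) x y).2, []⟩]
      [(out b y z).2]
  | far (p q : Loc Λ) (M : List Λ) : BM (p.src ++ M ++ q.src)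
      [⟨[], p, M ++ q.src⟩, ⟨p.tgt ++ M, q, []⟩] [⟨p.src ++ M, q, []⟩, ⟨[], p, M ++ q.tgt⟩]
      (p.tgt ++ M ++ q.tgt)

/-- Elementary isotopies: a local move; moving the cut (`conj`); pulling the strand at the cut which
is next to the left (right) puncture of the sphere over the puncture (`left`, `right`). -/
inductive Step : Diag Λ → Diag Λ → Prop
  | loc {A A' : List Λ} {l r : Word Λ} (F P Q : List Λ) (x y : Word Λ) : BM A l r A' →
      Path F x (P ++ A ++ Q) → Path (P ++ A' ++ Q) y F →
      Step (F, x ++ ctx P Q l ++ y) (F, x ++ ctx P Q r ++ y)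
  | conj {F G : List Λ} {u v : Word Λ} : Path F u G → Path G v F → Step (F, u ++ v) (G, v ++ u)
  | left {a : Λ} {F : List Λ} {w : Word Λ} : Path (a :: F) w (a :: F) →
      Step (a :: F, w) (F, ⟨[], .birth (star a), F⟩ :: (ctx [star a] [] w ++
        [⟨[], .death (star a), F⟩]))
  | right {a : Λ} {F : List Λ} {w : Word Λ} : Path (F ++ [a]) w (F ++ [a]) →
      Step (F ++ [a], w) (F, ⟨F, .birth a, []⟩ :: (ctx [] [star a] w ++ [⟨F, .death a, []⟩]))

/-- Isotopy of diagrams with labels. -/
abbrev Iso (D E : Diag Λ) : Prop := Relation.EqvGen Step D E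

/-! ### Changing the labels -/

def Loc.map (f : Λ → Λ') : Loc Λ → Loc Λ'
  | .birth a => .birth (f a)
  | .death a => .death (f a)
  | .cr b x y => .cr b (f x) (f y)

def Slice.map (f : Λ → Λ') (s : Slice Λ) : Slice Λ' := ⟨s.L.map f, s.p.map f, s.R.map f⟩

/-- Changing the labels of a diagram. -/
def relabel (f : Λ → Λ') (D : Diag Λ) : Diag Λ' := (D.1.map f, D.2.map (Slice.map f))

/-- All labels of the diagram satisfy `S`. -/
def AllIn (S : Λ → Prop) (D : Diag Λ) : Prop :=
  (∀ a ∈ D.1, S a) ∧ ∀ s ∈ D.2, (∀ a ∈ s.src, S a) ∧ ∀ a ∈ s.tgt, S a

/-- The number of crossings. -/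
def cross (D : Diag Λ) : ℕ :=
  D.2.countP fun s => match s.p with
    | .cr _ _ _ => true
    | _ => false

/-! ### Special labels -/

/-- Colours: they do not change along a component. -/
structure Col (κ : Type) : Type where
  c : κ

instance (κ : Type) : Palette (Col κ) where
  star x := x
  r x _ := x
  l x _ := x
  star_star _ := rfl
  l_r _ _ := rfl
  r_l _ _ := rfl
  r_star _ _ := rfl
  star_r _ _ := rfl
  r_self _ := rfl
  r_r _ _ _ := rfl

/-- The trivial labels. -/
abbrev Pl : Type := Col Unit

/-- The only trivial label. -/
def pt : Pl := ⟨()⟩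

/-- The diagram without its labels. -/
def plain (D : Diag Λ) : Diag Pl := relabel (fun _ => pt) D

/-- Labels which consist of the direction `d` of a strand (`true` means downwards) and of the image
`m` of its meridian under a homomorphism from the group of the link to the group `G` (the meridian
is the loop from the eye of the reader which passes below the strand from the left to the right if
the strand is seen with its direction downwards). -/
structure Mer (G : Type) : Type where
  m : G
  d : Bool

/-- The image of the loop which passes below the strand from the left to the right. -/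
def Mer.val {G : Type} [Group G] (x : Mer G) : G := if x.d then x.m else x.m⁻¹

instance (G : Type) [Group G] : Palette (Mer G) where
  star x := ⟨x.m, !x.d⟩
  r x y := ⟨y.val⁻¹ * x.m * y.val, x.d⟩
  l x y := ⟨y.val * x.m * y.val⁻¹, x.d⟩
  star_star x := by simp
  l_r x y := by simp [mul_assoc]
  r_l x y := by simp [mul_assoc]
  r_star x y := by cases h : y.d <;> simp [Mer.val, h]
  star_r _ _ := rfl
  r_self x := by
    obtain ⟨m, d⟩ := x
    cases d <;> simp [Mer.val]
  r_r x y z := by
    cases hy : y.d <;> cases hz : z.d <;> simp [Mer.val, hy, hz, mul_assoc]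

/-! ### Links -/

/-- The strands of the diagram fit together and can be directed consistently (the second condition
is redundant). -/
def IsDiagram (D : Diag Pl) : Prop := Closed D ∧ ∃ E : Diag (Mer PUnit), Closed E ∧ plain E = D

/-- Links: diagrams up to isotopy. -/
def Link : Type := Quot fun D E : {D : Diag Pl // IsDiagram D} => Step D.1 E.1

/-- The link with the diagram `D`. -/
def mk (D : Diag Pl) (h : IsDiagram D) : Link := Quot.mk _ ⟨D, h⟩

/-- A diagram of a knot: it is not empty, and there are only constant colourings by two colours. -/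
def IsKnot (D : Diag Pl) : Prop := D ≠ ([], []) ∧ ∀ E : Diag (Col Bool), Closed E → plain E = D →
  ∃ b, AllIn (fun a => a = ⟨b⟩) E

/-- A diagram of a knot whose group is infinite cyclic: in every homomorphism from its group to any
other group all meridians have the same image. By Dehn's lemma (Papakyriakopoulos 1957), the trivial
knot is the only knot with this property. -/
def IsTrivialKnot (D : Diag Pl) : Prop := IsKnot D ∧
  ∀ (G : Type) [Group G] (E : Diag (Mer G)), Closed E → plain E = D →
    ∃ g, AllIn (fun a => a.m = g) E

/-- The link has a diagram whose strands can be coloured by two colours (both of them are used),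
without crossings of strands with different colours: a disconnected diagram. -/
def IsSplit (D : Diag Pl) : Prop := ∃ E : Diag (Col Bool), Closed E ∧ Iso (plain E) D ∧
  (∀ s ∈ E.2, ∀ b x y, s.p = .cr b x y → x = y) ∧ ¬ ∃ b, AllIn (fun a => a = ⟨b⟩) E

/-- `D` is a diagram of a prime link: not empty, non-split, not a trivial knot, and in every
representation as a connected sum one of the summands is a trivial knot. (The connected sum of the
links with the diagrams `([pt], A)` and `([pt], B)`, which have one strand at the cut, has the
diagram `([pt], A ++ B)`.) -/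
def IsPrimeDiag (D : Diag Pl) : Prop := D ≠ ([], []) ∧ ¬ IsSplit D ∧ ¬ IsTrivialKnot D ∧
  ∀ A B : Word Pl, Path [pt] A [pt] → Path [pt] B [pt] → Iso D ([pt], A ++ B) →
    IsTrivialKnot ([pt], A) ∨ IsTrivialKnot ([pt], B)

/-- Prime links. -/
def IsPrime (L : Link) : Prop := ∃ D h, mk D h = L ∧ IsPrimeDiag D

/-- The crossing number of a link. -/
noncomputable def crossingNumber (L : Link) : ℕ := sInf {n | ∃ D h, mk D h = L ∧ cross D = n}

/-- The number of prime links with crossing number `n`. -/
noncomputable def l (n : ℕ) : ℕ∞ := Set.encard {L : Link | IsPrime L ∧ crossingNumber L = n}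

end Pool.Agent.H838R2.PL
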