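import Pool.Agent.H838R2.PL.Stubs

/-! A3b: erasing strands. -/

set_option autoImplicit false
set_option linter.unusedSimpArgs false
set_option linter.unusedSectionVars false

namespace Pool.Agent.H838R2.PL

open Relation

section

variable {Λ : Type} [Palette Λ] {K : Λ → Bool}

theorem Keep.l (hK : Keep K) (x y : Λ) : K (Palette.l x y) = K x := by
  rw [← Palette.r_star, hK.r]

theorem Keep.actl (hK : Keep K) (x y : Λ) (hx : K x = true) (hy : K y = false) :
    Palette.l x y = x := by
  have h := hK.act x y hx hy
  have h2 := Palette.l_r x y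
  rwa [h] at h2

theorem delS_path (hK : Keep K) (s : Slice Λ) :
    Path (s.src.filter K) (delS K s) (s.tgt.filter K) := by
  obtain ⟨L, p, R⟩ := s
  cases p with
  | birth a =>
    cases ha : K a <;>
      simp [delS, keepLoc, ha, Path, Slice.src, Slice.tgt, Loc.src, Loc.tgt, List.filter_append,
        hK.star, List.filter_cons]
  | death a =>
    cases ha : K a <;>
      simp [delS, keepLoc, ha, Path, Slice.src, Slice.tgt, Loc.src, Loc.tgt, List.filter_append,
        hK.star, List.filter_cons]
  | cr b x y =>
    cases hx : K x <;> cases hy : K y <;> cases b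
    · simp [delS, keepLoc, hx, hy, Path, Slice.src, Slice.tgt, Loc.src, Loc.tgt, out,
        List.filter_append, hK.r, hK.l, List.filter_cons]
    · simp [delS, keepLoc, hx, hy, Path, Slice.src, Slice.tgt, Loc.src, Loc.tgt, out,
        List.filter_append, hK.r, hK.l, List.filter_cons]
    · simp [delS, keepLoc, hx, hy, Path, Slice.src, Slice.tgt, Loc.src, Loc.tgt, out,
        List.filter_append, hK.r, hK.l, List.filter_cons]
    · simp [delS, keepLoc, hx, hy, Path, Slice.src, Slice.tgt, Loc.src, Loc.tgt, out,
        List.filter_append, hK.r, hK.l, List.filter_cons, hK.actl y x hy hx]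
    · simp [delS, keepLoc, hx, hy, Path, Slice.src, Slice.tgt, Loc.src, Loc.tgt, out,
        List.filter_append, hK.r, hK.l, List.filter_cons, hK.act x y hx hy]
    · simp [delS, keepLoc, hx, hy, Path, Slice.src, Slice.tgt, Loc.src, Loc.tgt, out,
        List.filter_append, hK.r, hK.l, List.filter_cons]
    · simp [delS, keepLoc, hx, hy, Path, Slice.src, Slice.tgt, Loc.src, Loc.tgt, out,
        List.filter_append, hK.r, hK.l, List.filter_cons]
    · simp [delS, keepLoc, hx, hy, Path, Slice.src, Slice.tgt, Loc.src, Loc.tgt, out,
        List.filter_append, hK.r, hK.l, List.filter_cons]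

theorem delW_nil : delW K ([] : Word Λ) = [] := rfl

theorem delW_cons (s : Slice Λ) (w : Word Λ) : delW K (s :: w) = delS K s ++ delW K w := by
  simp [delW]

theorem delW_append (u v : Word Λ) : delW K (u ++ v) = delW K u ++ delW K v := by
  simp [delW]

theorem delW_ctx (P Q : List Λ) (w : Word Λ) :
    delW K (ctx P Q w) = ctx (P.filter K) (Q.filter K) (delW K w) := by
  induction w with
  | nil => rfl
  | cons s w ih =>
    rw [ctx_cons, delW_cons, delW_cons, ih, ctx_append]
    congr 1
    unfold delS
    split_ifs
    · simp
    · rfl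

theorem delW_path (hK : Keep K) (w : Word Λ) : ∀ (F G : List Λ), Path F w G →
    Path (F.filter K) (delW K w) (G.filter K) := by
  induction w with
  | nil => intro F G h; cases h; rfl
  | cons s w ih =>
    intro F G h
    obtain ⟨h1, h2⟩ := h
    subst h1
    rw [delW_cons]
    exact (delS_path hK s).append (ih _ _ h2)

theorem del_step (hBM : StDelBM) (hK : Keep K) (D E : Diag Λ) (h : Step D E) :
    Iso (del K D) (del K E) := by
  cases h with
  | @loc A A' l r F P Q x y hb hx hy =>
    have h1 := delW_path hK _ _ _ hx
    have h2 := delW_path hK _ _ _ hy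
    simp only [del, delW_append, delW_ctx]
    rcases hBM Λ K hK A A' l r hb with h | ⟨P0, Q0, A0, B0, l0, r0, e1, e2, e3, e4, hb'⟩
    · rw [h]
      exact EqvGen.refl _
    · rw [e3, e4, ctx_ctx, ctx_ctx]
      apply EqvGen.rel
      apply Step.loc _ _ _ _ _ hb'
      · simpa [e1, List.filter_append] using h1
      · simpa [e2, List.filter_append] using h2
  | @conj F G u v hu hv =>
    simp only [del, delW_append]
    exact EqvGen.rel _ _ (Step.conj (delW_path hK _ _ _ hu) (delW_path hK _ _ _ hv))
  | @left a F w hw =>
    have h1 := delW_path hK _ _ _ hw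
    cases ha : K a
    · have e : del K (a :: F, w) = del K (F, ⟨[], .birth (star a), F⟩ :: (ctx [star a] [] w ++
          [⟨[], .death (star a), F⟩])) := by
        simp [del, delW_cons, delW_append, delW_ctx, delS, keepLoc, ha, hK.star, delW_nil]
      rw [e]
      exact EqvGen.refl _
    · have e1 : del K (a :: F, w) = (a :: F.filter K, delW K w) := by
        simp [del, ha]
      have e2 : del K (F, ⟨[], .birth (star a), F⟩ :: (ctx [star a] [] w ++
          [⟨[], .death (star a), F⟩])) = (F.filter K, ⟨[], .birth (star a), F.filter K⟩ ::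
            (ctx [star a] [] (delW K w) ++ [⟨[], .death (star a), F.filter K⟩])) := by
        simp [del, delW_cons, delW_append, delW_ctx, delS, keepLoc, ha, hK.star, delW_nil]
      rw [e1, e2]
      refine EqvGen.rel _ _ (Step.left ?_)
      simpa [ha] using h1
  | @right a F w hw =>
    have h1 := delW_path hK _ _ _ hw
    cases ha : K a
    · have e : del K (F ++ [a], w) = del K (F, ⟨F, .birth a, []⟩ :: (ctx [] [star a] w ++
          [⟨F, .death a, []⟩])) := by
        simp [del, delW_cons, delW_append, delW_ctx, delS, keepLoc, ha, hK.star, delW_nil,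
          List.filter_append]
      rw [e]
      exact EqvGen.refl _
    · have e1 : del K (F ++ [a], w) = (F.filter K ++ [a], delW K w) := by
        simp [del, ha, List.filter_append]
      have e2 : del K (F, ⟨F, .birth a, []⟩ :: (ctx [] [star a] w ++
          [⟨F, .death a, []⟩])) = (F.filter K, ⟨F.filter K, .birth a, []⟩ ::
            (ctx [] [star a] (delW K w) ++ [⟨F.filter K, .death a, []⟩])) := by
        simp [del, delW_cons, delW_append, delW_ctx, delS, keepLoc, ha, hK.star, delW_nil]
      rw [e1, e2]
      refine EqvGen.rel _ _ (Step.right ?_)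
      simpa [ha, List.filter_append] using h1

end

/-- (A3b) erasing strands -/
theorem stDel (h3 : StDelBM) : StDel := by
  intro Λ _ K hK
  refine ⟨delW_path hK, ?_⟩
  intro D E h
  induction h with
  | rel _ _ h => exact del_step h3 hK _ _ h
  | refl _ => exact EqvGen.refl _
  | symm _ _ _ ih => exact EqvGen.symm _ _ ih
  | trans _ _ _ _ _ ih1 ih2 => exact EqvGen.trans _ _ _ ih1 ih2

end Pool.Agent.H838R2.PL
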