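import Pool.Agent.H838R2.PL.Stubs

/-!
Task A3a: erasing strands in a local move.
-/

set_option autoImplicit false
set_option linter.unusedSimpArgs false
set_option linter.unusedSectionVars false

namespace Pool.Agent.H838R2.PL
namespace A3a

variable {Λ : Type} [Palette Λ]

theorem K_l {K : Λ → Bool} (hK : Keep K) (x y : Λ) : K (Palette.l x y) = K x := by
  rw [← Palette.r_star, hK.r]

theorem act_l {K : Λ → Bool} (hK : Keep K) (x y : Λ) (hx : K x = true) (hy : K y = false) :
    Palette.l x y = x := by
  rw [← Palette.r_star]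
  exact hK.act x (star y) hx (by rw [hK.star]; exact hy)

theorem K_src (K : Λ → Bool) (hK : Keep K) (p : Loc Λ) (hp : keepLoc K p = true) :
    p.src.filter K = p.src ∧ p.tgt.filter K = p.tgt := by
  cases p with
  | birth a =>
    simp [keepLoc] at hp
    simp [Loc.src, Loc.tgt, hp, hK.star]
  | death a =>
    simp [keepLoc] at hp
    simp [Loc.src, Loc.tgt, hp, hK.star]
  | cr b x y =>
    simp [keepLoc] at hp
    cases b <;> simp [Loc.src, Loc.tgt, out, hp, hK.r, K_l hK]

theorem K_del (K : Λ → Bool) (hK : Keep K) (p : Loc Λ) (hp : keepLoc K p = false) :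
    p.src.filter K = p.tgt.filter K := by
  cases p with
  | birth a =>
    simp [keepLoc] at hp
    simp [Loc.src, Loc.tgt, hp, hK.star]
  | death a =>
    simp [keepLoc] at hp
    simp [Loc.src, Loc.tgt, hp, hK.star]
  | cr b x y =>
    have ha := hK.act
    have hl := act_l hK
    simp only [keepLoc] at hp
    cases hx : K x <;> cases hy : K y <;> cases b <;>
      simp [hx, hy] at hp <;>
      simp [Loc.src, Loc.tgt, out, hx, hy, hK.r, K_l hK, ha, hl]

theorem K_out {K : Λ → Bool} (hK : Keep K) {b : Bool} {x y u v : Λ} (h : out b x y = (u, v))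
    (hx : K x = true) (hy : K y = true) : K u = true ∧ K v = true := by
  have hkl := K_l hK
  cases b <;> simp [out] at h <;> obtain ⟨rfl, rfl⟩ := h <;> simp [hx, hy, hK.r, hkl]

theorem kept (K : Λ → Bool) {A B : List Λ} {l r : Word Λ} (h : BM A l r B)
    (hA : A.filter K = A) (hB : B.filter K = B) (hl : delW K l = l) (hr : delW K r = r) :
    delW K l = delW K r ∨ ∃ (P Q A' B' : List Λ) (l' r' : Word Λ), A.filter K = P ++ A' ++ Q ∧
      B.filter K = P ++ B' ++ Q ∧ delW K l = ctx P Q l' ∧ delW K r = ctx P Q r' ∧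
        BM A' l' r' B' := by
  right
  exact ⟨[], [], A, B, l, r, by simpa using hA, by simpa using hB, by simpa using hl,
    by simpa using hr, h⟩

end A3a

open A3a in
theorem stDelBM : StDelBM := by
  intro Λ _ K hK A B l r h
  have hs := hK.star
  have hr := hK.r
  have hkl := K_l hK
  have ha := hK.act
  have hl := act_l hK
  cases h with
  | zig1 x =>
    cases hx : K x
    · left
      simp [delW, delS, keepLoc, hx, hs]
    · exact kept K (.zig1 x) (by simp [hx]) (by simp [hx]) (by simp [delW, delS, keepLoc, hx, hs])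
        (by simp [delW])
  | zig2 x =>
    cases hx : K x
    · left
      simp [delW, delS, keepLoc, hx, hs]
    · exact kept K (.zig2 x) (by simp [hx]) (by simp [hx]) (by simp [delW, delS, keepLoc, hx, hs])
        (by simp [delW])
  | rb b a =>
    cases hx : K a
    · left
      simp [delW, delS, keepLoc, hx, hs]
    · exact kept K (.rb b a) (by simp) (by simp [hx, hs]) (by simp [delW, delS, keepLoc, hx, hs])
        (by simp [delW, delS, keepLoc, hx, hs])
  | rd b a =>
    cases hx : K a
    · left
      simp [delW, delS, keepLoc, hx, hs]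
    · exact kept K (.rd b a) (by simp [hx, hs]) (by simp) (by simp [delW, delS, keepLoc, hx, hs])
        (by simp [delW, delS, keepLoc, hx, hs])
  | r2 b x y =>
    cases hx : K x <;> cases hy : K y
    · left
      cases b <;> simp [delW, delS, keepLoc, hx, hy, out, hr, hkl]
    · left
      cases b <;> simp [delW, delS, keepLoc, hx, hy, out, hr, hkl]
    · left
      cases b <;> simp [delW, delS, keepLoc, hx, hy, out, hr, hkl]
    · exact kept K (.r2 b x y) (by simp [hx, hy]) (by simp [hx, hy]) (by
        cases b <;> simp [delW, delS, keepLoc, hx, hy, out, hr, hkl]) (by simp [delW])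
  | r3 a b c h x y z u₁ u₂ v₁ v₂ w₁ w₂ p₁ p₂ q₁ hu hv hw hp q₂ hq =>
    by_cases hxyz : K x = true ∧ K y = true ∧ K z = true
    · obtain ⟨hx, hy, hz⟩ := hxyz
      have ku := K_out hK hu hx hy
      have kv := K_out hK hv ku.2 hz
      have kw := K_out hK hw ku.1 kv.1
      have kp := K_out hK hp hy hz
      have kq := K_out hK hq hx kp.1
      refine kept K (.r3 a b c h x y z u₁ u₂ v₁ v₂ w₁ w₂ p₁ p₂ q₁ hu hv hw hp q₂ hq) ?_ ?_ ?_ ?_
      · simp [hx, hy, hz]
      · simp [kw, kv]
      · simp [delW, delS, keepLoc, hx, hy, hz, ku, kv, kw, kp, kq]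
      · simp [delW, delS, keepLoc, hx, hy, hz, ku, kv, kw, kp, kq]
    · left
      cases a <;> cases b <;> cases c <;> simp [out] at h hu hv hw hp hq <;>
        obtain ⟨rfl, rfl⟩ := hu <;> obtain ⟨rfl, rfl⟩ := hv <;> obtain ⟨rfl, rfl⟩ := hw <;>
        obtain ⟨rfl, rfl⟩ := hp <;> obtain ⟨rfl, rfl⟩ := hq <;>
        cases hx : K x <;> cases hy : K y <;> cases hz : K z <;>
        simp [hx, hy, hz] at hxyz <;>
        simp [delW, delS, keepLoc, hx, hy, hz, hr, hkl, ha, hl]
  | sb b a s a' h =>
    cases hx : K a <;> cases hy : K s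
    · left
      cases b <;> simp at h <;> subst h <;> simp [delW, delS, keepLoc, hx, hy, hs, hr, hkl, out]
    · left
      cases b <;> simp at h <;> subst h <;> simp [delW, delS, keepLoc, hx, hy, hs, hr, hkl, out]
    · left
      cases b <;> simp at h <;> subst h <;>
        simp [delW, delS, keepLoc, hx, hy, hs, hr, hkl, out, ha, hl]
    · refine kept K (.sb b a s a' h) ?_ ?_ ?_ ?_
      · simp [hy]
      · cases b <;> simp [out, hx, hy, hs, hr, hkl]
      · simp [delW, delS, keepLoc, hx, hy, hs]
      · cases b <;> simp at h <;> subst h <;> simp [delW, delS, keepLoc, hx, hy, hs, hr, hkl]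
  | sd b x y z h =>
    cases hx : K x <;> cases hy : K y
    · left
      cases b <;> simp at h <;> subst h <;> simp [delW, delS, keepLoc, hx, hy, hs, hr, hkl, out]
    · left
      cases b <;> simp at h <;> subst h <;> simp [delW, delS, keepLoc, hx, hy, hs, hr, hkl, out]
    · left
      cases b <;> simp at h <;> subst h <;>
        simp [delW, delS, keepLoc, hx, hy, hs, hr, hkl, out, ha, hl]
    · have hz : K z = true := by
        cases b <;> simp at h <;> subst h <;> simp [hx, hs, hr]
      refine kept K (.sd b x y z h) ?_ ?_ ?_ ?_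
      · simp [hx, hy, hz]
      · cases b <;> simp [out, hx, hy, hz, hs, hr, hkl]
      · cases b <;> simp [delW, delS, keepLoc, hx, hy, hz, hs, out, hr, hkl]
      · cases b <;> simp [delW, delS, keepLoc, hx, hy, hz, hs, out, hr, hkl]
  | far p q M =>
    cases hp : keepLoc K p <;> cases hq : keepLoc K q
    · left
      simp [delW, delS, hp, hq]
    · left
      simp [delW, delS, hp, hq, K_del K hK p hp]
    · left
      simp [delW, delS, hp, hq, K_del K hK q hq]
    · right
      obtain ⟨p1, p2⟩ := K_src K hK p hp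
      obtain ⟨q1, q2⟩ := K_src K hK q hq
      refine ⟨[], [], _, _, _, _, ?_, ?_, ?_, ?_, BM.far p q (M.filter K)⟩
      · simp [p1, q1]
      · simp [p2, q2]
      · simp [delW, delS, hp, hq, q1, p2]
      · simp [delW, delS, hp, hq, q2, p1]

end Pool.Agent.H838R2.PL
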