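import Pool.Agent.H838R2.PL.Stubs

/-!
# The classes of the circle, if `K` is above or below the circle everywhere
-/

set_option autoImplicit false
set_option linter.unusedSectionVars false
set_option linter.unusedSimpArgs false

namespace Pool.Agent.H838R2.PL

variable {G : Type} [Group G]

namespace ExtAux

theorem cntS_zero_of_cnt {Λ : Type} [Palette Λ] {p q : Λ → Bool} {X : Diag Λ}
    (h : cnt p q X = 0) : ∀ s ∈ X.2, cntS p q s = 0 := by
  intro s hs
  unfold cnt at h
  rw [List.sum_eq_zero_iff] at h
  exact h _ (List.mem_map.2 ⟨s, hs, rfl⟩)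

/-- the circle gets the class `1` everywhere -/
def extC : Hk G Unit → Hk G (Rg G)
  | .k a => .k a
  | .h _ => .h ⟨1⟩

theorem hkForget_extC (x : Hk G Unit) : hkForget (extC x) = x := by
  cases x <;> rfl

/-- the value of a strand -/
def hval : Hk G Unit → G
  | .k a => a.val
  | .h _ => 1

/-- the value of a list of strands -/
def hvalL (F : List (Hk G Unit)) : G := (F.map hval).prod

def ext1 (g : G) : Hk G Unit → Hk G (Rg G)
  | .k a => .k a
  | .h _ => .h ⟨g⟩

def ext (g : G) : List (Hk G Unit) → List (Hk G (Rg G))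
  | [] => []
  | x :: F => ext1 g x :: ext (g * hval x) F

def extLoc (g : G) : Loc (Hk G Unit) → Loc (Hk G (Rg G))
  | .birth a => .birth (ext1 g a)
  | .death a => .death (ext1 g a)
  | .cr b x y => .cr b (ext1 g x) (ext1 (g * hval x) y)

def extSlice (s : Slice (Hk G Unit)) : Slice (Hk G (Rg G)) :=
  ⟨ext 1 s.L, extLoc (hvalL s.L) s.p, ext (hvalL s.L * hvalL s.p.src) s.R⟩

theorem hvalL_append (F F' : List (Hk G Unit)) : hvalL (F ++ F') = hvalL F * hvalL F' := by
  simp [hvalL]

theorem hvalL_cons (x : Hk G Unit) (F : List (Hk G Unit)) : hvalL (x :: F) = hval x * hvalL F := by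
  simp [hvalL]

@[simp] theorem hvalL_nil : hvalL ([] : List (Hk G Unit)) = 1 := rfl

theorem ext_append (g : G) (F F' : List (Hk G Unit)) :
    ext g (F ++ F') = ext g F ++ ext (g * hvalL F) F' := by
  induction F generalizing g with
  | nil => simp [ext]
  | cons x F ih => simp [ext, ih, hvalL_cons, mul_assoc]

theorem val_star (a : Mer G) : (star a).val = (a.val)⁻¹ := by
  rcases a with ⟨m, d⟩
  cases d <;> simp [Mer.val, star]

theorem val_r (a b : Mer G) : (Palette.r a b).val = b.val⁻¹ * a.val * b.val := by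
  have e : Palette.r a b = ⟨b.val⁻¹ * a.m * b.val, a.d⟩ := rfl
  rw [e]
  generalize b.val = g
  rcases a with ⟨m, d⟩
  cases d <;> simp [Mer.val, mul_assoc]

theorem val_l (a b : Mer G) : (Palette.l a b).val = b.val * a.val * b.val⁻¹ := by
  have e : Palette.l a b = ⟨b.val * a.m * b.val⁻¹, a.d⟩ := rfl
  rw [e]
  generalize b.val = g
  rcases a with ⟨m, d⟩
  cases d <;> simp [Mer.val, mul_assoc]

section ops

variable {X : Type} [QAct G X] (a c : Mer G) (u v : X)

theorem r_kk : Palette.r (Hk.k a : Hk G X) (.k c) = .k (Palette.r a c) := rfl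
theorem r_kh : Palette.r (Hk.k a : Hk G X) (.h u) = .k a := rfl
theorem r_hk : Palette.r (Hk.h u : Hk G X) (.k a) = .h (a.act X u) := rfl
theorem r_hh : Palette.r (Hk.h u : Hk G X) (.h v) = .h u := rfl
theorem l_kk : Palette.l (Hk.k a : Hk G X) (.k c) = .k (Palette.l a c) := rfl
theorem l_kh : Palette.l (Hk.k a : Hk G X) (.h u) = .k a := rfl
theorem l_hk : Palette.l (Hk.h u : Hk G X) (.k a) = .h ((a.act X)⁻¹ u) := rfl
theorem l_hh : Palette.l (Hk.h u : Hk G X) (.h v) = .h u := rfl

end ops

theorem hval_star (x : Hk G Unit) : hval (star x) = (hval x)⁻¹ := by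
  cases x with
  | k a => exact val_star a
  | h u => simp [hval, star]

theorem ext1_star (g : G) (x : Hk G Unit) : ext1 (g * hval x) (star x) = star (ext1 g x) := by
  cases x with
  | k a => rfl
  | h u => simp [hval, star, ext1]

theorem act_rg (b : Mer G) (g : G) : b.act (Rg G) ⟨g⟩ = ⟨g * b.val⟩ := by
  rcases b with ⟨m, d⟩
  cases d
  · simp only [Mer.act, Mer.val]
    rfl
  · simp only [Mer.act, Mer.val]
    rfl

theorem act_rg_inv (b : Mer G) (g : G) : (b.act (Rg G))⁻¹ ⟨g * b.val⟩ = ⟨g⟩ := by
  rw [← act_rg]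
  simp

theorem extLoc_src (g : G) (p : Loc (Hk G Unit)) : (extLoc g p).src = ext g p.src := by
  rcases p with a | a | ⟨b, x, y⟩
  · rfl
  · simp [extLoc, Loc.src, ext, ext1_star]
  · rfl

theorem hvalL_loc (p : Loc (Hk G Unit)) : hvalL p.src = hvalL p.tgt := by
  rcases p with a | a | ⟨b, x, y⟩
  · simp [Loc.src, Loc.tgt, hvalL, hval_star]
  · simp [Loc.src, Loc.tgt, hvalL, hval_star]
  · rcases x with a | u <;> rcases y with c | v <;> cases b <;>
      simp [Loc.src, Loc.tgt, hvalL, out, r_kk, r_kh, r_hk, r_hh, l_kk, l_kh, l_hk, l_hh, hval,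
        val_r, val_l, mul_assoc]

theorem extLoc_tgt (g : G) (p : Loc (Hk G Unit))
    (h : ∀ b x y, p = .cr b x y → ¬ (isH (if b then x else y) && isK (if b then y else x)) = true) :
    (extLoc g p).tgt = ext g p.tgt := by
  rcases p with a | a | ⟨b, x, y⟩
  · simp [extLoc, Loc.tgt, ext, ext1_star]
  · rfl
  · have h := h b x y rfl
    rcases x with a | u <;> rcases y with c | v <;> cases b <;>
      simp [isK, isH] at h <;>
      simp [extLoc, Loc.tgt, ext, ext1, out, hval, r_kk, r_hk, r_hh, l_kk, l_hk, l_hh,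
        act_rg, act_rg_inv]

theorem ext_forget (g : G) (F : List (Hk G Unit)) : (ext g F).map hkForget = F := by
  induction F generalizing g with
  | nil => rfl
  | cons x F ih =>
    rw [ext, List.map_cons, ih]
    cases x <;> rfl

theorem extSlice_forget (s : Slice (Hk G Unit)) : Slice.map hkForget (extSlice s) = s := by
  rcases s with ⟨L, p, R⟩
  simp only [Slice.map, extSlice, ext_forget]
  congr 1
  rcases p with a | a | ⟨b, x, y⟩
  · cases a <;> rfl
  · cases a <;> rfl
  · cases x <;> cases y <;> rfl

theorem extSlice_src (s : Slice (Hk G Unit)) : (extSlice s).src = ext 1 s.src := by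
  rcases s with ⟨L, p, R⟩
  simp only [Slice.src, extSlice, ext_append, extLoc_src, hvalL_append, one_mul]

theorem extSlice_tgt (s : Slice (Hk G Unit))
    (h : ∀ b x y, s.p = .cr b x y → ¬ (isH (if b then x else y) && isK (if b then y else x)) = true) :
    (extSlice s).tgt = ext 1 s.tgt := by
  rcases s with ⟨L, p, R⟩
  simp only [Slice.tgt, extSlice, ext_append, hvalL_append, one_mul]
  rw [extLoc_tgt _ _ h, hvalL_loc]

theorem path_ext {w : Word (Hk G Unit)} : ∀ {F F' : List (Hk G Unit)}, Path F w F' →
    (∀ s ∈ w, ∀ b x y, s.p = .cr b x y →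
      ¬ (isH (if b then x else y) && isK (if b then y else x)) = true) →
    Path (ext 1 F) (w.map extSlice) (ext 1 F') := by
  induction w with
  | nil => intro F F' h _; cases h; rfl
  | cons s w ih =>
    intro F F' h hs
    rw [List.map_cons, path_cons, extSlice_src, extSlice_tgt _ (hs s (List.mem_cons_self))]
    refine ⟨by rw [h.1], ih h.2 fun s' hs' => hs s' (List.mem_cons_of_mem _ hs')⟩

end ExtAux

open ExtAux

theorem stExtConst (h : StRelabelOn) : StExtConst := by
  intro G _ X hX h0
  refine ⟨relabel extC X, ?_, ?_⟩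
  · refine h _ _ (extC : Hk G Unit → Hk G (Rg G)) X.2 X.1 X.1 hX ?_
    intro s hs
    have hz := cntS_zero_of_cnt h0 s hs
    unfold cntS at hz
    rcases hp : s.p with a | a | ⟨b, x, y⟩
    · cases a <;> rfl
    · cases a <;> rfl
    · rw [hp] at hz
      rcases x with a | u <;> rcases y with c | v <;> cases b <;>
        simp [isK, isH, out] at hz ⊢ <;> simp [extC, Palette.r, Palette.l]
  · have key : ∀ F : List (Hk G Unit), (F.map extC).map hkForget = F := by
      intro F
      rw [List.map_map]
      conv_rhs => rw [← List.map_id F]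
      apply List.map_congr_left
      intro x _
      exact hkForget_extC x
    rcases X with ⟨F, w⟩
    simp only [relabel, key, Prod.mk.injEq, true_and, List.map_map]
    conv_rhs => rw [← List.map_id w]
    apply List.map_congr_left
    intro s _
    rcases s with ⟨L, p, R⟩
    rcases p with a | a | ⟨b, x, y⟩ <;>
      (simp only [Slice.map, Loc.map, hkForget_extC, Function.comp, id]; rw [key L, key R])

theorem stExtLeft : StExtLeft := by
  intro G _ X hX h0
  refine ⟨(ext 1 X.1, X.2.map extSlice), ?_, ?_⟩
  · refine path_ext hX ?_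
    intro s hs b x y hp
    have hz := cntS_zero_of_cnt h0 s hs
    unfold cntS at hz
    rw [hp] at hz
    simp only at hz
    intro hc
    rw [if_pos hc] at hz
    exact absurd hz one_ne_zero
  · rcases X with ⟨F, w⟩
    simp only [relabel, ext_forget, List.map_map, Prod.mk.injEq, true_and]
    conv_rhs => rw [← List.map_id w]
    apply List.map_congr_left
    intro s _
    exact extSlice_forget s

end Pool.Agent.H838R2.PL
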