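import Pool.Agent.H838R2.PL.Stubs

set_option autoImplicit false

namespace Pool.Agent.H838R2.PL

open Relation

theorem goodKnot_conj {G : Type} [Group G] (x y : Mer G) (h : x.m = y.m) :
    y.val⁻¹ * x.m * y.val = x.m := by
  cases hy : y.d <;> simp [Mer.val, hy, h]

theorem goodKnot_conj' {G : Type} [Group G] (x y : Mer G) (h : x.m = y.m) :
    y.val * x.m * y.val⁻¹ = x.m := by
  cases hy : y.d <;> simp [Mer.val, hy, h]

theorem goodKnot_conj'' {G : Type} [Group G] (x y : Mer G) (h : y.val * x.m * y.val⁻¹ = y.m) :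
    x.m = y.m := by
  cases hy : y.d
  · simp only [Mer.val, hy, Bool.false_eq_true, if_false, inv_inv] at h
    have h2 : x.m * y.m = y.m * y.m := by
      have := congrArg (fun t => y.m * t) h
      simpa [mul_assoc] using this
    exact mul_right_cancel h2
  · simp only [Mer.val, hy, if_true] at h
    have h2 : y.m * x.m = y.m * y.m := by
      have := congrArg (fun t => t * y.m) h
      simpa [mul_assoc] using this
    exact mul_left_cancel h2

/-- a crossing of strands with different meridians -/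
theorem goodKnot_crossing (h2 : StRelabelOn) {D : Diag Pl} (hK : IsKnot D) {G : Type} [Group G]
    {E : Diag (Mer G)} (hE : Closed E) (hD : plain E = D)
    (hne : ¬ ∃ g, AllIn (fun a => a.m = g) E) :
    ∃ (u v : Word (Mer G)) (L R : List (Mer G)) (b : Bool) (p q : Mer G),
      E.2 = u ++ ⟨L, .cr b p q, R⟩ :: v ∧ p.m ≠ q.m := by
  classical
  by_contra hcon
  have hall : ∀ s ∈ E.2, ∀ b x y, s.p = .cr b x y → x.m = y.m := by
    intro s hs b x y hp
    by_contra hxy
    obtain ⟨u, v, huv⟩ := List.append_of_mem hs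
    obtain ⟨L, p, R⟩ := s
    simp only at hp
    subst hp
    exact hcon ⟨u, v, L, R, b, x, y, huv, hxy⟩
  apply hne
  have key : ∀ g : G, ∃ b : Bool, AllIn (fun a : Mer G => decide (a.m = g) = b) E := by
    intro g
    have hcl : Closed (relabel (fun a : Mer G => (⟨decide (a.m = g)⟩ : Col Bool)) E) := by
      refine h2 _ _ _ _ _ _ hE ?_
      intro s hs
      have hs' := hall s hs
      rcases hp : s.p with a | a | ⟨b, x, y⟩
      · rfl
      · rfl
      · have hxy := hs' b x y hp
        cases b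
        · show ((⟨decide (y.m = g)⟩ : Col Bool), (⟨decide (x.m = g)⟩ : Col Bool)) =
            ((⟨decide (y.m = g)⟩ : Col Bool), (⟨decide (y.val⁻¹ * x.m * y.val = g)⟩ : Col Bool))
          rw [goodKnot_conj x y hxy]
        · show ((⟨decide (y.m = g)⟩ : Col Bool), (⟨decide (x.m = g)⟩ : Col Bool)) =
            ((⟨decide (x.val * y.m * x.val⁻¹ = g)⟩ : Col Bool), (⟨decide (x.m = g)⟩ : Col Bool))
          rw [goodKnot_conj' y x hxy.symm]
    have hpl : plain (relabel (fun a : Mer G => (⟨decide (a.m = g)⟩ : Col Bool)) E) = D := by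
      rw [← hD]
      simp [plain, relabel, Slice.map, Function.comp_def]
      intro s _
      cases s.p <;> rfl
    obtain ⟨b, hb⟩ := hK.2 _ hcl hpl
    refine ⟨b, ?_, ?_⟩
    · intro a ha
      have := hb.1 ⟨decide (a.m = g)⟩ (List.mem_map.2 ⟨a, ha, rfl⟩)
      exact congrArg Col.c this
    · intro s hs
      obtain ⟨h3, h4⟩ := hb.2 (Slice.map _ s) (List.mem_map.2 ⟨s, hs, rfl⟩)
      have e1 : (Slice.map (fun a : Mer G => (⟨decide (a.m = g)⟩ : Col Bool)) s).src =
          s.src.map (fun a : Mer G => (⟨decide (a.m = g)⟩ : Col Bool)) := by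
        obtain ⟨L, p, R⟩ := s
        cases p <;> simp [Slice.src, Slice.map, Loc.map, Loc.src, star]
      have e2 : (Slice.map (fun a : Mer G => (⟨decide (a.m = g)⟩ : Col Bool)) s).tgt =
          s.tgt.map (fun a : Mer G => (⟨decide (a.m = g)⟩ : Col Bool)) := by
        have hs' := hall s hs
        obtain ⟨L, p, R⟩ := s
        cases p with
        | birth a => simp [Slice.tgt, Slice.map, Loc.map, Loc.tgt, star]
        | death a => simp [Slice.tgt, Slice.map, Loc.map, Loc.tgt]
        | cr b x y =>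
          have hxy := hs' b x y rfl
          cases b
          · simp [Slice.tgt, Slice.map, Loc.map, Loc.tgt, out, Palette.r, goodKnot_conj x y hxy]
          · simp [Slice.tgt, Slice.map, Loc.map, Loc.tgt, out, Palette.l,
              goodKnot_conj' y x hxy.symm]
      rw [e1] at h3
      rw [e2] at h4
      exact ⟨fun a ha => congrArg Col.c (h3 _ (List.mem_map.2 ⟨a, ha, rfl⟩)),
        fun a ha => congrArg Col.c (h4 _ (List.mem_map.2 ⟨a, ha, rfl⟩))⟩
  by_cases hemp : AllIn (fun _ : Mer G => False) E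
  · exact ⟨1, fun a ha => (hemp.1 a ha).elim, fun s hs =>
      ⟨fun a ha => ((hemp.2 s hs).1 a ha).elim, fun a ha => ((hemp.2 s hs).2 a ha).elim⟩⟩
  · have hlab : ∃ a0 : Mer G, ∀ S : Mer G → Prop, AllIn S E → S a0 := by
      by_contra hno
      push Not at hno
      apply hemp
      refine ⟨fun a ha => ?_, fun s hs => ⟨fun a ha => ?_, fun a ha => ?_⟩⟩
      · obtain ⟨S, hS, hSa⟩ := hno a
        exact hSa (hS.1 a ha)
      · obtain ⟨S, hS, hSa⟩ := hno a
        exact hSa ((hS.2 s hs).1 a ha)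
      · obtain ⟨S, hS, hSa⟩ := hno a
        exact hSa ((hS.2 s hs).2 a ha)
    obtain ⟨a0, ha0⟩ := hlab
    obtain ⟨b, hb⟩ := key a0.m
    have hb0 : b = true := by
      have := ha0 _ hb
      simpa using this.symm
    subst hb0
    exact ⟨a0.m, fun a ha => of_decide_eq_true (hb.1 a ha), fun s hs =>
      ⟨fun a ha => of_decide_eq_true ((hb.2 s hs).1 a ha),
        fun a ha => of_decide_eq_true ((hb.2 s hs).2 a ha)⟩⟩

theorem stGoodKnot (h1 : StRelabel) (h2 : StRelabelOn) (h3 : StRoot) (h4 : StRotate)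
    (h5 : StInv) (h6 : StHook) (h7 : StPrimeKnot) : StGoodKnot := by
  intro D hdiag hprime hknot
  have hnt : ¬ ∀ (G : Type) [Group G] (E : Diag (Mer G)), Closed E → plain E = D →
      ∃ g, AllIn (fun a => a.m = g) E := fun h => hprime.2.2.1 ⟨hknot, h⟩
  simp only [not_forall] at hnt
  obtain ⟨G, inst, E, hE, hD, hne⟩ := hnt
  obtain ⟨u, v, L, R, b, p, q, hEq, hpq⟩ := goodKnot_crossing h2 hknot hE hD hne
  obtain ⟨F, W⟩ := E
  simp only at hEq
  subst hEq
  -- the rooted diagram
  have hroot : ∃ (x y : Mer G) (Q : List (Mer G)) (w : Word (Mer G)),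
      Path (x :: y :: Q) w (x :: y :: Q) ∧
      Iso (F, u ++ ⟨L, .cr b p q, R⟩ :: v) (x :: y :: Q, w) ∧
      cross (x :: y :: Q, w) = cross (F, u ++ ⟨L, .cr b p q, R⟩ :: v) ∧ x.d ≠ y.d ∧ x.m ≠ y.m := by
    by_cases hd : p.d = q.d
    · obtain ⟨v', hv1, hv2, hv3, hv4⟩ := h4 _ F L R u v b p q _ rfl hE
      set z : Mer G := if b then Palette.l q p else q with hz
      have hzd : z.d = q.d := by
        cases b <;> simp [hz, Palette.l]
      have hzm : z.m ≠ p.m := by
        cases b
        · simpa [hz] using fun h => hpq h.symm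
        · have : z.m = p.val * q.m * p.val⁻¹ := by simp [hz, Palette.l]
          rw [this]
          intro h
          exact hpq (goodKnot_conj'' q p h).symm
      obtain ⟨w, hw1, hw2, hw3⟩ := h3 _ F (L ++ [z]) (q :: R) (u ++ [⟨L, .birth z, p :: q :: R⟩]) v'
        (star z) p (by simpa using hv1) (by simpa using hv2)
      refine ⟨star z, p, q :: R, w, hw1, hv3.trans _ _ _ hw2, hw3.trans hv4, ?_, ?_⟩
      · show (!z.d) ≠ p.d
        rw [hzd, hd]
        cases q.d <;> simp
      · exact hzm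
    · obtain ⟨G', hG1, hG2⟩ := path_append.1 hE
      have hsrc : L ++ p :: q :: R = G' := by
        have := hG2.1
        simpa [Slice.src, Loc.src] using this
      subst hsrc
      obtain ⟨w, hw1, hw2, hw3⟩ := h3 _ F L R u (⟨L, .cr b p q, R⟩ :: v) p q hG1 hG2
      exact ⟨p, q, R, w, hw1, hw2, hw3, hd, hpq⟩
  obtain ⟨x, y, Q, w, hcl, hiso, hcr, hxd, hxm⟩ := hroot
  have hrel := h1 (Mer G) Pl (fun _ => pt) (hom_pl _)
  have hiso' : Iso D (plain (x :: y :: Q, w)) := by
    rw [← hD]
    exact hrel.2.1 _ _ hiso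
  have hDcl : Closed D := hdiag.1
  obtain ⟨i1, i2, i3, i4, i5, i6⟩ := h5 _ _ hiso'
  refine ⟨plain (x :: y :: Q, w), ⟨i1.1 hdiag, ⟨_, rfl⟩, fun h => hprime.2.1 (i5.2 h), ?_, ?_⟩,
    hiso', ?_⟩
  · exact h7 G (x :: y :: Q, w) x y Q hcl rfl hxd hxm ((i6 hDcl).1 hprime) ((i3 hDcl).1 hknot)
  · exact h6 G (x :: y :: Q, w) x y Q hcl rfl hxd hxm
  · rw [← hD]
    exact ((hrel.2.2 _).trans hcr).trans (hrel.2.2 _).symm

end Pool.Agent.H838R2.PL
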