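import Pool.Agent.H838R2.PL.Stubs

/-!
# Part C1: prime links with at least two components are good (after rooting)
-/

set_option autoImplicit false
set_option linter.unusedSectionVars false
set_option linter.unusedSimpArgs false
set_option linter.unusedVariables false

namespace Pool.Agent.H838R2.PL

open Relation

namespace GLk

section general

variable {Λ Λ' Λ'' : Type}

theorem loc_map_map (g : Λ' → Λ'') (f : Λ → Λ') (p : Loc Λ) :
    (p.map f).map g = p.map (g ∘ f) := by cases p <;> rfl

theorem slice_map_map (g : Λ' → Λ'') (f : Λ → Λ') (s : Slice Λ) :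
    (s.map f).map g = s.map (g ∘ f) := by
  cases s
  simp [Slice.map, loc_map_map]

theorem relabelW_relabelW (g : Λ' → Λ'') (f : Λ → Λ') (w : Word Λ) :
    relabelW g (relabelW f w) = relabelW (g ∘ f) w := by
  simp [relabelW, Function.comp_def, slice_map_map]

theorem relabel_relabel (g : Λ' → Λ'') (f : Λ → Λ') (D : Diag Λ) :
    relabel g (relabel f D) = relabel (g ∘ f) D := by
  simp [relabel_eq, relabelW_relabelW]

theorem relabelW_append (f : Λ → Λ') (u v : Word Λ) :
    relabelW f (u ++ v) = relabelW f u ++ relabelW f v := by simp [relabelW]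

theorem slice_src_map [Palette Λ] [Palette Λ'] {f : Λ → Λ'} (hf : Hom f) (s : Slice Λ) :
    (s.map f).src = s.src.map f := by
  obtain ⟨L, p, R⟩ := s
  cases p <;> simp [Slice.map, Slice.src, Loc.map, Loc.src, hf.star]

theorem slice_tgt_map [Palette Λ] [Palette Λ'] {f : Λ → Λ'} (hf : Hom f) (s : Slice Λ) :
    (s.map f).tgt = s.tgt.map f := by
  obtain ⟨L, p, R⟩ := s
  cases p <;> simp [Slice.map, Slice.tgt, Loc.map, Loc.tgt, hf.star, hf.out]

end general

section col

variable {κ : Type}

theorem star_col (x : Col κ) : star x = x := rfl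

theorem out_col (b : Bool) (x y : Col κ) : out b x y = (y, x) := by cases b <;> rfl

theorem lens_closed (m a d : Col κ) (G : List (Col κ)) (w : Word (Col κ))
    (h : Path (a :: d :: G) w (a :: d :: G)) : Closed (lens m (a :: d :: G, w)) := by
  simp [Closed, lens, hook, Slice.src, Slice.tgt, Loc.src, Loc.tgt, out_col, star_col, h]

theorem relabel_lens {κ' : Type} (f : Col κ → Col κ') (m a d : Col κ) (G : List (Col κ))
    (w : Word (Col κ)) :
    relabel f (lens m (a :: d :: G, w)) = lens (f m) (relabel f (a :: d :: G, w)) := by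
  simp [relabel, lens, hook, Slice.map, Loc.map, star_col]

end col

/-- three colours -/
abbrev L3 : Type := Col (Option Bool)

def em (x : Col Bool) : L3 := ⟨some x.c⟩
def nn (x : L3) : Col Bool := ⟨x.c.isNone⟩
def kp (x : L3) : Bool := x.c.isSome
def pN (x : L3) : Bool := x.c.isNone
def pS (β : Bool) (x : L3) : Bool := x.c == some β

theorem nn_em : nn ∘ em = fun _ => (⟨false⟩ : Col Bool) := by
  funext x; simp [nn, em]

/-- the diagram with the circle, three colours -/
def E3 (E : Diag (Col Bool)) : Diag L3 := lens ⟨none⟩ (relabel em E)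

theorem nn_E3 (a d : Col Bool) (G : List (Col Bool)) (w : Word (Col Bool)) :
    relabel nn (E3 (a :: d :: G, w)) = lens2 (plain (a :: d :: G, w)) := by
  have h1 : relabel em (a :: d :: G, w) = (em a :: em d :: G.map em, relabelW em w) := rfl
  unfold E3 lens2 plain
  rw [h1, relabel_lens, ← h1, relabel_relabel, relabel_relabel, nn_em]
  rfl

theorem E3_closed (a d : Col Bool) (G : List (Col Bool)) (w : Word (Col Bool))
    (h : Path (em a :: em d :: G.map em) (relabelW em w) (em a :: em d :: G.map em)) :
    Closed (E3 (a :: d :: G, w)) := lens_closed _ _ _ _ _ h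

theorem cnt_zero_left {Λ : Type} [Palette Λ] (p q : L3 → Bool) (h : ∀ x : Col Bool, p (em x) = false)
    (w : Word (Col Bool)) : ((relabelW em w).map (cntS p q)).sum = 0 := by
  induction w with
  | nil => rfl
  | cons s w ih =>
    simp only [relabelW, List.map_cons, List.sum_cons] at ih ⊢
    rw [ih]
    obtain ⟨L, t, R⟩ := s
    cases t with
    | birth a => rfl
    | death a => rfl
    | cr b x y => cases b <;> simp [cntS, Slice.map, Loc.map, h]

theorem cnt_zero_right {Λ : Type} [Palette Λ] (p q : L3 → Bool) (h : ∀ x : Col Bool, q (em x) = false)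
    (w : Word (Col Bool)) : ((relabelW em w).map (cntS p q)).sum = 0 := by
  induction w with
  | nil => rfl
  | cons s w ih =>
    simp only [relabelW, List.map_cons, List.sum_cons] at ih ⊢
    rw [ih]
    obtain ⟨L, t, R⟩ := s
    cases t with
    | birth a => rfl
    | death a => rfl
    | cr b x y => cases b <;> simp [cntS, Slice.map, Loc.map, h]

theorem cnt_E3_NS (β : Bool) (a d : Col Bool) (hne : a ≠ d) (G : List (Col Bool))
    (w : Word (Col Bool)) : cnt pN (pS β) (E3 (a :: d :: G, w)) = 1 := by
  have hw := cnt_zero_left (Λ := L3) pN (pS β) (fun x => rfl) w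
  obtain ⟨a⟩ := a
  obtain ⟨d⟩ := d
  have h1 : relabel em (⟨a⟩ :: ⟨d⟩ :: G, w) = (em ⟨a⟩ :: em ⟨d⟩ :: G.map em, relabelW em w) := rfl
  unfold E3
  rw [h1]
  simp only [cnt, lens, hook, List.cons_append, List.nil_append, List.map_cons, List.sum_cons, hw]
  cases a <;> cases d <;> cases β <;> simp [cntS, pN, pS, em, star_col] at hne ⊢

theorem cnt_E3_SN (β : Bool) (a d : Col Bool) (hne : a ≠ d) (G : List (Col Bool))
    (w : Word (Col Bool)) : cnt (pS β) pN (E3 (a :: d :: G, w)) = 1 := by
  have hw := cnt_zero_right (Λ := L3) (pS β) pN (fun x => rfl) w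
  obtain ⟨a⟩ := a
  obtain ⟨d⟩ := d
  have h1 : relabel em (⟨a⟩ :: ⟨d⟩ :: G, w) = (em ⟨a⟩ :: em ⟨d⟩ :: G.map em, relabelW em w) := rfl
  unfold E3
  rw [h1]
  simp only [cnt, lens, hook, List.cons_append, List.nil_append, List.map_cons, List.sum_cons, hw]
  cases a <;> cases d <;> cases β <;> simp [cntS, pN, pS, em, star_col] at hne ⊢

theorem cnt_nn_left (X : Diag L3) : cnt (fun x : Col Bool => x.c) (fun x => !x.c) (relabel nn X) =
    cnt pN (pS true) X + cnt pN (pS false) X := by
  obtain ⟨F, w⟩ := X
  simp only [cnt, relabel]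
  induction w with
  | nil => rfl
  | cons s w ih =>
    simp only [List.map_cons, List.sum_cons]
    rw [ih]
    have : cntS (fun x : Col Bool => x.c) (fun x => !x.c) (s.map nn) =
        cntS pN (pS true) s + cntS pN (pS false) s := by
      obtain ⟨L, t, R⟩ := s
      cases t with
      | birth a => rfl
      | death a => rfl
      | cr b x y =>
        obtain ⟨x⟩ := x
        obtain ⟨y⟩ := y
        rcases x with _ | _ | _ <;> rcases y with _ | _ | _ <;> cases b <;>
          simp [cntS, Slice.map, Loc.map, nn, pN, pS]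
    omega

theorem cnt_nn_right (X : Diag L3) : cnt (fun x : Col Bool => !x.c) (fun x => x.c) (relabel nn X) =
    cnt (pS true) pN X + cnt (pS false) pN X := by
  obtain ⟨F, w⟩ := X
  simp only [cnt, relabel]
  induction w with
  | nil => rfl
  | cons s w ih =>
    simp only [List.map_cons, List.sum_cons]
    rw [ih]
    have : cntS (fun x : Col Bool => !x.c) (fun x => x.c) (s.map nn) =
        cntS (pS true) pN s + cntS (pS false) pN s := by
      obtain ⟨L, t, R⟩ := s
      cases t with
      | birth a => rfl
      | death a => rfl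
      | cr b x y =>
        obtain ⟨x⟩ := x
        obtain ⟨y⟩ := y
        rcases x with _ | _ | _ <;> rcases y with _ | _ | _ <;> cases b <;>
          simp [cntS, Slice.map, Loc.map, nn, pN, pS]
    omega

theorem inv_col {κ : Type} (p : Col κ → Bool) : Inv p := ⟨fun _ => rfl, fun _ _ => rfl⟩

/-- erasing the circle -/
theorem filter_em (F : List (Col Bool)) : (F.map em).filter kp = F.map em := by
  induction F with
  | nil => rfl
  | cons x F ih => simp only [List.map_cons]; rw [List.filter_cons_of_pos (by rfl), ih]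

theorem delW_em (w : Word (Col Bool)) : delW kp (relabelW em w) = relabelW em w := by
  induction w with
  | nil => rfl
  | cons s w ih =>
    have h1 : relabelW em (s :: w) = s.map em :: relabelW em w := rfl
    have h2 : delW kp (s.map em :: relabelW em w) = delS kp (s.map em) ++ delW kp (relabelW em w) :=
      rfl
    rw [h1, h2, ih]
    have h3 : delS kp (s.map em) = [s.map em] := by
      obtain ⟨L, t, R⟩ := s
      cases t <;> simp [delS, Slice.map, Loc.map, keepLoc, filter_em] <;> simp [em, kp]
    rw [h3]; rfl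

theorem del_E3 (a d : Col Bool) (G : List (Col Bool)) (w : Word (Col Bool)) :
    del kp (E3 (a :: d :: G, w)) = relabel em (a :: d :: G, w) := by
  have h1 : relabel em (a :: d :: G, w) = (em a :: em d :: G.map em, relabelW em w) := rfl
  have h2 := filter_em (a :: d :: G)
  have h3 := delW_em w
  simp only [List.map_cons] at h2
  unfold E3
  rw [h1]
  unfold del lens hook
  simp only [h2, delW, List.flatMap_cons, List.flatMap_append, List.flatMap_nil] at h3 ⊢
  rw [h3]
  simp [delS, keepLoc, kp, star_col]

/-- all labels in `A3` which are kept occur in `delW kp A3` or in the front -/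
theorem allin_del (hDel : StDel) (S : L3 → Prop) : ∀ (w : Word L3) (F G : List L3), Path F w G →
    (∀ a ∈ F, kp a = true → S a) → AllInW S (delW kp w) →
    ∀ s ∈ w, (∀ a ∈ s.src, kp a = true → S a) ∧ ∀ a ∈ s.tgt, kp a = true → S a := by
  intro w
  induction w with
  | nil => intro F G _ _ _ s hs; simp at hs
  | cons t w ih =>
    intro F G hp hF hS s hs
    obtain ⟨h1, h2⟩ := hp
    have h3 : delW kp (t :: w) = delS kp t ++ delW kp w := rfl
    have hpt : Path t.src [t] t.tgt := ⟨rfl, rfl⟩
    have hd := (hDel L3 kp (keep_col kp)).1 [t] _ _ hpt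
    have h4 : delW kp [t] = delS kp t := by simp [delW]
    rw [h4] at hd
    have htgt : ∀ a ∈ t.tgt, kp a = true → S a := by
      intro a ha hk
      have ha' : a ∈ t.tgt.filter kp := List.mem_filter.2 ⟨ha, hk⟩
      unfold delS at hd h3
      split_ifs at hd h3 with hkeep
      · have e : (⟨t.L.filter kp, t.p, t.R.filter kp⟩ : Slice L3).tgt = t.tgt.filter kp := hd.2
        rw [← e] at ha'
        have := hS ⟨t.L.filter kp, t.p, t.R.filter kp⟩ (by rw [h3]; simp)
        exact this.2 a ha'
      · have e : t.src.filter kp = t.tgt.filter kp := hd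
        rw [← e, h1] at ha'
        exact hF a (List.mem_filter.1 ha').1 hk
    have hS' : AllInW S (delW kp w) := by
      intro s hs
      exact hS s (by rw [h3]; exact List.mem_append_right _ hs)
    rcases List.mem_cons.1 hs with rfl | hs
    · refine ⟨?_, htgt⟩
      intro a ha hk
      rw [h1] at ha
      exact hF a ha hk
    · exact ih _ _ h2 htgt hS' s hs

/-- words without circle -/
theorem delW_nocol (w : Word L3)
    (h : ∀ s ∈ w, (∀ a ∈ s.src, kp a = true) ∧ ∀ a ∈ s.tgt, kp a = true) : delW kp w = w := by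
  induction w with
  | nil => rfl
  | cons s w ih =>
    have h1 : delW kp (s :: w) = delS kp s ++ delW kp w := rfl
    rw [h1, ih (fun t ht => h t (List.mem_cons_of_mem _ ht))]
    have h0 := h s List.mem_cons_self
    have h3 : delS kp s = [s] := by
      obtain ⟨L, t, R⟩ := s
      have hL : L.filter kp = L := List.filter_eq_self.2 fun a ha =>
        h0.1 a (by simp [Slice.src, ha])
      have hR : R.filter kp = R := List.filter_eq_self.2 fun a ha =>
        h0.1 a (by simp [Slice.src, ha])
      have hk : keepLoc kp t = true := by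
        cases t with
        | birth a => exact h0.2 a (by simp [Slice.tgt, Loc.tgt])
        | death a => exact h0.1 a (by simp [Slice.src, Loc.src])
        | cr b x y =>
          have hx := h0.1 x (by simp [Slice.src, Loc.src])
          have hy := h0.1 y (by simp [Slice.src, Loc.src])
          simp [keepLoc, hx, hy]
      simp [delS, hk, hL, hR]
    rw [h3]; rfl

theorem hom_em : Hom em := hom_col em
theorem hom_nn : Hom nn := hom_col nn

theorem cross_eq_plain (hRel : StRelabel) {κ : Type} (D : Diag (Col κ)) : cross (plain D) = cross D :=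
  (hRel (Col κ) Pl (fun _ => pt) (hom_pl _)).2.2 D

end GLk

open GLk

theorem stGoodLink (hRel : StRelabel) (hLift : StLift) (hDel : StDel) (hPar : StParity)
    (hFC : StFrontCol) (hRoot : StRoot) (hInv : StInv) (hCross : StCross) : StGoodLink := by
  intro D hD hprime hknot
  obtain ⟨hne, hns, hnt, hpr⟩ := hprime
  -- a nonconstant colouring
  have h1 : ∃ E : Diag (Col Bool), Closed E ∧ plain E = D ∧ ¬ ∃ b, AllIn (fun a => a = ⟨b⟩) E := by
    by_contra hcon
    push Not at hcon
    exact hknot ⟨hne, fun E hE hpE => by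
      obtain ⟨b, hb⟩ := hcon E hE hpE
      exact ⟨b, hb⟩⟩
  obtain ⟨E, hE, hpE, hnc⟩ := h1
  -- a crossing with two colours
  have h2 : ∃ s ∈ E.2, ∃ b x y, s.p = .cr b x y ∧ x ≠ y := by
    by_contra hcon
    push Not at hcon
    exact hns ⟨E, hE, by rw [hpE]; exact EqvGen.refl _, fun s hs b x y h => hcon s hs b x y h, hnc⟩
  obtain ⟨s, hs, b, x, y, hsp, hxy⟩ := h2
  obtain ⟨F, w0⟩ := E
  obtain ⟨u, v, rfl⟩ := List.append_of_mem hs
  obtain ⟨L, p, Q⟩ := s
  simp only at hsp
  subst hsp
  obtain ⟨F1, hu, hv⟩ := path_append.1 hE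
  have hF1 : F1 = L ++ x :: y :: Q := by
    have := hv.1
    simp only [Slice.src, Loc.src] at this
    rw [← this]; simp
  subst hF1
  obtain ⟨w, hw, hiso, hcr⟩ := hRoot (Col Bool) F L Q u _ x y hu hv
  -- the rooted diagram
  have hisoD : Iso D (plain (x :: y :: Q, w)) := by
    have := (hRel (Col Bool) Pl (fun _ => pt) (hom_pl _)).2.1 _ _ hiso
    rw [← hpE]; exact this
  have hcD : cross (plain (x :: y :: Q, w)) = cross D := by
    rw [cross_eq_plain hRel, hcr, ← hpE, cross_eq_plain hRel]
  have hinv := hInv _ _ hisoD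
  have hcl3 : Path (em x :: em y :: Q.map em) (relabelW em w) (em x :: em y :: Q.map em) := by
    have := (hRel (Col Bool) L3 em hom_em).1 w _ _ hw
    simpa using this
  have hE3 : Closed (E3 (x :: y :: Q, w)) := E3_closed _ _ _ _ hcl3
  have hnn := nn_E3 x y Q w
  refine ⟨plain (x :: y :: Q, w), ⟨hinv.1.1 hD, ⟨Q.map fun _ => pt, rfl⟩, ?_, ?_, ?_⟩, hisoD, hcD⟩
  · exact fun h => hns (hinv.2.2.2.2.1.2 h)
  · -- prime
    intro A B hA hB hAB hB1
    rw [← hnn] at hAB
    obtain ⟨X, hX, hXE, hXiso⟩ := hLift L3 (Col Bool) nn hom_nn _ _ hE3 hAB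
    obtain ⟨F', w'⟩ := X
    have hF' : F'.map nn = [⟨false⟩] := congrArg Prod.fst hXE
    have hw' : relabelW nn w' = A ++ B := congrArg Prod.snd hXE
    obtain ⟨A3, B3, rfl, hA3, hB3⟩ := List.map_eq_append_iff.1 hw'
    change relabelW nn A3 = A at hA3
    change relabelW nn B3 = B at hB3
    obtain ⟨F1, hp1, hp2⟩ := path_append.1 hX
    simp only at hp1 hp2
    have hrel := (hRel L3 (Col Bool) nn hom_nn).1
    have hF1 : F1.map nn = [⟨false⟩] := by
      have := hrel _ _ _ hp1
      rw [hA3, hF'] at this
      exact this.tgt_unique hA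
    obtain ⟨c, rfl, hc⟩ : ∃ c, F' = [c] ∧ nn c = ⟨false⟩ := by
      rcases F' with _ | ⟨c, _ | ⟨c', t⟩⟩ <;> simp at hF'
      exact ⟨c, rfl, hF'⟩
    obtain ⟨c1, rfl, hc1⟩ : ∃ c, F1 = [c] ∧ nn c = ⟨false⟩ := by
      rcases F1 with _ | ⟨c, _ | ⟨c', t⟩⟩ <;> simp at hF1
      exact ⟨c, rfl, hF1⟩
    have hcc : c = c1 := hFC (Option Bool) A3 c c1 hp1
    subst hcc
    obtain ⟨c⟩ := c
    obtain ⟨c0, rfl⟩ : ∃ c0, c = some c0 := by
      cases c with
      | none => simp [nn] at hc
      | some c0 => exact ⟨c0, rfl⟩
    -- labels of B3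
    have hB3k : ∀ s ∈ B3, (∀ a ∈ s.src, kp a = true) ∧ ∀ a ∈ s.tgt, kp a = true := by
      intro s hs
      have hs' : s.map nn ∈ B := by
        rw [← hB3]; exact List.mem_map_of_mem hs
      have h := hB1 _ hs'
      rw [slice_src_map hom_nn, slice_tgt_map hom_nn] at h
      have key : ∀ (l : List L3), (⟨true⟩ : Col Bool) ∉ l.map nn → ∀ a ∈ l, kp a = true := by
        intro l hl a ha
        by_contra hk
        apply hl
        refine List.mem_map.2 ⟨a, ha, ?_⟩
        obtain ⟨a⟩ := a
        cases a with
        | none => rfl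
        | some a => simp [kp] at hk
      exact ⟨key _ h.1, key _ h.2⟩
    have hdB : delW kp B3 = B3 := delW_nocol B3 hB3k
    have hplB : plainW B3 = plainW B := by
      rw [← hB3]; unfold plainW; rw [relabelW_relabelW]; rfl
    -- erasing the circle
    have hdX : del kp (([⟨some c0⟩], A3 ++ B3) : Diag L3) = ([⟨some c0⟩], delW kp A3 ++ B3) := by
      have : delW kp (A3 ++ B3) = delW kp A3 ++ delW kp B3 := by simp [delW]
      simp [del, this, hdB, kp]
    have hi1 := (hDel L3 kp (keep_col kp)).2 _ _ hXiso
    rw [del_E3, hdX] at hi1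
    have hi2 := (hRel L3 Pl (fun _ => pt) (hom_pl _)).2.1 _ _ hi1
    rw [relabel_relabel] at hi2
    have hi3 : Iso (plain (x :: y :: Q, w)) ([pt], plainW (delW kp A3) ++ plainW B3) := by
      have e : relabel (fun _ : L3 => pt) (([⟨some c0⟩], delW kp A3 ++ B3) : Diag L3) =
          ([pt], plainW (delW kp A3) ++ plainW B3) := by
        simp [relabel_eq, plainW, relabelW_append]
      rw [e] at hi2
      exact hi2
    have hpA3 : Path [(⟨some c0⟩ : L3)] (delW kp A3) [⟨some c0⟩] := by
      exact (hDel L3 kp (keep_col kp)).1 A3 _ _ hp1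
    have hplA : Path [pt] (plainW (delW kp A3)) [pt] := by
      exact (hRel L3 Pl (fun _ => pt) (hom_pl _)).1 _ _ _ hpA3
    have hplB' : Path [pt] (plainW B3) [pt] := by
      exact (hRel L3 Pl (fun _ => pt) (hom_pl _)).1 _ _ _ hp2
    rcases hpr _ _ hplA hplB' (EqvGen.trans _ _ _ hisoD hi3) with htA | htB
    · exfalso
      -- the colouring of the first summand is constant
      let g : L3 → Col Bool := fun x => ⟨x.c.getD false⟩
      have hcolp : Path [g ⟨some c0⟩] (relabelW g (delW kp A3)) [g ⟨some c0⟩] := by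
        have := (hRel L3 (Col Bool) g (hom_col g)).1 _ _ _ hpA3
        simpa using this
      obtain ⟨b', hb'⟩ := htA.1.2 ([g ⟨some c0⟩], relabelW g (delW kp A3)) hcolp (by
        simp only [plain, relabel_eq, plainW, relabelW_relabelW]
        rfl)
      have hb0 : c0 = b' := by
        have := hb'.1 (g ⟨some c0⟩) (by simp)
        simpa [g] using this
      subst hb0
      have hall : AllInW (fun a : L3 => a = ⟨some c0⟩ ∨ a = ⟨none⟩) (delW kp A3) := by
        intro s hs
        have h := hb'.2 (s.map g) (List.mem_map_of_mem hs)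
        rw [slice_src_map (hom_col g), slice_tgt_map (hom_col g)] at h
        have key : ∀ a : L3, g a = ⟨c0⟩ → a = ⟨some c0⟩ ∨ a = ⟨none⟩ := by
          intro a ha
          obtain ⟨a⟩ := a
          cases a with
          | none => right; rfl
          | some a => left; simp [g] at ha; rw [ha]
        exact ⟨fun a ha => key a (h.1 _ (List.mem_map_of_mem ha)),
          fun a ha => key a (h.2 _ (List.mem_map_of_mem ha))⟩
      have hA3 := allin_del hDel (fun a => a = ⟨some c0⟩ ∨ a = ⟨none⟩) A3 _ _ hp1
        (by intro a ha _; left; simpa using ha) hall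
      have hzero := (hCross (Option Bool) ⟨some c0⟩ A3 B3 (pS (!c0)) pN (by
        intro e he s hs
        obtain ⟨e⟩ := e
        have he' : e = some (!c0) := by simpa [pS] using he
        subst he'
        refine ⟨fun h => ?_, fun h => ?_⟩
        · have := (hA3 s hs).1 _ h rfl
          simp at this
        · have := (hA3 s hs).2 _ h rfl
          simp at this) (by
        intro e he s hs
        obtain ⟨e⟩ := e
        have he' : e = none := by simpa [pN] using he
        subst he'
        refine ⟨fun h => ?_, fun h => ?_⟩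
        · have := (hB3k s hs).1 _ h
          simp [kp] at this
        · have := (hB3k s hs).2 _ h
          simp [kp] at this)).2
      have hodd := hPar L3 pN (pS (!c0)) (inv_col _) (inv_col _) (by
        rintro ⟨a⟩; cases a <;> simp [pN, pS]) _ _ hXiso
      rw [cnt_E3_NS _ _ _ hxy, hzero] at hodd
      omega
    · rw [hplB] at htB; exact htB
  · -- hook
    intro E hEiso
    rw [← hnn] at hEiso
    obtain ⟨X, hX, hXE, hXiso⟩ := hLift L3 (Col Bool) nn hom_nn _ _ hE3 hEiso
    rw [← hXE, cnt_nn_left, cnt_nn_right]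
    have hNS : ∀ β, 1 ≤ cnt pN (pS β) X := by
      intro β
      have hodd := hPar L3 pN (pS β) (inv_col _) (inv_col _) (by
        rintro ⟨a⟩; cases a <;> simp [pN, pS]) _ _ hXiso
      rw [cnt_E3_NS _ _ _ hxy] at hodd
      omega
    have hSN : ∀ β, 1 ≤ cnt (pS β) pN X := by
      intro β
      have hodd := hPar L3 (pS β) pN (inv_col _) (inv_col _) (by
        rintro ⟨a⟩; cases a <;> simp [pN, pS]) _ _ hXiso
      rw [cnt_E3_SN _ _ _ hxy] at hodd
      omega
    have := hNS true
    have := hNS false
    have := hSN true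
    have := hSN false
    omega

end Pool.Agent.H838R2.PL
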