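import Pool.Agent.H838R2.PL.Stubs

/-!
# The circle around two strands has at least four crossings with them (C2)
-/

set_option autoImplicit false
set_option linter.unusedSectionVars false
set_option linter.unusedSimpArgs false

namespace Pool.Agent.H838R2.PL

namespace Hook

variable {Λ Λ' Λ'' : Type} [Palette Λ] [Palette Λ'] [Palette Λ'']

theorem cntS_map (p q : Λ' → Bool) (f : Λ → Λ') (s : Slice Λ) :
    cntS p q (Slice.map f s) = cntS (fun x => p (f x)) (fun x => q (f x)) s := by
  obtain ⟨L, c, R⟩ := s
  cases c with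
  | birth a => rfl
  | death a => rfl
  | cr b x y => cases b <;> rfl

theorem cnt_relabel (p q : Λ' → Bool) (f : Λ → Λ') (D : Diag Λ) :
    cnt p q (relabel f D) = cnt (fun x => p (f x)) (fun x => q (f x)) D := by
  unfold cnt relabel
  simp only [List.map_map]
  congr 1
  apply List.map_congr_left
  intro s _
  exact cntS_map p q f s

theorem slice_map_map (f : Λ → Λ') (g : Λ' → Λ'') (s : Slice Λ) :
    Slice.map g (Slice.map f s) = Slice.map (fun x => g (f x)) s := by
  obtain ⟨L, c, R⟩ := s
  cases c <;> simp [Slice.map, Loc.map, Function.comp_def]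

theorem relabel_relabel (f : Λ → Λ') (g : Λ' → Λ'') (D : Diag Λ) :
    relabel g (relabel f D) = relabel (fun x => g (f x)) D := by
  unfold relabel
  simp only [List.map_map]
  refine Prod.ext ?_ ?_
  · rfl
  · simp only
    apply List.map_congr_left
    intro s _
    exact slice_map_map f g s

section

variable {G X : Type} [Group G] [QAct G X]

theorem inv_isH : Inv (isH : Hk G X → Bool) := by
  constructor
  · intro x; cases x <;> rfl
  · intro x y; cases x <;> cases y <;> rfl

theorem inv_isK : Inv (isK : Hk G X → Bool) := by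
  constructor
  · intro x; cases x <;> rfl
  · intro x y; cases x <;> cases y <;> rfl

theorem disj (x : Hk G X) : ¬ (isH x = true ∧ isK x = true) := by
  cases x <;> simp [isH, isK]

theorem cntS_k (p q : Hk G X → Bool) (h : ∀ a b : Mer G, ¬ (p (.k a) = true ∧ q (.k b) = true))
    (s : Slice (Mer G)) : cntS p q (Slice.map (Hk.k : Mer G → Hk G X) s) = 0 := by
  obtain ⟨L, c, R⟩ := s
  cases c with
  | birth a => rfl
  | death a => rfl
  | cr b x y =>
    cases b
    · have := h y x
      simp only [cntS, Slice.map, Loc.map]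
      simp only [Bool.false_eq_true, if_false, Bool.and_eq_true]
      rw [if_neg this]
    · have := h x y
      simp only [cntS, Slice.map, Loc.map]
      simp only [if_true, Bool.and_eq_true]
      rw [if_neg this]

theorem cntS_sum_k (p q : Hk G X → Bool)
    (h : ∀ a b : Mer G, ¬ (p (.k a) = true ∧ q (.k b) = true))
    (w : Word (Mer G)) : ((w.map (Slice.map (Hk.k : Mer G → Hk G X))).map (cntS p q)).sum = 0 := by
  induction w with
  | nil => rfl
  | cons s w ih =>
    simp only [List.map_cons, List.sum_cons, ih, cntS_k p q h s]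

end

theorem cnt_lens_HK {G : Type} [Group G] (a d : Mer G) (F : List (Mer G)) (w : Word (Mer G)) :
    cnt isH isK (lens (.h ()) (relabel .k (a :: d :: F, w)) : Diag (Hk G Unit)) = 2 := by
  have h := cntS_sum_k (G := G) (X := Unit) isH isK (by intro a b; simp [isH]) w
  simp only [relabel, List.map_cons, lens, hook, cnt, List.cons_append, List.nil_append,
    List.sum_cons, h]
  simp [cntS, isH, isK, star]

theorem cnt_lens_KH {G : Type} [Group G] (a d : Mer G) (F : List (Mer G)) (w : Word (Mer G)) :
    cnt isK isH (lens (.h ()) (relabel .k (a :: d :: F, w)) : Diag (Hk G Unit)) = 2 := by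
  have h := cntS_sum_k (G := G) (X := Unit) isK isH (by intro a b; simp [isH]) w
  simp only [relabel, List.map_cons, lens, hook, cnt, List.cons_append, List.nil_append,
    List.sum_cons, h]
  simp [cntS, isH, isK, star]

end Hook

open Hook

/-- (C2) -/
theorem stHook (hLift : StLift) (hParity : StParity) (hUnitLens : StUnitLens)
    (hRgLens : StRgLens) (hHoms : StHoms) (hExtConst : StExtConst) (hExtLeft : StExtLeft) :
    StHook := by
  intro G _ E a d F hE hE1 had ham E' hIso
  obtain ⟨hLc, hLcol, hLinj⟩ := hUnitLens G E a d F hE hE1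
  have hIso1 : Iso (relabel hkCol (lens (.h ()) (relabel .k E) : Diag (Hk G Unit))) E' := by
    rw [hLcol]; exact hIso
  obtain ⟨EH, hEc, hEr, hEi⟩ := hLift (Hk G Unit) (Col Bool) hkCol (hHoms.1 G Unit) _ E' hLc hIso1
  -- the classes cannot exist
  have key : ¬ ∃ X' : Diag (Hk G (Rg G)), Closed X' ∧ relabel hkForget X' = EH := by
    rintro ⟨X', hX'c, hX'r⟩
    have hIso2 : Iso (relabel hkForget X') (lens (.h ()) (relabel .k E) : Diag (Hk G Unit)) := by
      rw [hX'r]; exact Relation.EqvGen.symm _ _ hEi
    obtain ⟨X2, hX2c, hX2r, _⟩ := hLift (Hk G (Rg G)) (Hk G Unit) hkForget (hHoms.2.1 G (Rg G))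
      X' _ hX'c hIso2
    have hcol : relabel hkCol X2 = lens2 (plain E) := by
      rw [← hLcol, ← hX2r, relabel_relabel]
      congr 1
      funext x
      cases x <;> rfl
    obtain ⟨E0, a0, d0, F0, hE0c, _, hE01, h1, hE0r⟩ := hRgLens G (plain E) X2 hX2c hcol
      ⟨F.map fun _ => pt, by simp [plain, relabel, hE1]⟩
    have hEE : E0 = E := hLinj E0 (by rw [← hE0r, hX2r])
    rw [hEE, hE1] at hE01
    simp only [List.cons.injEq] at hE01
    obtain ⟨rfl, rfl, _⟩ := hE01
    apply ham
    cases hda : a.d <;> cases hdd : d.d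
    · exact absurd (hda.trans hdd.symm) had
    · simp only [Mer.val, hda, hdd, Bool.false_eq_true, if_false, if_true] at h1
      exact (inv_mul_eq_one.1 h1)
    · simp only [Mer.val, hda, hdd, Bool.false_eq_true, if_false, if_true] at h1
      exact (mul_inv_eq_one.1 h1)
    · exact absurd (hda.trans hdd.symm) had
  have h0 : cnt isK isH EH ≠ 0 := fun h => key (hExtConst G EH hEc h)
  have h0' : cnt isH isK EH ≠ 0 := fun h => key (hExtLeft G EH hEc h)
  have hp := hParity (Hk G Unit) isH isK inv_isH inv_isK disj _ _ hEi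
  have hp' := hParity (Hk G Unit) isK isH inv_isK inv_isH
    (fun x h => disj x ⟨h.2, h.1⟩) _ _ hEi
  have hE2 : E = (a :: d :: F, E.2) := by rw [← hE1]
  rw [hE2, cnt_lens_HK] at hp
  rw [hE2, cnt_lens_KH] at hp'
  have e1 : cnt (fun x => x.c) (fun x => !x.c) E' = cnt isH isK EH := by
    rw [← hEr, cnt_relabel]
    congr 1
    · funext x; cases x <;> rfl
    · funext x; cases x <;> rfl
  have e2 : cnt (fun x => !x.c) (fun x => x.c) E' = cnt isK isH EH := by
    rw [← hEr, cnt_relabel]
    congr 1
    · funext x; cases x <;> rfl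
    · funext x; cases x <;> rfl
  rw [e1, e2]
  omega

end Pool.Agent.H838R2.PL
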