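import Pool.Agent.H838R2.PL.Stubs

/-!
# The Hopf link
-/

set_option autoImplicit false
set_option linter.unusedSectionVars false
set_option linter.unusedSimpArgs false

namespace Pool.Agent.H838R2.PL

namespace C6

/-- the Hopf link -/
def hopfD : Diag Pl := ([pt, pt], [⟨[], .cr true pt pt, []⟩, ⟨[], .cr true pt pt, []⟩])

/-- the colourings of the Hopf link -/
def hopfC {κ : Type} (x y : Col κ) : Diag (Col κ) :=
  ([x, y], [⟨[], .cr true x y, []⟩, ⟨[], .cr true y x, []⟩])

theorem hopf_closed {κ : Type} (x y : Col κ) : Closed (hopfC x y) := by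
  refine ⟨rfl, rfl, rfl⟩

theorem hopf_plain {κ : Type} (x y : Col κ) : plain (hopfC x y) = hopfD := rfl

theorem hopf_colourings {κ : Type} (E : Diag (Col κ)) (hE : Closed E) (h : plain E = hopfD) :
    ∃ x y, E = hopfC x y := by
  obtain ⟨F, w⟩ := E
  have h1 : F.map (fun _ => pt) = [pt, pt] := congrArg Prod.fst h
  have h2 : w.map (Slice.map (fun _ => pt)) =
      [(⟨[], .cr true pt pt, []⟩ : Slice Pl), ⟨[], .cr true pt pt, []⟩] := congrArg Prod.snd h
  rcases F with _ | ⟨x, _ | ⟨y, _ | ⟨z, F⟩⟩⟩
  · simp at h1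
  · simp at h1
  · refine ⟨x, y, ?_⟩
    rcases w with _ | ⟨s, _ | ⟨t, _ | ⟨u, w⟩⟩⟩
    · simp at h2
    · simp at h2
    · simp only [List.map_cons, List.map_nil, List.cons.injEq, and_true] at h2
      obtain ⟨hs, ht⟩ := h2
      obtain ⟨L, p, R⟩ := s
      obtain ⟨L', p', R'⟩ := t
      simp only [Slice.map, Slice.mk.injEq, List.map_eq_nil_iff] at hs ht
      obtain ⟨rfl, hp, rfl⟩ := hs
      obtain ⟨rfl, hp', rfl⟩ := ht
      cases p with
      | birth a => simp [Loc.map] at hp
      | death a => simp [Loc.map] at hp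
      | cr b x1 y1 =>
        cases p' with
        | birth a => simp [Loc.map] at hp'
        | death a => simp [Loc.map] at hp'
        | cr b' x2 y2 =>
          have hb : b = true := by
            have := hp
            simp [Loc.map] at this
            exact this
          have hb' : b' = true := by
            have := hp'
            simp [Loc.map] at this
            exact this
          subst hb
          subst hb'
          obtain ⟨e1, e2, e3⟩ := hE
          simp [Slice.src, Slice.tgt, Loc.src, Loc.tgt, out] at e1 e2 e3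
          obtain ⟨rfl, rfl⟩ := e1
          obtain ⟨rfl, rfl⟩ := e2
          rfl
    · simp at h2
  · simp at h1

theorem cnt_add_le {Λ : Type} [Palette Λ] (p q : Λ → Bool)
    (hpq : ∀ x, ¬ (p x = true ∧ q x = true)) (D : Diag Λ) : cnt p q D + cnt q p D ≤ cross D := by
  obtain ⟨F, w⟩ := D
  simp only [cnt, cross]
  induction w with
  | nil => simp
  | cons s w ih =>
    obtain ⟨L, pp, R⟩ := s
    cases pp with
    | birth a => simpa [cntS] using ih
    | death a => simpa [cntS] using ih
    | cr b x y =>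
      simp only [List.map_cons, List.sum_cons, List.countP_cons, cntS, if_true]
      have key : (if p (if b then x else y) && q (if b then y else x) then 1 else 0) +
          (if q (if b then x else y) && p (if b then y else x) then 1 else 0) ≤ (1 : ℕ) := by
        have h1 := hpq (if b then x else y)
        generalize (if b then x else y) = u at h1 ⊢
        generalize (if b then y else x) = v at ⊢
        cases hpu : p u <;> cases hqu : q u <;> simp_all <;> split_ifs <;> omega
      omega

theorem hopf_unknot_closed : Closed (([pt], []) : Diag Pl) := rfl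

theorem hopf_unknot_one {Λ : Type} [Palette Λ] (E : Diag Λ) (h : plain E = ([pt], [])) :
    ∃ a, E = ([a], []) := by
  obtain ⟨F, w⟩ := E
  have h1 : F.map (fun _ => pt) = [pt] := congrArg Prod.fst h
  have h2 : w.map (Slice.map (fun _ => pt)) = ([] : Word Pl) := congrArg Prod.snd h
  rcases F with _ | ⟨x, _ | ⟨y, F⟩⟩
  · simp at h1
  · simp at h2
    subst h2
    exact ⟨x, rfl⟩
  · simp at h1

theorem hopf_unknot_isKnot : IsKnot ([pt], []) := by
  refine ⟨by simp, ?_⟩
  intro E _ h
  obtain ⟨a, rfl⟩ := hopf_unknot_one E h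
  refine ⟨a.c, ?_, ?_⟩
  · intro b hb
    simp at hb
    rw [hb]
  · intro s hs
    simp at hs

theorem hopf_unknot_trivial : IsTrivialKnot ([pt], []) := by
  refine ⟨hopf_unknot_isKnot, ?_⟩
  intro G _ E _ h
  obtain ⟨a, rfl⟩ := hopf_unknot_one E h
  refine ⟨a.m, ?_, ?_⟩
  · intro b hb
    simp at hb
    rw [hb]
  · intro s hs
    simp at hs

theorem hopf_unknot_isDiagram : IsDiagram ([pt], []) := by
  refine ⟨rfl, ([⟨PUnit.unit, true⟩], []), rfl, rfl⟩

theorem hopf_isDiagram : IsDiagram hopfD := by
  refine ⟨⟨rfl, rfl, rfl⟩, ([⟨PUnit.unit, true⟩, ⟨PUnit.unit, true⟩],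
    [⟨[], .cr true ⟨PUnit.unit, true⟩ ⟨PUnit.unit, true⟩, []⟩,
     ⟨[], .cr true ⟨PUnit.unit, true⟩ ⟨PUnit.unit, true⟩, []⟩]), ⟨rfl, rfl, rfl⟩, rfl⟩

theorem hopf_not_knot : ¬ IsKnot hopfD := by
  intro h
  obtain ⟨b, hb⟩ := h.2 (hopfC ⟨false⟩ ⟨true⟩) (hopf_closed _ _) rfl
  have h1 := hb.1 ⟨false⟩ (by simp [hopfC])
  have h2 := hb.1 ⟨true⟩ (by simp [hopfC])
  rw [← h1] at h2
  simp at h2

theorem subP_const {κ : Type} (b : κ) : SubP (fun a : Col κ => a = ⟨b⟩) :=
  ⟨fun _ h => h, fun _ _ h _ => h, fun _ _ h _ => h⟩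

theorem inv_col {κ : Type} (p : Col κ → Bool) : Inv p := ⟨fun _ => rfl, fun _ _ => rfl⟩

theorem hopf_cnt_ft : cnt (fun x : Col Bool => x.c) (fun x => !x.c) (hopfC ⟨false⟩ ⟨true⟩) = 1 ∧
    cnt (fun x : Col Bool => !x.c) (fun x => x.c) (hopfC ⟨false⟩ ⟨true⟩) = 1 := by
  constructor <;> rfl

theorem hopf_cnt_tf : cnt (fun x : Col Bool => x.c) (fun x => !x.c) (hopfC ⟨true⟩ ⟨false⟩) = 1 := by
  rfl

theorem hopf_not_split (hLift : StLift) (hParity : StParity) (hSub : StSub) : ¬ IsSplit hopfD := by
  rintro ⟨E, hE, hiso, hcr, hnc⟩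
  obtain ⟨E1, hE1, hpl, hi⟩ := hLift (Col Bool) Pl (fun _ => pt) (hom_pl _) E hopfD hE hiso
  obtain ⟨x, y, rfl⟩ := hopf_colourings E1 hE1 hpl
  have hxy : x ≠ y := by
    rintro rfl
    apply hnc
    refine ⟨x.c, (hSub (Col Bool) _ (subP_const x.c) E _ hi).2 ?_⟩
    constructor
    · intro a ha
      simp [hopfC] at ha
      exact ha
    · intro s hs
      simp [hopfC] at hs
      subst hs
      constructor
      · intro a ha
        simp [Slice.src, Loc.src] at ha
        exact ha
      · intro a ha
        simp [Slice.tgt, Loc.tgt, out] at ha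
        exact ha
  have hpar := hParity (Col Bool) (fun x => x.c) (fun x => !x.c) (inv_col _) (inv_col _)
    (by intro x; cases x.c <;> simp) E _ hi
  have h1 : cnt (fun x : Col Bool => x.c) (fun x => !x.c) (hopfC x y) = 1 := by
    obtain ⟨x⟩ := x
    obtain ⟨y⟩ := y
    cases x <;> cases y
    · exact absurd rfl hxy
    · rfl
    · rfl
    · exact absurd rfl hxy
  have h0 : cnt (fun x : Col Bool => x.c) (fun x => !x.c) E = 0 := by
    unfold cnt
    rw [List.sum_eq_zero_iff]
    intro n hn
    rw [List.mem_map] at hn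
    obtain ⟨s, hs, rfl⟩ := hn
    obtain ⟨L, p, R⟩ := s
    cases p with
    | birth a => rfl
    | death a => rfl
    | cr b x y =>
      have := hcr _ hs b x y rfl
      subst this
      simp [cntS]
  rw [h0, h1] at hpar
  simp at hpar

theorem hopf_delW_noCol {κ : Type} (K : Col κ → Bool) (w : Word (Col κ))
    (h : ∀ e, K e = false → NoCol e w) : delW K w = w := by
  induction w with
  | nil => rfl
  | cons s w ih =>
    have hs : ∀ a, (a ∈ s.src ∨ a ∈ s.tgt) → K a = true := by
      intro a ha
      by_contra hK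
      have := h a (by simpa using hK) s (by simp)
      rcases ha with ha | ha
      · exact this.1 ha
      · exact this.2 ha
    have hw : delW K w = w := ih (fun e he t ht => h e he t (by simp [ht]))
    have hd : delS K s = [s] := by
      obtain ⟨L, p, R⟩ := s
      have hL : L.filter K = L := List.filter_eq_self.2 (fun a ha => hs a (Or.inl (by
        simp [Slice.src, ha])))
      have hR : R.filter K = R := List.filter_eq_self.2 (fun a ha => hs a (Or.inl (by
        simp [Slice.src, ha])))
      have hk : keepLoc K p = true := by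
        cases p with
        | birth a => exact hs a (Or.inr (by simp [Slice.tgt, Loc.tgt]))
        | death a => exact hs a (Or.inl (by simp [Slice.src, Loc.src]))
        | cr b x y =>
          have h1 := hs x (Or.inl (by simp [Slice.src, Loc.src]))
          have h2 := hs y (Or.inl (by simp [Slice.src, Loc.src]))
          simp [keepLoc, h1, h2]
      simp [delS, hk, hL, hR]
    rw [show delW K (s :: w) = delS K s ++ delW K w from rfl, hd, hw]
    rfl

theorem hopf_delW_append {Λ : Type} [Palette Λ] (K : Λ → Bool) (u v : Word Λ) :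
    delW K (u ++ v) = delW K u ++ delW K v := by
  simp [delW]

/-- if one side of the connected sum does not contain the other colour, it is a trivial knot -/
theorem hopf_side (hRel : StRelabel) (hDel : StDel) (hInv : StInv) (hRet : StRetract)
    (c : Col Bool) (A' B' : Word (Col Bool)) (hA' : Path [c] A' [c]) (hB' : Path [c] B' [c])
    (hi : Iso (hopfC ⟨false⟩ ⟨true⟩) ([c], A' ++ B')) :
    (NoCol ⟨!c.c⟩ A' → IsTrivialKnot ([pt], plainW A')) ∧
    (NoCol ⟨!c.c⟩ B' → IsTrivialKnot ([pt], plainW B')) := by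
  set K : Col Bool → Bool := fun x => x.c == c.c with hK
  have hKc : K c = true := by simp [hK]
  have hdel := (hDel (Col Bool) K (keep_col K)).2 _ _ hi
  have e1 : del K (hopfC ⟨false⟩ ⟨true⟩) = ([c], []) := by
    obtain ⟨c⟩ := c
    cases c <;> rfl
  have e2 : del K ([c], A' ++ B') = ([c], delW K A' ++ delW K B') := by
    simp [del, hKc, hopf_delW_append]
  rw [e1, e2] at hdel
  have pA : Path [c] (delW K A') [c] := by
    have := (hDel (Col Bool) K (keep_col K)).1 A' [c] [c] hA'
    simpa [hKc] using this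
  have pB : Path [c] (delW K B') [c] := by
    have := (hDel (Col Bool) K (keep_col K)).1 B' [c] [c] hB'
    simpa [hKc] using this
  have hpl := (hRel (Col Bool) Pl (fun _ => pt) (hom_pl _)).2.1 _ _ hdel
  have e3 : relabel (fun _ : Col Bool => pt) ([c], []) = ([pt], []) := rfl
  have e4 : relabel (fun _ : Col Bool => pt) ([c], delW K A' ++ delW K B') =
      ([pt], plainW (delW K A') ++ plainW (delW K B')) := by
    simp [relabel, plainW, relabelW]
  rw [e3, e4] at hpl
  have qA : Path [pt] (plainW (delW K A')) [pt] :=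
    (hRel (Col Bool) Pl (fun _ => pt) (hom_pl _)).1 _ _ _ pA
  have qB : Path [pt] (plainW (delW K B')) [pt] :=
    (hRel (Col Bool) Pl (fun _ => pt) (hom_pl _)).1 _ _ _ pB
  have hI := hInv _ _ hpl
  have hdg := hI.1.1 hopf_unknot_isDiagram
  have htr := (hI.2.2.2.1 hopf_unknot_closed).1 hopf_unknot_trivial
  have hr := hRet _ _ qA qB hdg htr
  have hno : ∀ w : Word (Col Bool), NoCol ⟨!c.c⟩ w → delW K w = w := by
    intro w hw
    apply hopf_delW_noCol
    intro e he
    have : e = ⟨!c.c⟩ := by
      obtain ⟨e⟩ := e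
      obtain ⟨c⟩ := c
      cases e <;> cases c <;> simp [hK] at he ⊢
    rw [this]
    exact hw
  constructor
  · intro h
    rw [← hno A' h]
    exact hr.1
  · intro h
    rw [← hno B' h]
    exact hr.2

theorem hopf_prime (hRel : StRelabel) (hLift : StLift) (hDel : StDel) (hParity : StParity)
    (hSub : StSub) (hInv : StInv) (hSum : StSum) (hSide : StSide) (hRet : StRetract)
    (hKN : StKnotNonsplit) : IsPrimeDiag hopfD := by
  refine ⟨by simp [hopfD], hopf_not_split hLift hParity hSub, fun h => hopf_not_knot h.1, ?_⟩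
  intro A B hA hB hi
  obtain ⟨c, A', B', hA', hB', eA, eB, hi'⟩ := hSum Bool (hopfC ⟨false⟩ ⟨true⟩) A B
    (hopf_closed _ _) hA hB hi
  have hns : ¬ IsSplit (plain (del (fun x : Col Bool => x.c != c.c) (hopfC ⟨false⟩ ⟨true⟩))) := by
    have : plain (del (fun x : Col Bool => x.c != c.c) (hopfC ⟨false⟩ ⟨true⟩)) = ([pt], []) := by
      obtain ⟨c⟩ := c
      cases c <;> rfl
    rw [this]
    exact hKN _ hopf_unknot_closed hopf_unknot_isKnot
  have hs := hSide Bool (hopfC ⟨false⟩ ⟨true⟩) c A' B' (fun x => x.c != c.c) (by simp) hA' hB' hi'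
    hns
  have hS := hopf_side hRel hDel hInv hRet c A' B' hA' hB' hi'
  rcases hs with h | h
  · left
    rw [← eA]
    exact hS.1 (h ⟨!c.c⟩ (by cases c.c <;> rfl))
  · right
    rw [← eB]
    exact hS.2 (h ⟨!c.c⟩ (by cases c.c <;> rfl))

theorem hopf_cross (hRel : StRelabel) (hLift : StLift) (hParity : StParity) (E : Diag Pl)
    (h : Iso hopfD E) : 2 ≤ cross E := by
  obtain ⟨E', hE', rfl, hi⟩ := hLift (Col Bool) Pl (fun _ => pt) (hom_pl _)
    (hopfC ⟨false⟩ ⟨true⟩) E (hopf_closed _ _) h
  rw [(hRel (Col Bool) Pl (fun _ => pt) (hom_pl _)).2.2]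
  have h1 := hParity (Col Bool) (fun x => x.c) (fun x => !x.c) (inv_col _) (inv_col _)
    (by intro x; cases x.c <;> simp) _ _ hi
  have h2 := hParity (Col Bool) (fun x => !x.c) (fun x => x.c) (inv_col _) (inv_col _)
    (by intro x; cases x.c <;> simp) _ _ hi
  rw [hopf_cnt_ft.1] at h1
  rw [hopf_cnt_ft.2] at h2
  have h3 := cnt_add_le (fun x : Col Bool => x.c) (fun x => !x.c)
    (by intro x; cases x.c <;> simp) E'
  omega

end C6

open C6 in
theorem stHopf (hRel : StRelabel) (hLift : StLift) (hDel : StDel) (hParity : StParity)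
    (hSub : StSub) (hInv : StInv) (hSum : StSum) (hSide : StSide) (hRet : StRetract)
    (hKN : StKnotNonsplit) (hGL : StGoodLink) : StHopf := by
  obtain ⟨R, hR, hi, hc⟩ := hGL hopfD hopf_isDiagram
    (hopf_prime hRel hLift hDel hParity hSub hInv hSum hSide hRet hKN) hopf_not_knot
  refine ⟨R, hR, by rw [hc]; rfl, ?_⟩
  intro E hE
  exact hopf_cross hRel hLift hParity E (Relation.EqvGen.trans _ _ _ hi hE)

end Pool.Agent.H838R2.PL
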