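import Pool.Agent.H838R2.PL.Stubs

/-!
# Heights, and diagrams with one strand above and below
-/

set_option autoImplicit false
set_option linter.unusedSectionVars false
set_option linter.unusedSimpArgs false

namespace Pool.Agent.H838R2.PL.C0c

open Pool.Agent.H838R2.PL

variable {G X : Type} [Group G] [QAct G X]

theorem hom_k : Hom (Hk.k : Mer G → Hk G X) := ⟨fun _ => rfl, fun _ _ => rfl⟩

theorem forget_k (s : Slice (Mer G)) :
    Slice.map hkForget (Slice.map (Hk.k : Mer G → Hk G X) s) = Slice.map (Hk.k : Mer G → Hk G Unit) s := by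
  obtain ⟨L, p, R⟩ := s
  have e : (hkForget ∘ (Hk.k : Mer G → Hk G X)) = (Hk.k : Mer G → Hk G Unit) := rfl
  cases p <;> simp [Slice.map, Loc.map, e, hkForget]

theorem forgetW_k (w : Word (Mer G)) :
    relabelW hkForget (relabelW (Hk.k : Mer G → Hk G X) w) = relabelW (Hk.k : Mer G → Hk G Unit) w := by
  unfold relabelW
  rw [List.map_map]
  apply List.map_congr_left
  intro s _
  exact forget_k s

theorem forgetF_k (F : List (Mer G)) :
    (F.map (Hk.k : Mer G → Hk G X)).map hkForget = F.map (Hk.k : Mer G → Hk G Unit) := by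
  rw [List.map_map]; rfl

theorem act_inv_true (y : Mer G) (h : y.d = true) (n : ℤ) :
    (y.act Ht)⁻¹ (⟨n⟩ : Ht) = ⟨n - 1⟩ := by
  simp [Mer.act, h]
  rfl

theorem act_inv_false (y : Mer G) (h : y.d = false) (n : ℤ) :
    (y.act Ht)⁻¹ (⟨n⟩ : Ht) = ⟨n + 1⟩ := by
  simp [Mer.act, h]
  rfl

end Pool.Agent.H838R2.PL.C0c

namespace Pool.Agent.H838R2.PL

open C0c

theorem stHtLens (h1 : StRelabel) : StHtLens := by
  intro G _ E a d F hE hF hd
  obtain ⟨F0, w⟩ := E
  simp only at hF
  subst hF
  set e : Ht := (d.act Ht)⁻¹ ⟨0⟩ with he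
  have hz : (a.act Ht)⁻¹ e = ⟨0⟩ := by
    cases hdd : d.d
    · have had : a.d = true := by
        cases h : a.d
        · exact absurd (h.trans hdd.symm) hd
        · rfl
      rw [he, act_inv_false d hdd, act_inv_true a had]; simp
    · have had : a.d = false := by
        cases h : a.d
        · rfl
        · exact absurd (h.trans hdd.symm) hd
      rw [he, act_inv_true d hdd, act_inv_false a had]; simp
  let K : Mer G → Hk G Ht := Hk.k
  let z : Hk G Ht := .h ⟨0⟩
  refine ⟨(K a :: K d :: F.map K, ⟨[], .birth z, K a :: K d :: F.map K⟩ ::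
    ⟨[z], .cr true z (K a), K d :: F.map K⟩ :: ⟨[z, K a], .cr true z (K d), F.map K⟩ ::
    ⟨[z, K a], .cr true (K d) z, F.map K⟩ :: ⟨[z], .cr true (K a) (.h e), K d :: F.map K⟩ ::
    ⟨[], .death z, K a :: K d :: F.map K⟩ :: relabelW K w), ?_, ?_⟩
  · have hw : Path (K a :: K d :: F.map K) (relabelW K w) (K a :: K d :: F.map K) :=
      (h1 _ _ K hom_k).1 w _ _ hE
    have o1 : ∀ b : Mer G, out true z (K b) = (K b, z) := fun b => rfl
    have o2 : out true (K d) z = (.h e, K d) := rfl
    have o3 : out true (K a) (.h e) = (z, K a) := by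
      show ((Hk.h ((a.act Ht)⁻¹ e) : Hk G Ht), K a) = _
      rw [hz]
    have sz : star z = z := rfl
    simp only [Closed, path_cons, Slice.src, Slice.tgt, Loc.src, Loc.tgt, o1, o2, o3, sz]
    simpa using hw
  · have f1 : hkForget z = .h () := rfl
    have f2 : hkForget (.h e : Hk G Ht) = .h () := rfl
    have f3 : ∀ b, hkForget (K b) = Hk.k b := fun b => rfl
    have s1 : star (Hk.h () : Hk G Unit) = Hk.h () := rfl
    have e1 : (F.map K).map hkForget = F.map (Hk.k : Mer G → Hk G Unit) := forgetF_k F
    have e2 : relabelW hkForget (relabelW K w) = relabelW (Hk.k : Mer G → Hk G Unit) w := forgetW_k w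
    rw [relabel_eq, relabel_eq]
    simp only [List.map_cons, lens, hook, s1]
    rw [← e2, ← e1]
    simp [relabelW, Slice.map, Loc.map, f1, f2, f3]

theorem stFrontHk (h1 : StProd) : StFrontHk := by
  intro G X _ _ w y F hw hF
  obtain ⟨f, rfl⟩ : ∃ f, F = [f] := by
    have := congrArg List.length hF
    simp at this
    exact List.length_eq_one_iff.1 this
  cases f with
  | h n => simp [hkCol] at hF
  | k z =>
    let v1 : Hk G X → G := fun x => match x with
      | .k a => a.val
      | .h _ => 1
    let v2 : Hk G X → Multiplicative ℤ := fun x => match x with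
      | .k a => Multiplicative.ofAdd (if a.d then 1 else -1)
      | .h _ => 1
    have p1 := h1 (Hk G X) G v1 (by
      intro x
      cases x with
      | h n => simp [v1, star]
      | k a =>
        obtain ⟨m, d⟩ := a
        cases d <;> simp [v1, star, Mer.val]) (by
      intro b x y
      cases b <;> rcases x with ⟨⟨m, d⟩⟩ | n <;> rcases y with ⟨⟨m', d'⟩⟩ | n' <;>
        simp [v1, out, Palette.l, Palette.r, Mer.val]
      · cases d <;> cases d' <;> simp [mul_assoc]
      · cases d <;> cases d' <;> simp [mul_assoc]) w _ _ hw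
    have p2 := h1 (Hk G X) (Multiplicative ℤ) v2 (by
      intro x
      cases x with
      | h n => simp [v2, star]
      | k a =>
        obtain ⟨m, d⟩ := a
        cases d <;> simp [v2, star]) (by
      intro b x y
      cases b <;> rcases x with ⟨⟨m, d⟩⟩ | n <;> rcases y with ⟨⟨m', d'⟩⟩ | n' <;>
        simp [v2, out, Palette.l, Palette.r, mul_comm]) w _ _ hw
    obtain ⟨m, d⟩ := y
    obtain ⟨m', d'⟩ := z
    simp [v1, v2] at p1 p2
    have hd : d = d' := by
      cases d <;> cases d' <;> simp at p2 ⊢
    subst hd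
    have hm : m = m' := by
      cases d <;> simpa [Mer.val] using p1
    rw [hm]

end Pool.Agent.H838R2.PL
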