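import Pool.Agent.H838R2.PL.Stubs

/-!
# (B1) Invariance under isotopies
-/

set_option autoImplicit false
set_option linter.unusedSectionVars false
set_option linter.unusedSimpArgs false

namespace Pool.Agent.H838R2.PL

namespace InvB1

theorem bm_left_ne {Λ : Type} [Palette Λ] {A A' : List Λ} {l r : Word Λ} (h : BM A l r A') :
    l ≠ [] := by
  cases h <;> simp

theorem bm_right_ne {Λ : Type} [Palette Λ] {A A' : List Λ} {l r : Word Λ} (h : BM A l r A')
    (hA : A = []) : r ≠ [] := by
  cases h <;> simp at hA ⊢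

theorem step_empty {Λ : Type} [Palette Λ] {D E : Diag Λ} (h : Step D E) :
    D = ([], []) ↔ E = ([], []) := by
  cases h with
  | @loc A A' l r F P Q x y hb hx hy =>
    constructor
    · intro h
      simp only [Prod.mk.injEq, List.append_eq_nil_iff] at h
      have : l = [] := by
        have := h.2.1.2
        simpa [ctx] using this
      exact absurd this (bm_left_ne hb)
    · intro h
      simp only [Prod.mk.injEq, List.append_eq_nil_iff] at h
      have h1 : r = [] := by
        have := h.2.1.2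
        simpa [ctx] using this
      obtain ⟨hF, ⟨hx0, _⟩, _⟩ := h
      subst hF hx0
      have h2 : [] = P ++ A ++ Q := hx
      have h3 : A = [] := by
        have := h2.symm
        simp only [List.append_eq_nil_iff] at this
        exact this.1.2
      exact absurd h1 (bm_right_ne hb h3)
  | @conj F G u v hu hv =>
    constructor
    · intro h
      simp only [Prod.mk.injEq, List.append_eq_nil_iff] at h
      obtain ⟨rfl, rfl, rfl⟩ := h
      have h2 : [] = G := hu
      subst h2
      rfl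
    · intro h
      simp only [Prod.mk.injEq, List.append_eq_nil_iff] at h
      obtain ⟨rfl, rfl, rfl⟩ := h
      have h2 : [] = F := hv
      subst h2
      rfl
  | left hw => simp
  | right hw => simp

theorem iso_empty {Λ : Type} [Palette Λ] {D E : Diag Λ} (h : Iso D E) :
    D = ([], []) ↔ E = ([], []) := by
  induction h with
  | rel _ _ h => exact step_empty h
  | refl _ => exact Iff.rfl
  | symm _ _ _ ih => exact ih.symm
  | trans _ _ _ _ _ ih1 ih2 => exact ih1.trans ih2

theorem Iso.symm' {Λ : Type} [Palette Λ] {D E : Diag Λ} (h : Iso D E) : Iso E D :=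
  Relation.EqvGen.symm _ _ h

theorem Iso.trans' {Λ : Type} [Palette Λ] {D E F : Diag Λ} (h : Iso D E) (h' : Iso E F) :
    Iso D F := Relation.EqvGen.trans _ _ _ h h'

theorem lift (hL : StLift) {Λ : Type} [Palette Λ] {D E : Diag Pl} (h : Iso D E)
    (D' : Diag Λ) (hD' : Closed D') (hp : plain D' = D) :
    ∃ E' : Diag Λ, Closed E' ∧ plain E' = E ∧ Iso D' E' := by
  obtain ⟨E', h1, h2, h3⟩ := hL Λ Pl (fun _ => pt) (hom_pl _) D' E hD' (by
    have : relabel (fun _ => pt) D' = D := hp
    rw [this]; exact h)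
  exact ⟨E', h1, h2, h3⟩

theorem subP_col {κ : Type} (c : Col κ) : SubP (fun a : Col κ => a = c) :=
  ⟨fun _ h => h, fun _ _ h _ => h, fun _ _ h _ => h⟩

theorem subP_mer {G : Type} [Group G] (g : G) : SubP (fun a : Mer G => a.m = g) := by
  refine ⟨fun x h => h, fun x y hx hy => ?_, fun x y hx hy => ?_⟩
  · obtain ⟨m, d⟩ := x
    obtain ⟨m', d'⟩ := y
    simp only at hx hy
    subst hx hy
    cases d' <;> simp [Palette.r, Mer.val]
  · obtain ⟨m, d⟩ := x
    obtain ⟨m', d'⟩ := y
    simp only at hx hy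
    subst hx hy
    cases d' <;> simp [Palette.l, Mer.val]

theorem diag_one (hL : StLift) {D E : Diag Pl} (h : Iso D E) (hD : IsDiagram D) :
    IsDiagram E := by
  obtain ⟨h1, D', h2, h3⟩ := hD
  obtain ⟨E', h4, h5, _⟩ := lift hL h D' h2 h3
  exact ⟨Iso.closed h h1, E', h4, h5⟩

theorem knot_one (hL : StLift) (hS : StSub) {D E : Diag Pl} (h : Iso D E) (hK : IsKnot D) :
    IsKnot E := by
  refine ⟨fun e => hK.1 ((iso_empty h).2 e), fun E' hE' hp => ?_⟩
  obtain ⟨D', h1, h2, h3⟩ := lift hL (Iso.symm' h) E' hE' hp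
  obtain ⟨b, hb⟩ := hK.2 D' h1 h2
  exact ⟨b, (hS _ _ (subP_col _) _ _ h3).2 hb⟩

theorem triv_one (hL : StLift) (hS : StSub) {D E : Diag Pl} (h : Iso D E)
    (hK : IsTrivialKnot D) : IsTrivialKnot E := by
  refine ⟨knot_one hL hS h hK.1, fun G hG E' hE' hp => ?_⟩
  obtain ⟨D', h1, h2, h3⟩ := lift hL (Iso.symm' h) E' hE' hp
  obtain ⟨g, hg⟩ := hK.2 G D' h1 h2
  exact ⟨g, (hS _ _ (subP_mer _) _ _ h3).2 hg⟩

theorem split_one {D E : Diag Pl} (h : Iso D E) (hD : IsSplit D) : IsSplit E := by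
  obtain ⟨X, h1, h2, h3, h4⟩ := hD
  exact ⟨X, h1, Iso.trans' h2 h, h3, h4⟩

theorem prime_one (hL : StLift) (hS : StSub) {D E : Diag Pl} (h : Iso D E)
    (hD : IsPrimeDiag D) : IsPrimeDiag E := by
  obtain ⟨h1, h2, h3, h4⟩ := hD
  refine ⟨fun e => h1 ((iso_empty h).2 e), fun e => h2 (split_one (Iso.symm' h) e),
    fun e => h3 (triv_one hL hS (Iso.symm' h) e), fun A B hA hB hI => ?_⟩
  exact h4 A B hA hB (Iso.trans' h hI)

end InvB1

open InvB1 in
theorem stInv (h2 : StLift) (h3 : StSub) : StInv := by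
  intro D E h
  have h' := Iso.symm' h
  exact ⟨⟨diag_one h2 h, diag_one h2 h'⟩, iso_empty h,
    fun _ => ⟨knot_one h2 h3 h, knot_one h2 h3 h'⟩,
    fun _ => ⟨triv_one h2 h3 h, triv_one h2 h3 h'⟩,
    ⟨split_one h, split_one h'⟩,
    fun _ => ⟨prime_one h2 h3 h, prime_one h2 h3 h'⟩⟩

end Pool.Agent.H838R2.PL
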