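import Pool.Agent.H838R2.PL.Stubs

/-!
# Isotopies can be lifted (A2b)
-/

set_option autoImplicit false
set_option linter.unusedSectionVars false
set_option linter.unusedSimpArgs false

namespace Pool.Agent.H838R2.PL

namespace LiftAux

variable {Λ Λ' : Type} [Palette Λ] [Palette Λ']

theorem relabelW_cons (f : Λ → Λ') (s : Slice Λ) (w : Word Λ) :
    relabelW f (s :: w) = s.map f :: relabelW f w := rfl

theorem relabelW_nil (f : Λ → Λ') : relabelW f ([] : Word Λ) = [] := rfl

theorem relabelW_append (f : Λ → Λ') (u v : Word Λ) :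
    relabelW f (u ++ v) = relabelW f u ++ relabelW f v := by simp [relabelW]

theorem relabelW_ctx (f : Λ → Λ') (P Q : List Λ) (w : Word Λ) :
    relabelW f (ctx P Q w) = ctx (P.map f) (Q.map f) (relabelW f w) := by
  simp [relabelW, ctx, Slice.map, Function.comp_def]

theorem split_append {f : Λ → Λ'} {w : Word Λ} {x y : Word Λ'} (h : relabelW f w = x ++ y) :
    ∃ u v, w = u ++ v ∧ relabelW f u = x ∧ relabelW f v = y := List.map_eq_append_iff.1 h

theorem split_cons {f : Λ → Λ'} {w : Word Λ} {s' : Slice Λ'} {y : Word Λ'}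
    (h : relabelW f w = s' :: y) :
    ∃ s v, w = s :: v ∧ s.map f = s' ∧ relabelW f v = y := List.map_eq_cons_iff.1 h

theorem ctx_left_inj {z z' : Λ} {u v : Word Λ} (h : ctx [z] [] u = ctx [z'] [] v) : u = v := by
  induction u generalizing v with
  | nil => cases v with
    | nil => rfl
    | cons s v => simp at h
  | cons t u ih => cases v with
    | nil => simp at h
    | cons s v =>
      rw [ctx_cons, ctx_cons] at h
      obtain ⟨tL, tp, tR⟩ := t
      obtain ⟨sL, sp, sR⟩ := s
      simp at h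
      obtain ⟨⟨⟨h0, h1⟩, h2, h3⟩, h4⟩ := h
      subst h1 h2 h3
      rw [ih h4]

theorem ctx_right_inj {z z' : Λ} {u v : Word Λ} (h : ctx [] [z] u = ctx [] [z'] v) : u = v := by
  induction u generalizing v with
  | nil => cases v with
    | nil => rfl
    | cons s v => simp at h
  | cons t u ih => cases v with
    | nil => simp at h
    | cons s v =>
      rw [ctx_cons, ctx_cons] at h
      obtain ⟨tL, tp, tR⟩ := t
      obtain ⟨sL, sp, sR⟩ := s
      simp at h
      obtain ⟨⟨h0, h1, h2⟩, h4⟩ := h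
      obtain ⟨h3, -⟩ := h2
      subst h1 h0 h3
      rw [ih h4]

/-- a word over a context on the left -/
theorem left_word {f : Λ → Λ'} {z : Λ'} {c : Λ} {w1 : Word Λ} : ∀ {H G : List Λ} {w' : Word Λ'},
    Path (c :: H) w1 G → relabelW f w1 = ctx [z] [] w' →
    ∃ w2 H', w1 = ctx [c] [] w2 ∧ G = c :: H' ∧ Path H w2 H' := by
  induction w1 with
  | nil =>
    intro H G w' h _
    exact ⟨[], H, rfl, (h : c :: H = G).symm, rfl⟩
  | cons s w1 ih =>
    intro H G w' h h'
    cases w' with
    | nil => simp [relabelW] at h'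
    | cons s' w' =>
      rw [relabelW_cons, ctx_cons] at h'
      obtain ⟨sL, sp, sR⟩ := s
      simp only [List.cons.injEq, Slice.map, Slice.mk.injEq] at h'
      obtain ⟨⟨hL, hp, hR⟩, hw⟩ := h'
      obtain ⟨h1, h2⟩ := h
      cases sL with
      | nil => simp at hL
      | cons e L =>
        simp only [Slice.src, Slice.tgt, List.cons_append, List.cons.injEq] at h1 h2
        obtain ⟨rfl, h1⟩ := h1
        obtain ⟨w2, H', e1, e2, e3⟩ := ih h2 hw
        refine ⟨⟨L, sp, sR⟩ :: w2, H', ?_, e2, ?_, e3⟩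
        · rw [ctx_cons, e1]; simp
        · simpa [Slice.src] using h1

/-- a word over a context on the right -/
theorem right_word {f : Λ → Λ'} {z : Λ'} {c : Λ} {w1 : Word Λ} : ∀ {H G : List Λ} {w' : Word Λ'},
    Path (H ++ [c]) w1 G → relabelW f w1 = ctx [] [z] w' →
    ∃ w2 H', w1 = ctx [] [c] w2 ∧ G = H' ++ [c] ∧ Path H w2 H' := by
  induction w1 with
  | nil =>
    intro H G w' h _
    exact ⟨[], H, rfl, (h : H ++ [c] = G).symm, rfl⟩
  | cons s w1 ih =>
    intro H G w' h h'
    cases w' with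
    | nil => simp [relabelW] at h'
    | cons s' w' =>
      rw [relabelW_cons, ctx_cons] at h'
      obtain ⟨sL, sp, sR⟩ := s
      simp only [List.cons.injEq, Slice.map, Slice.mk.injEq] at h'
      obtain ⟨⟨hL, hp, hR⟩, hw⟩ := h'
      obtain ⟨h1, h2⟩ := h
      rcases List.eq_nil_or_concat sR with rfl | ⟨R, e, rfl⟩
      · simp at hR
      · rw [List.concat_eq_append] at *
        simp only [Slice.src, Slice.tgt] at h1 h2
        have h3 : sL ++ sp.src ++ R ++ [e] = H ++ [c] := by simpa using h1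
        obtain ⟨h4, h5⟩ := List.append_inj' h3 rfl
        simp only [List.cons.injEq, and_true] at h5
        subst h5
        have h6 : Path (sL ++ sp.tgt ++ R ++ [e]) w1 G := by simpa using h2
        obtain ⟨w2, H', e1, e2, e3⟩ := ih h6 hw
        refine ⟨⟨sL, sp, R⟩ :: w2, H', ?_, e2, ?_, e3⟩
        · rw [ctx_cons, e1]; simp
        · simpa [Slice.src] using h4

/-- diagrams over `D'` can be changed into diagrams over `E'` -/
def L1 (f : Λ → Λ') (D' E' : Diag Λ') : Prop := ∀ D : Diag Λ, Closed D → relabel f D = D' →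
  ∃ E : Diag Λ, relabel f E = E' ∧ Iso D E

theorem map_birth {f : Λ → Λ'} {s : Slice Λ} {L' R' : List Λ'} {a' : Λ'}
    (h : s.map f = ⟨L', .birth a', R'⟩) : ∃ a, s = ⟨s.L, .birth a, s.R⟩ ∧ f a = a' ∧
      s.L.map f = L' ∧ s.R.map f = R' := by
  obtain ⟨L, p, R⟩ := s
  simp only [Slice.map, Slice.mk.injEq] at h
  cases p with
  | birth a =>
    refine ⟨a, rfl, ?_, h.1, h.2.2⟩
    have := h.2.1
    simpa [Loc.map] using this
  | death a => simp [Loc.map] at h
  | cr b x y => simp [Loc.map] at h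

theorem map_death {f : Λ → Λ'} {s : Slice Λ} {L' R' : List Λ'} {a' : Λ'}
    (h : s.map f = ⟨L', .death a', R'⟩) : ∃ a, s = ⟨s.L, .death a, s.R⟩ ∧ f a = a' ∧
      s.L.map f = L' ∧ s.R.map f = R' := by
  obtain ⟨L, p, R⟩ := s
  simp only [Slice.map, Slice.mk.injEq] at h
  cases p with
  | death a =>
    refine ⟨a, rfl, ?_, h.1, h.2.2⟩
    have := h.2.1
    simpa [Loc.map] using this
  | birth a => simp [Loc.map] at h
  | cr b x y => simp [Loc.map] at h

theorem step (h1 : StRelabel) (h2 : StLiftBM) {f : Λ → Λ'} (hf : Hom f) {D' E' : Diag Λ'}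
    (h : Step D' E') : L1 f D' E' ∧ L1 f E' D' := by
  have hrel := (h1 Λ Λ' f hf).1
  cases h with
  | @loc A' B' l' r' F' P' Q' x' y' hb hx hy =>
    have hL := h2 Λ Λ' f hf A' B' P' Q' l' r' hb
    constructor
    · rintro ⟨F, w⟩ hD hDD
      rw [relabel_eq] at hDD
      simp only [Prod.mk.injEq] at hDD
      obtain ⟨hF, hw⟩ := hDD
      obtain ⟨xm, y, rfl, hxm, hy1⟩ := split_append hw
      obtain ⟨x, m, rfl, hx1, hm1⟩ := split_append hxm
      obtain ⟨G2, hp, hp3⟩ := path_append.1 (hD : Path F (x ++ m ++ y) F)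
      obtain ⟨G, hp1, hp2⟩ := path_append.1 hp
      have hG : G.map f = P' ++ A' ++ Q' := by
        have := hrel x F G hp1
        rw [hx1, hF] at this
        exact this.tgt_unique hx
      obtain ⟨P, Q, A, B, l, r, e1, e2, e3, e4, e5, e6, e7, e8⟩ := hL.1 G G2 m hp2 hG hm1
      subst e1 e2 e3
      refine ⟨(F, x ++ ctx P Q r ++ y), ?_, Relation.EqvGen.rel _ _ (Step.loc F P Q x y e8 hp1 hp3)⟩
      rw [relabel_eq]
      simp only [relabelW_append, relabelW_ctx, hF, hx1, hy1, e5, e6, e7]
    · rintro ⟨F, w⟩ hD hDD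
      rw [relabel_eq] at hDD
      simp only [Prod.mk.injEq] at hDD
      obtain ⟨hF, hw⟩ := hDD
      obtain ⟨xm, y, rfl, hxm, hy1⟩ := split_append hw
      obtain ⟨x, m, rfl, hx1, hm1⟩ := split_append hxm
      obtain ⟨G2, hp, hp3⟩ := path_append.1 (hD : Path F (x ++ m ++ y) F)
      obtain ⟨G, hp1, hp2⟩ := path_append.1 hp
      have hG : G.map f = P' ++ A' ++ Q' := by
        have := hrel x F G hp1
        rw [hx1, hF] at this
        exact this.tgt_unique hx
      obtain ⟨P, Q, A, B, l, r, e1, e2, e3, e4, e5, e6, e7, e8⟩ := hL.2 G G2 m hp2 hG hm1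
      subst e1 e2 e3
      refine ⟨(F, x ++ ctx P Q l ++ y), ?_, Relation.EqvGen.symm _ _
        (Relation.EqvGen.rel _ _ (Step.loc F P Q x y e8 hp1 hp3))⟩
      rw [relabel_eq]
      simp only [relabelW_append, relabelW_ctx, hF, hx1, hy1, e4, e6, e7]
  | @conj F' G' u' v' hu hv =>
    have key : ∀ {F' G' : List Λ'} {u' v' : Word Λ'}, Path F' u' G' → Path G' v' F' →
        L1 f (F', u' ++ v') (G', v' ++ u') := by
      rintro F' G' u' v' hu hv ⟨F, w⟩ hD hDD
      rw [relabel_eq] at hDD
      simp only [Prod.mk.injEq] at hDD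
      obtain ⟨hF, hw⟩ := hDD
      obtain ⟨u, v, rfl, hu1, hv1⟩ := split_append hw
      obtain ⟨G, hp1, hp2⟩ := path_append.1 (hD : Path F (u ++ v) F)
      have hG : G.map f = G' := by
        have := hrel u F G hp1
        rw [hu1, hF] at this
        exact this.tgt_unique hu
      refine ⟨(G, v ++ u), ?_, Relation.EqvGen.rel _ _ (Step.conj hp1 hp2)⟩
      rw [relabel_eq]
      simp only [relabelW_append, hG, hu1, hv1]
    exact ⟨key hu hv, key hv hu⟩
  | @left a' F' w' hw' =>
    constructor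
    · rintro ⟨F0, w⟩ hD hDD
      rw [relabel_eq] at hDD
      simp only [Prod.mk.injEq] at hDD
      obtain ⟨hF, hw⟩ := hDD
      obtain ⟨a, F, rfl, ha, hF⟩ := List.map_eq_cons_iff.1 hF
      refine ⟨_, ?_, Relation.EqvGen.rel _ _ (Step.left hD)⟩
      rw [relabel_eq]
      simp only [relabelW_cons, relabelW_nil, relabelW_append, relabelW_ctx, Slice.map, Loc.map,
        List.map_nil, List.map_cons, hf.star, ha, hF, hw]
    · rintro ⟨F, W⟩ hD hDD
      rw [relabel_eq] at hDD
      simp only [Prod.mk.injEq] at hDD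
      obtain ⟨hF, hw⟩ := hDD
      obtain ⟨s1, W1, rfl, hs1, hW1⟩ := split_cons hw
      obtain ⟨w1, W2, rfl, hw1, hW2⟩ := split_append hW1
      obtain ⟨s2, W3, rfl, hs2, hW3⟩ := split_cons hW2
      have : W3 = [] := by simpa [relabelW] using hW3
      subst this
      obtain ⟨c, es1, hc, hL1, hR1⟩ := map_birth hs1
      obtain ⟨d, es2, hd, hL2, hR2⟩ := map_death hs2
      obtain ⟨L1, p1, R1⟩ := s1
      obtain ⟨L2, p2, R2⟩ := s2
      simp only [Slice.mk.injEq, true_and, and_true] at es1 es2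
      subst es1 es2
      simp only [List.map_eq_nil_iff] at hL1 hL2
      subst hL1 hL2
      have hD' : Path F (⟨[], .birth c, R1⟩ :: (w1 ++ [⟨[], .death d, R2⟩])) F := hD
      rw [path_cons, path_append] at hD'
      obtain ⟨q1, G, q2, q3⟩ := hD'
      simp only [path_cons, path_nil, Slice.src, Slice.tgt, Loc.src, Loc.tgt, List.nil_append,
        List.cons_append] at q1 q2 q3
      subst q1
      obtain ⟨q3, q4⟩ := q3
      subst q4
      subst q3
      obtain ⟨w2, H', e1, e2, e3⟩ := left_word q2 hw1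
      simp only [List.cons.injEq] at e2
      obtain ⟨rfl, rfl⟩ := e2
      subst e1
      rw [relabelW_ctx] at hw1
      have hw2 : relabelW f w2 = w' := by
        apply ctx_left_inj (z := f d) (z' := star a')
        simpa using hw1
      refine ⟨(star d :: R2, w2), ?_, Relation.EqvGen.symm _ _ (Relation.EqvGen.rel _ _ ?_)⟩
      · rw [relabel_eq]
        simp only [List.map_cons, hf.star, hd, Palette.star_star, hR2, hw2]
      · have := Step.left e3
        simpa only [Palette.star_star] using this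
  | @right a' F' w' hw' =>
    constructor
    · rintro ⟨F0, w⟩ hD hDD
      rw [relabel_eq] at hDD
      simp only [Prod.mk.injEq] at hDD
      obtain ⟨hF, hw⟩ := hDD
      obtain ⟨F, F1, rfl, hFF, hF1⟩ := List.map_eq_append_iff.1 hF
      obtain ⟨a, F2, rfl, ha, hF2⟩ := List.map_eq_cons_iff.1 hF1
      have : F2 = [] := by simpa using hF2
      subst this
      refine ⟨_, ?_, Relation.EqvGen.rel _ _ (Step.right hD)⟩
      rw [relabel_eq]
      simp only [relabelW_cons, relabelW_nil, relabelW_append, relabelW_ctx, Slice.map, Loc.map,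
        List.map_nil, List.map_cons, hf.star, ha, hFF, hw]
    · rintro ⟨F, W⟩ hD hDD
      rw [relabel_eq] at hDD
      simp only [Prod.mk.injEq] at hDD
      obtain ⟨hF, hw⟩ := hDD
      obtain ⟨s1, W1, rfl, hs1, hW1⟩ := split_cons hw
      obtain ⟨w1, W2, rfl, hw1, hW2⟩ := split_append hW1
      obtain ⟨s2, W3, rfl, hs2, hW3⟩ := split_cons hW2
      have : W3 = [] := by simpa [relabelW] using hW3
      subst this
      obtain ⟨c, es1, hc, hL1, hR1⟩ := map_birth hs1
      obtain ⟨d, es2, hd, hL2, hR2⟩ := map_death hs2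
      obtain ⟨L1, p1, R1⟩ := s1
      obtain ⟨L2, p2, R2⟩ := s2
      simp only [Slice.mk.injEq, true_and, and_true] at es1 es2
      subst es1 es2
      simp only [List.map_eq_nil_iff] at hR1 hR2
      subst hR1 hR2
      have hD' : Path F (⟨L1, .birth c, []⟩ :: (w1 ++ [⟨L2, .death d, []⟩])) F := hD
      rw [path_cons, path_append] at hD'
      obtain ⟨q1, G, q2, q3⟩ := hD'
      simp only [path_cons, path_nil, Slice.src, Slice.tgt, Loc.src, Loc.tgt, List.append_nil] at q1 q2 q3
      subst q1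
      obtain ⟨q3, q4⟩ := q3
      subst q4
      subst q3
      have q2' : Path (L2 ++ [c] ++ [star c]) w1 (L2 ++ [d] ++ [star d]) := by simpa using q2
      obtain ⟨w2, H', e1, e2, e3⟩ := right_word q2' hw1
      obtain ⟨e4, e5⟩ := List.append_inj' e2 rfl
      simp only [List.cons.injEq, and_true] at e5
      have e6 : d = c := by
        rw [← Palette.star_star d, e5, Palette.star_star]
      subst e6
      subst e4
      subst e1
      rw [relabelW_ctx] at hw1
      have hw2 : relabelW f w2 = w' := by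
        apply ctx_right_inj (z := f (star d)) (z' := star a')
        simpa using hw1
      refine ⟨(L2 ++ [d], w2), ?_, Relation.EqvGen.symm _ _ (Relation.EqvGen.rel _ _ ?_)⟩
      · rw [relabel_eq]
        simp only [List.map_append, List.map_cons, List.map_nil, hd, hL2, hw2]
      · exact Step.right e3

theorem iso (h1 : StRelabel) (h2 : StLiftBM) {f : Λ → Λ'} (hf : Hom f) {D' E' : Diag Λ'}
    (h : Iso D' E') : L1 f D' E' ∧ L1 f E' D' := by
  induction h with
  | rel _ _ h => exact step h1 h2 hf h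
  | refl _ => exact ⟨fun D _ e => ⟨D, e, .refl _⟩, fun D _ e => ⟨D, e, .refl _⟩⟩
  | symm _ _ _ ih => exact ⟨ih.2, ih.1⟩
  | trans _ _ _ _ _ ih1 ih2 =>
    constructor
    · intro D hD e
      obtain ⟨E, e1, i1⟩ := ih1.1 D hD e
      obtain ⟨E2, e2, i2⟩ := ih2.1 E (i1.closed hD) e1
      exact ⟨E2, e2, .trans _ _ _ i1 i2⟩
    · intro D hD e
      obtain ⟨E, e1, i1⟩ := ih2.2 D hD e
      obtain ⟨E2, e2, i2⟩ := ih1.2 E (i1.closed hD) e1
      exact ⟨E2, e2, .trans _ _ _ i1 i2⟩

end LiftAux

theorem stLift (h1 : StRelabel) (h2 : StLiftBM) : StLift := by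
  intro Λ Λ' _ _ f hf D E' hD h
  obtain ⟨E, e, i⟩ := (LiftAux.iso h1 h2 hf h).1 D hD rfl
  exact ⟨E, i.closed hD, e, i⟩

end Pool.Agent.H838R2.PL
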