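import Pool.Agent.H838R2.PL.Stubs

/-!
# Local moves can be lifted
-/

set_option autoImplicit false
set_option linter.unusedSectionVars false
set_option linter.unusedSimpArgs false

namespace Pool.Agent.H838R2.PL

variable {Λ Λ' : Type} [Palette Λ] [Palette Λ'] {f : Λ → Λ'}

namespace LiftBM

theorem w1 {m : Word Λ} {s' : Slice Λ'} (h : relabelW f m = [s']) :
    ∃ s, m = [s] ∧ Slice.map f s = s' := by
  simpa [relabelW] using h

theorem w2 {m : Word Λ} {s' t' : Slice Λ'} (h : relabelW f m = [s', t']) :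
    ∃ s t, m = [s, t] ∧ Slice.map f s = s' ∧ Slice.map f t = t' := by
  unfold relabelW at h
  obtain ⟨s, m1, rfl, h1, h⟩ := List.map_eq_cons_iff.1 h
  obtain ⟨t, m2, rfl, h2, h⟩ := List.map_eq_cons_iff.1 h
  rw [List.map_eq_nil_iff.1 h]
  exact ⟨s, t, rfl, h1, h2⟩

theorem w3 {m : Word Λ} {s' t' u' : Slice Λ'} (h : relabelW f m = [s', t', u']) :
    ∃ s t u, m = [s, t, u] ∧ Slice.map f s = s' ∧ Slice.map f t = t' ∧ Slice.map f u = u' := by
  unfold relabelW at h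
  obtain ⟨s, m1, rfl, h1, h⟩ := List.map_eq_cons_iff.1 h
  obtain ⟨t, m2, rfl, h2, h⟩ := w2 h
  exact ⟨s, t, m2, rfl, h1, h2, h⟩

theorem sbirth {s : Slice Λ} {L' R' : List Λ'} {a' : Λ'}
    (h : Slice.map f s = ⟨L', .birth a', R'⟩) :
    ∃ L a R, s = ⟨L, .birth a, R⟩ ∧ L.map f = L' ∧ f a = a' ∧ R.map f = R' := by
  obtain ⟨L, p, R⟩ := s
  cases p <;> simp [Slice.map, Loc.map] at h
  exact ⟨L, _, R, rfl, h.1, h.2.1, h.2.2⟩

theorem sdeath {s : Slice Λ} {L' R' : List Λ'} {a' : Λ'}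
    (h : Slice.map f s = ⟨L', .death a', R'⟩) :
    ∃ L a R, s = ⟨L, .death a, R⟩ ∧ L.map f = L' ∧ f a = a' ∧ R.map f = R' := by
  obtain ⟨L, p, R⟩ := s
  cases p <;> simp [Slice.map, Loc.map] at h
  exact ⟨L, _, R, rfl, h.1, h.2.1, h.2.2⟩

theorem scr {s : Slice Λ} {L' R' : List Λ'} {b : Bool} {x' y' : Λ'}
    (h : Slice.map f s = ⟨L', .cr b x' y', R'⟩) :
    ∃ L x y R, s = ⟨L, .cr b x y, R⟩ ∧ L.map f = L' ∧ f x = x' ∧ f y = y' ∧ R.map f = R' := by
  obtain ⟨L, p, R⟩ := s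
  cases p <;> simp [Slice.map, Loc.map] at h
  obtain ⟨h1, ⟨rfl, h2, h3⟩, h4⟩ := h
  exact ⟨L, _, _, R, rfl, h1, h2, h3, h4⟩

theorem l1 {L : List Λ} {x' : Λ'} (h : L.map f = [x']) : ∃ x, L = [x] ∧ f x = x' := by
  simpa using h

theorem l2 {L : List Λ} {x' y' : Λ'} (h : L.map f = [x', y']) :
    ∃ x y, L = [x, y] ∧ f x = x' ∧ f y = y' := by
  obtain ⟨x, L1, rfl, h1, h⟩ := List.map_eq_cons_iff.1 h
  obtain ⟨y, rfl, h2⟩ := l1 h
  exact ⟨x, y, rfl, h1, h2⟩

theorem l0 {L : List Λ} (h : L.map f = []) : L = [] := List.map_eq_nil_iff.1 h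

theorem src_map (hf : Hom f) (p : Loc Λ) : (p.map f).src = p.src.map f := by
  cases p <;> simp [Loc.map, Loc.src, hf.star]

theorem tgt_map (hf : Hom f) (p : Loc Λ) : (p.map f).tgt = p.tgt.map f := by
  cases p <;> simp [Loc.map, Loc.tgt, hf.star, hf.out]

/-- words with the same vertical strands on both sides -/
theorem ctx_inv (P Q : List Λ) : ∀ (w' : Word Λ') (m : Word Λ) (A G : List Λ),
    Path (P ++ A ++ Q) m G → relabelW f m = ctx (P.map f) (Q.map f) w' →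
    ∃ (w : Word Λ) (B : List Λ), m = ctx P Q w ∧ relabelW f w = w' ∧ Path A w B ∧
      G = P ++ B ++ Q := by
  intro w'
  induction w' with
  | nil =>
    intro m A G hp hm
    have : m = [] := by simpa [relabelW] using hm
    subst this
    exact ⟨[], A, rfl, rfl, rfl, hp.symm⟩
  | cons s' w' ih =>
    intro m A G hp hm
    rw [ctx_cons] at hm
    unfold relabelW at hm
    obtain ⟨s, m1, rfl, h1, hm2⟩ := List.map_eq_cons_iff.1 hm
    clear hm
    obtain ⟨L, p, R⟩ := s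
    obtain ⟨L', p', R'⟩ := s'
    simp only [Slice.map, Slice.mk.injEq] at h1
    obtain ⟨hL, hpp, hR⟩ := h1
    obtain ⟨P1, L1, rfl, hP1, hL1⟩ := List.map_eq_append_iff.1 hL
    obtain ⟨R1, Q1, rfl, hR1, hQ1⟩ := List.map_eq_append_iff.1 hR
    have hPl : P1.length = P.length := by
      have := congrArg List.length hP1
      simpa using this
    have hQl : Q1.length = Q.length := by
      have := congrArg List.length hQ1
      simpa using this
    have hsrc := hp.1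
    simp only [Slice.src] at hsrc
    have h2 : P1 ++ (L1 ++ p.src ++ R1 ++ Q1) = P ++ (A ++ Q) := by
      simpa using hsrc
    obtain ⟨rfl, h3⟩ := List.append_inj h2 hPl
    obtain ⟨rfl, rfl⟩ := List.append_inj' h3 hQl
    have hp2 := hp.2
    have h4 : (⟨P1 ++ L1, p, R1 ++ Q1⟩ : Slice Λ).tgt = P1 ++ (L1 ++ p.tgt ++ R1) ++ Q1 := by
      simp [Slice.tgt]
    rw [h4] at hp2
    obtain ⟨w, B, rfl, hw, hpw, rfl⟩ := ih m1 _ _ hp2 hm2
    refine ⟨⟨L1, p, R1⟩ :: w, B, rfl, ?_, ⟨rfl, hpw⟩, rfl⟩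
    unfold relabelW at hw ⊢
    rw [List.map_cons, hw]
    simp only [Slice.map, hL1, hpp, hR1]

theorem finish {A B A₀ B₀ : List Λ} {m : Word Λ} (hm : m ≠ []) (hp : Path A m B)
    (h : Path A₀ m B₀) : A = A₀ ∧ B = B₀ := by
  have h1 := Path.src_unique hm hp h
  subst h1
  exact ⟨rfl, Path.tgt_unique hp h⟩

theorem coreL (hf : Hom f) {A' B' : List Λ'} {l' r' : Word Λ'} (h : BM A' l' r' B') :
    ∀ (A B : List Λ) (m : Word Λ), Path A m B → A.map f = A' → relabelW f m = l' →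
      ∃ r, relabelW f r = r' ∧ BM A m r B := by
  intro A B m hp hA hm
  cases h with
  | zig1 x' =>
    obtain ⟨s, t, rfl, hs, ht⟩ := w2 hm
    obtain ⟨L1, a, R1, rfl, hL1, ha, hR1⟩ := sbirth hs
    obtain ⟨L2, e, R2, rfl, hL2, he, hR2⟩ := sdeath ht
    obtain rfl := l0 hL1
    obtain ⟨c, rfl, hc⟩ := l1 hR1
    obtain ⟨d, rfl, hd⟩ := l1 hL2
    obtain rfl := l0 hR2
    simp [Path, Slice.src, Slice.tgt, Loc.src, Loc.tgt] at hp
    obtain ⟨rfl, ⟨rfl, rfl, h3⟩, rfl⟩ := hp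
    simp at h3
    subst h3
    exact ⟨[], rfl, BM.zig1 _⟩
  | zig2 x' =>
    obtain ⟨s, t, rfl, hs, ht⟩ := w2 hm
    obtain ⟨L1, a, R1, rfl, hL1, ha, hR1⟩ := sbirth hs
    obtain ⟨L2, e, R2, rfl, hL2, he, hR2⟩ := sdeath ht
    obtain rfl := l0 hR1
    obtain ⟨c, rfl, hc⟩ := l1 hL1
    obtain ⟨d, rfl, hd⟩ := l1 hR2
    obtain rfl := l0 hL2
    simp [Path, Slice.src, Slice.tgt, Loc.src, Loc.tgt] at hp
    obtain ⟨rfl, ⟨rfl, rfl, h3⟩, rfl⟩ := hp
    simp at h3
    subst h3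
    exact ⟨[], rfl, BM.zig2 _⟩
  | rb b a' =>
    obtain ⟨s, t, rfl, hs, ht⟩ := w2 hm
    obtain ⟨L1, a, R1, rfl, hL1, ha, hR1⟩ := sbirth hs
    obtain ⟨L2, x, y, R2, rfl, hL2, hx, hy, hR2⟩ := scr ht
    obtain rfl := l0 hL1
    obtain rfl := l0 hR1
    obtain rfl := l0 hL2
    obtain rfl := l0 hR2
    subst ha
    have hp2 := hp.2.1
    simp [Slice.src, Slice.tgt, Loc.src, Loc.tgt] at hp2
    obtain ⟨rfl, rfl⟩ := hp2
    have hb := BM.rb b x
    obtain ⟨rfl, rfl⟩ := finish (by simp) hp hb.path.1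
    exact ⟨_, by simp [relabelW, Slice.map, Loc.map, hf.star], hb⟩
  | rd b a' =>
    obtain ⟨s, t, rfl, hs, ht⟩ := w2 hm
    obtain ⟨L1, x, y, R1, rfl, hL1, hx, hy, hR1⟩ := scr hs
    obtain ⟨L2, e, R2, rfl, hL2, he, hR2⟩ := sdeath ht
    obtain rfl := l0 hL1
    obtain rfl := l0 hR1
    obtain rfl := l0 hL2
    obtain rfl := l0 hR2
    have hp2 := hp.2.1
    simp [Slice.src, Slice.tgt, Loc.src, Loc.tgt] at hp2
    have hxy : y = star x ∧ e = star x := by
      obtain ⟨h1, h2⟩ := hp2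
      cases b
      · simp [out] at h1 h2
        subst h1
        have h3 : x = star e := by
          have := congrArg (fun t => Palette.l t e) h2
          simp at this
          exact this.symm
        rw [h3]
        simp
      · simp [out] at h1 h2
        have h3 : e = star x := by rw [← h2]; simp
        refine ⟨?_, h3⟩
        rw [h3] at h1
        have := congrArg (fun t => Palette.r t x) h1
        simp at this
        exact this.symm
    obtain ⟨rfl, rfl⟩ := hxy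
    subst hx
    have hb := BM.rd b x
    obtain ⟨rfl, rfl⟩ := finish (by simp) hp hb.path.1
    exact ⟨_, by simp [relabelW, Slice.map, Loc.map, hf.star], hb⟩
  | r2 b x' y' =>
    obtain ⟨s, t, rfl, hs, ht⟩ := w2 hm
    obtain ⟨L1, x, y, R1, rfl, hL1, hx, hy, hR1⟩ := scr hs
    obtain ⟨L2, u, v, R2, rfl, hL2, hu, hv, hR2⟩ := scr ht
    obtain rfl := l0 hL1
    obtain rfl := l0 hR1
    obtain rfl := l0 hL2
    obtain rfl := l0 hR2
    have hp2 := hp.2.1
    simp [Slice.src, Slice.tgt, Loc.src, Loc.tgt] at hp2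
    obtain ⟨rfl, rfl⟩ := hp2
    have hb := BM.r2 b x y
    obtain ⟨rfl, rfl⟩ := finish (by simp) hp hb.path.1
    exact ⟨[], rfl, hb⟩
  | r3 a b c h x' y' z' u₁' u₂' v₁' v₂' w₁' w₂' p₁' p₂' q₁' hu hv hw hpp q₂' hq =>
    obtain ⟨s, t, u, rfl, hs, ht, hu'⟩ := w3 hm
    obtain ⟨L1, x, y, R1, rfl, hL1, hx, hy, hR1⟩ := scr hs
    obtain ⟨L2, x2, y2, R2, rfl, hL2, hx2, hy2, hR2⟩ := scr ht
    obtain ⟨L3, x3, y3, R3, rfl, hL3, hx3, hy3, hR3⟩ := scr hu'
    obtain rfl := l0 hL1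
    obtain ⟨z, rfl, hz⟩ := l1 hR1
    obtain ⟨u1, rfl, hu1⟩ := l1 hL2
    obtain rfl := l0 hR2
    obtain rfl := l0 hL3
    obtain ⟨v2, rfl, hv2⟩ := l1 hR3
    have hp2 := hp.2.1
    have hp3 := hp.2.2.1
    simp [Slice.src, Slice.tgt, Loc.src, Loc.tgt] at hp2 hp3
    obtain ⟨rfl, rfl, rfl⟩ := hp2
    obtain ⟨rfl, rfl, rfl⟩ := hp3
    have hb := BM.r3 a b c h x y y2 (out a x y).1 (out a x y).2 (out b (out a x y).2 y2).1
      (out b (out a x y).2 y2).2 (out c (out a x y).1 (out b (out a x y).2 y2).1).1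
      (out c (out a x y).1 (out b (out a x y).2 y2).1).2 (out c y y2).1 (out c y y2).2
      (out b x (out c y y2).1).1 rfl rfl rfl rfl (out b x (out c y y2).1).2 rfl
    obtain ⟨rfl, rfl⟩ := finish (by simp) hp hb.path.1
    subst hx hy hz
    rw [hf.out] at hpp
    obtain ⟨rfl, rfl⟩ := Prod.mk.inj hpp
    rw [hf.out] at hq
    obtain ⟨rfl, rfl⟩ := Prod.mk.inj hq
    exact ⟨_, by simp [relabelW, Slice.map, Loc.map, hf.star], hb⟩
  | sb b a' s' a'' h =>
    obtain ⟨s, t, rfl, hs, ht⟩ := w2 hm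
    obtain ⟨L1, a, R1, rfl, hL1, ha, hR1⟩ := sbirth hs
    obtain ⟨L2, x, y, R2, rfl, hL2, hx, hy, hR2⟩ := scr ht
    obtain rfl := l0 hL1
    obtain ⟨s1, rfl, hs1⟩ := l1 hR1
    obtain ⟨a1, rfl, ha1⟩ := l1 hL2
    obtain rfl := l0 hR2
    have hp2 := hp.2.1
    simp [Slice.src, Slice.tgt, Loc.src, Loc.tgt] at hp2
    obtain ⟨rfl, rfl, rfl⟩ := hp2
    have hb := BM.sb b a1 y _ rfl
    obtain ⟨rfl, rfl⟩ := finish (by simp) hp hb.path.1
    subst ha hs1 h
    refine ⟨_, ?_, hb⟩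
    cases b <;> simp [relabelW, Slice.map, Loc.map, hf.star, hf.r]
  | sd b x' y' z' h =>
    obtain ⟨s, t, rfl, hs, ht⟩ := w2 hm
    obtain ⟨L1, y, z, R1, rfl, hL1, hy, hz, hR1⟩ := scr hs
    obtain ⟨L2, x2, R2, rfl, hL2, hx2, hR2⟩ := sdeath ht
    obtain ⟨x, rfl, hx⟩ := l1 hL1
    obtain rfl := l0 hR1
    obtain rfl := l0 hL2
    obtain ⟨o, rfl, ho⟩ := l1 hR2
    have hp2 := hp.2.1
    simp [Slice.src, Slice.tgt, Loc.src, Loc.tgt] at hp2
    obtain ⟨rfl, h1, rfl⟩ := hp2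
    have hz' : z = if b then Palette.r (star x2) y else star x2 := by
      cases b
      · simpa [out] using h1.symm
      · simp [out] at h1
        simp [h1]
    have hb := BM.sd b x2 y z hz'
    obtain ⟨rfl, rfl⟩ := finish (by simp) hp hb.path.1
    subst hx hy hz
    refine ⟨_, ?_, hb⟩
    simp [relabelW, Slice.map, Loc.map, hf.out]
  | far p' q' M' =>
    obtain ⟨s, t, rfl, hs, ht⟩ := w2 hm
    obtain ⟨L1, p, R1⟩ := s
    obtain ⟨L2, q, R2⟩ := t
    simp only [Slice.map, Slice.mk.injEq] at hs ht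
    obtain ⟨hL1, rfl, hR1⟩ := hs
    obtain ⟨hL2, rfl, hR2⟩ := ht
    obtain rfl := l0 hL1
    obtain rfl := l0 hR2
    rw [src_map hf] at hR1
    rw [tgt_map hf] at hL2
    obtain ⟨M, S, rfl, hM, hS⟩ := List.map_eq_append_iff.1 hR1
    obtain ⟨T, M2, rfl, hT, hM2⟩ := List.map_eq_append_iff.1 hL2
    have hp2 := hp.2.1
    simp only [Slice.src, Slice.tgt, List.nil_append, List.append_nil] at hp2
    have hTl : T.length = p.tgt.length := by
      have := congrArg List.length hT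
      simpa using this
    have hSl : S.length = q.src.length := by
      have := congrArg List.length hS
      simpa using this
    rw [List.append_assoc] at hp2
    obtain ⟨rfl, h3⟩ := List.append_inj hp2 hTl
    obtain ⟨rfl, rfl⟩ := List.append_inj' h3 hSl.symm
    have hb := BM.far p q M2
    obtain ⟨rfl, rfl⟩ := finish (by simp) hp hb.path.1
    refine ⟨_, ?_, hb⟩
    simp [relabelW, Slice.map, src_map hf, tgt_map hf, hM2]

theorem coreR (hf : Hom f) {A' B' : List Λ'} {l' r' : Word Λ'} (h : BM A' l' r' B') :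
    ∀ (A B : List Λ) (m : Word Λ), Path A m B → A.map f = A' → relabelW f m = r' →
      ∃ l, relabelW f l = l' ∧ BM A l m B := by
  intro A B m hp hA hm
  cases h with
  | zig1 x' =>
    have : m = [] := by simpa [relabelW] using hm
    subst this
    obtain ⟨x, rfl, hx⟩ := l1 hA
    obtain rfl : [x] = B := hp
    subst hx
    exact ⟨_, by simp [relabelW, Slice.map, Loc.map, hf.star], BM.zig1 _⟩
  | zig2 x' =>
    have : m = [] := by simpa [relabelW] using hm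
    subst this
    obtain ⟨x, rfl, hx⟩ := l1 hA
    obtain rfl : [x] = B := hp
    subst hx
    exact ⟨_, by simp [relabelW, Slice.map, Loc.map, hf.star], BM.zig2 _⟩
  | rb b a' =>
    obtain ⟨s, rfl, hs⟩ := w1 hm
    obtain ⟨L1, c, R1, rfl, hL1, hc, hR1⟩ := sbirth hs
    obtain rfl := l0 hL1
    obtain rfl := l0 hR1
    have hb := BM.rb b (star c)
    rw [Palette.star_star] at hb
    obtain ⟨rfl, rfl⟩ := finish (by simp) hp hb.path.2
    have : f (star c) = a' := by rw [hf.star, hc, Palette.star_star]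
    exact ⟨_, by simp [relabelW, Slice.map, Loc.map, this, hc], hb⟩
  | rd b a' =>
    obtain ⟨s, rfl, hs⟩ := w1 hm
    obtain ⟨L1, c, R1, rfl, hL1, hc, hR1⟩ := sdeath hs
    obtain rfl := l0 hL1
    obtain rfl := l0 hR1
    have hb := BM.rd b c
    obtain ⟨rfl, rfl⟩ := finish (by simp) hp hb.path.2
    subst hc
    exact ⟨_, by simp [relabelW, Slice.map, Loc.map, hf.star], hb⟩
  | r2 b x' y' =>
    have : m = [] := by simpa [relabelW] using hm
    subst this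
    obtain ⟨x, y, rfl, hx, hy⟩ := l2 hA
    obtain rfl : [x, y] = B := hp
    subst hx hy
    exact ⟨_, by simp [relabelW, Slice.map, Loc.map, hf.out], BM.r2 b x y⟩
  | r3 a b c h x' y' z' u₁' u₂' v₁' v₂' w₁' w₂' p₁' p₂' q₁' hu hv hw hpp q₂' hq =>
    obtain ⟨s, t, u, rfl, hs, ht, hu'⟩ := w3 hm
    obtain ⟨L1, y, z, R1, rfl, hL1, hy, hz, hR1⟩ := scr hs
    obtain ⟨L2, x2, y2, R2, rfl, hL2, hx2, hy2, hR2⟩ := scr ht
    obtain ⟨L3, x3, y3, R3, rfl, hL3, hx3, hy3, hR3⟩ := scr hu'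
    obtain ⟨x, rfl, hx⟩ := l1 hL1
    obtain rfl := l0 hR1
    obtain rfl := l0 hL2
    obtain ⟨p2, rfl, hp2'⟩ := l1 hR2
    obtain ⟨q1, rfl, hq1⟩ := l1 hL3
    obtain rfl := l0 hR3
    have hp2 := hp.2.1
    have hp3 := hp.2.2.1
    simp [Slice.src, Slice.tgt, Loc.src, Loc.tgt] at hp2 hp3
    obtain ⟨rfl, rfl, rfl⟩ := hp2
    obtain ⟨rfl, rfl, rfl⟩ := hp3
    have hb := BM.r3 a b c h x2 y z (out a x2 y).1 (out a x2 y).2 (out b (out a x2 y).2 z).1
      (out b (out a x2 y).2 z).2 (out c (out a x2 y).1 (out b (out a x2 y).2 z).1).1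
      (out c (out a x2 y).1 (out b (out a x2 y).2 z).1).2 (out c y z).1 (out c y z).2
      (out b x2 (out c y z).1).1 rfl rfl rfl rfl (out b x2 (out c y z).1).2 rfl
    obtain ⟨rfl, rfl⟩ := finish (by simp) hp hb.path.2
    subst hx hy hz
    rw [hf.out] at hu
    obtain ⟨rfl, rfl⟩ := Prod.mk.inj hu
    rw [hf.out] at hv
    obtain ⟨rfl, rfl⟩ := Prod.mk.inj hv
    exact ⟨_, by simp [relabelW, Slice.map, Loc.map, hf.star], hb⟩
  | sb b a' s' a'' h =>
    obtain ⟨s, t, rfl, hs, ht⟩ := w2 hm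
    obtain ⟨L1, c, R1, rfl, hL1, hc, hR1⟩ := sbirth hs
    obtain ⟨L2, x, y, R2, rfl, hL2, hx, hy, hR2⟩ := scr ht
    obtain ⟨s1, rfl, hs1⟩ := l1 hL1
    obtain rfl := l0 hR1
    obtain rfl := l0 hL2
    obtain ⟨c3, rfl, hc3⟩ := l1 hR2
    have hp2 := hp.2.1
    simp [Slice.src, Slice.tgt, Loc.src, Loc.tgt] at hp2
    obtain ⟨rfl, rfl, rfl⟩ := hp2
    have hb := BM.sb b (if b then y else Palette.l y x) x y (by cases b <;> simp)
    obtain ⟨rfl, rfl⟩ := finish (by simp) hp hb.path.2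
    refine ⟨_, ?_, hb⟩
    subst hs1
    have ha : f (if b then y else Palette.l y x) = a' := by
      cases b
      · simp at h
        simp [hf.l, hc, h]
      · simp at h
        simp [hc, h]
    simp only [relabelW, Slice.map, Loc.map, List.map_cons, List.map_nil, hf.star, ha]
  | sd b x' y' z' h =>
    obtain ⟨s, t, rfl, hs, ht⟩ := w2 hm
    obtain ⟨L1, x, y, R1, rfl, hL1, hx, hy, hR1⟩ := scr hs
    obtain ⟨L2, e, R2, rfl, hL2, he, hR2⟩ := sdeath ht
    obtain rfl := l0 hL1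
    obtain ⟨z, rfl, hz⟩ := l1 hR1
    obtain ⟨o, rfl, ho⟩ := l1 hL2
    obtain rfl := l0 hR2
    have hp2 := hp.2.1
    simp [Slice.src, Slice.tgt, Loc.src, Loc.tgt] at hp2
    obtain ⟨rfl, rfl, h1⟩ := hp2
    have hz' : z = if b then Palette.r (star x) y else star x := by
      rw [← h1]
      cases b <;> simp [out, Palette.star_r]
    have hb := BM.sd b x y z hz'
    obtain ⟨rfl, rfl⟩ := finish (by simp) hp hb.path.2
    subst hx hy hz
    refine ⟨_, ?_, hb⟩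
    simp [relabelW, Slice.map, Loc.map, hf.out]
  | far p' q' M' =>
    obtain ⟨s, t, rfl, hs, ht⟩ := w2 hm
    obtain ⟨L1, q, R1⟩ := s
    obtain ⟨L2, p, R2⟩ := t
    simp only [Slice.map, Slice.mk.injEq] at hs ht
    obtain ⟨hL1, rfl, hR1⟩ := hs
    obtain ⟨hL2, rfl, hR2⟩ := ht
    obtain rfl := l0 hR1
    obtain rfl := l0 hL2
    rw [src_map hf] at hL1
    rw [tgt_map hf] at hR2
    obtain ⟨S, M, rfl, hS, hM⟩ := List.map_eq_append_iff.1 hL1
    obtain ⟨M2, T, rfl, hM2, hT⟩ := List.map_eq_append_iff.1 hR2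
    have hp2 := hp.2.1
    simp only [Slice.src, Slice.tgt, List.nil_append, List.append_nil] at hp2
    have hTl : T.length = q.tgt.length := by
      have := congrArg List.length hT
      simpa using this
    have hSl : S.length = p.src.length := by
      have := congrArg List.length hS
      simpa using this
    rw [List.append_assoc] at hp2
    obtain ⟨rfl, h3⟩ := List.append_inj hp2 hSl.symm
    obtain ⟨rfl, rfl⟩ := List.append_inj' h3 hTl
    have hb := BM.far p q M2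
    obtain ⟨rfl, rfl⟩ := finish (by simp) hp hb.path.2
    refine ⟨_, ?_, hb⟩
    simp [relabelW, Slice.map, src_map hf, tgt_map hf, hM2]

end LiftBM

theorem stLiftBM : StLiftBM := by
  intro Λ Λ' _ _ f hf A' B' P' Q' l' r' h
  constructor
  · intro F G m hp hF hm
    obtain ⟨PA, Q, rfl, hPA, rfl⟩ := List.map_eq_append_iff.1 hF
    obtain ⟨P, A, rfl, rfl, hA⟩ := List.map_eq_append_iff.1 hPA
    obtain ⟨l, B, rfl, hl, hpl, rfl⟩ := LiftBM.ctx_inv P Q l' m A G hp hm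
    obtain ⟨r, hr, hb⟩ := LiftBM.coreL hf h A B l hpl hA hl
    exact ⟨P, Q, A, B, l, r, rfl, rfl, rfl, hl, hr, rfl, rfl, hb⟩
  · intro F G m hp hF hm
    obtain ⟨PA, Q, rfl, hPA, rfl⟩ := List.map_eq_append_iff.1 hF
    obtain ⟨P, A, rfl, rfl, hA⟩ := List.map_eq_append_iff.1 hPA
    obtain ⟨r, B, rfl, hr, hpr, rfl⟩ := LiftBM.ctx_inv P Q r' m A G hp hm
    obtain ⟨l, hl, hb⟩ := LiftBM.coreR hf h A B r hpr hA hr
    exact ⟨P, Q, A, B, l, r, rfl, rfl, rfl, hl, hr, rfl, rfl, hb⟩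

end Pool.Agent.H838R2.PL
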