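import Pool.Agent.H838R2.PL.Stubs

/-!
# E2: the limit exists
-/

set_option autoImplicit false

namespace Pool.Agent.H838R2.PL

open Filter

theorem e2_target {L : ℕ∞} {n : ℕ} (hn : 1 ≤ n) {c : ℝ} (hc : 0 < c)
    (h : L = ⊤ ∨ ∃ k : ℕ, L = (k : ℕ∞) ∧ c ^ n ≤ (k : ℝ)) :
    ENNReal.ofReal c ≤ ((L : ℕ∞) : ENNReal) ^ ((1 : ℝ) / n) := by
  have hn' : (0 : ℝ) < n := by exact_mod_cast hn
  rw [one_div, ENNReal.le_rpow_inv_iff hn', ENNReal.rpow_natCast, ← ENNReal.ofReal_pow hc.le]
  rcases h with h | ⟨k, h, hk⟩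
  · rw [h, ENat.toENNReal_top]; exact le_top
  · rw [h, ENat.toENNReal_coe]
    exact ENNReal.ofReal_le_natCast.mpr hk

theorem e2_source {L : ℕ∞} {n : ℕ} (hn : 1 ≤ n) {c : ℝ} (hc : 0 < c)
    (h : ENNReal.ofReal c < ((L : ℕ∞) : ENNReal) ^ ((1 : ℝ) / n)) :
    ((⌈c ^ n⌉₊ : ℕ) : ℕ∞) ≤ L := by
  have hn' : (0 : ℝ) < n := by exact_mod_cast hn
  rw [one_div, ENNReal.lt_rpow_inv_iff hn', ENNReal.rpow_natCast, ← ENNReal.ofReal_pow hc.le] at h
  induction L using ENat.recTopCoe with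
  | top => exact le_top
  | coe k =>
    rw [ENat.toENNReal_coe] at h
    have h1 : c ^ n ≤ (k : ℝ) := ENNReal.ofReal_le_natCast.mp h.le
    exact_mod_cast Nat.ceil_le.mpr h1

theorem e2_choose (N K M : ℕ) (hM : 1 ≤ M) (hK : K ≤ N) :
    (N.choose K : ℝ) ≤ (1 + 1 / (M : ℝ)) ^ N * (M : ℝ) ^ K := by
  have hM' : (0 : ℝ) < M := by exact_mod_cast hM
  have h1 : (1 / (M : ℝ)) ^ K * 1 ^ (N - K) * (N.choose K : ℝ) ≤ (1 / (M : ℝ) + 1) ^ N := by
    rw [add_pow]
    exact Finset.single_le_sum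
      (f := fun j => (1 / (M : ℝ)) ^ j * 1 ^ (N - j) * (N.choose j : ℝ))
      (fun j _ => by positivity) (Finset.mem_range.mpr (by omega))
  rw [one_pow, mul_one] at h1
  have h2 : (N.choose K : ℝ) = ((1 / (M : ℝ)) ^ K * (N.choose K : ℝ)) * (M : ℝ) ^ K := by
    rw [mul_right_comm, ← mul_pow, one_div, inv_mul_cancel₀ hM'.ne', one_pow, one_mul]
  rw [h2, add_comm (1 : ℝ)]
  exact mul_le_mul_of_nonneg_right h1 (by positivity)

theorem e2_step {l : ℕ → ℕ∞} (H : ∀ (m k a b N K f : ℕ), K = k + a + b → 3 ≤ K →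
    N = k * (m + 6) + 8 * a + 9 * b → (f : ℕ∞) ≤ l m →
    ((f ^ k : ℕ) : ℕ∞) ≤ l N * ((N.choose K * K ^ 2 : ℕ) : ℕ∞))
    {m N : ℕ} (hN : 56 ≤ N) {c c' : ℝ} (hc : 1 ≤ c) (hc' : 0 < c')
    (hm : ((⌈c ^ m⌉₊ : ℕ) : ℕ∞) ≤ l m)
    (hlog : (N : ℝ) * Real.log c' + (57 * (m * Real.log c) +
        ((m : ℝ) + 13) * Real.log ((m : ℝ) + 6)) + 2 * Real.log N ≤
      N * ((m : ℝ) / (m + 6) * Real.log c - 1 / ((m : ℝ) + 6) -
        Real.log ((m : ℝ) + 6) / (m + 6))) :
    l N = ⊤ ∨ ∃ k : ℕ, l N = (k : ℕ∞) ∧ c' ^ N ≤ (k : ℝ) := by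
  set M : ℕ := m + 6 with hM
  have hcf : c ^ m ≤ ((⌈c ^ m⌉₊ : ℕ) : ℝ) := Nat.le_ceil _
  generalize ⌈c ^ m⌉₊ = f at hm hcf
  set k : ℕ := (N - 56) / M with hk
  have hMpos : 0 < M := by omega
  have hkM : k * M ≤ N - 56 := Nat.div_mul_le_self _ _
  have hkM2 : N - 56 < (k + 1) * M := by
    rw [hk]
    have := Nat.lt_div_mul_add (a := N - 56) (b := M) hMpos
    rw [add_mul, one_mul]
    exact this
  clear_value k
  set r : ℕ := N - k * M with hr
  have hr1 : 56 ≤ r := by omega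
  have hr2 : r < 56 + M := by
    have : (k + 1) * M = k * M + M := by ring
    omega
  have hKN : k + r / 8 ≤ N := by
    have h1 : k ≤ k * M := Nat.le_mul_of_pos_right _ hMpos
    have h2 : r / 8 ≤ r := Nat.div_le_self _ _
    omega
  have hineq := H m k (r / 8 - r % 8) (r % 8) N (k + r / 8) f (by omega) (by omega)
    (by rw [← hM]; omega) hm
  set K : ℕ := k + r / 8 with hK
  cases hL : l N with
  | top => exact Or.inl rfl
  | coe n1 =>
    right
    refine ⟨n1, rfl, ?_⟩
    rw [hL] at hineq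
    have hnat : f ^ k ≤ n1 * (N.choose K * K ^ 2) := by exact_mod_cast hineq
    have hM' : (0 : ℝ) < M := by exact_mod_cast hMpos
    have hK7 : 7 ≤ K := by omega
    have hKpos : (0 : ℝ) < K := by
      have : 0 < K := by omega
      exact_mod_cast this
    have hNpos : (0 : ℝ) < N := by
      have : 0 < N := by omega
      exact_mod_cast this
    have hcm : 0 < c ^ m := by positivity
    have hreal : (c ^ m) ^ k ≤ (n1 : ℝ) * (((1 + 1 / (M : ℝ)) ^ N * (M : ℝ) ^ K) * (K : ℝ) ^ 2) := by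
      have h1 : (c ^ m) ^ k ≤ (f : ℝ) ^ k := pow_le_pow_left₀ hcm.le hcf _
      have h2 : (f : ℝ) ^ k ≤ (n1 : ℝ) * ((N.choose K : ℝ) * (K : ℝ) ^ 2) := by
        exact_mod_cast hnat
      have h3 := e2_choose N K M hMpos hKN
      have h4 : (n1 : ℝ) * ((N.choose K : ℝ) * (K : ℝ) ^ 2) ≤
          (n1 : ℝ) * (((1 + 1 / (M : ℝ)) ^ N * (M : ℝ) ^ K) * (K : ℝ) ^ 2) := by
        refine mul_le_mul_of_nonneg_left ?_ (Nat.cast_nonneg _)
        exact mul_le_mul_of_nonneg_right h3 (by positivity)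
      exact h1.trans (h2.trans h4)
    have hn1 : (0 : ℝ) < n1 := by
      rcases Nat.eq_zero_or_pos n1 with h | h
      · rw [h] at hreal
        simp only [Nat.cast_zero, zero_mul] at hreal
        have : 0 < (c ^ m) ^ k := by positivity
        linarith
      · exact_mod_cast h
    have hlog2 : (k : ℝ) * (m * Real.log c) ≤ Real.log n1 + (N * Real.log (1 + 1 / (M : ℝ)) +
        K * Real.log M + 2 * Real.log K) := by
      have h1 := Real.log_le_log (by positivity) hreal
      have h2 : (0 : ℝ) < 1 + 1 / (M : ℝ) := by positivity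
      rw [Real.log_pow, Real.log_pow, Real.log_mul hn1.ne' (by positivity),
        Real.log_mul (by positivity) (by positivity),
        Real.log_mul (by positivity) (by positivity), Real.log_pow, Real.log_pow,
        Real.log_pow] at h1
      push_cast at h1
      exact h1
    -- estimates
    have hlc : 0 ≤ Real.log c := Real.log_nonneg hc
    have hlM : 0 ≤ Real.log (M : ℝ) := Real.log_nonneg (by exact_mod_cast hMpos)
    have hl1 : Real.log (1 + 1 / (M : ℝ)) ≤ 1 / (M : ℝ) := by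
      have := Real.log_le_sub_one_of_pos (show (0 : ℝ) < 1 + 1 / (M : ℝ) by positivity)
      linarith
    have hl2 : Real.log K ≤ Real.log N := Real.log_le_log hKpos (by exact_mod_cast hKN)
    have hk1 : (N : ℝ) / M - 57 ≤ k := by
      have h1 : N ≤ (k + 57) * M := by
        have t1 : (k + 1) * M = k * M + M := by ring
        have t2 : (k + 57) * M = k * M + 57 * M := by ring
        omega
      rw [sub_le_iff_le_add, div_le_iff₀ hM']
      exact_mod_cast h1
    have hK1 : (K : ℝ) ≤ N / M + (M + 7) := by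
      have h1 : (k : ℝ) ≤ N / M := by
        rw [le_div_iff₀ hM']
        have : k * M ≤ N := by omega
        exact_mod_cast this
      have h2 : r / 8 ≤ M + 7 := by omega
      have h3 : ((r / 8 : ℕ) : ℝ) ≤ M + 7 := by exact_mod_cast h2
      have h4 : (K : ℝ) = k + ((r / 8 : ℕ) : ℝ) := by rw [hK]; push_cast; rfl
      rw [h4]; linarith
    have hMc : ((M : ℕ) : ℝ) = (m : ℝ) + 6 := by rw [hM]; push_cast; ring
    have hmlc : 0 ≤ (m : ℝ) * Real.log c := by positivity
    have e1 : ((N : ℝ) / M - 57) * (m * Real.log c) ≤ k * (m * Real.log c) :=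
      mul_le_mul_of_nonneg_right hk1 hmlc
    have e2 : (K : ℝ) * Real.log M ≤ (N / M + (M + 7)) * Real.log M :=
      mul_le_mul_of_nonneg_right hK1 hlM
    have e3 : (N : ℝ) * Real.log (1 + 1 / (M : ℝ)) ≤ N * (1 / (M : ℝ)) :=
      mul_le_mul_of_nonneg_left hl1 hNpos.le
    have hfin : (N : ℝ) * Real.log c' ≤ Real.log n1 := by
      rw [← hMc] at hlog
      have e4 : ((m : ℝ) + 13) = M + 7 := by rw [hMc]; ring
      rw [e4] at hlog
      have e5 : (N : ℝ) * ((m : ℝ) / M * Real.log c - 1 / (M : ℝ) - Real.log (M : ℝ) / M) =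
          (N : ℝ) / M * (m * Real.log c) - N * (1 / (M : ℝ)) - N / M * Real.log M := by ring
      rw [e5] at hlog
      nlinarith
    have h1 : Real.log (c' ^ N) ≤ Real.log n1 := by rw [Real.log_pow]; exact hfin
    exact (Real.log_le_log_iff (by positivity) hn1).mp h1

theorem e2_m0 {c c' : ℝ} (hc' : 0 < c') (hcc : c' < c) :
    ∀ᶠ m : ℕ in atTop, Real.log c' < (m : ℝ) / (m + 6) * Real.log c - 1 / ((m : ℝ) + 6) -
        Real.log ((m : ℝ) + 6) / (m + 6) := by
  have hM : Tendsto (fun m : ℕ => (m : ℝ) + 6) atTop atTop :=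
    tendsto_atTop_add_const_right _ _ tendsto_natCast_atTop_atTop
  have h1 : Tendsto (fun m : ℕ => 1 / ((m : ℝ) + 6)) atTop (nhds 0) := by
    simp only [one_div]
    exact tendsto_inv_atTop_zero.comp hM
  have h2 : Tendsto (fun m : ℕ => Real.log ((m : ℝ) + 6) / (m + 6)) atTop (nhds 0) := by
    have := (Real.tendsto_pow_log_div_mul_add_atTop 1 0 1 one_ne_zero).comp hM
    refine this.congr fun m => ?_
    simp [Function.comp]
  have h3 : Tendsto (fun m : ℕ => (m : ℝ) / (m + 6)) atTop (nhds 1) := by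
    have : Tendsto (fun m : ℕ => 1 - 6 * (1 / ((m : ℝ) + 6))) atTop (nhds (1 - 6 * 0)) :=
      tendsto_const_nhds.sub (h1.const_mul 6)
    rw [mul_zero, sub_zero] at this
    refine this.congr fun m => ?_
    have : (m : ℝ) + 6 ≠ 0 := by positivity
    field_simp
    ring
  have h4 := ((h3.mul_const (Real.log c)).sub h1).sub h2
  rw [one_mul, sub_zero, sub_zero] at h4
  exact h4.eventually_const_lt (Real.log_lt_log hc' hcc)

theorem e2_N0 (A B δ : ℝ) (hδ : A < δ) :
    ∀ᶠ N : ℕ in atTop, (N : ℝ) * A + B + 2 * Real.log N ≤ N * δ := by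
  have h1 : Tendsto (fun N : ℕ => B * (1 / (N : ℝ))) atTop (nhds (B * 0)) := by
    refine Tendsto.const_mul B ?_
    simp only [one_div]
    exact tendsto_inv_atTop_zero.comp tendsto_natCast_atTop_atTop
  have h2 : Tendsto (fun N : ℕ => 2 * (Real.log (N : ℝ) / N)) atTop (nhds (2 * 0)) := by
    refine Tendsto.const_mul 2 ?_
    have := (Real.tendsto_pow_log_div_mul_add_atTop 1 0 1 one_ne_zero).comp
      (tendsto_natCast_atTop_atTop (R := ℝ))
    refine this.congr fun m => ?_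
    simp [Function.comp]
  have h3 := h1.add h2
  rw [mul_zero, mul_zero, add_zero] at h3
  filter_upwards [h3.eventually_lt_const (show (0 : ℝ) < δ - A by linarith),
    eventually_gt_atTop 0] with N hN hN0
  have hN' : (0 : ℝ) < N := by exact_mod_cast hN0
  have h4 : (N : ℝ) * (B * (1 / (N : ℝ)) + 2 * (Real.log (N : ℝ) / N)) ≤ N * (δ - A) :=
    mul_le_mul_of_nonneg_left hN.le hN'.le
  have h5 : (N : ℝ) * (B * (1 / (N : ℝ)) + 2 * (Real.log (N : ℝ) / N)) =
      B + 2 * Real.log N := by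
    field_simp
  rw [h5] at h4
  linarith

theorem stLimit : StLimit := by
  intro l H
  set x : ℕ → ENNReal := fun n => ((l n : ℕ∞) : ENNReal) ^ ((1 : ℝ) / n) with hx
  -- lower bound 1
  have hone : ∀ N : ℕ, 56 ≤ N → ENNReal.ofReal 1 ≤ x N := by
    intro N hN
    refine e2_target (by omega) one_pos ?_
    have hineq := H 0 0 (N / 8 - N % 8) (N % 8) N (N / 8) 0 (by omega) (by omega) (by omega)
      (by simp)
    cases hL : l N with
    | top => exact Or.inl rfl
    | coe n1 =>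
      right
      refine ⟨n1, rfl, ?_⟩
      rw [hL] at hineq
      have hnat : 0 ^ 0 ≤ n1 * (N.choose (N / 8) * (N / 8) ^ 2) := by exact_mod_cast hineq
      have : 1 ≤ n1 := by
        rcases Nat.eq_zero_or_pos n1 with h | h
        · rw [h, zero_mul] at hnat
          norm_num at hnat
        · exact h
      rw [one_pow]
      exact_mod_cast this
  have key : ∀ c' c : ℝ, 0 < c' → c' < c → (∃ᶠ m in atTop, ENNReal.ofReal c < x m) →
      ∀ᶠ N in atTop, ENNReal.ofReal c' ≤ x N := by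
    intro c' c hc' hcc hfr
    rcases le_or_gt c 1 with h1 | h1
    · filter_upwards [eventually_ge_atTop 56] with N hN
      exact (ENNReal.ofReal_le_ofReal (hcc.le.trans h1)).trans (hone N hN)
    · obtain ⟨m, hm1, hm2, hm3⟩ := (hfr.and_eventually
        ((e2_m0 hc' hcc).and (eventually_ge_atTop 1))).exists
      have hf := e2_source hm3 (by linarith : (0 : ℝ) < c) hm1
      filter_upwards [e2_N0 _ (57 * (m * Real.log c) +
        ((m : ℝ) + 13) * Real.log ((m : ℝ) + 6)) _ hm2, eventually_ge_atTop 56] with N hN hN56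
      exact e2_target (by omega) hc' (e2_step H hN56 h1.le hc' hf hN)
  refine ⟨limsup x atTop, tendsto_of_le_liminf_of_limsup_le ?_ le_rfl⟩
  refine le_of_forall_lt_imp_le_of_dense fun a ha => ?_
  obtain ⟨b, hab, hb⟩ := exists_between ha
  have hbt : b ≠ ⊤ := ne_top_of_lt hb
  have hat : a ≠ ⊤ := ne_top_of_lt hab
  rcases eq_or_ne a 0 with h0 | h0
  · rw [h0]; exact bot_le
  · have ha' : 0 < a.toReal := ENNReal.toReal_pos h0 hat
    have hab' : a.toReal < b.toReal := (ENNReal.toReal_lt_toReal hat hbt).mpr hab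
    have hfr := frequently_lt_of_lt_limsup (by isBoundedDefault) hb
    have := key a.toReal b.toReal ha' hab' (by rwa [ENNReal.ofReal_toReal hbt])
    rw [ENNReal.ofReal_toReal hat] at this
    exact le_liminf_of_le (by isBoundedDefault) this

end Pool.Agent.H838R2.PL
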