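import Pool.Agent.H838R2.PL.Stubs

/-!
# (D4b) The number of rings with the same diagram
-/

set_option autoImplicit false
set_option linter.unusedSectionVars false

namespace Pool.Agent.H838R2.PL

namespace Mult

/-- is the slice a crossing? -/
def isCr {Λ : Type} (s : Slice Λ) : Bool := match s.p with
  | .cr _ _ _ => true
  | _ => false

theorem cross_eq {Λ : Type} (D : Diag Λ) : cross D = D.2.countP isCr := rfl

/-- the positions of the elements satisfying `q` -/
def pos {α : Type} (q : α → Bool) (w : List α) : Finset ℕ :=
  (Finset.range w.length).filter fun j => (w[j]?).any q = true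

theorem card_pos {α : Type} (q : α → Bool) (w : List α) : (pos q w).card = w.countP q := by
  induction w using List.reverseRecOn with
  | nil => simp [pos]
  | append_singleton w a ih =>
    have h1 : pos q (w ++ [a]) = if q a then insert w.length (pos q w) else pos q w := by
      ext j
      unfold pos
      by_cases hj : j < w.length
      · have e : (w ++ [a])[j]? = w[j]? := List.getElem?_append_left hj
        have hne : j ≠ w.length := by omega
        split_ifs
        · simp only [Finset.mem_filter, Finset.mem_range, Finset.mem_insert, e,
            List.length_append, List.length_singleton]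
          constructor
          · rintro ⟨_, h⟩; exact Or.inr ⟨hj, h⟩
          · rintro (h | ⟨_, h⟩)
            · exact absurd h hne
            · exact ⟨by omega, h⟩
        · simp only [Finset.mem_filter, Finset.mem_range, e,
            List.length_append, List.length_singleton]
          constructor
          · rintro ⟨_, h⟩; exact ⟨hj, h⟩
          · rintro ⟨_, h⟩; exact ⟨by omega, h⟩
      · by_cases hj' : j = w.length
        · subst hj'
          have e : (w ++ [a])[w.length]? = some a := by simp
          split_ifs with hq
          · simp only [Finset.mem_filter, Finset.mem_range, Finset.mem_insert, e,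
              List.length_append, List.length_singleton, Option.any_some, hq]
            simp
          · simp only [Finset.mem_filter, Finset.mem_range, e,
              List.length_append, List.length_singleton, Option.any_some]
            simp [hq]
        · split_ifs
          · simp only [Finset.mem_filter, Finset.mem_range, Finset.mem_insert,
              List.length_append, List.length_singleton]
            constructor
            · rintro ⟨h, _⟩; omega
            · rintro (h | ⟨h, _⟩) <;> omega
          · simp only [Finset.mem_filter, Finset.mem_range,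
              List.length_append, List.length_singleton]
            constructor
            · rintro ⟨h, _⟩; omega
            · rintro ⟨h, _⟩; omega
    rw [h1, List.countP_append, ← ih]
    split_ifs with hq
    · rw [Finset.card_insert_of_notMem]
      · simp [hq]
      · simp [pos]
    · simp [hq]

/-- a positive count gives a position -/
theorem exists_pos {Λ : Type} {p q : Λ → Bool} {D : Diag Λ} (h : cnt p q D ≠ 0) :
    ∃ j : ℕ, ∃ b x y, (D.2[j]?).map Slice.p = some (.cr b x y) ∧ p (if b then x else y) = true := by
  unfold cnt at h
  have h2 : ∃ s ∈ D.2, cntS p q s ≠ 0 := by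
    by_contra hcon
    push Not at hcon
    apply h
    apply List.sum_eq_zero
    intro n hn
    rw [List.mem_map] at hn
    obtain ⟨s, hs, rfl⟩ := hn
    exact hcon s hs
  obtain ⟨s, hs, hc⟩ := h2
  obtain ⟨j, hj⟩ := List.mem_iff_getElem?.1 hs
  unfold cntS at hc
  rcases hp : s.p with a | a | ⟨b, x, y⟩
  · rw [hp] at hc; exact absurd rfl hc
  · rw [hp] at hc; exact absurd rfl hc
  · rw [hp] at hc
    simp only at hc
    refine ⟨j, b, x, y, by rw [hj]; simp [hp], ?_⟩
    by_contra hcon
    apply hc
    rw [if_neg]
    intro h'
    rw [Bool.and_eq_true] at h'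
    exact hcon h'.1

end Mult

open Mult in
theorem stMult (h1 : StLift) (h2 : StParity) (h3 : StTwoRings) : StMult := by
  classical
  intro K hK D hD ι _ R hgood hprops hiso hsep
  -- lift the isotopies
  have hE : ∀ t, ∃ E : Diag (Col (ℕ ⊕ ℕ)), Closed E ∧ plain E = D ∧
      Iso (ringC K (R t)) E := by
    intro t
    have hi : Iso (relabel (fun _ => pt) (ringC K (R t))) D := by
      have := hiso t
      rw [← (hprops t).plain] at this
      exact this
    obtain ⟨E, e1, e2, e3⟩ := h1 _ _ (fun _ => pt) (hom_pl _) (ringC K (R t)) D
      (hprops t).closed hi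
    exact ⟨E, e1, e2, e3⟩
  choose E hEc hEp hEi using hE
  -- positions
  have hP : ∀ t, ∀ i, ∃ j : ℕ, i < K → ∃ b x y,
      ((E t).2[j]?).map Slice.p = some (.cr b x y) ∧ (if b then x else y).c = Sum.inr i := by
    intro t i
    by_cases hi : i < K
    · have hpar := h2 (Col (ℕ ⊕ ℕ)) (isM i) (isB (prv K i)) ⟨fun _ => rfl, fun _ _ => rfl⟩
        ⟨fun _ => rfl, fun _ _ => rfl⟩ (by
          intro x ⟨ha, hb⟩
          simp only [isM, isB, decide_eq_true_eq] at ha hb
          rw [ha] at hb
          exact absurd hb (by simp)) (ringC K (R t)) (E t) (hEi t)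
      rw [((hprops t).weak i hi).1] at hpar
      have hne : cnt (isM i) (isB (prv K i)) (E t) ≠ 0 := by
        intro h0
        rw [h0] at hpar
        simp at hpar
      obtain ⟨j, b, x, y, hj, hp⟩ := exists_pos hne
      refine ⟨j, fun _ => ⟨b, x, y, hj, ?_⟩⟩
      simpa only [isM, decide_eq_true_eq] using hp
    · exact ⟨0, fun h => absurd h hi⟩
  choose P hP using hP
  set C : Finset ℕ := pos isCr D.2 with hC
  have hPC : ∀ t, ∀ i < K, P t i ∈ C := by
    intro t i hi
    obtain ⟨b, x, y, hj, _⟩ := hP t i hi
    have hD2 : D.2[P t i]? = ((E t).2[P t i]?).map (Slice.map (fun _ => pt)) := by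
      have : D.2 = (E t).2.map (Slice.map (fun _ => pt)) := by
        rw [← hEp t]; rfl
      rw [this, List.getElem?_map]
    rcases hs : (E t).2[P t i]? with _ | s
    · rw [hs] at hj; simp at hj
    · rw [hs] at hj hD2
      simp only [Option.map_some, Option.some.injEq] at hj
      simp only [Option.map_some] at hD2
      rw [hC]
      unfold pos
      rw [Finset.mem_filter, Finset.mem_range]
      constructor
      · exact (List.getElem?_eq_some_iff.1 hD2).1
      · rw [hD2]
        simp [isCr, Slice.map, hj, Loc.map]
  have hinj : ∀ t, Set.InjOn (P t) (Finset.range K : Set ℕ) := by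
    intro t i hi j hj hij
    rw [Finset.coe_range, Set.mem_Iio] at hi hj
    obtain ⟨b, x, y, e1, e2⟩ := hP t i hi
    obtain ⟨b', x', y', e1', e2'⟩ := hP t j hj
    rw [← hij, e1] at e1'
    simp only [Option.some.injEq, Loc.cr.injEq] at e1'
    obtain ⟨rfl, rfl, rfl⟩ := e1'
    rw [e2] at e2'
    exact Sum.inr_injective e2'
  have hmem : ∀ t ∈ (Finset.univ : Finset ι), (Finset.range K).image (P t) ∈
      Finset.powersetCard K C := by
    intro t _
    rw [Finset.mem_powersetCard]
    refine ⟨?_, ?_⟩
    · intro j hj
      rw [Finset.mem_image] at hj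
      obtain ⟨i, hi, rfl⟩ := hj
      exact hPC t i (Finset.mem_range.1 hi)
    · rw [Finset.card_image_of_injOn (hinj t), Finset.card_range]
  have hfib : ∀ T ∈ Finset.powersetCard K C,
      (Finset.univ.filter (fun t : ι => (Finset.range K).image (P t) = T)).card ≤ K := by
    intro T _
    rcases Finset.eq_empty_or_nonempty
      (Finset.univ.filter (fun t : ι => (Finset.range K).image (P t) = T)) with he | ⟨t₀, ht₀⟩
    · rw [he]; simp
    · have hT₀ := (Finset.mem_filter.1 ht₀).2
      have hs : ∀ t : ι, ∃ s : ℕ, (Finset.range K).image (P t) = T → s < K ∧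
          ∀ i < K, Iso (R t i) (R t₀ ((i + s) % K)) := by
        intro t
        by_cases ht : (Finset.range K).image (P t) = T
        · obtain ⟨s, hs1, hs2⟩ := h3 K hK (R t) (R t₀) (hgood t) (hgood t₀) (hprops t)
            (hprops t₀) (E t) (E t₀) (hEi t) (hEi t₀) (by rw [hEp, hEp])
            ⟨P t, hP t, P t₀, hP t₀, by rw [ht, hT₀]⟩
          exact ⟨s, fun _ => ⟨hs1, hs2⟩⟩
        · exact ⟨0, fun h => absurd h ht⟩
      choose s hs using hs
      have hcard := Finset.card_le_card_of_injOn (t := Finset.range K)
        (s := Finset.univ.filter (fun t : ι => (Finset.range K).image (P t) = T)) s ?_ ?_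
      · rwa [Finset.card_range] at hcard
      · intro t ht
        rw [Finset.mem_coe, Finset.mem_filter] at ht
        rw [Finset.coe_range, Set.mem_Iio]
        exact (hs t ht.2).1
      · intro t ht t' ht' hst
        rw [Finset.mem_coe, Finset.mem_filter] at ht ht'
        have a1 := (hs t (by simpa using ht.2)).2
        have a2 := (hs t' (by simpa using ht'.2)).2
        apply hsep
        intro i hi
        have b1 := a1 i hi
        have b2 := a2 i hi
        rw [← hst] at b2
        exact Relation.EqvGen.trans _ _ _ b1 (Relation.EqvGen.symm _ _ b2)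
  have hle := Finset.card_le_mul_card_image_of_maps_to hmem K hfib
  rw [Finset.card_univ, Finset.card_powersetCard, hC, card_pos] at hle
  rw [cross_eq]
  exact hle.trans (le_of_eq (Nat.mul_comm _ _))

end Pool.Agent.H838R2.PL
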