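import Pool.Agent.H838R2.PL.Stubs

/-!
# C3 (helper903): the property `Good.prime` for prime knots
-/

set_option autoImplicit false
set_option linter.unusedSectionVars false

namespace Pool.Agent.H838R2.PL

namespace PrimeKnot

section general

variable {Λ Λ' Λ'' : Type} [Palette Λ] [Palette Λ'] [Palette Λ'']

theorem loc_map_map (f : Λ → Λ') (g : Λ' → Λ'') (p : Loc Λ) :
    (p.map f).map g = p.map (fun x => g (f x)) := by
  cases p <;> rfl

theorem slice_map_map (f : Λ → Λ') (g : Λ' → Λ'') (s : Slice Λ) :
    (s.map f).map g = s.map (fun x => g (f x)) := by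
  simp only [Slice.map, loc_map_map, List.map_map]
  rfl

theorem relabelW_relabelW (f : Λ → Λ') (g : Λ' → Λ'') (w : Word Λ) :
    relabelW g (relabelW f w) = relabelW (fun x => g (f x)) w := by
  simp only [relabelW, List.map_map]
  refine List.map_congr_left fun s _ => slice_map_map f g s

theorem relabel_relabel (f : Λ → Λ') (g : Λ' → Λ'') (D : Diag Λ) :
    relabel g (relabel f D) = relabel (fun x => g (f x)) D := by
  simp only [relabel_eq, relabelW_relabelW, List.map_map]
  rfl

theorem relabel_congr {f g : Λ → Λ'} (h : ∀ x, f x = g x) (D : Diag Λ) :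
    relabel f D = relabel g D := by
  have : f = g := funext h
  rw [this]

theorem plainW_relabelW (f : Λ → Λ') (w : Word Λ) : plainW (relabelW f w) = plainW w :=
  relabelW_relabelW f _ w

theorem plain_relabel (f : Λ → Λ') (D : Diag Λ) : plain (relabel f D) = plain D :=
  relabel_relabel f _ D

theorem relabelW_append (f : Λ → Λ') (u v : Word Λ) :
    relabelW f (u ++ v) = relabelW f u ++ relabelW f v := List.map_append ..

theorem plainW_append (u v : Word Λ) : plainW (u ++ v) = plainW u ++ plainW v :=
  relabelW_append _ u v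

theorem delW_append (K : Λ → Bool) (u v : Word Λ) : delW K (u ++ v) = delW K u ++ delW K v :=
  List.flatMap_append ..

theorem keepLoc_map (f : Λ → Λ') (K : Λ → Bool) (K' : Λ' → Bool) (h : ∀ x, K' (f x) = K x)
    (p : Loc Λ) : keepLoc K' (p.map f) = keepLoc K p := by
  cases p <;> simp [keepLoc, Loc.map, h]

theorem filter_map (f : Λ → Λ') (K : Λ → Bool) (K' : Λ' → Bool) (h : ∀ x, K' (f x) = K x)
    (L : List Λ) : (L.map f).filter K' = (L.filter K).map f := by
  rw [List.filter_map]
  have : K' ∘ f = K := funext h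
  rw [this]

theorem delW_relabelW (f : Λ → Λ') (K : Λ → Bool) (K' : Λ' → Bool) (h : ∀ x, K' (f x) = K x)
    (w : Word Λ) : delW K' (relabelW f w) = relabelW f (delW K w) := by
  induction w with
  | nil => rfl
  | cons s w ih =>
    have h1 : delW K' (relabelW f (s :: w)) = delS K' (s.map f) ++ delW K' (relabelW f w) := rfl
    have h2 : delW K (s :: w) = delS K s ++ delW K w := rfl
    rw [h1, h2, ih, relabelW_append]
    congr 1
    unfold delS
    have h3 : keepLoc K' (s.map f).p = keepLoc K s.p := keepLoc_map f K K' h s.p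
    rw [h3]
    split_ifs
    · simp only [relabelW, List.map_cons, List.map_nil, Slice.map, filter_map f K K' h]
    · rfl

theorem delW_all (K : Λ → Bool) (w : Word Λ)
    (h : ∀ s ∈ w, (∀ x ∈ s.L, K x = true) ∧ (∀ x ∈ s.R, K x = true) ∧ keepLoc K s.p = true) :
    delW K w = w := by
  induction w with
  | nil => rfl
  | cons s w ih =>
    have h2 : delW K (s :: w) = delS K s ++ delW K w := rfl
    obtain ⟨hL, hR, hp⟩ := h s (List.mem_cons_self ..)
    rw [h2, ih fun t ht => h t (List.mem_cons_of_mem _ ht)]
    unfold delS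
    rw [if_pos hp, List.filter_eq_self.2 hL, List.filter_eq_self.2 hR]
    rfl

theorem keep_of_labels (K : Λ → Bool) (s : Slice Λ) (h1 : ∀ x ∈ s.src, K x = true)
    (h2 : ∀ x ∈ s.tgt, K x = true) :
    (∀ x ∈ s.L, K x = true) ∧ (∀ x ∈ s.R, K x = true) ∧ keepLoc K s.p = true := by
  obtain ⟨L, p, R⟩ := s
  refine ⟨fun x hx => h1 x (by simp [Slice.src, hx]), fun x hx => h1 x (by simp [Slice.src, hx]), ?_⟩
  cases p with
  | birth a => exact h2 a (by simp [Slice.tgt, Loc.tgt])
  | death a => exact h1 a (by simp [Slice.src, Loc.src])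
  | cr b x y =>
    have hx := h1 x (by simp [Slice.src, Loc.src])
    have hy := h1 y (by simp [Slice.src, Loc.src])
    simp [keepLoc, hx, hy]

end general

section hk

variable {G X : Type} [Group G] [QAct G X]

/-- the meridian label of a strand of the knot (`y` for the strands of the circle) -/
def unk (y : Mer G) : Hk G X → Mer G
  | .k a => a
  | .h _ => y

theorem isK_k {x : Hk G X} (h : isK x = true) : ∃ a, x = .k a := by
  cases x with
  | k a => exact ⟨a, rfl⟩
  | h n => simp [isK] at h

theorem out_kk (b : Bool) (a a' : Mer G) : out b (.k a : Hk G X) (.k a') =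
    (.k (out b a a').1, .k (out b a a').2) := by
  cases b <;> rfl

/-- erasing the circle of a `lens` -/
theorem del_lens (h : X) (a d : Mer G) (F : List (Mer G)) (w : Word (Mer G)) :
    del isK (lens (.h h : Hk G X) (relabel .k (a :: d :: F, w))) =
      (relabel .k (a :: d :: F, w) : Diag (Hk G X)) := by
  have hall : ∀ v : Word (Mer G), delW isK (relabelW .k v : Word (Hk G X)) = relabelW .k v := by
    intro v
    apply delW_all
    intro s hs
    obtain ⟨t, _, rfl⟩ := List.mem_map.1 hs
    refine ⟨?_, ?_, ?_⟩
    · intro x hx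
      obtain ⟨y, _, rfl⟩ := List.mem_map.1 hx
      rfl
    · intro x hx
      obtain ⟨y, _, rfl⟩ := List.mem_map.1 hx
      rfl
    · obtain ⟨L, p, R⟩ := t
      cases p <;> rfl
  have hfil : ∀ L : List (Mer G), (L.map (.k : Mer G → Hk G X)).filter isK = L.map .k := by
    intro L
    rw [List.filter_eq_self]
    intro x hx
    obtain ⟨y, _, rfl⟩ := List.mem_map.1 hx
    rfl
  have hw := hall w
  unfold del
  refine Prod.ext ?_ ?_
  · exact hfil (a :: d :: F)
  · show delW isK _ = relabelW .k w
    simp only [lens, relabel_eq, List.map_cons, hook, List.cons_append, List.nil_append]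
    simp only [delW, List.flatMap_cons, delS, keepLoc, isK, Bool.false_and, Bool.and_false,
      Bool.false_eq_true, if_false, List.nil_append]
    exact hw

/-- the labels of all strands of `K` satisfy `P` if this holds at the top and after the erasure of
the circle -/
theorem labels_of_del (P : Mer G → Prop) (w : Word (Hk G X)) : ∀ {F F' : List (Hk G X)},
    Path F w F' → (∀ a, .k a ∈ F → P a) →
    (∀ s ∈ delW isK w, (∀ a, .k a ∈ s.src → P a) ∧ ∀ a, .k a ∈ s.tgt → P a) →
    ∀ s ∈ w, (∀ a, .k a ∈ s.src → P a) ∧ ∀ a, .k a ∈ s.tgt → P a := by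
  induction w with
  | nil =>
    intro F F' _ _ _ s hs
    cases hs
  | cons s w ih =>
    intro F F' hp hF hd
    have hsrc : ∀ a, .k a ∈ s.src → P a := by
      intro a ha
      rw [hp.1] at ha
      exact hF a ha
    have hL : ∀ a, .k a ∈ s.L → P a := fun a ha => hsrc a (by simp [Slice.src, ha])
    have hR : ∀ a, .k a ∈ s.R → P a := fun a ha => hsrc a (by simp [Slice.src, ha])
    have hdel : delW isK (s :: w) = delS isK s ++ delW isK w := rfl
    have htgt : ∀ a, .k a ∈ s.tgt → P a := by
      have hmid : ∀ a, .k a ∈ s.p.tgt → P a := by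
        by_cases hk : keepLoc isK s.p = true
        · intro a ha
          have h1 : (⟨s.L.filter isK, s.p, s.R.filter isK⟩ : Slice (Hk G X)) ∈
              delW isK (s :: w) := by
            rw [hdel]
            apply List.mem_append_left
            unfold delS
            rw [if_pos hk]
            exact List.mem_singleton.2 rfl
          exact (hd _ h1).2 a (by simp [Slice.tgt, ha])
        · intro a ha
          obtain ⟨L, p, R⟩ := s
          cases p with
          | birth x =>
            cases x with
            | k x => exact absurd rfl hk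
            | h n => simp [Loc.tgt, star] at ha
          | death x => simp [Loc.tgt] at ha
          | cr b x y =>
            cases x with
            | k x =>
              cases y with
              | k y => exact absurd rfl hk
              | h n =>
                have h2 : a = x := by
                  cases b <;> simpa [Loc.tgt, out, Palette.l, Palette.r] using ha
                rw [h2]
                exact hsrc x (by simp [Slice.src, Loc.src])
            | h n =>
              cases y with
              | k y =>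
                have h2 : a = y := by
                  cases b <;> simpa [Loc.tgt, out, Palette.l, Palette.r] using ha
                rw [h2]
                exact hsrc y (by simp [Slice.src, Loc.src])
              | h m => cases b <;> simp [Loc.tgt, out, Palette.l, Palette.r] at ha
      intro a ha
      simp only [Slice.tgt, List.mem_append] at ha
      rcases ha with (ha | ha) | ha
      · exact hL a ha
      · exact hmid a ha
      · exact hR a ha
    have hrest := ih hp.2 htgt fun t ht => hd t (by
      rw [hdel]; exact List.mem_append_right _ ht)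
    intro t ht
    rcases List.mem_cons.1 ht with rfl | ht
    · exact ⟨hsrc, htgt⟩
    · exact hrest t ht

end hk

/-- heights become powers of `g` -/
def pw {G : Type} [Group G] (g : G) : Hk G Ht → Hk G (Rg G)
  | .k a => .k a
  | .h n => .h ⟨g ^ n.n⟩

theorem pw_star {G : Type} [Group G] (g : G) (x : Hk G Ht) : pw g (star x) = star (pw g x) := by
  cases x <;> rfl

theorem pw_act {G : Type} [Group G] (g : G) (a : Mer G) (ha : a.m = g) (n : Ht) :
    (⟨g ^ (a.act Ht n).n⟩ : Rg G) = a.act (Rg G) ⟨g ^ n.n⟩ ∧
    (⟨g ^ ((a.act Ht)⁻¹ n).n⟩ : Rg G) = (a.act (Rg G))⁻¹ ⟨g ^ n.n⟩ := by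
  obtain ⟨m, d⟩ := a
  subst ha
  have p1 : m ^ (n.n + 1) = m ^ n.n * m := zpow_add_one m n.n
  have p2 : m ^ (n.n - 1) = m ^ n.n * m⁻¹ := zpow_sub_one m n.n
  cases d
  · constructor
    · change (⟨m ^ (n.n - 1)⟩ : Rg G) = ⟨m ^ n.n * m⁻¹⟩
      rw [p2]
    · change (⟨m ^ (((QAct.A (G := G) (X := Ht) m)⁻¹)⁻¹ n).n⟩ : Rg G) =
        (((QAct.A (G := G) (X := Rg G) m)⁻¹)⁻¹ ⟨m ^ n.n⟩)
      rw [inv_inv, inv_inv]
      change (⟨m ^ (n.n + 1)⟩ : Rg G) = ⟨m ^ n.n * m⟩
      rw [p1]
  · constructor
    · change (⟨m ^ (n.n + 1)⟩ : Rg G) = ⟨m ^ n.n * m⟩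
      rw [p1]
    · change (⟨m ^ (n.n - 1)⟩ : Rg G) = ⟨m ^ n.n * m⁻¹⟩
      rw [p2]

theorem pw_out {G : Type} [Group G] (g : G) (b : Bool) (x y : Hk G Ht)
    (hx : ∀ a n, x = .k a → y = .h n → a.m = g) (hy : ∀ a n, y = .k a → x = .h n → a.m = g) :
    out b (pw g x) (pw g y) = (pw g (out b x y).1, pw g (out b x y).2) := by
  cases x with
  | k a =>
    cases y with
    | k a' => cases b <;> rfl
    | h n =>
      have h1 := pw_act g a (hx a n rfl rfl) n
      cases b
      · rfl
      · simp only [out, pw, if_true, Palette.l]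
        rw [h1.2]
  | h n =>
    cases y with
    | k a =>
      have h1 := pw_act g a (hy a n rfl rfl) n
      cases b
      · simp only [out, pw, Bool.false_eq_true, if_false, Palette.r]
        rw [h1.1]
      · rfl
    | h m => cases b <;> rfl

end PrimeKnot

open PrimeKnot

theorem stPrimeKnot (hRelabel : StRelabel) (hLift : StLift) (hDel : StDel)
    (hRelabelOn : StRelabelOn) (hUnitLens : StUnitLens) (hRgLens : StRgLens)
    (hHtLens : StHtLens) (hFrontHk : StFrontHk) (hHoms : StHoms) : StPrimeKnot := by
  intro G _ E a d F hE hEF had ham hprime _ A B pA pB hiso hNo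
  obtain ⟨homCol, homForget, keepK, homk, _, _, _⟩ := hHoms
  obtain ⟨Y, hY, hYf⟩ := hHtLens G E a d F hE hEF had
  obtain ⟨_, hLH, hinj⟩ := hUnitLens G E a d F hE hEF
  set LH : Diag (Hk G Unit) := lens (.h ()) (relabel .k E) with hLHdef
  -- the colours of `Y`
  have hcf : ∀ (X : Type) (_ : QAct G X) (D : Diag (Hk G X)),
      relabel hkCol (relabel hkForget D) = relabel hkCol D := by
    intro X _ D
    rw [relabel_relabel]
    exact relabel_congr (fun x => by cases x <;> rfl) D
  have hYc : relabel hkCol Y = lens2 (plain E) := by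
    rw [← hcf Ht inferInstance, hYf]; exact hLH
  -- lift the isotopy to `Y`
  obtain ⟨Y', hY', hY'c, hYY'⟩ := hLift (Hk G Ht) (Col Bool) hkCol (homCol G Ht) Y
    ([⟨false⟩], A ++ B) hY (by rw [hYc]; exact hiso)
  obtain ⟨Fr, W⟩ := Y'
  rw [relabel_eq] at hY'c
  obtain ⟨hFr, hW⟩ := Prod.mk.inj hY'c
  obtain ⟨AY, BY, rfl, hAY, hBY⟩ := List.map_eq_append_iff.1 hW
  change relabelW hkCol AY = A at hAY
  change relabelW hkCol BY = B at hBY
  obtain ⟨y, rfl⟩ : ∃ y, Fr = [Hk.k y] := by
    rcases Fr with _ | ⟨x, Fr⟩
    · simp at hFr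
    · simp only [List.map_cons, List.cons.injEq, List.map_eq_nil_iff] at hFr
      obtain ⟨h1, rfl⟩ := hFr
      cases x with
      | k y => exact ⟨y, rfl⟩
      | h n => simp [hkCol] at h1
  obtain ⟨G1, hp1, hp2⟩ := path_append.1 (show Path [Hk.k y] (AY ++ BY) [Hk.k y] from hY')
  have hG1 : G1 = [Hk.k y] := by
    have h1 := (hRelabel (Hk G Ht) (Col Bool) hkCol (homCol G Ht)).1 AY _ _ hp1
    rw [hAY] at h1
    have h2 : G1.map hkCol = [⟨false⟩] := Path.tgt_unique h1 pA
    exact hFrontHk G Ht AY y G1 hp1 h2
  subst hG1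
  -- the labels of `BY`
  have hBk : ∀ s ∈ BY, (∀ x ∈ s.src, isK x = true) ∧ ∀ x ∈ s.tgt, isK x = true := by
    intro s hs
    have hs' : s.map hkCol ∈ B := by
      rw [← hBY]; exact List.mem_map_of_mem hs
    obtain ⟨h1, h2⟩ := hNo _ hs'
    have e1 : (s.map hkCol).src = s.src.map hkCol := by
      obtain ⟨L, p, R⟩ := s
      cases p <;> simp [Slice.src, Slice.map, Loc.map, Loc.src, (homCol G Ht).star]
    have e2 : (s.map hkCol).tgt = s.tgt.map hkCol := by
      obtain ⟨L, p, R⟩ := s
      cases p <;> simp [Slice.tgt, Slice.map, Loc.map, Loc.tgt, (homCol G Ht).star,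
        (homCol G Ht).out]
    rw [e1] at h1
    rw [e2] at h2
    have key : ∀ (L : List (Hk G Ht)), (⟨true⟩ : Col Bool) ∉ L.map hkCol →
        ∀ x ∈ L, isK x = true := by
      intro L hL x hx
      cases x with
      | k a => rfl
      | h n => exact absurd (List.mem_map_of_mem (f := hkCol) hx) hL
    exact ⟨key _ h1, key _ h2⟩
  -- erase the circle
  have hdelB : delW isK BY = BY := delW_all isK BY fun s hs =>
    keep_of_labels isK s (hBk s hs).1 (hBk s hs).2
  have hdelY : plain (del isK Y) = plain E := by
    have h1 : relabel hkForget (del isK Y) = del isK LH := by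
      rw [← hYf]
      unfold del
      rw [relabel_eq, relabel_eq]
      refine Prod.ext ?_ ?_
      · exact (filter_map hkForget isK isK (fun x => by cases x <;> rfl) Y.1).symm
      · exact (delW_relabelW hkForget isK isK (fun x => by cases x <;> rfl) Y.2).symm
    have h2 : del isK LH = (relabel .k E : Diag (Hk G Unit)) := by
      obtain ⟨E1, w⟩ := E
      simp only at hEF
      subst hEF
      exact del_lens () a d F w
    rw [← plain_relabel hkForget (del isK Y), h1, h2, plain_relabel]
  have hisoK : Iso (plain E) ([pt], plainW (delW isK AY) ++ plainW B) := by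
    have h1 := (hDel (Hk G Ht) isK (keepK G Ht)).2 _ _ hYY'
    have h2 := (hRelabel (Hk G Ht) Pl (fun _ => pt) (hom_pl _)).2.1 _ _ h1
    change Iso (plain (del isK Y)) (plain (del isK ([Hk.k y], AY ++ BY))) at h2
    rw [hdelY] at h2
    have h3 : plain (del isK ([Hk.k y], AY ++ BY)) =
        ([pt], plainW (delW isK AY) ++ plainW B) := by
      unfold del plain
      rw [relabel_eq]
      refine Prod.ext rfl ?_
      show relabelW (fun _ => pt) (delW isK (AY ++ BY)) = _
      rw [delW_append, hdelB, relabelW_append, ← hBY]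
      show plainW (delW isK AY) ++ plainW BY = _
      rw [plainW_relabelW]
    rw [h3] at h2
    exact h2
  have pdA : Path [Hk.k y] (delW isK AY) [Hk.k y] :=
    (hDel (Hk G Ht) isK (keepK G Ht)).1 AY _ _ hp1
  have ppA : Path [pt] (plainW (delW isK AY)) [pt] :=
    (hRelabel (Hk G Ht) Pl (fun _ => pt) (hom_pl _)).1 _ _ _ pdA
  have ppB : Path [pt] (plainW B) [pt] :=
    (hRelabel (Col Bool) Pl (fun _ => pt) (hom_pl _)).1 _ _ _ pB
  rcases hprime.2.2.2 _ _ ppA ppB hisoK with htriv | htriv
  swap
  · exact htriv
  exfalso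
  -- all meridians in `AY` are equal
  have hkeptk : ∀ s ∈ delW isK AY, (∀ x ∈ s.L, isK x = true) ∧ (∀ x ∈ s.R, isK x = true) ∧
      keepLoc isK s.p = true := by
    intro s hs
    obtain ⟨t, _, ht⟩ := List.mem_flatMap.1 hs
    unfold delS at ht
    split_ifs at ht with hk
    · rw [List.mem_singleton] at ht
      subst ht
      exact ⟨fun x hx => (List.mem_filter.1 hx).2, fun x hx => (List.mem_filter.1 hx).2, hk⟩
    · simp at ht
  have hcompat : ∀ s ∈ delW isK AY, match s.p with
      | .birth a => unk y (star a) = star (unk y a)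
      | .death a => unk y (star a) = star (unk y a)
      | .cr b x z => out b (unk y x) (unk y z) = (unk y (out b x z).1, unk y (out b x z).2) := by
    intro s hs
    obtain ⟨_, _, hk⟩ := hkeptk s hs
    obtain ⟨L, p, R⟩ := s
    cases p with
    | birth x =>
      obtain ⟨a, rfl⟩ := isK_k (show isK x = true from hk)
      rfl
    | death x =>
      obtain ⟨a, rfl⟩ := isK_k (show isK x = true from hk)
      rfl
    | cr b x z =>
      have hk' : (isK x && isK z) = true := hk
      rw [Bool.and_eq_true] at hk'
      obtain ⟨a, rfl⟩ := isK_k hk'.1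
      obtain ⟨a', rfl⟩ := isK_k hk'.2
      cases b <;> rfl
  have pE1 : Path [y] (relabelW (unk y) (delW isK AY)) [y] :=
    hRelabelOn (Hk G Ht) (Mer G) (unk y) (delW isK AY) _ _ pdA (fun s hs => by
      have h := hcompat s hs
      obtain ⟨L, p, R⟩ := s
      cases p <;> exact h)
  obtain ⟨g, hg1, hg2⟩ := htriv.2 G ([y], relabelW (unk y) (delW isK AY)) pE1 (by
    unfold plain
    rw [relabel_eq]
    refine Prod.ext rfl ?_
    exact plainW_relabelW (unk y) (delW isK AY))
  have hyg : y.m = g := hg1 y (List.mem_singleton.2 rfl)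
  have hAk : ∀ s ∈ AY, (∀ a, .k a ∈ s.src → a.m = g) ∧ ∀ a, .k a ∈ s.tgt → a.m = g := by
    refine labels_of_del (fun a => a.m = g) AY hp1 ?_ ?_
    · intro a ha
      simp only [List.mem_singleton, Hk.k.injEq] at ha
      rw [ha]; exact hyg
    · intro s hs
      obtain ⟨h1, h2⟩ := hg2 (s.map (unk y)) (List.mem_map_of_mem hs)
      have e1 : (s.map (unk y)).src = s.src.map (unk y) := by
        have := hcompat s hs
        obtain ⟨L, p, R⟩ := s
        cases p with
        | birth x => simp [Slice.src, Slice.map, Loc.map, Loc.src]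
        | death x =>
          simp only at this
          simp [Slice.src, Slice.map, Loc.map, Loc.src, this]
        | cr b x z => simp [Slice.src, Slice.map, Loc.map, Loc.src]
      have e2 : (s.map (unk y)).tgt = s.tgt.map (unk y) := by
        have := hcompat s hs
        obtain ⟨L, p, R⟩ := s
        cases p with
        | birth x =>
          simp only at this
          simp [Slice.tgt, Slice.map, Loc.map, Loc.tgt, this]
        | death x => simp [Slice.tgt, Slice.map, Loc.map, Loc.tgt]
        | cr b x z =>
          simp only at this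
          simp [Slice.tgt, Slice.map, Loc.map, Loc.tgt, this]
      constructor
      · intro a ha
        exact h1 a (by rw [e1]; exact List.mem_map.2 ⟨_, ha, rfl⟩)
      · intro a ha
        exact h2 a (by rw [e2]; exact List.mem_map.2 ⟨_, ha, rfl⟩)
  -- the classes of the circle
  have hcomp2 : ∀ s ∈ AY ++ BY, match s.p with
      | .birth a => pw g (star a) = star (pw g a)
      | .death a => pw g (star a) = star (pw g a)
      | .cr b x z => out b (pw g x) (pw g z) = (pw g (out b x z).1, pw g (out b x z).2) := by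
    intro s hs
    have hmem := List.mem_append.1 hs
    obtain ⟨L, p, R⟩ := s
    cases p with
    | birth x => exact pw_star g x
    | death x => exact pw_star g x
    | cr b x z =>
      refine pw_out g b x z ?_ ?_
      · rintro a n rfl rfl
        rcases hmem with h | h
        · exact (hAk _ h).1 a (by simp [Slice.src, Loc.src])
        · have := (hBk _ h).1 (.h n) (by simp [Slice.src, Loc.src])
          simp [isK] at this
      · rintro a n rfl rfl
        rcases hmem with h | h
        · exact (hAk _ h).1 a (by simp [Slice.src, Loc.src])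
        · have := (hBk _ h).1 (.h n) (by simp [Slice.src, Loc.src])
          simp [isK] at this
  have hXp : Path ([Hk.k y].map (pw g)) (relabelW (pw g) (AY ++ BY)) ([Hk.k y].map (pw g)) :=
    hRelabelOn (Hk G Ht) (Hk G (Rg G)) (pw g) (AY ++ BY) _ _ hY' (fun s hs => by
      have h := hcomp2 s hs
      obtain ⟨L, p, R⟩ := s
      cases p <;> exact h)
  have hXc : Closed (relabel (pw g) ([Hk.k y], AY ++ BY) : Diag (Hk G (Rg G))) := hXp
  have hXf : Iso (relabel hkForget (relabel (pw g) ([Hk.k y], AY ++ BY))) LH := by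
    rw [relabel_relabel, relabel_congr (g := hkForget) (fun x => by cases x <;> rfl), ← hYf]
    exact Relation.EqvGen.symm _ _
      ((hRelabel (Hk G Ht) (Hk G Unit) hkForget (homForget G Ht)).2.1 _ _ hYY')
  obtain ⟨X'', hX'', hX''f, _⟩ := hLift (Hk G (Rg G)) (Hk G Unit) hkForget (homForget G (Rg G))
    _ LH hXc hXf
  obtain ⟨E', a', d', F', _, _, hE'F, hval, hE'L⟩ := hRgLens G (plain E) X'' hX'' (by
    rw [← hcf (Rg G) inferInstance, hX''f]; exact hLH) (by
    refine ⟨F.map (fun _ => pt), ?_⟩
    show E.1.map (fun _ => pt) = _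
    rw [hEF]; rfl)
  have hEE : E' = E := hinj E' (by rw [← hE'L, hX''f])
  subst hEE
  rw [hEF] at hE'F
  simp only [List.cons.injEq] at hE'F
  obtain ⟨rfl, rfl, _⟩ := hE'F
  obtain ⟨m, b⟩ := a
  obtain ⟨m', b'⟩ := d
  cases b <;> cases b' <;> simp [Mer.val] at had hval ham
  · exact ham (inv_mul_eq_one.1 hval)
  · exact ham (mul_inv_eq_one.1 hval)

end Pool.Agent.H838R2.PL
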