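import Pool.Agent.H838R2.PL.Stubs

/-!
# (C4) rigid knots
-/

set_option autoImplicit false
set_option linter.unusedSectionVars false

namespace Pool.Agent.H838R2.PL

namespace Rigid

variable {Λ Λ' Λ'' : Type} [Palette Λ] [Palette Λ'] [Palette Λ'']

theorem map_src {f : Λ → Λ'} (hf : Hom f) (s : Slice Λ) : (s.map f).src = s.src.map f := by
  obtain ⟨L, p, R⟩ := s
  cases p <;> simp [Slice.map, Slice.src, Loc.src, Loc.map, hf.star]

theorem map_tgt {f : Λ → Λ'} (hf : Hom f) (s : Slice Λ) : (s.map f).tgt = s.tgt.map f := by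
  obtain ⟨L, p, R⟩ := s
  cases p <;> simp [Slice.map, Slice.tgt, Loc.tgt, Loc.map, hf.star, hf.out]

theorem slice_map_map (f : Λ → Λ') (g : Λ' → Λ'') (s : Slice Λ) :
    (s.map f).map g = s.map (fun x => g (f x)) := by
  obtain ⟨L, p, R⟩ := s
  cases p <;> simp [Slice.map, Loc.map, Function.comp_def]

theorem relabelW_relabelW (f : Λ → Λ') (g : Λ' → Λ'') (w : Word Λ) :
    relabelW g (relabelW f w) = relabelW (fun x => g (f x)) w := by
  simp [relabelW, slice_map_map, Function.comp_def]

theorem relabel_relabel (f : Λ → Λ') (g : Λ' → Λ'') (D : Diag Λ) :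
    relabel g (relabel f D) = relabel (fun x => g (f x)) D := by
  simp [relabel, slice_map_map, Function.comp_def]

theorem relabelW_append (f : Λ → Λ') (u v : Word Λ) :
    relabelW f (u ++ v) = relabelW f u ++ relabelW f v := by
  simp [relabelW]

theorem allIn_relabel {f : Λ → Λ'} (hf : Hom f) (S : Λ' → Prop) (D : Diag Λ) :
    AllIn S (relabel f D) ↔ AllIn (fun x => S (f x)) D := by
  simp only [AllIn, relabel, List.mem_map]
  constructor
  · rintro ⟨h1, h2⟩
    refine ⟨fun a ha => h1 _ ⟨a, ha, rfl⟩, fun s hs => ?_⟩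
    obtain ⟨h3, h4⟩ := h2 _ ⟨s, hs, rfl⟩
    rw [map_src hf] at h3
    rw [map_tgt hf] at h4
    exact ⟨fun a ha => h3 _ (List.mem_map_of_mem ha), fun a ha => h4 _ (List.mem_map_of_mem ha)⟩
  · rintro ⟨h1, h2⟩
    refine ⟨?_, ?_⟩
    · rintro _ ⟨a, ha, rfl⟩; exact h1 a ha
    · rintro _ ⟨s, hs, rfl⟩
      obtain ⟨h3, h4⟩ := h2 s hs
      rw [map_src hf, map_tgt hf]
      refine ⟨?_, ?_⟩
      · intro a ha
        obtain ⟨b, hb, rfl⟩ := List.mem_map.1 ha
        exact h3 b hb
      · intro a ha
        obtain ⟨b, hb, rfl⟩ := List.mem_map.1 ha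
        exact h4 b hb

theorem slice_map_id_of {f : Λ → Λ} (s : Slice Λ) (hL : ∀ a ∈ s.L, f a = a)
    (hR : ∀ a ∈ s.R, f a = a) (hp : ∀ a ∈ s.p.src ++ s.p.tgt, f a = a) : s.map f = s := by
  obtain ⟨L, p, R⟩ := s
  have e1 : L.map f = L := by
    conv_rhs => rw [← List.map_id L]
    exact List.map_congr_left fun a ha => hL a ha
  have e2 : R.map f = R := by
    conv_rhs => rw [← List.map_id R]
    exact List.map_congr_left fun a ha => hR a ha
  cases p with
  | birth a =>
    have := hp a (by simp [Loc.src, Loc.tgt])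
    simp [Slice.map, Loc.map, e1, e2, this]
  | death a =>
    have := hp a (by simp [Loc.src, Loc.tgt])
    simp [Slice.map, Loc.map, e1, e2, this]
  | cr b x y =>
    have h1 := hp x (by simp [Loc.src, Loc.tgt])
    have h2 := hp y (by simp [Loc.src, Loc.tgt])
    simp [Slice.map, Loc.map, e1, e2, h1, h2]

/-- a word without the colour `true` -/
theorem eq_of_noCol {B : Word (Col Bool)} (h : NoCol ⟨true⟩ B) :
    relabelW (fun _ => (⟨false⟩ : Col Bool)) (plainW B) = B := by
  rw [plainW, relabelW_relabelW]
  unfold relabelW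
  conv_rhs => rw [← List.map_id B]
  refine List.map_congr_left fun s hs => ?_
  obtain ⟨h1, h2⟩ := h s hs
  have key : ∀ a : Col Bool, a ≠ ⟨true⟩ → (⟨false⟩ : Col Bool) = a := by
    rintro ⟨c⟩ hc
    cases c
    · rfl
    · exact absurd rfl hc
  have k1 : ∀ a ∈ s.src, (⟨false⟩ : Col Bool) = a := fun a ha => key a (by rintro rfl; exact h1 ha)
  have k2 : ∀ a ∈ s.tgt, (⟨false⟩ : Col Bool) = a := fun a ha => key a (by rintro rfl; exact h2 ha)
  refine slice_map_id_of s ?_ ?_ ?_
  · intro a ha; exact k1 a (by simp [Slice.src, ha])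
  · intro a ha; exact k1 a (by simp [Slice.src, ha])
  · intro a ha
    rcases List.mem_append.1 ha with ha | ha
    · exact k1 a (by simp [Slice.src, ha])
    · exact k2 a (by simp [Slice.tgt, ha])

/-- keep the strands of the colour `false` -/
def KF : Col Bool → Bool := fun x => !x.c

theorem filter_false {Λ : Type} (L : List Λ) :
    (L.map (fun _ => (⟨false⟩ : Col Bool))).filter KF = L.map (fun _ => (⟨false⟩ : Col Bool)) := by
  induction L with
  | nil => rfl
  | cons a L ih => simp [KF] at ih ⊢

theorem delW_false {Λ : Type} (w : Word Λ) :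
    delW KF (relabelW (fun _ => (⟨false⟩ : Col Bool)) w) =
      relabelW (fun _ => (⟨false⟩ : Col Bool)) w := by
  induction w with
  | nil => rfl
  | cons s w ih =>
    have e : delW KF (relabelW (fun _ => (⟨false⟩ : Col Bool)) (s :: w)) =
      delS KF (s.map (fun _ => (⟨false⟩ : Col Bool))) ++
        delW KF (relabelW (fun _ => (⟨false⟩ : Col Bool)) w) := by
      simp [delW, relabelW]
    rw [e, ih]
    have e2 : delS KF (s.map (fun _ => (⟨false⟩ : Col Bool))) =
        [s.map (fun _ => (⟨false⟩ : Col Bool))] := by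
      obtain ⟨L, p, R⟩ := s
      have f1 := filter_false L
      have f2 := filter_false R
      cases p <;> simp only [delS, keepLoc, Slice.map, Loc.map, KF, Bool.not_false, if_true,
        Bool.and_self] at f1 f2 ⊢ <;> rw [f1, f2]
    rw [e2]
    simp [relabelW]

theorem del_lens2 (R : Diag Pl) (h : ∃ F, R.1 = pt :: pt :: F) :
    del KF (lens2 R) = relabel (fun _ => (⟨false⟩ : Col Bool)) R := by
  obtain ⟨F0, w⟩ := R
  obtain ⟨F, hF⟩ := h
  simp only at hF
  subst hF
  have f1 := filter_false F
  have f2 := delW_false w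
  have f3 : (w.map (Slice.map (fun _ => (⟨false⟩ : Col Bool)))) =
    relabelW (fun _ => (⟨false⟩ : Col Bool)) w := rfl
  simp only [lens2, relabel, List.map_cons, lens, del, f3]
  refine Prod.ext ?_ ?_
  · simp only
    rw [List.filter_cons_of_pos (by simp [KF]), List.filter_cons_of_pos (by simp [KF]), f1]
  · simp only
    conv_rhs => rw [← f2]
    simp [delW, delS, hook, keepLoc, KF]

theorem allInW_of_births {S : Λ → Prop} (hS : SubP S) : ∀ (w : Word Λ) (F G : List Λ),
    Path F w G → (∀ x ∈ F, S x) → (∀ s ∈ w, ∀ a, s.p = .birth a → S a) →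
    AllInW S w ∧ ∀ x ∈ G, S x := by
  intro w
  induction w with
  | nil =>
    intro F G h hF _
    cases h
    exact ⟨fun s hs => absurd hs List.not_mem_nil, hF⟩
  | cons s w ih =>
    intro F G h hF hb
    obtain ⟨rfl, h2⟩ := h
    have ht : ∀ x ∈ s.tgt, S x := by
      obtain ⟨L, p, R⟩ := s
      intro x hx
      simp only [Slice.tgt, List.mem_append] at hx
      have hLR : ∀ y, y ∈ L ∨ y ∈ p.src ∨ y ∈ R → S y := by
        intro y hy
        apply hF y
        simp only [Slice.src, List.mem_append]
        tauto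
      rcases hx with (hx | hx) | hx
      · exact hLR x (Or.inl hx)
      · cases p with
        | birth a =>
          have ha : S a := hb _ List.mem_cons_self a rfl
          simp [Loc.tgt] at hx
          rcases hx with rfl | rfl
          · exact ha
          · exact hS.star _ ha
        | death a => simp [Loc.tgt] at hx
        | cr b u v =>
          have hu : S u := hLR u (by simp [Loc.src])
          have hv : S v := hLR v (by simp [Loc.src])
          cases b
          · simp [Loc.tgt, out] at hx
            rcases hx with rfl | rfl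
            · exact hv
            · exact hS.r _ _ hu hv
          · simp [Loc.tgt, out] at hx
            rcases hx with rfl | rfl
            · exact hS.l _ _ hv hu
            · exact hu
      · exact hLR x (Or.inr (Or.inr hx))
    obtain ⟨h3, h4⟩ := ih _ _ h2 ht fun t h => hb t (List.mem_cons_of_mem _ h)
    refine ⟨?_, h4⟩
    intro t h
    rcases List.mem_cons.1 h with rfl | h
    · exact ⟨hF, ht⟩
    · exact h3 t h

theorem plain_pl (D : Diag Pl) : plain D = D := by
  obtain ⟨F, w⟩ := D
  have e : ∀ s : Slice Pl, s.map (fun _ => pt) = s := fun s =>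
    slice_map_id_of s (fun _ _ => Subsingleton.elim _ _) (fun _ _ => Subsingleton.elim _ _)
      (fun _ _ => Subsingleton.elim _ _)
  refine Prod.ext ?_ ?_
  · simp only [plain, relabel]
    conv_rhs => rw [← List.map_id F]
    exact List.map_congr_left fun a _ => Subsingleton.elim _ _
  · simp only [plain, relabel]
    conv_rhs => rw [← List.map_id w]
    exact List.map_congr_left fun s _ => e s

end Rigid

open Rigid

theorem stPrimeRigid (hRel : StRelabel) (hLift : StLift) (hDel : StDel) (hSub : StSub)
    (hInv : StInv) (hRet : StRetractKnot) (hUL : StUnitLens) (hRg : StRgLens) (hHt : StHtLens)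
    (hFr : StFrontHk) (hHoms : StHoms) : StPrimeRigid := by
  intro E a d F hE hE1 had hK hrig A B hA hB hiso hno
  obtain ⟨hmCol, hmForget, hkeep, hmk, hmPU, hmInv, hmPow⟩ := hHoms
  have hR1 : ∃ F', (plain E).1 = pt :: pt :: F' := by
    refine ⟨F.map (fun _ => pt), ?_⟩
    simp [plain, relabel, hE1]
  -- the labelling with heights
  obtain ⟨Y, hYc, hYf⟩ := hHt PUnit E a d F hE hE1 had
  obtain ⟨-, hUcol, -⟩ := hUL PUnit E a d F hE hE1
  have hYcol : relabel hkCol Y = lens2 (plain E) := by
    rw [← hUcol, ← hYf, relabel_relabel]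
    congr 1
    funext x
    cases x <;> rfl
  obtain ⟨Z, hZc, hZr, hYZ⟩ := hLift _ _ hkCol (hmCol PUnit Ht) Y ([⟨false⟩], A ++ B) hYc
    (by rw [hYcol]; exact hiso)
  obtain ⟨Z1, Z2⟩ := Z
  have hZr1 : Z1.map hkCol = [(⟨false⟩ : Col Bool)] := congrArg Prod.fst hZr
  have hZr2 : relabelW hkCol Z2 = A ++ B := congrArg Prod.snd hZr
  obtain ⟨z, rfl, hz⟩ := List.map_eq_singleton_iff.1 hZr1
  cases z with
  | h n => simp [hkCol] at hz
  | k y =>
  clear hz
  obtain ⟨AY, BY, rfl, hAY, hBY⟩ := List.map_eq_append_iff.1 hZr2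
  change relabelW hkCol AY = A at hAY
  change relabelW hkCol BY = B at hBY
  obtain ⟨G1, hG1, hG2⟩ := path_append.1 hZc
  have hG1m : G1.map hkCol = [(⟨false⟩ : Col Bool)] := by
    have h1 := (hRel _ _ _ (hmCol PUnit Ht)).1 AY _ _ hG1
    rw [hAY] at h1
    exact Path.tgt_unique h1 hA
  obtain rfl := hFr PUnit Ht AY y G1 hG1 hG1m
  -- the second summand is a knot
  have hplA : Path [pt] (plainW (delW KF A)) [pt] := by
    have h1 := (hDel _ KF (keep_col _)).1 A _ _ hA
    have h2 := (hRel _ _ (fun _ => pt) (hom_pl _)).1 _ _ _ h1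
    exact h2
  have hplB : Path [pt] (plainW B) [pt] :=
    (hRel _ _ (fun _ => pt) (hom_pl _)).1 _ _ _ hB
  have hBf := eq_of_noCol hno
  have hisoP : Iso (plain E) ([pt], plainW (delW KF A) ++ plainW B) := by
    have h1 := (hDel _ KF (keep_col _)).2 _ _ hiso
    rw [del_lens2 _ hR1] at h1
    have h2 := (hRel _ _ (fun _ => pt) (hom_pl _)).2.1 _ _ h1
    have e1 : relabel (fun _ => pt) (relabel (fun _ => (⟨false⟩ : Col Bool)) (plain E)) =
        plain E := by
      rw [relabel_relabel]
      exact plain_pl _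
    have e2 : relabel (fun _ => pt) (del KF ([⟨false⟩], A ++ B)) =
        ([pt], plainW (delW KF A) ++ plainW B) := by
      have e3 : delW KF B = B := by
        conv_lhs => rw [← hBf]
        rw [delW_false, hBf]
      have e4 : delW KF (A ++ B) = delW KF A ++ B := by
        rw [← e3]
        conv_lhs => rw [e3]
        simp [delW] 
      refine Prod.ext rfl ?_
      show List.map _ (delW KF (A ++ B)) = _
      rw [e4]
      simp [plainW, relabelW]
    rw [e1, e2] at h2
    exact h2
  have hPc : Closed (plain E) := (hRel _ _ (fun _ => pt) (hom_pl _)).1 _ _ _ hE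
  have hKB : IsKnot ([pt], plainW B) :=
    (hRet _ _ hplA hplB (((hInv _ _ hisoP).2.2.1 hPc).1 hK)).2
  refine ⟨hKB, ?_⟩
  intro G _ Eσ hσ hσp
  -- the main part: labellings with the same direction as `y`
  have main : ∀ (Eσ : Diag (Mer G)), Closed Eσ → plain Eσ = ([pt], plainW B) →
      (∀ s ∈ Eσ.1, s.d = y.d) → ∃ g, AllIn (fun a => a.m = g) Eσ := by
    intro Eσ hσ hσp hdir
    obtain ⟨Eσ1, Bσ⟩ := Eσ
    have h1 : Eσ1.map (fun _ => pt) = [pt] := congrArg Prod.fst hσp
    have hBσ : plainW Bσ = plainW B := congrArg Prod.snd hσp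
    obtain ⟨s, rfl, -⟩ := List.map_eq_singleton_iff.1 h1
    have hs : s.d = y.d := hdir s (by simp)
    let f : Hk PUnit Ht → Hk G (Rg G) := fun a => (match a with
      | .k a => .k ⟨s.m, a.d⟩
      | .h n => .h ⟨s.m ^ n.n⟩ : Hk G (Rg G))
    have hf : Hom f := hmPow G s.m
    have hfy : f (.k y) = .k s := by
      show Hk.k (⟨s.m, y.d⟩ : Mer G) = _
      rw [← hs]
    have p1 : Path [Hk.k s] (relabelW f AY) [Hk.k s] := by
      have := (hRel _ _ f hf).1 AY _ _ hG1
      simpa [hfy] using this
    have p2 : Path [Hk.k s] (relabelW Hk.k Bσ) [(Hk.k s : Hk G (Rg G))] :=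
      (hRel _ _ Hk.k (hmk G (Rg G))).1 Bσ _ _ hσ
    have hXc : Closed (([Hk.k s], relabelW f AY ++ relabelW Hk.k Bσ) : Diag (Hk G (Rg G))) :=
      p1.append p2
    have hXcol : relabel hkCol (([Hk.k s], relabelW f AY ++ relabelW Hk.k Bσ) :
        Diag (Hk G (Rg G))) = ([⟨false⟩], A ++ B) := by
      refine Prod.ext rfl ?_
      show relabelW hkCol (relabelW f AY ++ relabelW Hk.k Bσ) = A ++ B
      rw [relabelW_append, relabelW_relabelW, relabelW_relabelW]
      congr 1
      · rw [← hAY]
        congr 1
        funext x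
        cases x <;> rfl
      · rw [← hBf, ← hBσ, plainW, relabelW_relabelW]
        rfl
    obtain ⟨X', hX'c, hX'r, hXX'⟩ := hLift _ _ hkCol (hmCol G (Rg G)) _ (lens2 (plain E)) hXc
      (by rw [hXcol]; exact hiso.symm)
    obtain ⟨E', a', d', F', hE'c, hE'p, hE'1, hval, hX'f⟩ := hRg G (plain E) X' hX'c hX'r hR1
    obtain ⟨g, hg⟩ := hrig G E' a' d' F' hE'c hE'p hE'1 hval
    refine ⟨g, ?_⟩
    -- the labels of `X'`
    let S : Hk G (Rg G) → Prop := fun x => match x with
      | .k a => a.m = g
      | .h _ => True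
    let S' : Hk G Unit → Prop := fun x => match x with
      | .k a => a.m = g
      | .h _ => True
    have hSS : (fun x => S' (hkForget x)) = S := by
      funext x
      cases x <;> rfl
    have hv : ∀ b : Mer G, b.m = g → b.val = g ∨ b.val = g⁻¹ := by
      intro b hb
      cases h : b.d <;> simp [Mer.val, h, hb]
    have hS : SubP S := by
      refine ⟨?_, ?_, ?_⟩
      · rintro (x | x) hx
        · exact hx
        · trivial
      · rintro (x | x) (y | y) hx hy
        · show y.val⁻¹ * x.m * y.val = g
          change x.m = g at hx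
          rcases hv y hy with h | h <;> rw [h, hx] <;> simp
        · exact hx
        · trivial
        · trivial
      · rintro (x | x) (y | y) hx hy
        · show y.val * x.m * y.val⁻¹ = g
          change x.m = g at hx
          rcases hv y hy with h | h <;> rw [h, hx] <;> simp
        · exact hx
        · trivial
        · trivial
    have hS' : SubP S' := by
      refine ⟨?_, ?_, ?_⟩
      · rintro (x | x) hx
        · exact hx
        · trivial
      · rintro (x | x) (y | y) hx hy
        · show y.val⁻¹ * x.m * y.val = g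
          change x.m = g at hx
          rcases hv y hy with h | h <;> rw [h, hx] <;> simp
        · exact hx
        · trivial
        · trivial
      · rintro (x | x) (y | y) hx hy
        · show y.val * x.m * y.val⁻¹ = g
          change x.m = g at hx
          rcases hv y hy with h | h <;> rw [h, hx] <;> simp
        · exact hx
        · trivial
        · trivial
    have hlens : AllIn S' (lens (.h ()) (relabel .k E')) := by
      have h1 : AllIn S' (relabel (Hk.k : Mer G → Hk G Unit) E') :=
        (allIn_relabel (hmk G Unit) S' E').2 hg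
      have hcl := (hUL G E' a' d' F' hE'c hE'1).1
      obtain ⟨E'1, E'2⟩ := E'
      simp only at hE'1
      subst hE'1
      obtain ⟨h2, h3⟩ := h1
      refine ⟨h2, (allInW_of_births hS' _ _ _ hcl h2 ?_).1⟩
      intro t ht x hx
      have ht' : t ∈ (⟨[], .birth (.h ()), .k a' :: .k d' :: F'.map Hk.k⟩ ::
        (hook (.h ()) (star (.h ())) (.k a') (.k d') (F'.map Hk.k) ++
          (⟨[], .death (.h ()), .k a' :: .k d' :: F'.map Hk.k⟩ ::
            E'2.map (Slice.map Hk.k))) : Word (Hk G Unit)) := ht
      rcases List.mem_cons.1 ht' with rfl | ht'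
      · simp at hx
        rw [← hx]; trivial
      rcases List.mem_append.1 ht' with ht' | ht'
      · simp only [hook, List.mem_cons, List.not_mem_nil, or_false] at ht'
        rcases ht' with rfl | rfl | rfl | rfl <;> simp at hx
      rcases List.mem_cons.1 ht' with rfl | ht'
      · simp at hx
      · refine (h3 t ht').2 x ?_
        obtain ⟨L, p, R⟩ := t
        simp only at hx
        subst hx
        simp [Slice.tgt, Loc.tgt]
    have hX'S : AllIn S X' := by
      rw [← hSS]
      rw [← hX'f] at hlens
      exact (allIn_relabel (hmForget G (Rg G)) S' X').1 hlens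
    have hXS := (hSub _ S hS _ _ hXX').2 hX'S
    have hBS : AllIn S (relabel (Hk.k : Mer G → Hk G (Rg G)) ([s], Bσ)) := by
      refine ⟨hXS.1, fun t ht => hXS.2 t ?_⟩
      exact List.mem_append_right _ ht
    exact (allIn_relabel (hmk G (Rg G)) S ([s], Bσ)).1 hBS
  have hone : ∃ s, Eσ.1 = [s] := by
    have h1 : Eσ.1.map (fun _ => pt) = [pt] := congrArg Prod.fst hσp
    obtain ⟨s, h, -⟩ := List.map_eq_singleton_iff.1 h1
    exact ⟨s, h⟩
  obtain ⟨s, hs⟩ := hone
  by_cases hd : s.d = y.d
  · refine main Eσ hσ hσp ?_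
    intro t ht
    rw [hs] at ht
    simp at ht
    rw [ht]; exact hd
  · obtain ⟨g, hg⟩ := main (relabel (fun a : Mer G => (⟨a.m⁻¹, !a.d⟩ : Mer G)) Eσ)
      ((hRel _ _ _ (hmInv G)).1 _ _ _ hσ) (by
        unfold plain at hσp ⊢
        rw [relabel_relabel]
        exact hσp) (by
        intro t ht
        simp [relabel, hs] at ht
        rw [ht]
        show (!s.d) = y.d
        cases h1 : s.d <;> cases h2 : y.d <;> simp_all)
    refine ⟨g⁻¹, ?_⟩
    have h1 := (allIn_relabel (hmInv G) (fun a => a.m = g) Eσ).1 hg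
    refine ⟨fun x hx => ?_, fun t ht => ⟨fun x hx => ?_, fun x hx => ?_⟩⟩
    · have := h1.1 x hx
      simp only at this
      rw [← this]; simp
    · have := (h1.2 t ht).1 x hx
      simp only at this
      rw [← this]; simp
    · have := (h1.2 t ht).2 x hx
      simp only at this
      rw [← this]; simp

end Pool.Agent.H838R2.PL
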