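import Pool.Agent.H838R2.PL.Stubs

/-!
# Task A6: products of labels, relabelling along a word, pairs of colourings
-/

set_option autoImplicit false
set_option linter.unusedSectionVars false

namespace Pool.Agent.H838R2.PL

theorem stProd : StProd := by
  intro Λ _ G _ v hs ho w
  induction w with
  | nil =>
    intro F F' h
    rw [path_nil] at h
    rw [h]
  | cons s w ih =>
    intro F F' h
    rw [path_cons] at h
    rw [← ih _ _ h.2, ← h.1]
    have key : (s.p.src.map v).prod = (s.p.tgt.map v).prod := by
      cases hp : s.p with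
      | birth a => simp [Loc.src, Loc.tgt, hs]
      | death a => simp [Loc.src, Loc.tgt, hs]
      | cr b x y => simp [Loc.src, Loc.tgt, ho]
    simp only [Slice.src, Slice.tgt, List.map_append, List.prod_append, key]

theorem stRelabelOn : StRelabelOn := by
  intro Λ Λ' _ _ f w
  induction w with
  | nil =>
    intro F G h _
    rw [path_nil] at h
    subst h
    exact rfl
  | cons s w ih =>
    intro F G h hw
    rw [path_cons] at h
    have h1 := hw s (by simp)
    have h2 := ih _ _ h.2 (fun t ht => hw t (by simp [ht]))
    change (s.map f).src = F.map f ∧ Path (s.map f).tgt (relabelW f w) (G.map f)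
    obtain ⟨L, p, R⟩ := s
    cases p with
    | birth a =>
      have h1' : f (star a) = star (f a) := h1
      refine ⟨?_, ?_⟩
      · rw [← h.1]; simp [Slice.src, Slice.map, Loc.map, Loc.src]
      · have e : (Slice.map f ⟨L, .birth a, R⟩).tgt = (⟨L, .birth a, R⟩ : Slice Λ).tgt.map f := by
          simp [Slice.tgt, Slice.map, Loc.map, Loc.tgt, h1']
        rw [e]; exact h2
    | death a =>
      have h1' : f (star a) = star (f a) := h1
      refine ⟨?_, ?_⟩
      · rw [← h.1]; simp [Slice.src, Slice.map, Loc.map, Loc.src, h1']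
      · have e : (Slice.map f ⟨L, .death a, R⟩).tgt = (⟨L, .death a, R⟩ : Slice Λ).tgt.map f := by
          simp [Slice.tgt, Slice.map, Loc.map, Loc.tgt]
        rw [e]; exact h2
    | cr b x y =>
      have h1' : out b (f x) (f y) = (f (out b x y).1, f (out b x y).2) := h1
      refine ⟨?_, ?_⟩
      · rw [← h.1]; simp [Slice.src, Slice.map, Loc.map, Loc.src]
      · have e : (Slice.map f ⟨L, .cr b x y, R⟩).tgt = (⟨L, .cr b x y, R⟩ : Slice Λ).tgt.map f := by
          simp [Slice.tgt, Slice.map, Loc.map, Loc.tgt, h1']
        rw [e]; exact h2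

/-- crossings exchange colours -/
theorem out_col {κ : Type} (b : Bool) (x y : Col κ) : out b x y = (y, x) := by
  cases b <;> rfl

theorem star_col {κ : Type} (x : Col κ) : star x = x := rfl

/-- pairs of colours -/
def pairC {κ κ' : Type} (a : Col κ) (b : Col κ') : Col (κ × κ') := ⟨(a.c, b.c)⟩

theorem pairC_fst {κ κ' : Type} (F : List (Col κ)) : ∀ (F' : List (Col κ')),
    F.length = F'.length →
    (List.zipWith pairC F F').map (fun x => (⟨x.c.1⟩ : Col κ)) = F := by
  induction F with
  | nil => intro F' _; simp
  | cons a F ih =>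
    intro F' h
    cases F' with
    | nil => simp at h
    | cons a' F' =>
      simp only [List.length_cons, Nat.add_right_cancel_iff] at h
      simp only [List.zipWith_cons_cons, List.map_cons, ih F' h]
      rfl

theorem pairC_snd {κ κ' : Type} (F : List (Col κ)) : ∀ (F' : List (Col κ')),
    F.length = F'.length →
    (List.zipWith pairC F F').map (fun x => (⟨x.c.2⟩ : Col κ')) = F' := by
  induction F with
  | nil =>
    intro F' h
    cases F' with
    | nil => rfl
    | cons a' F' => simp at h
  | cons a F ih =>
    intro F' h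
    cases F' with
    | nil => simp at h
    | cons a' F' =>
      simp only [List.length_cons, Nat.add_right_cancel_iff] at h
      simp only [List.zipWith_cons_cons, List.map_cons, ih F' h]
      rfl

theorem map_const_length {α β γ : Type} (c : γ) {F : List α} {F' : List β}
    (h : F.map (fun _ => c) = F'.map (fun _ => c)) : F.length = F'.length := by
  have := congrArg List.length h
  simpa using this

/-- two colourings of the same slice -/
theorem pair_slice {κ κ' : Type} (s : Slice (Col κ)) (s' : Slice (Col κ'))
    (h : s.map (fun _ => pt) = s'.map (fun _ => pt)) :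
    s.src.length = s'.src.length ∧ s.tgt.length = s'.tgt.length ∧
      ∃ t : Slice (Col (κ × κ')), t.src = List.zipWith pairC s.src s'.src ∧
        t.tgt = List.zipWith pairC s.tgt s'.tgt ∧
        t.map (fun x => (⟨x.c.1⟩ : Col κ)) = s ∧ t.map (fun x => (⟨x.c.2⟩ : Col κ')) = s' := by
  obtain ⟨L, p, R⟩ := s
  obtain ⟨L', p', R'⟩ := s'
  simp only [Slice.map, Slice.mk.injEq] at h
  obtain ⟨hL, hp, hR⟩ := h
  have hL := map_const_length pt hL
  have hR := map_const_length pt hR
  cases p with
  | birth a =>
    cases p' with
    | birth a' =>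
      refine ⟨by simp [Slice.src, Loc.src, hL, hR], by simp [Slice.tgt, Loc.tgt, hL, hR],
        ⟨List.zipWith pairC L L', .birth (pairC a a'), List.zipWith pairC R R'⟩, ?_, ?_, ?_, ?_⟩
      · simp [Slice.src, Loc.src, List.zipWith_append hL]
      · simp [Slice.tgt, Loc.tgt, List.zipWith_append hL, star_col]
      · simp only [Slice.map, Loc.map, pairC_fst _ _ hL, pairC_fst _ _ hR]; rfl
      · simp only [Slice.map, Loc.map, pairC_snd _ _ hL, pairC_snd _ _ hR]; rfl
    | death a' => simp [Loc.map] at hp
    | cr b' x' y' => simp [Loc.map] at hp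
  | death a =>
    cases p' with
    | birth a' => simp [Loc.map] at hp
    | death a' =>
      refine ⟨by simp [Slice.src, Loc.src, hL, hR], by simp [Slice.tgt, Loc.tgt, hL, hR],
        ⟨List.zipWith pairC L L', .death (pairC a a'), List.zipWith pairC R R'⟩, ?_, ?_, ?_, ?_⟩
      · simp [Slice.src, Loc.src, List.zipWith_append hL, star_col]
      · simp [Slice.tgt, Loc.tgt, List.zipWith_append hL]
      · simp only [Slice.map, Loc.map, pairC_fst _ _ hL, pairC_fst _ _ hR]; rfl
      · simp only [Slice.map, Loc.map, pairC_snd _ _ hL, pairC_snd _ _ hR]; rfl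
    | cr b' x' y' => simp [Loc.map] at hp
  | cr b x y =>
    cases p' with
    | birth a' => simp [Loc.map] at hp
    | death a' => simp [Loc.map] at hp
    | cr b' x' y' =>
      simp only [Loc.map, Loc.cr.injEq, and_true] at hp
      subst hp
      refine ⟨by simp [Slice.src, Loc.src, hL, hR], by simp [Slice.tgt, Loc.tgt, hL, hR],
        ⟨List.zipWith pairC L L', .cr b (pairC x x') (pairC y y'), List.zipWith pairC R R'⟩,
        ?_, ?_, ?_, ?_⟩
      · simp [Slice.src, Loc.src, List.zipWith_append hL]
      · simp [Slice.tgt, Loc.tgt, List.zipWith_append hL, out_col]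
      · simp only [Slice.map, Loc.map, pairC_fst _ _ hL, pairC_fst _ _ hR]; rfl
      · simp only [Slice.map, Loc.map, pairC_snd _ _ hL, pairC_snd _ _ hR]; rfl

/-- two colourings of the same word -/
theorem pair_word {κ κ' : Type} (w : Word (Col κ)) : ∀ (w' : Word (Col κ'))
    (F G : List (Col κ)) (F' G' : List (Col κ')), plainW w = plainW w' → Path F w G →
    Path F' w' G' → F.length = F'.length → G.length = G'.length ∧
      ∃ W : Word (Col (κ × κ')), Path (List.zipWith pairC F F') W (List.zipWith pairC G G') ∧
        relabelW (fun x => (⟨x.c.1⟩ : Col κ)) W = w ∧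
        relabelW (fun x => (⟨x.c.2⟩ : Col κ')) W = w' := by
  induction w with
  | nil =>
    intro w' F G F' G' h hF hF' hl
    cases w' with
    | cons s' w' => simp [plainW, relabelW] at h
    | nil =>
      rw [path_nil] at hF hF'
      subst hF hF'
      exact ⟨hl, [], rfl, rfl, rfl⟩
  | cons s w ih =>
    intro w' F G F' G' h hF hF' hl
    cases w' with
    | nil => simp [plainW, relabelW] at h
    | cons s' w' =>
      simp only [plainW, relabelW, List.map_cons, List.cons.injEq] at h
      obtain ⟨hs, hw⟩ := h
      rw [path_cons] at hF hF'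
      obtain ⟨l1, l2, t, t1, t2, t3, t4⟩ := pair_slice s s' hs
      obtain ⟨l3, W, W1, W2, W3⟩ := ih w' _ _ _ _ hw hF.2 hF'.2 l2
      refine ⟨l3, t :: W, ?_, ?_, ?_⟩
      · rw [path_cons, t1, t2, hF.1, hF'.1]
        exact ⟨rfl, W1⟩
      · simp only [relabelW, List.map_cons, t3]
        exact congrArg _ W2
      · simp only [relabelW, List.map_cons, t4]
        exact congrArg _ W3

theorem stPair : StPair := by
  intro κ κ' E E' hE hE' h
  have h1 : E.1.length = E'.1.length := by
    have := congrArg Prod.fst h
    exact map_const_length pt this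
  have h2 : plainW E.2 = plainW E'.2 := congrArg Prod.snd h
  obtain ⟨-, W, W1, W2, W3⟩ := pair_word E.2 E'.2 E.1 E.1 E'.1 E'.1 h2 hE hE' h1
  refine ⟨(List.zipWith pairC E.1 E'.1, W), W1, ?_, ?_⟩
  · exact Prod.ext (pairC_fst _ _ h1) W2
  · exact Prod.ext (pairC_snd _ _ h1) W3

theorem stFrontCol : StFrontCol := by
  classical
  intro κ w c c' h
  have h1 := stProd (Col κ) (Multiplicative (ZMod 2))
    (fun x => Multiplicative.ofAdd (if x = c then (1 : ZMod 2) else 0)) ?_ ?_ w [c] [c'] h
  · simp only [List.map_cons, List.map_nil, List.prod_cons, List.prod_nil, mul_one, if_true] at h1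
    have h2 := Multiplicative.ofAdd.injective h1
    by_contra hne
    rw [if_neg (fun e => hne e.symm)] at h2
    exact one_ne_zero h2
  · intro x
    rw [star_col]
    split_ifs
    · rfl
    · rfl
  · intro b x y
    rw [out_col, mul_comm]

end Pool.Agent.H838R2.PL
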