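import Pool.Agent.H838R2.PL.Stubs

/-! Task A1 (helper797 for helper838): relabelling. -/

set_option autoImplicit false
set_option linter.unusedSectionVars false
set_option linter.unusedSimpArgs false

namespace Pool.Agent.H838R2.PL

namespace Relabel

variable {Λ Λ' : Type} [Palette Λ] [Palette Λ']

theorem loc_src {f : Λ → Λ'} (hf : Hom f) (p : Loc Λ) : (p.map f).src = p.src.map f := by
  cases p <;> simp [Loc.map, Loc.src, hf.star]

theorem loc_tgt {f : Λ → Λ'} (hf : Hom f) (p : Loc Λ) : (p.map f).tgt = p.tgt.map f := by
  cases p <;> simp [Loc.map, Loc.tgt, hf.star, hf.out]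

theorem slice_src {f : Λ → Λ'} (hf : Hom f) (s : Slice Λ) : (s.map f).src = s.src.map f := by
  simp [Slice.map, Slice.src, loc_src hf]

theorem slice_tgt {f : Λ → Λ'} (hf : Hom f) (s : Slice Λ) : (s.map f).tgt = s.tgt.map f := by
  simp [Slice.map, Slice.tgt, loc_tgt hf]

theorem path_map {f : Λ → Λ'} (hf : Hom f) (w : Word Λ) : ∀ (F G : List Λ), Path F w G →
    Path (F.map f) (relabelW f w) (G.map f) := by
  induction w with
  | nil =>
    intro F G h
    cases h
    rfl
  | cons s w ih =>
    intro F G h
    refine ⟨?_, ?_⟩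
    · rw [slice_src hf, h.1]
    · rw [slice_tgt hf]
      exact ih _ _ h.2

theorem relabelW_append (f : Λ → Λ') (u v : Word Λ) :
    relabelW f (u ++ v) = relabelW f u ++ relabelW f v := by
  simp [relabelW]

theorem relabelW_cons (f : Λ → Λ') (s : Slice Λ) (v : Word Λ) :
    relabelW f (s :: v) = s.map f :: relabelW f v := rfl

theorem relabelW_ctx (f : Λ → Λ') (P Q : List Λ) (w : Word Λ) :
    relabelW f (ctx P Q w) = ctx (P.map f) (Q.map f) (relabelW f w) := by
  simp [relabelW, ctx, Slice.map, Function.comp_def]

theorem bm_map {f : Λ → Λ'} (hf : Hom f) {A B : List Λ} {l r : Word Λ} (h : BM A l r B) :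
    BM (A.map f) (relabelW f l) (relabelW f r) (B.map f) := by
  cases h with
  | zig1 x =>
    have := BM.zig1 (f x)
    simpa [relabelW, Slice.map, Loc.map, hf.star] using this
  | zig2 x =>
    have := BM.zig2 (f x)
    simpa [relabelW, Slice.map, Loc.map, hf.star] using this
  | rb b a =>
    have := BM.rb b (f a)
    simpa [relabelW, Slice.map, Loc.map, hf.star] using this
  | rd b a =>
    have := BM.rd b (f a)
    simpa [relabelW, Slice.map, Loc.map, hf.star] using this
  | r2 b x y =>
    have := BM.r2 b (f x) (f y)
    rw [hf.out] at this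
    simpa [relabelW, Slice.map, Loc.map] using this
  | r3 a b c h x y z u₁ u₂ v₁ v₂ w₁ w₂ p₁ p₂ q₁ hu hv hw hp q₂ hq =>
    have := BM.r3 a b c h (f x) (f y) (f z) (f u₁) (f u₂) (f v₁) (f v₂) (f w₁) (f w₂) (f p₁)
      (f p₂) (f q₁) (by rw [hf.out, hu]) (by rw [hf.out, hv]) (by rw [hf.out, hw])
      (by rw [hf.out, hp]) (f q₂) (by rw [hf.out, hq])
    simpa [relabelW, Slice.map, Loc.map] using this
  | sb b a s a' h =>
    have := BM.sb b (f a) (f s) (f a') (by
      rw [h]
      cases b <;> simp [hf.r])
    rw [← hf.star, hf.out] at this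
    simpa [relabelW, Slice.map, Loc.map, hf.star] using this
  | sd b x y z h =>
    have := BM.sd b (f x) (f y) (f z) (by
      rw [h]
      cases b <;> simp [hf.r, hf.star])
    rw [hf.out, hf.out] at this
    simpa [relabelW, Slice.map, Loc.map, hf.star] using this
  | far p q M =>
    have := BM.far (p.map f) (q.map f) (M.map f)
    rw [loc_src hf, loc_src hf, loc_tgt hf, loc_tgt hf] at this
    simpa [relabelW, Slice.map] using this

theorem step_map {f : Λ → Λ'} (hf : Hom f) {D E : Diag Λ} (h : Step D E) :
    Step (relabel f D) (relabel f E) := by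
  cases h with
  | @loc A A' l r F P Q x y hb hx hy =>
    have := Step.loc (F.map f) (P.map f) (Q.map f) (relabelW f x) (relabelW f y) (bm_map hf hb)
      (by simpa using path_map hf _ _ _ hx) (by simpa using path_map hf _ _ _ hy)
    rw [relabel_eq, relabel_eq]
    simp only [relabelW_append, relabelW_ctx]
    exact this
  | @conj F G u v hu hv =>
    have := Step.conj (path_map hf _ _ _ hu) (path_map hf _ _ _ hv)
    rw [relabel_eq, relabel_eq]
    simp only [relabelW_append]
    exact this
  | @left a F w hw =>
    have := Step.left (a := f a) (F := F.map f) (w := relabelW f w)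
      (by simpa using path_map hf _ _ _ hw)
    rw [relabel_eq, relabel_eq]
    simp only [relabelW_append, relabelW_cons, relabelW_ctx, List.map_cons, List.map_nil,
      Slice.map, Loc.map, hf.star]
    simpa [relabelW] using this
  | @right a F w hw =>
    have := Step.right (a := f a) (F := F.map f) (w := relabelW f w)
      (by simpa using path_map hf _ _ _ hw)
    rw [relabel_eq, relabel_eq]
    simp only [relabelW_append, relabelW_cons, relabelW_ctx, List.map_cons, List.map_nil,
      Slice.map, Loc.map, hf.star]
    simpa [relabelW, Slice.map, Loc.map] using this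

theorem iso_map {f : Λ → Λ'} (hf : Hom f) {D E : Diag Λ} (h : Iso D E) :
    Iso (relabel f D) (relabel f E) := by
  induction h with
  | rel _ _ h => exact Relation.EqvGen.rel _ _ (step_map hf h)
  | refl _ => exact Relation.EqvGen.refl _
  | symm _ _ _ ih => exact Relation.EqvGen.symm _ _ ih
  | trans _ _ _ _ _ ih1 ih2 => exact Relation.EqvGen.trans _ _ _ ih1 ih2

theorem cross_map (f : Λ → Λ') (D : Diag Λ) : cross (relabel f D) = cross D := by
  unfold cross relabel
  rw [List.countP_map]
  congr 1
  funext s
  obtain ⟨L, p, R⟩ := s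
  cases p <;> rfl

end Relabel

theorem stRelabel : StRelabel := by
  intro Λ Λ' _ _ f hf
  exact ⟨Relabel.path_map hf, fun _ _ h => Relabel.iso_map hf h, Relabel.cross_map f⟩

end Pool.Agent.H838R2.PL
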