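import Pool.Agent.H838R2.PL.Stubs

/-!
# The summands of a trivial knot are trivial
-/

set_option autoImplicit false
set_option linter.unusedSectionVars false

namespace Pool.Agent.H838R2.PL

section Retract

variable {Λ : Type} [Palette Λ]

theorem retr_single {F : List Λ} (h : F.map (fun _ => pt) = [pt]) : ∃ x, F = [x] := by
  have h1 : (F.map fun _ => pt).length = 1 := by rw [h]; rfl
  rw [List.length_map] at h1
  exact List.length_eq_one_iff.1 h1

theorem retr_split {w : Word Λ} {A B : Word Pl} (h : plainW w = A ++ B) :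
    ∃ u v, w = u ++ v ∧ plainW u = A ∧ plainW v = B := by
  unfold plainW relabelW at h
  obtain ⟨u, v, h1, h2, h3⟩ := List.map_eq_append_iff.1 h
  exact ⟨u, v, h1, h2, h3⟩

theorem retr_plainW_append (u v : Word Λ) : plainW (u ++ v) = plainW u ++ plainW v := by
  simp [plainW, relabelW]

theorem retr_plainW_relabelW {Λ' : Type} [Palette Λ'] (f : Λ → Λ') (w : Word Λ) :
    plainW (relabelW f w) = plainW w := by
  unfold plainW relabelW
  rw [List.map_map]
  congr 1
  funext s
  obtain ⟨L, p, R⟩ := s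
  cases p <;> simp [Slice.map, Loc.map, Function.comp_def]

theorem retr_path_plain (h1 : StRelabel) {w : Word Λ} {F G : List Λ} (h : Path F w G) :
    Path (F.map fun _ => pt) (plainW w) (G.map fun _ => pt) :=
  (h1 Λ Pl (fun _ => pt) (hom_pl _)).1 w F G h

/-- a closed labelled diagram over `([pt], A)` -/
theorem retr_one {A : Word Pl} {E : Diag Λ} (hE : Closed E) (h : plain E = ([pt], A)) :
    ∃ (x : Λ) (w : Word Λ), E = ([x], w) ∧ Path [x] w [x] ∧ plainW w = A := by
  obtain ⟨F, w⟩ := E
  unfold plain relabel at h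
  simp only [Prod.mk.injEq] at h
  obtain ⟨x, rfl⟩ := retr_single h.1
  exact ⟨x, w, rfl, hE, h.2⟩

theorem retr_plain {x : Λ} {w : Word Λ} {A : Word Pl} (h : plainW w = A) :
    plain (([x], w) : Diag Λ) = ([pt], A) := by
  rw [← h]; rfl

theorem retr_allIn_left {S : Λ → Prop} {F : List Λ} {u v : Word Λ} (h : AllIn S (F, u ++ v)) :
    AllIn S (F, u) :=
  ⟨h.1, fun s hs => h.2 s (List.mem_append_left _ hs)⟩

theorem retr_allIn_right {S : Λ → Prop} {F : List Λ} {u v : Word Λ} (h : AllIn S (F, u ++ v)) :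
    AllIn S (F, v) :=
  ⟨h.1, fun s hs => h.2 s (List.mem_append_right _ hs)⟩

end Retract

/-- all meridians equal to `g`, directions changed if `c` holds -/
def retrF {G : Type} (g : G) (c : Bool) (a : Mer PUnit) : Mer G := ⟨g, a.d ^^ c⟩

theorem retr_hom {G : Type} [Group G] (g : G) (c : Bool) : Hom (retrF g c) := by
  constructor
  · intro x
    obtain ⟨m, d⟩ := x
    cases c <;> cases d <;> rfl
  · intro x y
    have e1 : Palette.r (retrF g c x) (retrF g c y) =
        ⟨(retrF g c y).val⁻¹ * g * (retrF g c y).val, x.d ^^ c⟩ := rfl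
    have e2 : retrF g c (Palette.r x y) = ⟨g, x.d ^^ c⟩ := rfl
    rw [e1, e2]
    congr 1
    unfold Mer.val
    split_ifs <;> simp [retrF]

/-- the directions at both ends of a word with one strand above and one below are the same -/
theorem retr_dir (h2 : StProd) {w : Word (Mer PUnit)} {e e' : Mer PUnit}
    (h : Path [e] w [e']) : e = e' := by
  have h3 := h2 (Mer PUnit) (Multiplicative ℤ)
    (fun x => Multiplicative.ofAdd (if x.d then (1 : ℤ) else -1))
    (fun x => by
      obtain ⟨m, d⟩ := x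
      cases d <;> simp [star])
    (fun b x y => by
      cases b
      · have e1 : (out false x y).1.d = y.d := rfl
        have e2 : (out false x y).2.d = x.d := rfl
        rw [e1, e2, mul_comm]
      · have e1 : (out true x y).1.d = y.d := rfl
        have e2 : (out true x y).2.d = x.d := rfl
        rw [e1, e2, mul_comm])
    w [e] [e'] h
  obtain ⟨m, d⟩ := e
  obtain ⟨m', d'⟩ := e'
  simp only [List.map_cons, List.map_nil, List.prod_cons, List.prod_nil, mul_one,
    EmbeddingLike.apply_eq_iff_eq] at h3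
  cases m; cases m'
  cases d <;> cases d' <;> first | rfl | (exfalso; revert h3; norm_num)

theorem stRetract (h1 : StRelabel) (h2 : StProd) : StRetract := by
  intro A B hA hB hD hT
  -- directions
  obtain ⟨_, E, hE, hEp⟩ := hD
  obtain ⟨e, w, rfl, hw, hwp⟩ := retr_one hE hEp
  obtain ⟨A1, B1, rfl, hA1, hB1⟩ := retr_split hwp
  obtain ⟨G, hG1, hG2⟩ := path_append.1 hw
  have hG3 := retr_path_plain h1 hG1
  rw [hA1] at hG3
  obtain ⟨e', rfl⟩ := retr_single (Path.tgt_unique hG3 hA)
  obtain rfl := retr_dir h2 hG1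
  -- completing a labelling with meridians
  have comp : ∀ (G : Type) [Group G] (x : Mer G) (u : Word (Mer PUnit)), Path [e] u [e] →
      ∃ u' : Word (Mer G), Path [x] u' [x] ∧ plainW u' = plainW u := by
    intro G _ x u hu
    refine ⟨relabelW (retrF x.m (e.d ^^ x.d)) u, ?_, retr_plainW_relabelW _ _⟩
    have h3 := (h1 (Mer PUnit) (Mer G) (retrF x.m (e.d ^^ x.d)) (retr_hom _ _)).1 u _ _ hu
    have h4 : retrF x.m (e.d ^^ x.d) e = x := by
      obtain ⟨m, d⟩ := e
      obtain ⟨m', d'⟩ := x
      cases d <;> cases d' <;> rfl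
    simpa [h4] using h3
  -- completing a colouring
  have compC : ∀ (c : Col Bool) (U : Word Pl), Path [pt] U [pt] →
      ∃ u' : Word (Col Bool), Path [c] u' [c] ∧ plainW u' = U := by
    intro c U hU
    refine ⟨relabelW (fun _ => c) U, ?_, ?_⟩
    · simpa using (h1 Pl (Col Bool) (fun _ => c) (hom_col _)).1 U _ _ hU
    · rw [retr_plainW_relabelW]
      unfold plainW relabelW
      have : (Slice.map fun _ : Pl => pt) = (id : Slice Pl → Slice Pl) := by
        funext s
        obtain ⟨L, p, R⟩ := s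
        have hid : (fun _ : Pl => pt) = id := by funext x; exact Subsingleton.elim _ _
        rw [hid]
        cases p <;> simp [Slice.map, Loc.map]
      rw [this, List.map_id]
  refine ⟨⟨⟨by simp, ?_⟩, ?_⟩, ⟨⟨by simp, ?_⟩, ?_⟩⟩
  · intro E hE hEp
    obtain ⟨x, u, rfl, hu, hup⟩ := retr_one hE hEp
    obtain ⟨v, hv, hvp⟩ := compC x B hB
    obtain ⟨b, hb⟩ := hT.1.2 ([x], u ++ v) (hu.append hv)
      (retr_plain (by rw [retr_plainW_append, hup, hvp]))
    exact ⟨b, retr_allIn_left hb⟩
  · intro G _ E hE hEp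
    obtain ⟨x, u, rfl, hu, hup⟩ := retr_one hE hEp
    obtain ⟨v, hv, hvp⟩ := comp G x B1 hG2
    obtain ⟨g, hg⟩ := hT.2 G ([x], u ++ v) (hu.append hv)
      (retr_plain (by rw [retr_plainW_append, hup, hvp, hB1]))
    exact ⟨g, retr_allIn_left hg⟩
  · intro E hE hEp
    obtain ⟨x, u, rfl, hu, hup⟩ := retr_one hE hEp
    obtain ⟨v, hv, hvp⟩ := compC x A hA
    obtain ⟨b, hb⟩ := hT.1.2 ([x], v ++ u) (hv.append hu)
      (retr_plain (by rw [retr_plainW_append, hup, hvp]))
    exact ⟨b, retr_allIn_right hb⟩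
  · intro G _ E hE hEp
    obtain ⟨x, u, rfl, hu, hup⟩ := retr_one hE hEp
    obtain ⟨v, hv, hvp⟩ := comp G x A1 hG1
    obtain ⟨g, hg⟩ := hT.2 G ([x], v ++ u) (hv.append hu)
      (retr_plain (by rw [retr_plainW_append, hup, hvp, hA1]))
    exact ⟨g, retr_allIn_right hg⟩

end Pool.Agent.H838R2.PL
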