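import Pool.Agent.H838R2.PL.Stubs

/-!
# (C0b) The class of the circle (helper477)
-/

set_option autoImplicit false
set_option linter.unusedSectionVars false

namespace Pool.Agent.H838R2.PL

namespace RgLens

variable {Λ Λ' Λ'' : Type} [Palette Λ] [Palette Λ'] [Palette Λ'']

theorem slice_map_src {f : Λ → Λ'} (hf : Hom f) (s : Slice Λ) :
    (Slice.map f s).src = s.src.map f := by
  obtain ⟨L, p, R⟩ := s
  cases p <;> simp [Slice.map, Slice.src, Loc.map, Loc.src, hf.star]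

theorem slice_map_tgt {f : Λ → Λ'} (hf : Hom f) (s : Slice Λ) :
    (Slice.map f s).tgt = s.tgt.map f := by
  obtain ⟨L, p, R⟩ := s
  cases p <;> simp [Slice.map, Slice.tgt, Loc.map, Loc.tgt, hf.star, hf.out]

theorem path_of_relabel {f : Λ → Λ'} (hf : Hom f) (hi : Function.Injective f) :
    ∀ (w : Word Λ) (F G : List Λ), Path (F.map f) (relabelW f w) (G.map f) → Path F w G := by
  intro w
  induction w with
  | nil =>
    intro F G h
    exact List.map_injective_iff.2 hi h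
  | cons s w ih =>
    intro F G h
    obtain ⟨h1, h2⟩ := h
    rw [slice_map_src hf] at h1
    rw [slice_map_tgt hf] at h2
    exact ⟨List.map_injective_iff.2 hi h1, ih _ _ h2⟩

theorem loc_map_map (f : Λ → Λ') (g : Λ' → Λ'') (p : Loc Λ) :
    Loc.map g (Loc.map f p) = Loc.map (fun x => g (f x)) p := by
  cases p <;> rfl

theorem slice_map_map (f : Λ → Λ') (g : Λ' → Λ'') (s : Slice Λ) :
    Slice.map g (Slice.map f s) = Slice.map (fun x => g (f x)) s := by
  obtain ⟨L, p, R⟩ := s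
  simp [Slice.map, loc_map_map, Function.comp_def]

theorem relabelW_relabelW (f : Λ → Λ') (g : Λ' → Λ'') (w : Word Λ) :
    relabelW g (relabelW f w) = relabelW (fun x => g (f x)) w := by
  unfold relabelW
  rw [List.map_map]
  refine List.map_congr_left fun s _ => ?_
  exact slice_map_map f g s

theorem list_pl (F : List Pl) : F.map (fun _ => pt) = F := by
  conv_rhs => rw [← List.map_id F]
  refine List.map_congr_left fun x _ => Subsingleton.elim _ _

theorem slice_pl (s : Slice Pl) : Slice.map (fun _ => pt) s = s := by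
  obtain ⟨L, p, R⟩ := s
  have hp : Loc.map (fun _ => pt) p = p := by
    cases p with
    | birth a => exact congrArg Loc.birth (Subsingleton.elim _ _)
    | death a => exact congrArg Loc.death (Subsingleton.elim _ _)
    | cr b x y => exact congrArg₂ (Loc.cr b) (Subsingleton.elim _ _) (Subsingleton.elim _ _)
  show (⟨L.map _, Loc.map _ p, R.map _⟩ : Slice Pl) = _
  rw [list_pl, list_pl, hp]

theorem map_one {α β : Type} {f : α → β} {L : List α} {x : β} (h : L.map f = [x]) :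
    ∃ l, L = [l] := by
  cases L with
  | nil => cases h
  | cons a L =>
    cases L with
    | nil => exact ⟨a, rfl⟩
    | cons b L => cases h

theorem map_two {α β : Type} {f : α → β} {L : List α} {x y : β} (h : L.map f = [x, y]) :
    ∃ l m, L = [l, m] := by
  cases L with
  | nil => cases h
  | cons a L =>
    cases L with
    | nil => cases h
    | cons b L =>
      cases L with
      | nil => exact ⟨a, b, rfl⟩
      | cons c L => cases h

theorem rel_cons {f : Λ → Λ'} {W : Word Λ} {t : Slice Λ'} {V : Word Λ'}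
    (h : relabelW f W = t :: V) : ∃ s W', W = s :: W' ∧ Slice.map f s = t ∧ relabelW f W' = V := by
  cases W with
  | nil => cases h
  | cons s W' =>
    obtain ⟨h1, h2⟩ := List.cons.inj h
    exact ⟨s, W', rfl, h1, h2⟩

theorem word_pl (w : Word Pl) : relabelW (fun _ => pt) w = w := by
  unfold relabelW
  conv_rhs => rw [← List.map_id w]
  refine List.map_congr_left fun s _ => slice_pl s

variable {G : Type} [Group G]

abbrev kk (G : Type) [Group G] : Mer G → Hk G (Rg G) := Hk.k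

theorem hom_k (X : Type) [QAct G X] : Hom (Hk.k : Mer G → Hk G X) :=
  ⟨fun _ => rfl, fun _ _ => rfl⟩

theorem k_inj (X : Type) : Function.Injective (Hk.k : Mer G → Hk G X) := by
  intro a b h
  exact Hk.k.inj h

theorem col_false {x : Hk G (Rg G)} (h : hkCol x = ⟨false⟩) : ∃ a, x = .k a := by
  cases x with
  | k a => exact ⟨a, rfl⟩
  | h n => cases h

theorem col_true {x : Hk G (Rg G)} (h : hkCol x = ⟨true⟩) : ∃ n, x = .h n := by
  cases x with
  | k a => cases h
  | h n => exact ⟨n, rfl⟩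

theorem list_false : ∀ (L : List (Hk G (Rg G))) (F : List Pl),
    L.map hkCol = F.map (fun _ => (⟨false⟩ : Col Bool)) → ∃ L' : List (Mer G), L = L'.map .k := by
  intro L
  induction L with
  | nil =>
    intro F _
    exact ⟨[], rfl⟩
  | cons x L ih =>
    intro F h
    cases F with
    | nil => cases h
    | cons y F =>
      rw [List.map_cons, List.map_cons] at h
      obtain ⟨h1, h2⟩ := List.cons.inj h
      obtain ⟨a, rfl⟩ := col_false h1
      obtain ⟨L', rfl⟩ := ih F h2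
      exact ⟨a :: L', rfl⟩

theorem loc_false (p : Loc (Hk G (Rg G))) (q : Loc Pl)
    (h : Loc.map hkCol p = Loc.map (fun _ => (⟨false⟩ : Col Bool)) q) :
    ∃ p' : Loc (Mer G), p = Loc.map .k p' := by
  cases p with
  | birth a =>
    cases q with
    | birth b =>
      obtain ⟨a', rfl⟩ := col_false (Loc.birth.inj h)
      exact ⟨.birth a', rfl⟩
    | death b => cases h
    | cr b x y => cases h
  | death a =>
    cases q with
    | birth b => cases h
    | death b =>
      obtain ⟨a', rfl⟩ := col_false (Loc.death.inj h)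
      exact ⟨.death a', rfl⟩
    | cr b x y => cases h
  | cr b x y =>
    cases q with
    | birth b => cases h
    | death b => cases h
    | cr b' x' y' =>
      obtain ⟨_, h2, h3⟩ := Loc.cr.inj h
      obtain ⟨a', rfl⟩ := col_false h2
      obtain ⟨b', rfl⟩ := col_false h3
      exact ⟨.cr b a' b', rfl⟩

theorem slice_false (s : Slice (Hk G (Rg G))) (t : Slice Pl)
    (h : Slice.map hkCol s = Slice.map (fun _ => (⟨false⟩ : Col Bool)) t) :
    ∃ s' : Slice (Mer G), s = Slice.map .k s' := by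
  obtain ⟨L, p, R⟩ := s
  obtain ⟨L0, p0, R0⟩ := t
  obtain ⟨h1, h2, h3⟩ := Slice.mk.inj h
  obtain ⟨L', rfl⟩ := list_false L L0 h1
  obtain ⟨p', rfl⟩ := loc_false p p0 h2
  obtain ⟨R', rfl⟩ := list_false R R0 h3
  exact ⟨⟨L', p', R'⟩, rfl⟩

theorem word_false : ∀ (w : Word (Hk G (Rg G))) (v : Word Pl),
    relabelW hkCol w = relabelW (fun _ => (⟨false⟩ : Col Bool)) v →
    ∃ w' : Word (Mer G), w = relabelW .k w' := by
  intro w
  induction w with
  | nil =>
    intro v _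
    exact ⟨[], rfl⟩
  | cons s w ih =>
    intro v h
    cases v with
    | nil => cases h
    | cons t v =>
      have h' : Slice.map hkCol s :: relabelW hkCol w =
        Slice.map (fun _ => (⟨false⟩ : Col Bool)) t :: relabelW (fun _ => (⟨false⟩ : Col Bool)) v := h
      obtain ⟨h1, h2⟩ := List.cons.inj h'
      obtain ⟨s', rfl⟩ := slice_false s t h1
      obtain ⟨w', rfl⟩ := ih v h2
      exact ⟨s' :: w', rfl⟩

theorem slice_cr {s : Slice (Hk G (Rg G))} {L R : List (Col Bool)} {b : Bool} {x y : Col Bool}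
    (h : Slice.map hkCol s = ⟨L, .cr b x y, R⟩) : ∃ (L' R' : List (Hk G (Rg G)))
      (x' y' : Hk G (Rg G)), s = ⟨L', .cr b x' y', R'⟩ ∧ L'.map hkCol = L := by
  obtain ⟨L', p, R'⟩ := s
  obtain ⟨h1, h2, h3⟩ := Slice.mk.inj h
  cases p with
  | birth a => cases h2
  | death a => cases h2
  | cr b' x' y' =>
    obtain ⟨h4, h5, h6⟩ := Loc.cr.inj h2
    subst h4
    exact ⟨L', R', x', y', rfl, h1⟩

theorem act_inv (x : Rg G) (y : Mer G) : ((y.act (Rg G))⁻¹ x).g = x.g * (y.val)⁻¹ := by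
  obtain ⟨m, d⟩ := y
  cases d
  · simp only [Mer.act, Mer.val, Bool.false_eq_true, if_false, inv_inv]
    rfl
  · simp only [Mer.act, Mer.val, if_true]
    rfl

theorem main (R : Diag Pl) (X : Diag (Hk G (Rg G))) (hX : Closed X)
    (hR : relabel hkCol X = lens2 R) (hF : ∃ F, R.1 = pt :: pt :: F) :
    ∃ (E : Diag (Mer G)) (a d : Mer G) (F : List (Mer G)), Closed E ∧ plain E = R ∧
      E.1 = a :: d :: F ∧ a.val * d.val = 1 ∧
      relabel hkForget X = lens (.h ()) (relabel .k E) := by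
  obtain ⟨F0, hF0⟩ := hF
  obtain ⟨R1, w0⟩ := R
  obtain ⟨X1, W⟩ := X
  change R1 = _ at hF0
  subst hF0
  obtain ⟨hR1, hR2⟩ := Prod.mk.inj hR
  -- the front
  have hX1 : X1.map hkCol = (pt :: pt :: F0 : List Pl).map (fun _ => (⟨false⟩ : Col Bool)) := hR1
  obtain ⟨X1', rfl⟩ := list_false X1 _ hX1
  have hX1' : X1'.map (fun _ => pt) = pt :: pt :: F0 := by
    have h1 := congrArg (List.map fun _ : Col Bool => pt) hX1
    rw [List.map_map, List.map_map, List.map_map] at h1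
    have h2 := list_pl (pt :: pt :: F0)
    calc X1'.map (fun _ => pt) = _ := h1
      _ = _ := h2
  obtain ⟨a, d, F', rfl⟩ : ∃ a d F', X1' = a :: d :: F' := by
    match X1', hX1' with
    | a :: d :: F', _ => exact ⟨a, d, F', rfl⟩
  -- the word
  have hW : relabelW hkCol W = ⟨[], .birth ⟨true⟩, ⟨false⟩ :: ⟨false⟩ ::
      F0.map (fun _ => (⟨false⟩ : Col Bool))⟩ ::
      (⟨[⟨true⟩], .cr true (⟨true⟩ : Col Bool) ⟨false⟩, ⟨false⟩ ::
        F0.map (fun _ => (⟨false⟩ : Col Bool))⟩ ::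
      ⟨[⟨true⟩, ⟨false⟩], .cr true (⟨true⟩ : Col Bool) ⟨false⟩,
        F0.map (fun _ => (⟨false⟩ : Col Bool))⟩ ::
      ⟨[⟨true⟩, ⟨false⟩], .cr true (⟨false⟩ : Col Bool) ⟨true⟩,
        F0.map (fun _ => (⟨false⟩ : Col Bool))⟩ ::
      ⟨[⟨true⟩], .cr true (⟨false⟩ : Col Bool) ⟨true⟩, ⟨false⟩ ::
        F0.map (fun _ => (⟨false⟩ : Col Bool))⟩ ::
      ⟨[], .death ⟨true⟩, ⟨false⟩ :: ⟨false⟩ :: F0.map (fun _ => (⟨false⟩ : Col Bool))⟩ ::
      relabelW (fun _ => (⟨false⟩ : Col Bool)) w0) := hR2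
  obtain ⟨s1, W1, rfl, hs1, hW1⟩ := rel_cons hW
  obtain ⟨s2, W2, rfl, hs2, hW2⟩ := rel_cons hW1
  obtain ⟨s3, W3, rfl, hs3, hW3⟩ := rel_cons hW2
  obtain ⟨s4, W4, rfl, hs4, hW4⟩ := rel_cons hW3
  obtain ⟨s5, W5, rfl, hs5, hW5⟩ := rel_cons hW4
  obtain ⟨s6, W6, rfl, hs6, hW6⟩ := rel_cons hW5
  obtain ⟨w', rfl⟩ := word_false W6 w0 hW6
  -- the path
  obtain ⟨p1, p2, p3, p4, p5, p6, p7⟩ := hX
  change Path s6.tgt (relabelW Hk.k w') _ at p7
  -- first slice
  obtain ⟨L1, q1, R1⟩ := s1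
  obtain ⟨h11, h12, _⟩ := Slice.mk.inj hs1
  have hL1 : L1 = [] := List.map_eq_nil_iff.1 h11
  subst hL1
  cases q1 with
  | death x => cases h12
  | cr b x y => cases h12
  | birth x =>
  obtain ⟨n, rfl⟩ := col_true (Loc.birth.inj h12)
  have p1' : R1 = Hk.k a :: Hk.k d :: F'.map Hk.k := p1
  subst p1'
  -- second slice
  obtain ⟨L2, R2, x2, y2, rfl, hL2⟩ := slice_cr hs2
  obtain ⟨l2, rfl⟩ := map_one hL2
  have p2' : l2 :: x2 :: y2 :: R2 =
      Hk.h n :: Hk.h n :: Hk.k a :: Hk.k d :: F'.map Hk.k := p2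
  obtain ⟨e1, p2'⟩ := List.cons.inj p2'
  obtain ⟨e2, p2'⟩ := List.cons.inj p2'
  obtain ⟨e3, e4⟩ := List.cons.inj p2'
  subst e1; subst e2; subst e3; subst e4
  -- third slice
  obtain ⟨L3, R3, x3, y3, rfl, hL3⟩ := slice_cr hs3
  obtain ⟨l3, m3, rfl⟩ := map_two hL3
  have p3' : l3 :: m3 :: x3 :: y3 :: R3 =
      Hk.h n :: Hk.k a :: Hk.h n :: Hk.k d :: F'.map Hk.k := p3
  obtain ⟨e1, p3'⟩ := List.cons.inj p3'
  obtain ⟨e2, p3'⟩ := List.cons.inj p3'
  obtain ⟨e3, p3'⟩ := List.cons.inj p3'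
  obtain ⟨e4, e5⟩ := List.cons.inj p3'
  subst e1; subst e2; subst e3; subst e4; subst e5
  -- fourth slice
  obtain ⟨L4, R4, x4, y4, rfl, hL4⟩ := slice_cr hs4
  obtain ⟨l4, m4, rfl⟩ := map_two hL4
  have p4' : l4 :: m4 :: x4 :: y4 :: R4 =
      Hk.h n :: Hk.k a :: Hk.k d :: Hk.h n :: F'.map Hk.k := p4
  obtain ⟨e1, p4'⟩ := List.cons.inj p4'
  obtain ⟨e2, p4'⟩ := List.cons.inj p4'
  obtain ⟨e3, p4'⟩ := List.cons.inj p4'
  obtain ⟨e4, e5⟩ := List.cons.inj p4'
  subst e1; subst e2; subst e3; subst e4; subst e5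
  -- fifth slice
  obtain ⟨L5, R5, x5, y5, rfl, hL5⟩ := slice_cr hs5
  obtain ⟨l5, rfl⟩ := map_one hL5
  have p5' : l5 :: x5 :: y5 :: R5 =
      Hk.h n :: Hk.k a :: Hk.h ((d.act (Rg G))⁻¹ n) :: Hk.k d :: F'.map Hk.k := p5
  obtain ⟨e1, p5'⟩ := List.cons.inj p5'
  obtain ⟨e2, p5'⟩ := List.cons.inj p5'
  obtain ⟨e3, e4⟩ := List.cons.inj p5'
  subst e1; subst e2; subst e3; subst e4
  -- sixth slice
  obtain ⟨L6, q6, R6⟩ := s6
  obtain ⟨h61, h62, _⟩ := Slice.mk.inj hs6
  have hL6 : L6 = [] := List.map_eq_nil_iff.1 h61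
  subst hL6
  cases q6 with
  | birth x => cases h62
  | cr b x y => cases h62
  | death x =>
  have p6' : x :: star x :: R6 = Hk.h n ::
      Hk.h ((a.act (Rg G))⁻¹ ((d.act (Rg G))⁻¹ n)) :: Hk.k a :: Hk.k d :: F'.map Hk.k := p6
  obtain ⟨e1, p6'⟩ := List.cons.inj p6'
  subst e1
  obtain ⟨hn, e2⟩ := List.cons.inj p6'
  subst e2
  have hn' : n = (a.act (Rg G))⁻¹ ((d.act (Rg G))⁻¹ n) := Hk.h.inj hn
  have hval : a.val * d.val = 1 := by
    have h1 := congrArg Rg.g hn'
    rw [act_inv, act_inv, mul_assoc, ← mul_inv_rev] at h1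
    have h2 : (a.val * d.val)⁻¹ = 1 := (mul_eq_left.1 h1.symm)
    exact inv_eq_one.1 h2
  refine ⟨(a :: d :: F', w'), a, d, F', ?_, ?_, rfl, hval, ?_⟩
  · exact path_of_relabel (hom_k (Rg G)) (k_inj (Rg G)) w' _ _ p7
  · have h1 := congrArg (relabelW fun _ : Col Bool => pt) hW6
    rw [relabelW_relabelW, relabelW_relabelW, relabelW_relabelW] at h1
    have h2 := word_pl w0
    show ((a :: d :: F').map (fun _ => pt), relabelW (fun _ => pt) w') = (pt :: pt :: F0, w0)
    rw [hX1']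
    congr 1
    exact h1.trans h2
  · have h3 : relabelW (hkForget : Hk G (Rg G) → Hk G Unit) (relabelW Hk.k w') =
        relabelW Hk.k w' := relabelW_relabelW _ _ _
    have h4 : (F'.map (Hk.k : Mer G → Hk G (Rg G))).map hkForget = F'.map Hk.k := by
      rw [List.map_map]
      rfl
    show ((Hk.k a :: Hk.k d :: F'.map Hk.k : List (Hk G (Rg G))).map hkForget,
      (⟨[], .birth (Hk.h ()), (Hk.k a :: Hk.k d :: F'.map Hk.k : List (Hk G (Rg G))).map hkForget⟩ ::
      ⟨[Hk.h ()], .cr true (Hk.h ()) (Hk.k a),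
        (Hk.k d :: F'.map Hk.k : List (Hk G (Rg G))).map hkForget⟩ ::
      ⟨[Hk.h (), Hk.k a], .cr true (Hk.h ()) (Hk.k d),
        (F'.map Hk.k : List (Hk G (Rg G))).map hkForget⟩ ::
      ⟨[Hk.h (), Hk.k a], .cr true (Hk.k d) (Hk.h ()),
        (F'.map Hk.k : List (Hk G (Rg G))).map hkForget⟩ ::
      ⟨[Hk.h ()], .cr true (Hk.k a) (Hk.h ()),
        (Hk.k d :: F'.map Hk.k : List (Hk G (Rg G))).map hkForget⟩ ::
      ⟨[], .death (Hk.h ()), (Hk.k a :: Hk.k d :: F'.map Hk.k : List (Hk G (Rg G))).map hkForget⟩ ::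
      relabelW hkForget (relabelW Hk.k w') : Word (Hk G Unit))) =
      lens (.h ()) (relabel .k (a :: d :: F', w'))
    rw [h3, List.map_cons, List.map_cons, h4]
    rfl

end RgLens

theorem stRgLens : StRgLens := by
  intro G _ R X hX hR hF
  exact RgLens.main R X hX hR hF

end Pool.Agent.H838R2.PL
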