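import Pool.Agent.H838R2.PL.Stubs

/-!
# Task D1a: rings are closed diagrams (helper880 for helper838)
-/

set_option autoImplicit false
set_option linter.unusedSectionVars false

namespace Pool.Agent.H838R2.PL
namespace RA

variable {Λ Λ' : Type} [Palette Λ] [Palette Λ']

theorem bar_append (P F : List Λ) : bar (P ++ F) = bar F ++ bar P := by
  simp [bar]

theorem bar_single (a : Λ) : bar [a] = [star a] := rfl

theorem births_path (F : List Λ) : ∀ P : List Λ,
    Path (P ++ bar P) (births P F) (P ++ F ++ bar (P ++ F)) := by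
  induction F with
  | nil => intro P; simp [births]
  | cons a F ih =>
    intro P
    refine ⟨by simp [Slice.src, Loc.src], ?_⟩
    have := ih (P ++ [a])
    rw [bar_append P [a], bar_single] at this
    simpa [Slice.tgt, Loc.tgt] using this

theorem deaths_path (F : List Λ) : ∀ P : List Λ,
    Path (P ++ F ++ bar (P ++ F)) (deaths P F) (P ++ bar P) := by
  induction F with
  | nil => intro P; simp [deaths]
  | cons a F ih =>
    intro P
    have h := ih (P ++ [a])
    rw [bar_append P [a], bar_single] at h
    refine Path.append (G := (P ++ [a]) ++ ([star a] ++ bar P)) (by simpa using h) ?_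
    exact ⟨by simp [Slice.src, Loc.src], by simp [Slice.tgt, Loc.tgt]⟩

/-- palettes whose strands do not change their labels when they pass below other strands -/
def Tr (Λ : Type) [Palette Λ] : Prop := ∀ x y : Λ, Palette.r x y = x

theorem Tr.l (h : Tr Λ) (x y : Λ) : Palette.l x y = x := by
  have := Palette.l_r x y
  rwa [h x y] at this

theorem Tr.out (h : Tr Λ) (b : Bool) (x y : Λ) : out b x y = (y, x) := by
  cases b <;> simp [PL.out, h x y, h.l y x]

theorem tr_col (κ : Type) : Tr (Col κ) := fun _ _ => rfl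

theorem tr_mer : Tr (Mer PUnit) := by
  intro x y
  obtain ⟨m, d⟩ := x
  rfl

theorem hook_path (hT : Tr Λ) (m₀ m a d : Λ) (G : List Λ) :
    Path (m₀ :: m :: a :: d :: G) (hook m₀ m a d G) (m₀ :: m :: a :: d :: G) := by
  simp [hook, Path, Slice.src, Slice.tgt, Loc.src, Loc.tgt, hT.out]

theorem weak_path (hT : Tr Λ) (m₀ m a : Λ) (G : List Λ) :
    Path (m₀ :: m :: a :: G) (weak m₀ m a G) (m₀ :: m :: a :: G) := by
  simp [weak, Path, Slice.src, Slice.tgt, Loc.src, Loc.tgt, hT.out]

theorem block_path (hT : Tr Λ) (m m' a d : Λ) (G : List Λ) (w : Word Λ)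
    (h : Path (a :: d :: G) w (a :: d :: G)) :
    Path [m, star m] (block m m' (a :: d :: G, w)) [m', star m'] := by
  have h1 : Path [m, star m] (ctx [m, star m] [] (births [] (a :: d :: G)))
      (m :: star m :: a :: d :: (G ++ bar (a :: d :: G))) := by
    have := (births_path (a :: d :: G) []).ctx [m, star m] []
    simpa [bar] using this
  have h2 := hook_path hT m (star m) a d (G ++ bar (a :: d :: G))
  have h5 := weak_path hT m' (star m') a (d :: G ++ bar (a :: d :: G))
  have h6 : Path (m' :: star m' :: a :: d :: (G ++ bar (a :: d :: G)))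
      (ctx [m', star m'] (bar (a :: d :: G)) w)
      (m' :: star m' :: a :: d :: (G ++ bar (a :: d :: G))) := by
    have := h.ctx [m', star m'] (bar (a :: d :: G))
    simpa using this
  have h7 : Path (m' :: star m' :: a :: d :: (G ++ bar (a :: d :: G)))
      (ctx [m', star m'] [] (deaths [] (a :: d :: G))) [m', star m'] := by
    have := (deaths_path (a :: d :: G) []).ctx [m', star m'] []
    simpa [bar] using this
  unfold block
  refine h1.append (h2.append ?_)
  refine ⟨by simp [Slice.src, Loc.src], ?_⟩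
  refine ⟨by simp [Slice.src, Slice.tgt, Loc.src, Loc.tgt], ?_⟩
  have e : (⟨[], .birth m', a :: d :: G ++ bar (a :: d :: G)⟩ : Slice Λ).tgt =
      m' :: star m' :: a :: (d :: G ++ bar (a :: d :: G)) := by simp [Slice.tgt, Loc.tgt]
  rw [e]
  refine h5.append ?_
  refine Path.append ?_ h7
  simpa using h6

/-- the ring is closed -/
theorem ring_closed (hT : Tr Λ) (K : ℕ) (hK : 0 < K) (m : ℕ → Λ) (D : ℕ → Diag Λ)
    (hD : ∀ i < K, Closed (D i) ∧ ∃ a d G, (D i).1 = a :: d :: G) : Closed (ringL K m D) := by
  have key : ∀ n ≤ K, Path [m 0, star (m 0)]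
      ((List.range n).flatMap fun i => block (m i) (m (nxt K i)) (D i))
      [m (if n = K then 0 else n), star (m (if n = K then 0 else n))] := by
    intro n
    induction n with
    | zero =>
      intro _
      simp [hK.ne]
    | succ n ih =>
      intro hn
      have h1 := ih (by omega)
      rw [if_neg (by omega : n ≠ K)] at h1
      rw [List.range_succ, List.flatMap_append]
      refine h1.append ?_
      obtain ⟨hc, a, d, G, hG⟩ := hD n (by omega)
      have hDn : D n = (a :: d :: G, (D n).2) := by rw [← hG]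
      unfold Closed at hc
      rw [hG] at hc
      have h2 := block_path hT (m n) (m (nxt K n)) a d G (D n).2 hc
      rw [← hDn] at h2
      simpa [nxt] using h2
  have := key K le_rfl
  rw [if_pos rfl] at this
  exact this

/-! ### relabelling -/

theorem map_bar {f : Λ → Λ'} (hf : Hom f) (F : List Λ) : (bar F).map f = bar (F.map f) := by
  simp [bar, Function.comp_def, hf.star]

theorem relabelW_append (f : Λ → Λ') (u v : Word Λ) :
    relabelW f (u ++ v) = relabelW f u ++ relabelW f v := by simp [relabelW]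

theorem relabelW_cons (f : Λ → Λ') (s : Slice Λ) (v : Word Λ) :
    relabelW f (s :: v) = s.map f :: relabelW f v := by simp [relabelW]

theorem relabelW_nil (f : Λ → Λ') : relabelW f [] = [] := rfl

theorem relabelW_ctx (f : Λ → Λ') (P Q : List Λ) (w : Word Λ) :
    relabelW f (ctx P Q w) = ctx (P.map f) (Q.map f) (relabelW f w) := by
  simp [relabelW, ctx, Slice.map, Function.comp_def]

theorem relabelW_births {f : Λ → Λ'} (hf : Hom f) (F : List Λ) : ∀ P : List Λ,
    relabelW f (births P F) = births (P.map f) (F.map f) := by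
  induction F with
  | nil => intro P; rfl
  | cons a F ih =>
    intro P
    simp only [births, List.map_cons, relabelW_cons, ih, List.map_append, List.map_nil]
    simp [Slice.map, Loc.map, map_bar hf]

theorem relabelW_deaths {f : Λ → Λ'} (hf : Hom f) (F : List Λ) : ∀ P : List Λ,
    relabelW f (deaths P F) = deaths (P.map f) (F.map f) := by
  induction F with
  | nil => intro P; rfl
  | cons a F ih =>
    intro P
    simp only [deaths, List.map_cons, relabelW_append, ih, List.map_append, List.map_nil,
      relabelW_cons, relabelW_nil]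
    simp [Slice.map, Loc.map, map_bar hf]

theorem relabelW_block {f : Λ → Λ'} (hf : Hom f) (m m' : Λ) (D : Diag Λ) :
    relabelW f (block m m' D) = block (f m) (f m') (relabel f D) := by
  obtain ⟨F, w⟩ := D
  rcases F with _ | ⟨a, _ | ⟨d, G⟩⟩
  · rfl
  · rfl
  · have e : relabel f (a :: d :: G, w) = (f a :: f d :: G.map f, relabelW f w) := rfl
    rw [e]
    have hb : (bar (a :: d :: G)).map f = bar (f a :: f d :: G.map f) := by
      rw [map_bar hf]; rfl
    simp only [block, relabelW_append, relabelW_cons, relabelW_ctx, relabelW_births hf,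
      relabelW_deaths hf, hook, weak, relabelW_nil, Slice.map, Loc.map, List.map_cons,
      List.map_nil, List.map_append, hb, hf.star]

theorem relabel_ringL {f : Λ → Λ'} (hf : Hom f) (K : ℕ) (m : ℕ → Λ) (D : ℕ → Diag Λ) :
    relabel f (ringL K m D) = ringL K (fun i => f (m i)) (fun i => relabel f (D i)) := by
  unfold ringL
  rw [relabel_eq]
  refine Prod.ext ?_ ?_
  · simp [hf.star]
  · simp only
    have : ∀ l : List ℕ, relabelW f (l.flatMap fun i => block (m i) (m (nxt K i)) (D i)) =
        l.flatMap fun i => block (f (m i)) (f (m (nxt K i))) (relabel f (D i)) := by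
      intro l
      induction l with
      | nil => rfl
      | cons i l ih =>
        rw [List.flatMap_cons, List.flatMap_cons, relabelW_append, ih, relabelW_block hf]
    exact this _

theorem ringL_congr (K : ℕ) (m : ℕ → Λ) (D D' : ℕ → Diag Λ) (h : ∀ i < K, D i = D' i) :
    ringL K m D = ringL K m D' := by
  unfold ringL
  refine Prod.ext rfl ?_
  simp only
  have : ∀ l : List ℕ, (∀ i ∈ l, i < K) →
      (l.flatMap fun i => block (m i) (m (nxt K i)) (D i)) =
      l.flatMap fun i => block (m i) (m (nxt K i)) (D' i) := by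
    intro l
    induction l with
    | nil => intro _; rfl
    | cons i l ih =>
      intro hl
      rw [List.flatMap_cons, List.flatMap_cons, ih fun j hj => hl j (by simp [hj]),
        h i (hl i (by simp))]
  exact this _ fun i hi => List.mem_range.mp hi

theorem slice_map_pl (f : Pl → Pl) (s : Slice Pl) : s.map f = s := by
  have hf : ∀ x, f x = x := fun x => Subsingleton.elim _ _
  have hf' : f = id := funext hf
  obtain ⟨L, p, R⟩ := s
  cases p <;> simp [Slice.map, Loc.map, hf']

theorem relabel_pl (f : Pl → Pl) (D : Diag Pl) : relabel f D = D := by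
  have hf' : f = id := funext fun x => Subsingleton.elim _ _
  obtain ⟨F, w⟩ := D
  refine Prod.ext ?_ ?_
  · simp [relabel, hf']
  · have : (Slice.map f) = id := funext fun s => slice_map_pl f s
    simp [relabel, this]

theorem slice_map_map {Λ'' : Type} (f : Λ → Λ') (g : Λ' → Λ'') (s : Slice Λ) :
    (s.map f).map g = s.map (fun x => g (f x)) := by
  obtain ⟨L, p, R⟩ := s
  cases p <;> simp [Slice.map, Loc.map, Function.comp_def]

theorem relabel_relabel {Λ'' : Type} (f : Λ → Λ') (g : Λ' → Λ'') (D : Diag Λ) :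
    relabel g (relabel f D) = relabel (fun x => g (f x)) D := by
  obtain ⟨F, w⟩ := D
  simp [relabel, Function.comp_def, slice_map_map]

/-! ### counting crossings -/

/-- is the slice a crossing -/
def isCr (s : Slice Λ) : Bool := match s.p with
  | .cr _ _ _ => true
  | _ => false

theorem cross_eq (D : Diag Λ) : cross D = D.2.countP isCr := rfl

theorem countP_ctx (P Q : List Λ) (w : Word Λ) : (ctx P Q w).countP isCr = w.countP isCr := by
  induction w with
  | nil => rfl
  | cons s w ih =>
    rw [ctx_cons, List.countP_cons, List.countP_cons, ih]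
    rfl

theorem countP_births (F : List Λ) : ∀ P : List Λ, (births P F).countP isCr = 0 := by
  induction F with
  | nil => intro P; rfl
  | cons a F ih =>
    intro P
    simp only [births, List.countP_cons, ih]
    simp [isCr]

theorem countP_deaths (F : List Λ) : ∀ P : List Λ, (deaths P F).countP isCr = 0 := by
  induction F with
  | nil => intro P; rfl
  | cons a F ih =>
    intro P
    simp only [deaths, List.countP_append, ih, List.countP_cons, List.countP_nil]
    simp [isCr]

theorem countP_block (m m' a d : Λ) (G : List Λ) (w : Word Λ) :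
    (block m m' (a :: d :: G, w)).countP isCr = w.countP isCr + 6 := by
  simp only [block, hook, weak, List.countP_append, List.countP_cons, countP_ctx,
    countP_births, countP_deaths, List.countP_nil]
  simp [isCr]
  omega

theorem cross_ringL (K : ℕ) (m : ℕ → Λ) (D : ℕ → Diag Λ)
    (hD : ∀ i < K, ∃ a d G, (D i).1 = a :: d :: G) :
    cross (ringL K m D) = ∑ i ∈ Finset.range K, (cross (D i) + 6) := by
  rw [cross_eq]
  unfold ringL
  simp only
  have key : ∀ n ≤ K, ((List.range n).flatMap fun i =>
      block (m i) (m (nxt K i)) (D i)).countP isCr = ∑ i ∈ Finset.range n, (cross (D i) + 6) := by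
    intro n
    induction n with
    | zero => intro _; rfl
    | succ n ih =>
      intro hn
      rw [List.range_succ, List.flatMap_append, List.countP_append, ih (by omega),
        Finset.sum_range_succ]
      obtain ⟨a, d, G, hG⟩ := hD n (by omega)
      have hDn : D n = (a :: d :: G, (D n).2) := by rw [← hG]
      have h2 := countP_block (m n) (m (nxt K n)) a d G (D n).2
      rw [← hDn] at h2
      simp only [List.flatMap_cons, List.flatMap_nil, List.append_nil]
      rw [h2, cross_eq]
  exact key K le_rfl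

/-! ### the labels which occur -/

/-- all labels of the slice satisfy `S` -/
def AS (S : Λ → Prop) (s : Slice Λ) : Prop := (∀ a ∈ s.src, S a) ∧ ∀ a ∈ s.tgt, S a

theorem as_mk (S : Λ → Prop) (L : List Λ) (p : Loc Λ) (R : List Λ) :
    AS S ⟨L, p, R⟩ ↔ (∀ a ∈ L, S a) ∧ (∀ a ∈ p.src, S a) ∧ (∀ a ∈ p.tgt, S a) ∧ ∀ a ∈ R, S a := by
  simp only [AS, Slice.src, Slice.tgt, List.mem_append]
  constructor
  · rintro ⟨h1, h2⟩
    exact ⟨fun a h => h1 a (Or.inl (Or.inl h)), fun a h => h1 a (Or.inl (Or.inr h)),
      fun a h => h2 a (Or.inl (Or.inr h)), fun a h => h1 a (Or.inr h)⟩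
  · rintro ⟨h1, h2, h3, h4⟩
    refine ⟨?_, ?_⟩
    · rintro a ((h | h) | h)
      exacts [h1 a h, h2 a h, h4 a h]
    · rintro a ((h | h) | h)
      exacts [h1 a h, h3 a h, h4 a h]

theorem bar_all {S : Λ → Prop} (hS : ∀ x, S x → S (star x)) {F : List Λ} (h : ∀ a ∈ F, S a) :
    ∀ a ∈ bar F, S a := by
  intro a ha
  simp only [bar, List.mem_reverse, List.mem_map] at ha
  obtain ⟨b, hb, rfl⟩ := ha
  exact hS b (h b hb)

theorem births_all {S : Λ → Prop} (hS : ∀ x, S x → S (star x)) (F : List Λ) : ∀ P : List Λ,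
    (∀ a ∈ P, S a) → (∀ a ∈ F, S a) → ∀ s ∈ births P F, AS S s := by
  induction F with
  | nil => intro P _ _ s hs; simp [births] at hs
  | cons a F ih =>
    intro P hP hF s hs
    simp only [births, List.mem_cons] at hs
    have ha : S a := hF a (by simp)
    rcases hs with rfl | hs
    · rw [as_mk]
      refine ⟨hP, by simp [Loc.src], ?_, bar_all hS hP⟩
      simp [Loc.tgt, ha, hS a ha]
    · refine ih (P ++ [a]) ?_ (fun b hb => hF b (by simp [hb])) s hs
      intro b hb
      simp only [List.mem_append, List.mem_singleton] at hb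
      rcases hb with hb | rfl
      exacts [hP b hb, ha]

theorem deaths_all {S : Λ → Prop} (hS : ∀ x, S x → S (star x)) (F : List Λ) : ∀ P : List Λ,
    (∀ a ∈ P, S a) → (∀ a ∈ F, S a) → ∀ s ∈ deaths P F, AS S s := by
  induction F with
  | nil => intro P _ _ s hs; simp [deaths] at hs
  | cons a F ih =>
    intro P hP hF s hs
    simp only [deaths, List.mem_append, List.mem_singleton] at hs
    have ha : S a := hF a (by simp)
    rcases hs with hs | rfl
    · refine ih (P ++ [a]) ?_ (fun b hb => hF b (by simp [hb])) s hs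
      intro b hb
      simp only [List.mem_append, List.mem_singleton] at hb
      rcases hb with hb | rfl
      exacts [hP b hb, ha]
    · rw [as_mk]
      refine ⟨hP, ?_, by simp [Loc.tgt], bar_all hS hP⟩
      simp [Loc.src, ha, hS a ha]

theorem ctx_all {S : Λ → Prop} {P Q : List Λ} {w : Word Λ} (hP : ∀ a ∈ P, S a)
    (hQ : ∀ a ∈ Q, S a) (hw : ∀ s ∈ w, AS S s) : ∀ s ∈ ctx P Q w, AS S s := by
  intro s hs
  simp only [ctx, List.mem_map] at hs
  obtain ⟨t, ht, rfl⟩ := hs
  have h := hw t ht
  obtain ⟨L, p, R⟩ := t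
  rw [as_mk] at h
  rw [as_mk]
  refine ⟨?_, h.2.1, h.2.2.1, ?_⟩
  · intro a ha
    rw [List.mem_append] at ha
    exact ha.elim (hP a) (h.1 a)
  · intro a ha
    rw [List.mem_append] at ha
    exact ha.elim (h.2.2.2 a) (hQ a)

theorem hook_all (hT : Tr Λ) {S : Λ → Prop} {m₀ m a d : Λ} {G : List Λ} (h0 : S m₀) (h1 : S m)
    (h2 : S a) (h3 : S d) (h4 : ∀ x ∈ G, S x) : ∀ s ∈ hook m₀ m a d G, AS S s := by
  intro s hs
  simp only [hook, List.mem_cons, List.not_mem_nil, or_false] at hs
  rcases hs with rfl | rfl | rfl | rfl <;>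
    simp only [as_mk, Loc.src, Loc.tgt, hT.out, List.mem_cons, List.not_mem_nil, or_false,
      forall_eq_or_imp, forall_eq] <;> tauto

theorem weak_all (hT : Tr Λ) {S : Λ → Prop} {m₀ m a : Λ} {G : List Λ} (h0 : S m₀) (h1 : S m)
    (h2 : S a) (h4 : ∀ x ∈ G, S x) : ∀ s ∈ weak m₀ m a G, AS S s := by
  intro s hs
  simp only [weak, List.mem_cons, List.not_mem_nil, or_false] at hs
  rcases hs with rfl | rfl <;>
    simp only [as_mk, Loc.src, Loc.tgt, hT.out, List.mem_cons, List.not_mem_nil, or_false,
      forall_eq_or_imp, forall_eq] <;> tauto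

theorem block_all (hT : Tr Λ) {S : Λ → Prop} (hS : ∀ x, S x → S (star x)) {m m' a d : Λ}
    {G : List Λ} {w : Word Λ} (hm : S m) (hm' : S m') (hF : ∀ x ∈ a :: d :: G, S x)
    (hw : ∀ s ∈ w, AS S s) : ∀ s ∈ block m m' (a :: d :: G, w), AS S s := by
  have ha : S a := hF a (by simp)
  have hd : S d := hF d (by simp)
  have hG : ∀ x ∈ G, S x := fun x hx => hF x (by simp [hx])
  have hb : ∀ x ∈ bar (a :: d :: G), S x := bar_all hS hF
  have hGb : ∀ x ∈ G ++ bar (a :: d :: G), S x := by
    intro x hx
    rw [List.mem_append] at hx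
    exact hx.elim (hG x) (hb x)
  have hFb : ∀ x ∈ a :: d :: G ++ bar (a :: d :: G), S x := by
    intro x hx
    rw [List.mem_append] at hx
    exact hx.elim (hF x) (hb x)
  have hmm : ∀ x ∈ [m, star m], S x := by simp [hm, hS m hm]
  have hmm' : ∀ x ∈ [m', star m'], S x := by simp [hm', hS m' hm']
  intro s hs
  simp only [block, List.mem_append, List.mem_cons] at hs
  rcases hs with hs | hs | hs | hs | hs | hs | hs
  · exact ctx_all hmm (by simp) (births_all hS _ [] (by simp) hF) s hs
  · exact hook_all hT hm (hS m hm) ha hd hGb s hs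
  · subst hs
    rw [as_mk]
    exact ⟨by simp, by simpa [Loc.src] using hmm, by simp [Loc.tgt], hFb⟩
  · subst hs
    rw [as_mk]
    exact ⟨by simp, by simp [Loc.src], by simpa [Loc.tgt] using hmm', hFb⟩
  · refine weak_all hT hm' (hS m' hm') ha ?_ s hs
    intro x hx
    rw [List.mem_append] at hx
    rcases hx with hx | hx
    · exact hF x (by simp only [List.mem_cons] at hx ⊢; tauto)
    · exact hb x hx
  · exact ctx_all hmm' hb hw s hs
  · exact ctx_all hmm' (by simp) (deaths_all hS _ [] (by simp) hF) s hs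

/-- all labels of a relabelled diagram with constant colour -/
theorem const_all (κ κ' : Type) (c : Col κ) (w : Word (Col κ')) :
    ∀ s ∈ w.map (Slice.map (fun _ : Col κ' => c)), AS (fun x => x = c) s := by
  intro s hs
  rw [List.mem_map] at hs
  obtain ⟨t, _, rfl⟩ := hs
  obtain ⟨L, p, R⟩ := t
  rw [show (⟨L, p, R⟩ : Slice (Col κ')).map (fun _ => c) =
    ⟨L.map fun _ => c, p.map fun _ => c, R.map fun _ => c⟩ from rfl, as_mk]
  refine ⟨?_, ?_, ?_, ?_⟩
  · simp
  · cases p <;> simp [Loc.map, Loc.src, star, Palette.star]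
  · cases p <;> simp [Loc.map, Loc.tgt, star, Palette.star, (tr_col κ).out]
  · simp

end RA

open RA

theorem stRingA : StRingA := by
  classical
  intro K R hK hR
  have hK0 : 0 < K := by omega
  -- the coloured blocks
  have hcol : ∀ i < K, Closed (relabel (fun _ => (⟨Sum.inl i⟩ : Col (ℕ ⊕ ℕ))) (R i)) ∧
      ∃ a d G, (relabel (fun _ => (⟨Sum.inl i⟩ : Col (ℕ ⊕ ℕ))) (R i)).1 = a :: d :: G := by
    intro i hi
    obtain ⟨⟨hc, _⟩, G, hG⟩ := hR i hi
    refine ⟨?_, ?_⟩
    · have hp : ∀ (w : Word Pl) (F F' : List Pl), Path F w F' →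
          Path (F.map fun _ => (⟨Sum.inl i⟩ : Col (ℕ ⊕ ℕ)))
            (relabelW (fun _ => ⟨Sum.inl i⟩) w) (F'.map fun _ => ⟨Sum.inl i⟩) := by
        intro w
        induction w with
        | nil => intro F F' h; cases h; rfl
        | cons s w ih =>
          intro F F' h
          rw [path_cons] at h
          rw [relabelW_cons, path_cons]
          obtain ⟨L, p, Q⟩ := s
          have e1 : ((⟨L, p, Q⟩ : Slice Pl).map
              (fun _ => (⟨Sum.inl i⟩ : Col (ℕ ⊕ ℕ)))).src =
              (⟨L, p, Q⟩ : Slice Pl).src.map fun _ => ⟨Sum.inl i⟩ := by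
            cases p <;> simp [Slice.map, Slice.src, Loc.map, Loc.src, star, Palette.star]
          have e2 : ((⟨L, p, Q⟩ : Slice Pl).map
              (fun _ => (⟨Sum.inl i⟩ : Col (ℕ ⊕ ℕ)))).tgt =
              (⟨L, p, Q⟩ : Slice Pl).tgt.map fun _ => ⟨Sum.inl i⟩ := by
            cases p <;> simp [Slice.map, Slice.tgt, Loc.map, Loc.tgt, star, Palette.star,
              (tr_col _).out]
          refine ⟨?_, ?_⟩
          · rw [e1, h.1]
          · rw [e2]
            exact ih _ _ h.2
      exact hp _ _ _ hc
    · rw [relabel_eq, hG]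
      exact ⟨_, _, _, rfl⟩
  have hplain : plain (ringC K R) = ring K R := by
    unfold plain ringC ring
    rw [relabel_ringL (hom_pl _)]
    congr 1
    funext i
    rw [relabel_relabel]
    exact relabel_pl _ _
  refine ⟨ring_closed (tr_col _) K hK0 _ _ hcol, hplain, ?_, ?_, ?_⟩
  · -- IsDiagram
    refine ⟨ring_closed (tr_col _) K hK0 _ _ fun i hi => ⟨(hR i hi).1.1, ?_⟩, ?_⟩
    · obtain ⟨G, hG⟩ := (hR i hi).2
      exact ⟨_, _, _, hG⟩
    · have hE : ∀ i : ℕ, ∃ E : Diag (Mer PUnit), i < K → Closed E ∧ plain E = R i := by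
        intro i
        by_cases hi : i < K
        · obtain ⟨E, h1, h2⟩ := (hR i hi).1.2
          exact ⟨E, fun _ => ⟨h1, h2⟩⟩
        · exact ⟨([], []), fun h => absurd h hi⟩
      choose E hE using hE
      refine ⟨ringL K (fun _ => ⟨PUnit.unit, true⟩) E, ?_, ?_⟩
      · refine ring_closed tr_mer K hK0 _ _ fun i hi => ⟨(hE i hi).1, ?_⟩
        have h1 := (hE i hi).2
        obtain ⟨G, hG⟩ := (hR i hi).2
        have h2 : (E i).1.map (fun _ => pt) = pt :: pt :: G := by
          rw [← hG, ← h1]
          rfl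
        rcases h3 : (E i).1 with _ | ⟨a, _ | ⟨d, F⟩⟩
        · rw [h3] at h2; simp at h2
        · rw [h3] at h2; simp at h2
        · exact ⟨a, d, F, rfl⟩
      · unfold plain ring
        rw [relabel_ringL (hom_pl _)]
        exact ringL_congr K _ _ _ fun i hi => (hE i hi).2
  · -- cross
    unfold ring
    refine cross_ringL K _ R fun i hi => ?_
    obtain ⟨G, hG⟩ := (hR i hi).2
    exact ⟨_, _, _, hG⟩
  · -- labels
    have hS : ∀ x : Col (ℕ ⊕ ℕ), (∃ i < K, x.c = Sum.inl i ∨ x.c = Sum.inr i) →
        ∃ i < K, (star x).c = Sum.inl i ∨ (star x).c = Sum.inr i := fun x hx => hx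
    refine ⟨?_, ?_⟩
    · intro a ha
      simp only [ringC, ringL, List.mem_cons, List.not_mem_nil, or_false] at ha
      rcases ha with rfl | rfl
      · exact ⟨0, hK0, Or.inr rfl⟩
      · exact ⟨0, hK0, Or.inr rfl⟩
    · intro s hs
      simp only [ringC, ringL, List.mem_flatMap, List.mem_range] at hs
      obtain ⟨i, hi, hs⟩ := hs
      obtain ⟨hc, a, d, G, hG⟩ := hcol i hi
      have hn : nxt K i < K := by
        unfold nxt
        split_ifs <;> omega
      have hall := const_all (ℕ ⊕ ℕ) Unit ⟨Sum.inl i⟩ (R i).2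
      have hD : relabel (fun _ => (⟨Sum.inl i⟩ : Col (ℕ ⊕ ℕ))) (R i) =
          (a :: d :: G, (R i).2.map (Slice.map fun _ => ⟨Sum.inl i⟩)) := by
        rw [← hG]
        rfl
      rw [hD] at hs
      refine block_all (tr_col _) hS (m := ⟨Sum.inr i⟩) (m' := ⟨Sum.inr (nxt K i)⟩)
        ⟨i, hi, Or.inr rfl⟩ ⟨nxt K i, hn, Or.inr rfl⟩ ?_ ?_ s hs
      · intro x hx
        rw [← hG] at hx
        simp only [relabel, List.mem_map] at hx
        obtain ⟨_, _, rfl⟩ := hx
        exact ⟨i, hi, Or.inl rfl⟩
      · intro t ht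
        have h := hall t ht
        refine ⟨fun x hx => ?_, fun x hx => ?_⟩
        · rw [h.1 x hx]
          exact ⟨i, hi, Or.inl rfl⟩
        · rw [h.2 x hx]
          exact ⟨i, hi, Or.inl rfl⟩

end Pool.Agent.H838R2.PL
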