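import Pool.Agent.H838R2.PL.Stubs

/-!
# Tasks D1b and D1c: erasing strands of a ring (helper497)
-/

set_option autoImplicit false
set_option linter.unusedSectionVars false
set_option linter.unusedSimpArgs false

namespace Pool.Agent.H838R2.PL

open Relation

namespace RB

section gen

variable {Λ : Type} [Palette Λ]

theorem delW_nil (K : Λ → Bool) : delW K [] = [] := rfl

theorem delW_cons (K : Λ → Bool) (s : Slice Λ) (w : Word Λ) :
    delW K (s :: w) = delS K s ++ delW K w := by
  unfold delW
  rw [List.flatMap_cons]

theorem delW_append (K : Λ → Bool) (u v : Word Λ) : delW K (u ++ v) = delW K u ++ delW K v := by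
  unfold delW
  rw [List.flatMap_append]

theorem delW_flatMap (K : Λ → Bool) {ι : Type} (l : List ι) (f : ι → Word Λ) :
    delW K (l.flatMap f) = l.flatMap (fun j => delW K (f j)) := by
  unfold delW
  rw [List.flatMap_assoc]

theorem bar_append (P : List Λ) (a : Λ) : bar (P ++ [a]) = star a :: bar P := by
  simp [bar]

theorem births_path : ∀ (F P : List Λ),
    Path (P ++ bar P) (births P F) (P ++ F ++ bar (P ++ F)) := by
  intro F
  induction F with
  | nil => intro P; simp [births]
  | cons a F ih =>
    intro P
    refine ⟨by simp [Slice.src, Loc.src], ?_⟩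
    have := ih (P ++ [a])
    rw [bar_append] at this
    simpa [Slice.tgt, Loc.tgt, List.append_assoc] using this

theorem deaths_path : ∀ (F P : List Λ),
    Path (P ++ F ++ bar (P ++ F)) (deaths P F) (P ++ bar P) := by
  intro F
  induction F with
  | nil => intro P; simp [deaths]
  | cons a F ih =>
    intro P
    have := ih (P ++ [a])
    refine Path.append (G := (P ++ [a]) ++ bar (P ++ [a])) (by
      simpa [List.append_assoc] using this) ?_
    rw [bar_append]
    simp [Slice.src, Slice.tgt, Loc.src, Loc.tgt]

/-- moving a maximum on the left down through a word -/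
theorem slide (m : Λ) (F0 : List Λ) (y : Word Λ) : ∀ (u x : Word Λ) (A B : List Λ),
    Path F0 x A → Path A u B → Path (m :: star m :: B) y F0 →
    Iso (F0, x ++ (⟨[], .birth m, A⟩ :: ctx [m, star m] [] u) ++ y)
      (F0, x ++ (u ++ [⟨[], .birth m, B⟩]) ++ y) := by
  intro u
  induction u with
  | nil =>
    intro x A B _ h _
    cases h
    exact EqvGen.refl _
  | cons s u ih =>
    intro x A B hx hu hy
    obtain ⟨L, q, R⟩ := s
    obtain ⟨hs, hu⟩ := hu
    have hc : Path (m :: star m :: (⟨L, q, R⟩ : Slice Λ).tgt) (ctx [m, star m] [] u)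
        (m :: star m :: B) := by
      have := hu.ctx [m, star m] []
      simpa using this
    have h1 := Step.loc F0 [] R x (ctx [m, star m] [] u ++ y) (BM.far (.birth m) q L)
      (by
        have e : ([] : List Λ) ++ ((Loc.birth m).src ++ L ++ q.src) ++ R = A := by
          rw [← hs]; simp [Loc.src, Slice.src]
        rw [e]; exact hx)
      (by
        refine Path.append (G := m :: star m :: B) ?_ hy
        have e : ([] : List Λ) ++ ((Loc.birth m).tgt ++ L ++ q.tgt) ++ R =
            m :: star m :: (⟨L, q, R⟩ : Slice Λ).tgt := by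
          simp [Loc.tgt, Slice.tgt]
        rw [e]; exact hc)
    have hx' : Path F0 (x ++ [⟨L, q, R⟩]) (⟨L, q, R⟩ : Slice Λ).tgt :=
      hx.append ⟨hs, rfl⟩
    have h2 := ih (x ++ [⟨L, q, R⟩]) _ B hx' hu hy
    refine EqvGen.trans _ _ _ (EqvGen.rel _ _ ?_) (by simpa using h2)
    rw [← hs]
    simpa [Loc.src, Loc.tgt, Slice.src, Slice.tgt] using h1

end gen

section flat

theorem flatMap_two {α : Type} (f : ℕ → List α) (p q : ℕ) (hpq : p < q) : ∀ K : ℕ,
    (∀ j < K, j ≠ p → j ≠ q → f j = []) →
    (List.range K).flatMap f = (if p < K then f p else []) ++ (if q < K then f q else []) := by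
  intro K
  induction K with
  | zero => intro _; simp
  | succ K ih =>
    intro h
    rw [List.range_succ, List.flatMap_append, ih (fun j hj => h j (by omega)),
      List.flatMap_singleton]
    by_cases h1 : K = p
    · subst h1
      rw [if_neg (by omega), if_neg (by omega), if_pos (by omega), if_neg (by omega)]
      simp
    · by_cases h2 : K = q
      · subst h2
        rw [if_pos hpq, if_neg (by omega), if_pos (by omega), if_pos (by omega)]
        simp
      · rw [h K (by omega) h1 h2, List.append_nil]
        have e1 : (p < K + 1) = (p < K) := by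
          apply propext; omega
        have e2 : (q < K + 1) = (q < K) := by
          apply propext; omega
        simp only [e1, e2]

theorem flatMap_one {α : Type} (f : ℕ → List α) (p : ℕ) (K : ℕ) (hp : p < K)
    (h : ∀ j < K, j ≠ p → f j = []) : (List.range K).flatMap f = f p := by
  have := flatMap_two f p K hp K (fun j hj h1 _ => h j hj h1)
  rw [this, if_pos hp, if_neg (lt_irrefl _), List.append_nil]

end flat

section col

variable {κ : Type}

/-- all labels of the word are `β` -/
structure OneW (β : Col κ) (w : Word (Col κ)) : Prop where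
  p : ∀ s ∈ w, ∀ K : Col κ → Bool, keepLoc K s.p = K β
  L : ∀ s ∈ w, ∀ x ∈ s.L, x = β
  R : ∀ s ∈ w, ∀ x ∈ s.R, x = β

theorem bar_all {β : Col κ} {P : List (Col κ)} (h : ∀ x ∈ P, x = β) : ∀ x ∈ bar P, x = β := by
  intro x hx
  unfold bar at hx
  rw [List.mem_reverse, List.mem_map] at hx
  obtain ⟨y, hy, rfl⟩ := hx
  exact h y hy

theorem oneW_births {β : Col κ} : ∀ (F P : List (Col κ)), (∀ x ∈ P, x = β) → (∀ x ∈ F, x = β) →
    OneW β (births P F) := by
  intro F
  induction F with
  | nil => intro P _ _; exact ⟨by simp [births], by simp [births], by simp [births]⟩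
  | cons a F ih =>
    intro P hP hF
    have ha : a = β := hF a (by simp)
    have h1 := ih (P ++ [a]) (by
      intro x hx
      rw [List.mem_append, List.mem_singleton] at hx
      rcases hx with hx | hx
      · exact hP x hx
      · rw [hx, ha]) (fun x hx => hF x (List.mem_cons_of_mem _ hx))
    constructor
    · intro s hs K
      simp only [births, List.mem_cons] at hs
      rcases hs with rfl | hs
      · simp [keepLoc, ha]
      · exact h1.p s hs K
    · intro s hs
      simp only [births, List.mem_cons] at hs
      rcases hs with rfl | hs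
      · exact hP
      · exact h1.L s hs
    · intro s hs
      simp only [births, List.mem_cons] at hs
      rcases hs with rfl | hs
      · exact bar_all hP
      · exact h1.R s hs

theorem oneW_deaths {β : Col κ} : ∀ (F P : List (Col κ)), (∀ x ∈ P, x = β) → (∀ x ∈ F, x = β) →
    OneW β (deaths P F) := by
  intro F
  induction F with
  | nil => intro P _ _; exact ⟨by simp [deaths], by simp [deaths], by simp [deaths]⟩
  | cons a F ih =>
    intro P hP hF
    have ha : a = β := hF a (by simp)
    have h1 := ih (P ++ [a]) (by
      intro x hx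
      rw [List.mem_append, List.mem_singleton] at hx
      rcases hx with hx | hx
      · exact hP x hx
      · rw [hx, ha]) (fun x hx => hF x (List.mem_cons_of_mem _ hx))
    constructor
    · intro s hs K
      simp only [deaths, List.mem_append, List.mem_singleton] at hs
      rcases hs with hs | rfl
      · exact h1.p s hs K
      · simp [keepLoc, ha]
    · intro s hs
      simp only [deaths, List.mem_append, List.mem_singleton] at hs
      rcases hs with hs | rfl
      · exact h1.L s hs
      · exact hP
    · intro s hs
      simp only [deaths, List.mem_append, List.mem_singleton] at hs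
      rcases hs with hs | rfl
      · exact h1.R s hs
      · exact bar_all hP

theorem oneW_relabel {Λ : Type} [Palette Λ] (β : Col κ) (w : Word Λ) :
    OneW β (relabelW (fun _ => β) w) := by
  constructor
  · intro s hs K
    simp only [relabelW, List.mem_map] at hs
    obtain ⟨t, _, rfl⟩ := hs
    rcases t with ⟨L, p, R⟩
    cases p <;> simp [Slice.map, Loc.map, keepLoc]
  · intro s hs x hx
    simp only [relabelW, List.mem_map] at hs
    obtain ⟨t, _, rfl⟩ := hs
    simp only [Slice.map, List.mem_map] at hx
    obtain ⟨_, _, h⟩ := hx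
    exact h.symm
  · intro s hs x hx
    simp only [relabelW, List.mem_map] at hs
    obtain ⟨t, _, rfl⟩ := hs
    simp only [Slice.map, List.mem_map] at hx
    obtain ⟨_, _, h⟩ := hx
    exact h.symm

theorem filter_keep {β : Col κ} {K : Col κ → Bool} (hK : K β = true) {l : List (Col κ)}
    (h : ∀ x ∈ l, x = β) : l.filter K = l := by
  rw [List.filter_eq_self]
  intro x hx; rw [h x hx, hK]

theorem filter_erase {β : Col κ} {K : Col κ → Bool} (hK : K β = false) {l : List (Col κ)}
    (h : ∀ x ∈ l, x = β) : l.filter K = [] := by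
  rw [List.filter_eq_nil_iff]
  intro x hx; rw [h x hx, hK]; simp

theorem delW_one_keep {β : Col κ} {w : Word (Col κ)} (hw : OneW β w) {K : Col κ → Bool}
    (hK : K β = true) (P Q : List (Col κ)) :
    delW K (ctx P Q w) = ctx (P.filter K) (Q.filter K) w := by
  induction w with
  | nil => rfl
  | cons s w ih =>
    have hw' : OneW β w := ⟨fun t ht => hw.p t (List.mem_cons_of_mem _ ht),
      fun t ht => hw.L t (List.mem_cons_of_mem _ ht), fun t ht => hw.R t (List.mem_cons_of_mem _ ht)⟩
    rw [ctx_cons, ctx_cons, delW_cons, ih hw']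
    have e : keepLoc K s.p = true := by rw [hw.p s (by simp) K, hK]
    unfold delS
    simp only [e, if_true]
    rw [List.filter_append, List.filter_append, filter_keep hK (hw.L s (by simp)),
      filter_keep hK (hw.R s (by simp))]
    rfl

theorem delW_one_erase {β : Col κ} {w : Word (Col κ)} (hw : OneW β w) {K : Col κ → Bool}
    (hK : K β = false) (P Q : List (Col κ)) : delW K (ctx P Q w) = [] := by
  induction w with
  | nil => rfl
  | cons s w ih =>
    have hw' : OneW β w := ⟨fun t ht => hw.p t (List.mem_cons_of_mem _ ht),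
      fun t ht => hw.L t (List.mem_cons_of_mem _ ht), fun t ht => hw.R t (List.mem_cons_of_mem _ ht)⟩
    rw [ctx_cons, delW_cons, ih hw']
    have e : keepLoc K s.p = false := by rw [hw.p s (by simp) K, hK]
    unfold delS
    simp [e]

/-- erasing the strands of a block -/
theorem block_erase {β m m' : Col κ} {G : List (Col κ)} {w : Word (Col κ)} (hG : ∀ x ∈ G, x = β)
    (hw : OneW β w) {K : Col κ → Bool} (hK : K β = false) :
    delW K (block m m' (β :: β :: G, w)) =
      (if K m then [⟨[], .death m, []⟩] else []) ++ (if K m' then [⟨[], .birth m', []⟩] else []) := by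
  have hF : ∀ x ∈ β :: β :: G, x = β := by
    intro x hx
    simp only [List.mem_cons] at hx
    rcases hx with hx | hx | hx
    · exact hx
    · exact hx
    · exact hG x hx
  have hFF : ∀ x ∈ β :: β :: G ++ bar (β :: β :: G), x = β := by
    intro x hx
    rw [List.mem_append] at hx
    rcases hx with hx | hx
    · exact hF x hx
    · exact bar_all hF x hx
  simp only [block, delW_append, delW_cons, delW_nil, hook, weak]
  rw [delW_one_erase (oneW_births _ _ (by simp) hF) hK, delW_one_erase hw hK,
    delW_one_erase (oneW_deaths _ _ (by simp) hF) hK]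
  simp only [delS, keepLoc, hK, Bool.and_false, Bool.false_and, Bool.false_eq_true, if_false,
    filter_erase hK hFF, List.filter_nil, List.nil_append, List.append_nil]

/-- keeping only the strands of a block -/
theorem block_keep {β m m' : Col κ} {G : List (Col κ)} {w : Word (Col κ)} (hG : ∀ x ∈ G, x = β)
    (hw : OneW β w) {K : Col κ → Bool} (hK : K β = true) (hm : K m = false) (hm' : K m' = false) :
    delW K (block m m' (β :: β :: G, w)) = births [] (β :: β :: G) ++
      (ctx [] (bar (β :: β :: G)) w ++ deaths [] (β :: β :: G)) := by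
  have hF : ∀ x ∈ β :: β :: G, x = β := by
    intro x hx
    simp only [List.mem_cons] at hx
    rcases hx with hx | hx | hx
    · exact hx
    · exact hx
    · exact hG x hx
  have hsm : K (star m) = false := hm
  have hsm' : K (star m') = false := hm'
  simp only [block, delW_append, delW_cons, delW_nil, hook, weak]
  rw [delW_one_keep (oneW_births _ _ (by simp) hF) hK, delW_one_keep hw hK,
    delW_one_keep (oneW_deaths _ _ (by simp) hF) hK]
  simp only [delS, keepLoc, hK, hm, hm', hsm, hsm', Bool.and_false, Bool.false_and,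
    Bool.false_eq_true, if_false, filter_keep hK (bar_all hF), List.filter_nil, List.filter_cons,
    List.nil_append, List.append_nil, ctx_nil_nil]

/-- keeping the strands of a block and its circle -/
theorem block_lens {β m m' : Col κ} {G : List (Col κ)} {w : Word (Col κ)} (hG : ∀ x ∈ G, x = β)
    (hw : OneW β w) {K : Col κ → Bool} (hK : K β = true) (hm : K m = true) (hm' : K m' = false) :
    delW K (block m m' (β :: β :: G, w)) = ctx [m, star m] [] (births [] (β :: β :: G)) ++
      (hook m (star m) β β (G ++ bar (β :: β :: G)) ++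
      (⟨[], .death m, β :: β :: G ++ bar (β :: β :: G)⟩ ::
      (ctx [] (bar (β :: β :: G)) w ++ deaths [] (β :: β :: G)))) := by
  have hF : ∀ x ∈ β :: β :: G, x = β := by
    intro x hx
    simp only [List.mem_cons] at hx
    rcases hx with hx | hx | hx
    · exact hx
    · exact hx
    · exact hG x hx
  have hsm : K (star m) = true := hm
  have hsm' : K (star m') = false := hm'
  simp only [block, delW_append, delW_cons, delW_nil, hook, weak]
  rw [delW_one_keep (oneW_births _ _ (by simp) hF) hK, delW_one_keep hw hK,
    delW_one_keep (oneW_deaths _ _ (by simp) hF) hK]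
  simp only [delS, keepLoc, hK, hm, hm', hsm, hsm', Bool.and_false, Bool.false_and, Bool.and_true,
    Bool.false_eq_true, if_false, if_true, filter_keep hK (bar_all hF), List.filter_nil,
    List.filter_cons, List.filter_append, filter_keep hK hG,
    List.nil_append, List.append_nil, ctx_nil_nil, List.cons_append, List.singleton_append]

end col

end RB

open RB

theorem RB.star_col {κ : Type} (x : Col κ) : star x = x := rfl

/-- the shape of the coloured blocks -/
theorem RB.form {R : Diag Pl} (h : ∃ G, R.1 = pt :: pt :: G) {κ : Type} (β : Col κ) :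
    ∃ G w, relabel (fun _ => β) R = (β :: β :: G, w) ∧ (∀ x ∈ G, x = β) ∧ OneW β w := by
  obtain ⟨G, hG⟩ := h
  refine ⟨G.map (fun _ => β), relabelW (fun _ => β) R.2, ?_, ?_, oneW_relabel β R.2⟩
  · rw [relabel_eq, hG]; rfl
  · intro x hx
    rw [List.mem_map] at hx
    obtain ⟨_, _, h⟩ := hx
    exact h.symm

theorem RB.del_ringC (P : Col (ℕ ⊕ ℕ) → Bool) (K : ℕ) (R : ℕ → Diag Pl) :
    del P (ringC K R) = ([(⟨Sum.inr 0⟩ : Col (ℕ ⊕ ℕ)), ⟨Sum.inr 0⟩].filter P,
      (List.range K).flatMap fun j => delW P (block ⟨Sum.inr j⟩ ⟨Sum.inr (nxt K j)⟩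
        (relabel (fun _ => ⟨Sum.inl j⟩) (R j)))) := by
  unfold del ringC ringL
  rw [delW_flatMap]
  rfl

theorem RB.closed_relabel (hR : StRelabel) {D : Diag Pl} (h : Closed D) {κ : Type} (β : Col κ) :
    Closed (relabel (fun _ => β) D) :=
  (hR _ _ (fun _ : Pl => β) (hom_col _)).1 _ _ _ h

theorem stRingB (hR : StRelabel) (hC : StClose) : StRingB := by
  intro K R hK hRd
  constructor
  · intro i hi
    have e : del (isB i) (ringC K R) = closeUp (relabel (fun _ => ⟨Sum.inl i⟩) (R i)) := by
      rw [del_ringC, flatMap_one _ i K hi]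
      · obtain ⟨G, w, e1, hG, hw⟩ := form (hRd i hi).2 (⟨Sum.inl i⟩ : Col (ℕ ⊕ ℕ))
        rw [e1, block_keep hG hw (by simp [isB]) (by simp [isB]) (by simp [isB])]
        simp [isB, closeUp]
      · intro j hj hji
        obtain ⟨G, w, e1, hG, hw⟩ := form (hRd j hj).2 (⟨Sum.inl j⟩ : Col (ℕ ⊕ ℕ))
        rw [e1, block_erase hG hw (by simp [isB, hji])]
        simp [isB]
    rw [e]
    exact EqvGen.symm _ _ (hC _ _ (closed_relabel hR (hRd i hi).1.1 _)).2.1
  · intro i hi
    have hf : ∀ j < K, delW (isM i) (block ⟨Sum.inr j⟩ ⟨Sum.inr (nxt K j)⟩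
        (relabel (fun _ => ⟨Sum.inl j⟩) (R j))) =
        (if j = i then [⟨[], .death ⟨Sum.inr i⟩, []⟩] else []) ++
        (if nxt K j = i then [⟨[], .birth ⟨Sum.inr i⟩, []⟩] else []) := by
      intro j hj
      obtain ⟨G, w, e1, hG, hw⟩ := form (hRd j hj).2 (⟨Sum.inl j⟩ : Col (ℕ ⊕ ℕ))
      rw [e1, block_erase hG hw (by simp [isM])]
      by_cases h1 : j = i
      · by_cases h2 : nxt K j = i
        · simp [isM, h1, h2] at *
          simp [h2]
        · simp [isM, h1] at *
          simp [h2]
      · by_cases h2 : nxt K j = i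
        · simp [isM, h1, h2]
        · simp [isM, h1, h2]
    have last : Iso (([], [⟨[], .birth ⟨Sum.inr i⟩, []⟩, ⟨[], .death ⟨Sum.inr i⟩, []⟩]) :
        Diag (Col (ℕ ⊕ ℕ))) ([⟨Sum.inr i⟩], []) := by
      have := Step.left (a := (⟨Sum.inr i⟩ : Col (ℕ ⊕ ℕ))) (F := []) (w := []) rfl
      exact EqvGen.symm _ _ (EqvGen.rel _ _ this)
    rcases Nat.eq_zero_or_pos i with h0 | h0
    · subst h0
      have e : del (isM 0) (ringC K R) = ([⟨Sum.inr 0⟩, ⟨Sum.inr 0⟩],
          [⟨[], .death ⟨Sum.inr 0⟩, []⟩] ++ [⟨[], .birth ⟨Sum.inr 0⟩, []⟩]) := by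
        rw [del_ringC, flatMap_two _ 0 (K - 1) (by omega) K, if_pos (by omega), if_pos (by omega),
          hf 0 (by omega), hf (K - 1) (by omega)]
        · have n1 : nxt K 0 ≠ 0 := by unfold nxt; rw [if_neg (by omega)]; omega
          have n2 : nxt K (K - 1) = 0 := by unfold nxt; rw [if_pos (by omega)]
          rw [if_pos rfl, if_neg n1, if_neg (by omega), if_pos n2]
          simp [isM]
        · intro j hj h1 h2
          rw [hf j hj, if_neg h1, if_neg]
          · rfl
          · unfold nxt; rw [if_neg (by omega)]; omega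
      rw [e]
      refine EqvGen.trans _ _ _ (EqvGen.rel _ _ (Step.conj (G := []) ?_ ?_)) last
      · exact ⟨rfl, rfl⟩
      · exact ⟨rfl, rfl⟩
    · have e : del (isM i) (ringC K R) = ([],
          [⟨[], .birth ⟨Sum.inr i⟩, []⟩, ⟨[], .death ⟨Sum.inr i⟩, []⟩]) := by
        rw [del_ringC, flatMap_two _ (i - 1) i (by omega) K, if_pos (by omega), if_pos (by omega),
          hf (i - 1) (by omega), hf i (by omega)]
        · have n1 : nxt K (i - 1) = i := by unfold nxt; rw [if_neg (by omega)]; omega
          have n2 : nxt K i ≠ i := by unfold nxt; split_ifs <;> omega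
          rw [if_neg (by omega), if_pos n1, if_pos rfl, if_neg n2]
          simp [isM, h0.ne]
        · intro j hj h1 h2
          rw [hf j hj, if_neg h2, if_neg]
          · rfl
          · unfold nxt; split_ifs <;> omega
      rw [e]
      exact last

end Pool.Agent.H838R2.PL
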