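import Pool.Agent.H838R2.PL.RingB

/-!
# Task D1c: erasing everything but a block and its circle (helper497)
-/

set_option autoImplicit false
set_option linter.unusedSectionVars false
set_option linter.unusedSimpArgs false

namespace Pool.Agent.H838R2.PL

open Relation RB

theorem RB.hook_path {κ : Type} (m a d : Col κ) (G : List (Col κ)) :
    Path (m :: m :: a :: d :: G) (hook m m a d G) (m :: m :: a :: d :: G) := by
  refine ⟨rfl, rfl, rfl, rfl, rfl⟩

theorem stRingC (hR : StRelabel) (hC : StClose) : StRingC := by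
  intro K R hK hRd i hi
  obtain ⟨G, w, e1, hG, hw⟩ := form (hRd i hi).2 (⟨Sum.inl i⟩ : Col (ℕ ⊕ ℕ))
  set β : Col (ℕ ⊕ ℕ) := ⟨Sum.inl i⟩ with hβ
  set m : Col (ℕ ⊕ ℕ) := ⟨Sum.inr i⟩ with hm
  set F : List (Col (ℕ ⊕ ℕ)) := β :: β :: G with hF
  have hcl : Path F w F := by
    have := closed_relabel hR (hRd i hi).1.1 β
    rw [e1] at this
    exact this
  set X : Word (Col (ℕ ⊕ ℕ)) := hook m (star m) β β (G ++ bar F) ++
    (⟨[], .death m, F ++ bar F⟩ :: (ctx [] (bar F) w ++ deaths [] F)) with hX
  have pX : Path (m :: star m :: (F ++ bar F)) X [] := by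
    refine Path.append (G := m :: m :: β :: β :: (G ++ bar F)) (hook_path m β β (G ++ bar F)) ?_
    refine ⟨rfl, ?_⟩
    have h1 := hcl.ctx [] (bar F)
    have h2 := deaths_path F ([] : List (Col (ℕ ⊕ ℕ)))
    refine Path.append (G := F ++ bar F) ?_ (by simpa [bar] using h2)
    simpa [Slice.tgt, Loc.tgt] using h1
  have pB : Path ([] : List (Col (ℕ ⊕ ℕ))) (births [] F) (F ++ bar F) := by
    have := births_path F ([] : List (Col (ℕ ⊕ ℕ)))
    simpa [bar] using this
  have pY : Path [m, m] (ctx [m, star m] [] (births [] F) ++ X) [] := by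
    refine Path.append (G := m :: star m :: (F ++ bar F)) ?_ pX
    have := pB.ctx [m, star m] []
    have h2 : Path [m, star m] (ctx [m, star m] [] (births [] F)) (m :: star m :: (F ++ bar F)) := by
      simpa using this
    exact h2
  have eL : lens m (relabel (fun _ => β) (R i)) =
      (F, ⟨[], .birth m, F⟩ :: (hook m (star m) β β G ++ (⟨[], .death m, F⟩ :: w))) := by
    rw [e1]; rfl
  have pL : Closed (lens m (relabel (fun _ => β) (R i))) := by
    rw [eL]
    refine ⟨rfl, ?_⟩
    refine Path.append (G := m :: m :: β :: β :: G) (hook_path m β β G) ?_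
    exact ⟨rfl, hcl⟩
  have hc := (hC _ _ pL).2.1
  have ec : closeUp (lens m (relabel (fun _ => β) (R i))) =
      ([], [] ++ (births [] F ++ [⟨[], .birth m, F ++ bar F⟩]) ++ X) := by
    rw [eL]
    simp [closeUp, hX, hook, hF]
  have hs := slide m [] X (births [] F) [] [] (F ++ bar F) rfl pB pX
  rw [ec] at hc
  have main : Iso (([], ⟨[], .birth m, []⟩ :: (ctx [m, star m] [] (births [] F) ++ X)) :
      Diag (Col (ℕ ⊕ ℕ))) (lens m (relabel (fun _ => β) (R i))) := by
    refine EqvGen.trans _ _ _ ?_ (EqvGen.symm _ _ hc)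
    simpa using hs
  have hf : ∀ j < K, j ≠ i → delW (fun x => isB i x || isM i x)
      (block ⟨Sum.inr j⟩ ⟨Sum.inr (nxt K j)⟩ (relabel (fun _ => ⟨Sum.inl j⟩) (R j))) =
      (if nxt K j = i then [⟨[], .birth m, []⟩] else []) := by
    intro j hj hji
    obtain ⟨G', w', e1', hG', hw'⟩ := form (hRd j hj).2 (⟨Sum.inl j⟩ : Col (ℕ ⊕ ℕ))
    rw [e1', block_erase hG' hw' (by simp [isB, isM, hji])]
    by_cases h2 : nxt K j = i
    · simp [isM, isB, hji, h2, hm]
    · simp [isM, isB, hji, h2]
  have hfi : delW (fun x => isB i x || isM i x)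
      (block ⟨Sum.inr i⟩ ⟨Sum.inr (nxt K i)⟩ (relabel (fun _ => ⟨Sum.inl i⟩) (R i))) =
      ctx [m, star m] [] (births [] F) ++ X := by
    have n2 : nxt K i ≠ i := by unfold nxt; split_ifs <;> omega
    rw [e1, block_lens hG hw (by simp [isB, hβ]) (by simp [isM]) (by simp [isB, isM, n2])]
  rcases Nat.eq_zero_or_pos i with h0 | h0
  · have e : del (fun x => isB i x || isM i x) (ringC K R) = ([m, m],
        (ctx [m, star m] [] (births [] F) ++ X) ++ [⟨[], .birth m, []⟩]) := by
      rw [del_ringC, flatMap_two _ 0 (K - 1) (by omega) K, if_pos (by omega), if_pos (by omega),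
        hf (K - 1) (by omega) (by omega)]
      · have n1 : nxt K (K - 1) = i := by unfold nxt; rw [if_pos (by omega)]; exact h0.symm
        rw [if_pos n1]
        have hfi' : delW (fun x => isB i x || isM i x)
            (block ⟨Sum.inr 0⟩ ⟨Sum.inr (nxt K 0)⟩ (relabel (fun _ => ⟨Sum.inl 0⟩) (R 0))) =
            ctx [m, star m] [] (births [] F) ++ X := by
          have := hfi
          rw [congrArg (fun t => delW (fun x => isB i x || isM i x)
            (block ⟨Sum.inr t⟩ ⟨Sum.inr (nxt K t)⟩ (relabel (fun _ => ⟨Sum.inl t⟩) (R t)))) h0]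
            at this
          exact this
        rw [hfi']
        simp [isM, hm, h0]
      · intro j hj h1 h2
        rw [hf j hj (by omega), if_neg]
        unfold nxt; rw [if_neg (by omega)]; omega
    rw [e]
    refine EqvGen.trans _ _ _ (EqvGen.rel _ _ (Step.conj (G := []) pY ?_)) ?_
    · exact ⟨rfl, rfl⟩
    · simpa using main
  · have e : del (fun x => isB i x || isM i x) (ringC K R) = ([],
        ⟨[], .birth m, []⟩ :: (ctx [m, star m] [] (births [] F) ++ X)) := by
      rw [del_ringC, flatMap_two _ (i - 1) i (by omega) K, if_pos (by omega), if_pos (by omega),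
        hf (i - 1) (by omega) (by omega), hfi]
      · have n1 : nxt K (i - 1) = i := by unfold nxt; rw [if_neg (by omega)]; omega
        rw [if_pos n1]
        simp [isM, isB, h0.ne]
      · intro j hj h1 h2
        rw [hf j hj h2, if_neg]
        unfold nxt; split_ifs <;> omega
    rw [e]
    exact main

end Pool.Agent.H838R2.PL
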