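import Pool.Agent.H838R2.PL.Stubs

/-! Task D1e (helper862): diagrams of a ring with an additional colouring. -/

set_option autoImplicit false
set_option linter.unusedSectionVars false

namespace Pool.Agent.H838R2.PL

namespace RC

variable {Λ Λ' Λ'' : Type} [Palette Λ] [Palette Λ'] [Palette Λ'']

theorem out_col {κ : Type} (b : Bool) (x y : Col κ) : out b x y = (y, x) := by
  cases b <;> rfl

theorem keepLoc_map (f : Λ → Λ') (K' : Λ' → Bool) (p : Loc Λ) :
    keepLoc K' (p.map f) = keepLoc (fun x => K' (f x)) p := by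
  cases p <;> rfl

theorem delS_map (f : Λ → Λ') (K' : Λ' → Bool) (s : Slice Λ) :
    delS K' (s.map f) = relabelW f (delS (fun x => K' (f x)) s) := by
  unfold delS
  have h : keepLoc K' (Slice.map f s).p = keepLoc (fun x => K' (f x)) s.p := keepLoc_map f K' s.p
  rw [h]
  split_ifs
  · simp only [relabelW, List.map_cons, List.map_nil, Slice.map, List.filter_map]
    rfl
  · rfl

theorem delW_map (f : Λ → Λ') (K' : Λ' → Bool) (w : Word Λ) :
    delW K' (relabelW f w) = relabelW f (delW (fun x => K' (f x)) w) := by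
  induction w with
  | nil => rfl
  | cons s w ih =>
    have e1 : delW K' (relabelW f (s :: w)) = delS K' (s.map f) ++ delW K' (relabelW f w) := rfl
    have e2 : delW (fun x => K' (f x)) (s :: w) =
      delS (fun x => K' (f x)) s ++ delW (fun x => K' (f x)) w := rfl
    rw [e1, e2, ih, delS_map]
    unfold relabelW
    rw [List.map_append]

theorem del_relabel (f : Λ → Λ') (K' : Λ' → Bool) (D : Diag Λ) :
    del K' (relabel f D) = relabel f (del (fun x => K' (f x)) D) := by
  have e : del K' (relabel f D) = ((D.1.map f).filter K', delW K' (relabelW f D.2)) := rfl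
  have e2 : relabel f (del (fun x => K' (f x)) D) =
    ((D.1.filter (fun x => K' (f x))).map f, relabelW f (delW (fun x => K' (f x)) D.2)) := rfl
  rw [e, e2, delW_map, List.filter_map]
  rfl

theorem loc_map_map (f : Λ → Λ') (g : Λ' → Λ'') (p : Loc Λ) :
    (p.map f).map g = p.map (fun x => g (f x)) := by
  cases p <;> rfl

theorem slice_map_map (f : Λ → Λ') (g : Λ' → Λ'') (s : Slice Λ) :
    (s.map f).map g = s.map (fun x => g (f x)) := by
  unfold Slice.map
  simp only [List.map_map, loc_map_map]
  rfl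

theorem relabel_relabel (f : Λ → Λ') (g : Λ' → Λ'') (D : Diag Λ) :
    relabel g (relabel f D) = relabel (fun x => g (f x)) D := by
  unfold relabel
  simp only [List.map_map]
  congr 1
  apply List.map_congr_left
  intro s _
  exact slice_map_map f g s

theorem loc_map_id (p : Loc Λ) (f : Λ → Λ) (hf : ∀ x, f x = x) : p.map f = p := by
  cases p <;> simp [Loc.map, hf]

theorem relabel_id (D : Diag Λ) (f : Λ → Λ) (hf : ∀ x, f x = x) : relabel f D = D := by
  have hm : ∀ l : List Λ, l.map f = l := fun l => by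
    rw [List.map_congr_left (g := id) (fun a _ => hf a), List.map_id]
  unfold relabel
  rw [hm]
  have : D.2.map (Slice.map f) = D.2 := by
    rw [List.map_congr_left (g := id) (fun s _ => ?_), List.map_id]
    obtain ⟨L, p, R⟩ := s
    simp only [Slice.map, hm, loc_map_id p f hf, id]
  rw [this]

theorem plain_relabel (f : Λ → Λ') (D : Diag Λ) : plain (relabel f D) = plain D :=
  relabel_relabel f (fun _ => pt) D

theorem plain_pl (D : Diag Pl) : plain D = D := relabel_id D _ (fun _ => Subsingleton.elim _ _)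

theorem loc_src_map_col {κ κ' : Type} (f : Col κ → Col κ') (p : Loc (Col κ)) :
    (p.map f).src = p.src.map f := by
  cases p <;> rfl

theorem loc_tgt_map_col {κ κ' : Type} (f : Col κ → Col κ') (p : Loc (Col κ)) :
    (p.map f).tgt = p.tgt.map f := by
  cases p with
  | birth a => rfl
  | death a => rfl
  | cr b x y => simp only [Loc.map, Loc.tgt, out_col, List.map_cons, List.map_nil]

theorem allIn_relabel {κ κ' : Type} (f : Col κ → Col κ') (S : Col κ' → Prop)
    (D : Diag (Col κ)) : AllIn S (relabel f D) ↔ AllIn (fun x => S (f x)) D := by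
  unfold AllIn relabel
  have h1 : ∀ s : Slice (Col κ), (Slice.map f s).src = s.src.map f := by
    intro s
    simp only [Slice.src, Slice.map, loc_src_map_col, List.map_append]
  have h2 : ∀ s : Slice (Col κ), (Slice.map f s).tgt = s.tgt.map f := by
    intro s
    simp only [Slice.tgt, Slice.map, loc_tgt_map_col, List.map_append]
  constructor
  · rintro ⟨ha, hb⟩
    refine ⟨fun a h => ha _ (List.mem_map_of_mem h), fun s hs => ?_⟩
    have h3 := hb _ (List.mem_map_of_mem hs)
    rw [h1, h2] at h3
    exact ⟨fun a h => h3.1 _ (List.mem_map_of_mem h), fun a h => h3.2 _ (List.mem_map_of_mem h)⟩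
  · rintro ⟨ha, hb⟩
    refine ⟨fun a h => ?_, fun s hs => ?_⟩
    · obtain ⟨a', h', rfl⟩ := List.mem_map.1 h
      exact ha a' h'
    · obtain ⟨s', hs', rfl⟩ := List.mem_map.1 hs
      rw [h1, h2]
      refine ⟨fun a h => ?_, fun a h => ?_⟩
      · obtain ⟨a', h', rfl⟩ := List.mem_map.1 h
        exact (hb s' hs').1 a' h'
      · obtain ⟨a', h', rfl⟩ := List.mem_map.1 h
        exact (hb s' hs').2 a' h'

/-- labels which are kept occur in the erased diagram -/
theorem delW_labels {κ : Type} (K : Col κ → Bool) (S : Col κ → Prop) (w : Word (Col κ)) :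
    ∀ F G : List (Col κ), Path F w G → (∀ a ∈ F, K a = true → S a) →
    AllInW S (delW K w) → AllInW (fun x => K x = true → S x) w := by
  induction w with
  | nil =>
    intro F G _ _ _ s hs
    cases hs
  | cons s w ih =>
    intro F G hp hF hW
    obtain ⟨hs, hp'⟩ := hp
    have e2 : delW K (s :: w) = delS K s ++ delW K w := rfl
    rw [e2] at hW
    have hW2 : AllInW S (delW K w) := fun t ht => hW t (List.mem_append_right _ ht)
    have hsrc : ∀ a ∈ s.src, K a = true → S a := by
      intro a ha
      rw [hs] at ha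
      exact hF a ha
    have htgt : ∀ a ∈ s.tgt, K a = true → S a := by
      intro a ha hK
      by_cases hk : keepLoc K s.p = true
      · have hmem : (⟨s.L.filter K, s.p, s.R.filter K⟩ : Slice (Col κ)) ∈ delS K s ++ delW K w := by
          apply List.mem_append_left
          unfold delS
          rw [if_pos hk]
          exact List.mem_singleton_self _
        have h3 := (hW _ hmem).2 a
        apply h3
        unfold Slice.tgt at ha ⊢
        simp only [List.mem_append, List.mem_filter] at ha ⊢
        rcases ha with (ha | ha) | ha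
        · exact Or.inl (Or.inl ⟨ha, hK⟩)
        · exact Or.inl (Or.inr ha)
        · exact Or.inr ⟨ha, hK⟩
      · apply hsrc a _ hK
        obtain ⟨L, p, R⟩ := s
        unfold Slice.tgt at ha
        unfold Slice.src
        simp only [List.mem_append] at ha ⊢
        rcases ha with (ha | ha) | ha
        · exact Or.inl (Or.inl ha)
        · left; right
          cases p with
          | birth c =>
            exfalso
            apply hk
            have : a = c := by
              simp only [Loc.tgt, List.mem_cons, List.not_mem_nil, or_false] at ha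
              rcases ha with h | h
              · exact h
              · exact h
            rw [← this]
            exact hK
          | death c => cases ha
          | cr b x y =>
            simp only [Loc.tgt, out_col, List.mem_cons, List.not_mem_nil, or_false] at ha
            simp only [Loc.src, List.mem_cons, List.not_mem_nil, or_false]
            exact ha.symm
        · exact Or.inr ha
    intro t ht
    rcases List.mem_cons.1 ht with rfl | ht
    · exact ⟨hsrc, htgt⟩
    · exact ih s.tgt G hp' htgt hW2 t ht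

theorem del_labels {κ : Type} (K : Col κ → Bool) (S : Col κ → Prop) (D : Diag (Col κ))
    (hD : Closed D) (h : AllIn S (del K D)) : AllIn (fun x => K x = true → S x) D := by
  have h1 : ∀ a ∈ D.1, K a = true → S a := by
    intro a ha hK
    exact h.1 a (List.mem_filter.2 ⟨ha, hK⟩)
  exact ⟨h1, delW_labels K S D.2 D.1 D.1 hD h1 h.2⟩

theorem cntS_map (f : Λ → Λ') (p q : Λ' → Bool) (s : Slice Λ) :
    cntS p q (s.map f) = cntS (fun x => p (f x)) (fun x => q (f x)) s := by
  obtain ⟨L, c, R⟩ := s
  cases c with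
  | birth a => rfl
  | death a => rfl
  | cr b x y => cases b <;> rfl

theorem cnt_relabel (f : Λ → Λ') (p q : Λ' → Bool) (D : Diag Λ) :
    cnt p q (relabel f D) = cnt (fun x => p (f x)) (fun x => q (f x)) D := by
  unfold cnt relabel
  rw [List.map_map]
  congr 1
  apply List.map_congr_left
  intro s _
  exact cntS_map f p q s

theorem cnt_delS (K p q : Λ → Bool) (s : Slice Λ) :
    ((delS K s).map (cntS p q)).sum =
      cntS (fun x => p x && K x) (fun x => q x && K x) s := by
  obtain ⟨L, c, R⟩ := s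
  unfold delS
  cases c with
  | birth a => split_ifs <;> rfl
  | death a => split_ifs <;> rfl
  | cr b x y =>
    have e : keepLoc K (Slice.mk L (Loc.cr b x y) R).p = (K x && K y) := rfl
    rw [e]
    cases b <;> cases hx : K x <;> cases hy : K y <;>
      simp [cntS, hx, hy]

theorem cnt_del (K p q : Λ → Bool) (D : Diag Λ) :
    cnt p q (del K D) = cnt (fun x => p x && K x) (fun x => q x && K x) D := by
  unfold cnt del delW
  simp only
  induction D.2 with
  | nil => rfl
  | cons s w ih =>
    rw [List.flatMap_cons, List.map_append, List.sum_append, List.map_cons, List.sum_cons, ih,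
      cnt_delS]

theorem cnt_congr {p p' q q' : Λ → Bool} (hp : ∀ x, p x = p' x) (hq : ∀ x, q x = q' x)
    (D : Diag Λ) : cnt p q D = cnt p' q' D := by
  have e1 : p = p' := funext hp
  have e2 : q = q' := funext hq
  rw [e1, e2]

theorem lens_relabel {κ κ' : Type} (h : Col κ → Col κ') (m : Col κ) (D : Diag (Col κ))
    {a d : Col κ} {G : List (Col κ)} (hD : D.1 = a :: d :: G) :
    relabel h (lens m D) = lens (h m) (relabel h D) := by
  obtain ⟨F, w⟩ := D
  simp only at hD
  subst hD
  rfl

theorem subP_col {κ : Type} (S : Col κ → Prop) : SubP S := ⟨fun _ h => h, fun _ _ h _ => h,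
  fun _ _ h _ => h⟩

theorem inv_col {κ : Type} (p : Col κ → Bool) : Inv p := ⟨fun _ => rfl, fun _ _ => rfl⟩

/-- crossings of an erased diagram -/
theorem cross_del {κ : Type} (K : Col κ → Bool) (D : Diag (Col κ)) {s : Slice (Col κ)}
    (hs : s ∈ (del K D).2) {b : Bool} {x y : Col κ} (h : s.p = .cr b x y) :
    K x = true ∧ K y = true ∧ ∃ t ∈ D.2, t.p = .cr b x y := by
  unfold del delW at hs
  rw [List.mem_flatMap] at hs
  obtain ⟨t, ht, hs⟩ := hs
  unfold delS at hs
  split_ifs at hs with hk
  · rw [List.mem_singleton] at hs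
    rw [hs] at h
    simp only at h
    rw [h] at hk
    have hk' : (K x && K y) = true := hk
    rw [Bool.and_eq_true] at hk'
    exact ⟨hk'.1, hk'.2, t, ht, h⟩
  · cases hs

end RC

open RC in
theorem stRingCol (hR : StRelabel) (hL : StLift) (hD : StDel) (hP : StParity) (hS : StSub) :
    StRingCol := by
  intro K R hK3 hgood hring κ X hX hiso
  set f : Col ((ℕ ⊕ ℕ) × κ) → Col (ℕ ⊕ ℕ) := fun x => ⟨x.c.1⟩ with hf
  have hdel : ∀ K' : Col (ℕ ⊕ ℕ) → Bool, Iso (relabel f (del (fun x => K' (f x)) X))
      (del K' (ringC K R)) := by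
    intro K'
    rw [← del_relabel]
    exact (hD _ K' (keep_col K')).2 _ _ hiso
  have hclosed : ∀ K' : Col ((ℕ ⊕ ℕ) × κ) → Bool, Closed (del K' X) := fun K' =>
    (hD _ K' (keep_col K')).1 _ _ _ hX
  -- part 1
  have p1 : ∀ i < K, ∃ z, AllIn (fun x : Col ((ℕ ⊕ ℕ) × κ) => x.c.1 = Sum.inr i → x.c.2 = z) X := by
    intro i hi
    have h1 := (hdel (isM i)).trans _ _ _ (hring.circle i hi)
    obtain ⟨Z, hZ, hZ1, hZ2⟩ := hL _ _ f (hom_col f) _ _ (hclosed (fun x => isM i (f x))) h1
    obtain ⟨ZF, Zw⟩ := Z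
    have hw : Zw = [] := by
      have := congrArg Prod.snd hZ1
      exact List.map_eq_nil_iff.1 this
    have hF : ZF.map f = [⟨Sum.inr i⟩] := congrArg Prod.fst hZ1
    obtain ⟨z0, hz0, hz1⟩ := List.map_eq_singleton_iff.1 hF
    refine ⟨z0.c.2, ?_⟩
    have h2 : AllIn (fun x : Col ((ℕ ⊕ ℕ) × κ) => x.c.2 = z0.c.2) (ZF, Zw) := by
      rw [hw, hz0]
      refine ⟨?_, ?_⟩
      · intro a ha
        rw [List.mem_singleton.1 ha]
      · intro s hs
        cases hs
    have h3 := (hS _ _ (subP_col (fun x : Col ((ℕ ⊕ ℕ) × κ) => x.c.2 = z0.c.2)) _ _ hZ2).2 h2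
    have h4 := del_labels _ _ X hX h3
    have h5 : ∀ x : Col ((ℕ ⊕ ℕ) × κ), (isM i (f x) = true → x.c.2 = z0.c.2) →
        (x.c.1 = Sum.inr i → x.c.2 = z0.c.2) := by
      intro x h hx
      apply h
      unfold isM
      rw [decide_eq_true_eq]
      exact hx
    exact ⟨fun a ha => h5 a (h4.1 a ha), fun s hs => ⟨fun a ha => h5 a ((h4.2 s hs).1 a ha),
      fun a ha => h5 a ((h4.2 s hs).2 a ha)⟩⟩
  -- part 5
  have p5 : ∀ i < K, Iso (plain (del (fun x => isB i (f x)) X)) (R i) := by
    intro i hi
    have h1 := (hdel (isB i)).trans _ _ _ (hring.block i hi)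
    have h2 := (hR _ _ (fun _ => pt) (hom_pl _)).2.1 _ _ h1
    have h3 : plain (relabel f (del (fun x => isB i (f x)) X)) =
      plain (del (fun x => isB i (f x)) X) := plain_relabel _ _
    have h4 : plain (relabel (fun _ : Pl => (⟨Sum.inl i⟩ : Col (ℕ ⊕ ℕ))) (R i)) = R i := by
      rw [plain_relabel, plain_pl]
    change Iso (plain (relabel f (del (fun x => isB i (f x)) X)))
      (plain (relabel (fun _ : Pl => (⟨Sum.inl i⟩ : Col (ℕ ⊕ ℕ))) (R i))) at h2
    rwa [h3, h4] at h2
  refine ⟨p1, ?_, ?_, ?_, p5, ?_⟩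
  · -- part 2
    intro i hi hmono
    obtain ⟨zz, _⟩ := p1 i hi
    set X2 := del (fun x => isB i (f x)) X with hX2
    have fin : ∀ z : κ, AllIn (fun x : Col ((ℕ ⊕ ℕ) × κ) => x.c.2 = z) X2 →
        AllIn (fun x : Col ((ℕ ⊕ ℕ) × κ) => x.c.1 = Sum.inl i → x.c.2 = z) X := by
      intro z h3
      have h4 := del_labels _ _ X hX h3
      have h5 : ∀ x : Col ((ℕ ⊕ ℕ) × κ), (isB i (f x) = true → x.c.2 = z) →
          (x.c.1 = Sum.inl i → x.c.2 = z) := by
        intro x h hx
        apply h
        unfold isB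
        rw [decide_eq_true_eq]
        exact hx
      exact ⟨fun a ha => h5 a (h4.1 a ha), fun s hs => ⟨fun a ha => h5 a ((h4.2 s hs).1 a ha),
        fun a ha => h5 a ((h4.2 s hs).2 a ha)⟩⟩
    by_contra hcon
    push Not at hcon
    -- there is a label `x0` in `X2`
    have hne : ¬ AllIn (fun _ : Col ((ℕ ⊕ ℕ) × κ) => False) X2 := by
      intro h
      apply hcon zz
      apply fin
      exact ⟨fun a ha => (h.1 a ha).elim, fun s hs => ⟨fun a ha => ((h.2 s hs).1 a ha).elim,
        fun a ha => ((h.2 s hs).2 a ha).elim⟩⟩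
    have hex : ∃ x0 : Col ((ℕ ⊕ ℕ) × κ), ∀ S : Col ((ℕ ⊕ ℕ) × κ) → Prop, AllIn S X2 → S x0 := by
      by_contra hno
      push Not at hno
      apply hne
      refine ⟨fun a ha => ?_, fun s hs => ⟨fun a ha => ?_, fun a ha => ?_⟩⟩
      · obtain ⟨S, h1, h2⟩ := hno a
        exact h2 (h1.1 a ha)
      · obtain ⟨S, h1, h2⟩ := hno a
        exact h2 ((h1.2 s hs).1 a ha)
      · obtain ⟨S, h1, h2⟩ := hno a
        exact h2 ((h1.2 s hs).2 a ha)
    obtain ⟨x0, hx0⟩ := hex
    have hS2 : ¬ AllIn (fun x : Col ((ℕ ⊕ ℕ) × κ) => x.c.2 = x0.c.2) X2 := fun h =>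
      hcon _ (fin _ h)
    classical
    set g : Col ((ℕ ⊕ ℕ) × κ) → Col Bool := fun x => ⟨decide (x.c.2 = x0.c.2)⟩ with hg
    apply (hgood i hi).nonsplit
    refine ⟨relabel g X2, ?_, ?_, ?_, ?_⟩
    · exact (hR _ _ g (hom_col g)).1 _ _ _ (hclosed _)
    · rw [plain_relabel]
      exact p5 i hi
    · intro s hs b x y hsp
      obtain ⟨s', hs', rfl⟩ := List.mem_map.1 hs
      obtain ⟨L, c, Rr⟩ := s'
      cases c with
      | birth a => simp [Slice.map, Loc.map] at hsp
      | death a => simp [Slice.map, Loc.map] at hsp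
      | cr b' x' y' =>
        simp only [Slice.map, Loc.map, Loc.cr.injEq] at hsp
        obtain ⟨_, hx, hy⟩ := hsp
        obtain ⟨k1, k2, t, ht, ht2⟩ := cross_del _ X hs' rfl
        have k1' : x'.c.1 = Sum.inl i := by
          unfold isB at k1
          rwa [decide_eq_true_eq] at k1
        have k2' : y'.c.1 = Sum.inl i := by
          unfold isB at k2
          rwa [decide_eq_true_eq] at k2
        have h7 := hmono t ht _ _ _ ht2 k1' k2'
        rw [← hx, ← hy, hg]
        simp only [h7]
    · rintro ⟨b, hb⟩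
      rw [allIn_relabel] at hb
      have h8 := hx0 _ hb
      simp only [hg, decide_true] at h8
      apply hS2
      have h9 : ∀ x : Col ((ℕ ⊕ ℕ) × κ), g x = ⟨b⟩ → x.c.2 = x0.c.2 := by
        intro x hx
        rw [← h8] at hx
        simp only [hg, Col.mk.injEq, decide_eq_true_eq] at hx
        exact hx
      exact ⟨fun a ha => h9 a (hb.1 a ha), fun s hs => ⟨fun a ha => h9 a ((hb.2 s hs).1 a ha),
        fun a ha => h9 a ((hb.2 s hs).2 a ha)⟩⟩
  · -- part 3
    intro i hi
    set K3 : Col (ℕ ⊕ ℕ) → Bool := fun x => isB i x || isM i x with hK3'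
    set h : Col (ℕ ⊕ ℕ) → Col Bool := fun x => ⟨isM i x⟩ with hh
    have h1 := (hdel K3).trans _ _ _ (hring.lens i hi)
    have h2 := (hR _ _ h (hom_col h)).2.1 _ _ h1
    obtain ⟨G, hG⟩ := (hgood i hi).front
    have h3 : relabel h (lens ⟨Sum.inr i⟩
        (relabel (fun _ : Pl => (⟨Sum.inl i⟩ : Col (ℕ ⊕ ℕ))) (R i))) = lens2 (R i) := by
      rw [lens_relabel h _ _ (a := ⟨Sum.inl i⟩) (d := ⟨Sum.inl i⟩)
        (G := G.map (fun _ => ⟨Sum.inl i⟩)) (by
          change (R i).1.map _ = _
          rw [hG]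
          rfl), relabel_relabel]
      have e1 : h ⟨Sum.inr i⟩ = ⟨true⟩ := by
        simp [hh, isM]
      have e2 : (fun _ : Pl => h (⟨Sum.inl i⟩ : Col (ℕ ⊕ ℕ))) = fun _ => ⟨false⟩ := by
        funext _
        simp [hh, isM]
      rw [e1, e2]
      rfl
    rw [h3, relabel_relabel] at h2
    have h4 := (hgood i hi).hook _ h2.symm
    rw [cnt_relabel, cnt_relabel, cnt_del, cnt_del] at h4
    have e1 : ∀ x : Col ((ℕ ⊕ ℕ) × κ), ((h (f x)).c && K3 (f x)) = isM i ⟨x.c.1⟩ := by
      intro x
      simp only [hh, hK3', hf]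
      cases isM i ⟨x.c.1⟩ <;> simp
    have e2 : ∀ x : Col ((ℕ ⊕ ℕ) × κ), (!(h (f x)).c && K3 (f x)) = isB i ⟨x.c.1⟩ := by
      intro x
      simp only [hh, hK3', hf]
      by_cases hx : x.c.1 = Sum.inr i
      · simp [isM, isB, hx]
      · simp [isM, isB, hx]
    rw [cnt_congr e1 e2, cnt_congr e2 e1] at h4
    exact h4
  · -- part 4
    intro i hi
    obtain ⟨w1, w2⟩ := hring.weak i hi
    have hex : ∀ x : Col (ℕ ⊕ ℕ), ¬ (isM i x = true ∧ isB (prv K i) x = true) := by
      rintro x ⟨h1, h2⟩
      unfold isM at h1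
      unfold isB at h2
      rw [decide_eq_true_eq] at h1 h2
      rw [h1] at h2
      cases h2
    have q1 := hP _ (isM i) (isB (prv K i)) (inv_col _) (inv_col _) hex _ _ hiso
    have q2 := hP _ (isB (prv K i)) (isM i) (inv_col _) (inv_col _)
      (fun x hx => hex x ⟨hx.2, hx.1⟩) _ _ hiso
    rw [w1, cnt_relabel] at q1
    rw [w2, cnt_relabel] at q2
    constructor
    · by_contra hc
      have : cnt (fun x => isM i (f x)) (fun x => isB (prv K i) (f x)) X = 0 := by
        have h0 : ¬ (1 ≤ cnt (fun x => isM i (f x)) (fun x => isB (prv K i) (f x)) X) := hc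
        omega
      rw [this] at q1
      omega
    · by_contra hc
      have : cnt (fun x => isB (prv K i) (f x)) (fun x => isM i (f x)) X = 0 := by
        have h0 : ¬ (1 ≤ cnt (fun x => isB (prv K i) (f x)) (fun x => isM i (f x)) X) := hc
        omega
      rw [this] at q2
      omega
  · -- part 6
    have h1 := (hS _ _ (subP_col (fun x : Col (ℕ ⊕ ℕ) => ∃ i < K, x.c = Sum.inl i ∨
      x.c = Sum.inr i)) _ _ hiso).2 hring.colours
    rw [allIn_relabel] at h1
    exact h1

end Pool.Agent.H838R2.PL
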