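import Pool.Agent.H838R2.PL.Stubs

/-!
# (D3) the crossing number of a ring
-/

set_option autoImplicit false
set_option linter.unusedSectionVars false

namespace Pool.Agent.H838R2.PL

namespace RingCross

variable {Λ : Type} [Palette Λ]

/-- one for a crossing -/
def xS (s : Slice Λ) : ℕ := match s.p with
  | .cr _ _ _ => 1
  | _ => 0

/-- one for a crossing of two strands which are kept -/
def kS (K : Λ → Bool) (s : Slice Λ) : ℕ := match s.p with
  | .cr _ x y => if K x && K y then 1 else 0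
  | _ => 0

theorem cross_eq (D : Diag Λ) : cross D = (D.2.map xS).sum := by
  obtain ⟨F, w⟩ := D
  unfold cross
  induction w with
  | nil => simp
  | cons s w ih =>
    obtain ⟨L, p, R⟩ := s
    simp only [List.countP_cons, List.map_cons, List.sum_cons] at ih ⊢
    rw [ih]
    cases p <;> simp [xS, add_comm]

theorem cross_del (K : Λ → Bool) (D : Diag Λ) : cross (del K D) = (D.2.map (kS K)).sum := by
  obtain ⟨F, w⟩ := D
  rw [cross_eq]
  simp only [del, delW]
  induction w with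
  | nil => simp
  | cons s w ih =>
    obtain ⟨L, p, R⟩ := s
    simp only [List.flatMap_cons, List.map_append, List.sum_append, List.map_cons, List.sum_cons,
      ih]
    congr 1
    cases p with
    | birth a => cases h : K a <;> simp [delS, keepLoc, kS, xS, h]
    | death a => cases h : K a <;> simp [delS, keepLoc, kS, xS, h]
    | cr b x y => cases h : K x <;> cases h' : K y <;> simp [delS, keepLoc, kS, xS, h, h']

set_option linter.unusedSimpArgs false

theorem prv_ne (K i : ℕ) (hK : 2 ≤ K) : prv K i ≠ i := by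
  unfold prv; split <;> omega

/-- everything that is counted for `i` -/
def gS (K i : ℕ) (s : Slice (Col ((ℕ ⊕ ℕ) × Unit))) : ℕ :=
  kS (fun x => isB i ⟨x.c.1⟩) s +
  (cntS (fun x => isM i ⟨x.c.1⟩) (fun x => isB i ⟨x.c.1⟩) s +
    cntS (fun x => isB i ⟨x.c.1⟩) (fun x => isM i ⟨x.c.1⟩) s) +
  (cntS (fun x => isM i ⟨x.c.1⟩) (fun x => isB (prv K i) ⟨x.c.1⟩) s +
    cntS (fun x => isB (prv K i) ⟨x.c.1⟩) (fun x => isM i ⟨x.c.1⟩) s)

theorem gS_le (K : ℕ) (hK : 2 ≤ K) (s : Slice (Col ((ℕ ⊕ ℕ) × Unit))) :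
    ∑ i ∈ Finset.range K, gS K i s ≤ xS s := by
  obtain ⟨L, p, R⟩ := s
  cases p with
  | birth a => simp [gS, kS, cntS, xS]
  | death a => simp [gS, kS, cntS, xS]
  | cr b x y =>
    obtain ⟨⟨x, -⟩⟩ := x
    obtain ⟨⟨y, -⟩⟩ := y
    have key : ∃ t : ℕ, ∀ i, gS K i ⟨L, .cr b ⟨(x, ())⟩ ⟨(y, ())⟩, R⟩ ≤ if i = t then 1 else 0 := by
      rcases x with x | x <;> rcases y with y | y
      · refine ⟨x, fun i => ?_⟩
        cases b <;> simp [gS, kS, cntS, isB, isM] <;> split <;> split <;> omega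
      · refine ⟨y, fun i => ?_⟩
        have := prv_ne K i hK
        by_cases h : i = y
        · subst h
          by_cases h1 : x = i
          · have : x ≠ prv K i := by omega
            cases b <;> simp [gS, kS, cntS, isB, isM, h1, this] <;> omega
          · cases b <;> simp [gS, kS, cntS, isB, isM, h1] <;> split <;> omega
        · have h' : y ≠ i := fun e => h e.symm
          cases b <;> simp [gS, kS, cntS, isB, isM, h, h']
      · refine ⟨x, fun i => ?_⟩
        have := prv_ne K i hK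
        by_cases h : i = x
        · subst h
          by_cases h1 : y = i
          · have : y ≠ prv K i := by omega
            cases b <;> simp [gS, kS, cntS, isB, isM, h1, this] <;> omega
          · cases b <;> simp [gS, kS, cntS, isB, isM, h1] <;> split <;> omega
        · have h' : x ≠ i := fun e => h e.symm
          cases b <;> simp [gS, kS, cntS, isB, isM, h, h']
      · refine ⟨0, fun i => ?_⟩
        cases b <;> simp [gS, kS, cntS, isB, isM]
    obtain ⟨t, ht⟩ := key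
    calc ∑ i ∈ Finset.range K, gS K i ⟨L, .cr b ⟨(x, ())⟩ ⟨(y, ())⟩, R⟩
        ≤ ∑ i ∈ Finset.range K, (if i = t then 1 else 0) := Finset.sum_le_sum fun i _ => ht i
      _ ≤ 1 := by
        rw [Finset.sum_ite_eq']
        split <;> omega

theorem sum_le (K : ℕ) (hK : 2 ≤ K) (w : Word (Col ((ℕ ⊕ ℕ) × Unit))) :
    ∑ i ∈ Finset.range K, (w.map (gS K i)).sum ≤ (w.map xS).sum := by
  induction w with
  | nil => simp
  | cons s w ih =>
    simp only [List.map_cons, List.sum_cons, Finset.sum_add_distrib]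
    exact Nat.add_le_add (gS_le K hK s) ih

theorem sum_gS (K i : ℕ) (X : Diag (Col ((ℕ ⊕ ℕ) × Unit))) : (X.2.map (gS K i)).sum =
    cross (del (fun x => isB i ⟨x.c.1⟩) X) +
    (cnt (fun x => isM i ⟨x.c.1⟩) (fun x => isB i ⟨x.c.1⟩) X +
      cnt (fun x => isB i ⟨x.c.1⟩) (fun x => isM i ⟨x.c.1⟩) X) +
    (cnt (fun x => isM i ⟨x.c.1⟩) (fun x => isB (prv K i) ⟨x.c.1⟩) X +
      cnt (fun x => isB (prv K i) ⟨x.c.1⟩) (fun x => isM i ⟨x.c.1⟩) X) := by
  rw [cross_del]
  simp only [cnt, ← List.sum_map_add]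
  rfl

end RingCross

open RingCross in
theorem stRingCross (h1 : StRelabel) (h2 : StLift) (h3 : StRingCol) : StRingCross := by
  intro K R c hK hG hR hc E hE
  obtain ⟨C, hC, rfl, hI⟩ := h2 (Col (ℕ ⊕ ℕ)) Pl (fun _ => pt) (hom_pl _) (ringC K R) E hR.closed
    (by have := hR.plain; unfold plain at this; rw [this]; exact hE)
  set f : Col (ℕ ⊕ ℕ) → Col ((ℕ ⊕ ℕ) × Unit) := fun x => ⟨(x.c, ())⟩ with hf
  set X : Diag (Col ((ℕ ⊕ ℕ) × Unit)) := relabel f C with hX
  have hXC : relabel (fun x : Col ((ℕ ⊕ ℕ) × Unit) => (⟨x.c.1⟩ : Col (ℕ ⊕ ℕ))) X = C := by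
    have e : (fun x : Col ((ℕ ⊕ ℕ) × Unit) => (⟨x.c.1⟩ : Col (ℕ ⊕ ℕ))) ∘ f = id := by ext x; rfl
    have e' : Slice.map (fun x : Col ((ℕ ⊕ ℕ) × Unit) => (⟨x.c.1⟩ : Col (ℕ ⊕ ℕ))) ∘ Slice.map f = id := by
      funext s
      obtain ⟨L, p, R⟩ := s
      simp only [Function.comp, Slice.map, List.map_map]
      rw [e]
      cases p <;> simp [Loc.map, hf]
    rw [hX]
    simp only [relabel, List.map_map]
    rw [e, e']
    simp
  have hXc : Closed X := (h1 _ _ f (hom_col f)).1 _ _ _ hC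
  obtain ⟨-, -, k3, k4, k5, -⟩ := h3 K R hK hG hR Unit X hXc (by rw [hXC]; exact hI.symm)
  have e1 : cross (relabel (fun _ => pt) C) = cross C := (h1 _ _ _ (hom_pl _)).2.2 C
  have e2 : cross X = cross C := (h1 _ _ f (hom_col f)).2.2 C
  rw [e1, ← e2, cross_eq]
  refine le_trans ?_ (sum_le K hK X.2)
  refine Finset.sum_le_sum fun i hi => ?_
  have hi := Finset.mem_range.1 hi
  rw [sum_gS]
  have a1 := k3 i hi
  obtain ⟨a2, a3⟩ := k4 i hi
  have a4 := hc i hi _ (k5 i hi).symm
  have a5 : cross (plain (del (fun x : Col ((ℕ ⊕ ℕ) × Unit) => isB i ⟨x.c.1⟩) X)) =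
    cross (del (fun x : Col ((ℕ ⊕ ℕ) × Unit) => isB i ⟨x.c.1⟩) X) := (h1 _ _ _ (hom_pl _)).2.2 _
  rw [a5] at a4
  omega

end Pool.Agent.H838R2.PL
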