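import Pool.Agent.H838R2.PL.Stubs

/-!
# Crossings of strands with different colours in a ring
-/

set_option autoImplicit false
set_option linter.unusedSectionVars false

namespace Pool.Agent.H838R2.PL

namespace RingD

variable {Λ : Type} [Palette Λ]

/-- the number of crossings in a word -/
def cw (p q : Λ → Bool) (w : Word Λ) : ℕ := (w.map (cntS p q)).sum

theorem cw_append (p q : Λ → Bool) (u v : Word Λ) : cw p q (u ++ v) = cw p q u + cw p q v := by
  simp [cw]

theorem cw_nil (p q : Λ → Bool) : cw p q ([] : Word Λ) = 0 := rfl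

theorem cw_cons (p q : Λ → Bool) (s : Slice Λ) (w : Word Λ) :
    cw p q (s :: w) = cntS p q s + cw p q w := by
  simp [cw]

theorem cw_ctx (p q : Λ → Bool) (P Q : List Λ) (w : Word Λ) : cw p q (ctx P Q w) = cw p q w := by
  induction w with
  | nil => rfl
  | cons s w ih => rw [ctx_cons, cw_cons, cw_cons, ih]; rfl

theorem cw_births (p q : Λ → Bool) (F : List Λ) : ∀ P, cw p q (births P F) = 0 := by
  induction F with
  | nil => intro P; rfl
  | cons a F ih => intro P; rw [births, cw_cons, ih]; rfl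

theorem cw_deaths (p q : Λ → Bool) (F : List Λ) : ∀ P, cw p q (deaths P F) = 0 := by
  induction F with
  | nil => intro P; rfl
  | cons a F ih => intro P; rw [deaths, cw_append, ih, cw_cons, cw_nil]; rfl

/-- the contribution of a crossing -/
def c1 (p q : Λ → Bool) (x y : Λ) : ℕ := if p x && q y then 1 else 0

theorem cw_hook (p q : Λ → Bool) (m₀ m a d : Λ) (G : List Λ) :
    cw p q (hook m₀ m a d G) = c1 p q m a + (c1 p q m d + (c1 p q d m + c1 p q a m)) := by
  rw [hook, cw_cons, cw_cons, cw_cons, cw_cons, cw_nil]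
  rfl

theorem cw_weak (p q : Λ → Bool) (m₀ m a : Λ) (G : List Λ) :
    cw p q (weak m₀ m a G) = c1 p q m a + c1 p q a m := by
  rw [weak, cw_cons, cw_cons, cw_nil]
  rfl

theorem cw_block (p q : Λ → Bool) (m m' a d : Λ) (G : List Λ) (w : Word Λ) :
    cw p q (block m m' (a :: d :: G, w)) =
      (c1 p q (star m) a + (c1 p q (star m) d + (c1 p q d (star m) + c1 p q a (star m)))) +
      (c1 p q (star m') a + c1 p q a (star m')) + cw p q w := by
  have h1 : ∀ (P R : List Λ) (x : Λ), cntS p q ⟨P, .death x, R⟩ = 0 := fun _ _ _ => rfl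
  have h2 : ∀ (P R : List Λ) (x : Λ), cntS p q ⟨P, .birth x, R⟩ = 0 := fun _ _ _ => rfl
  rw [block]
  rw [cw_append, cw_append, cw_cons, cw_cons, cw_append, cw_append, cw_ctx, cw_ctx, cw_ctx,
    cw_births, cw_deaths, cw_hook, cw_weak, h1, h2]
  omega

theorem cw_flatMap (p q : Λ → Bool) (f : ℕ → Word Λ) (K : ℕ) :
    cw p q ((List.range K).flatMap f) = ∑ j ∈ Finset.range K, cw p q (f j) := by
  induction K with
  | zero => rfl
  | succ K ih =>
    rw [List.range_succ, List.flatMap_append, cw_append, ih, Finset.sum_range_succ]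
    congr 1
    simp

/-- every crossing of a constantly relabelled word has the same colours -/
theorem relabel_cr {κ : Type} (c : Col κ) (w : Word Pl) (s : Slice (Col κ))
    (hs : s ∈ relabelW (fun _ => c) w) (b : Bool) (x y : Col κ) (h : s.p = .cr b x y) :
    x = c ∧ y = c := by
  obtain ⟨t, _, rfl⟩ := List.mem_map.1 hs
  obtain ⟨L, p, R⟩ := t
  cases p with
  | birth a => simp [Slice.map, Loc.map] at h
  | death a => simp [Slice.map, Loc.map] at h
  | cr b' x' y' =>
    simp only [Slice.map, Loc.map, Loc.cr.injEq] at h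
    exact ⟨h.2.1.symm, h.2.2.symm⟩

theorem cw_relabel {κ : Type} (p q : Col κ → Bool) (c : Col κ) (h : (p c && q c) = false)
    (w : Word Pl) : cw p q (relabelW (fun _ => c) w) = 0 := by
  induction w with
  | nil => rfl
  | cons s w ih =>
    have e : relabelW (fun _ => c) (s :: w) = Slice.map (fun _ => c) s ::
      relabelW (fun _ => c) w := rfl
    rw [e, cw_cons, ih]
    obtain ⟨L, p', R⟩ := s
    cases p' with
    | birth a => rfl
    | death a => rfl
    | cr b' x' y' =>
      cases b' <;> simp [Slice.map, Loc.map, cntS, h]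

theorem prv_ne {K i : ℕ} (hK : 2 ≤ K) : prv K i ≠ i := by
  unfold prv; split_ifs <;> omega

theorem prv_lt {K i : ℕ} (hK : 2 ≤ K) (hi : i < K) : prv K i < K := by
  unfold prv; split_ifs <;> omega

theorem nxt_lt {K i : ℕ} (hK : 2 ≤ K) (hi : i < K) : nxt K i < K := by
  unfold nxt; split_ifs <;> omega

theorem prv_nxt {K i : ℕ} (hK : 2 ≤ K) (hi : i < K) : prv K (nxt K i) = i := by
  unfold prv nxt
  by_cases h : i + 1 = K
  · rw [if_pos h, if_pos rfl]; omega
  · rw [if_neg h, if_neg (by omega)]; omega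

theorem nxt_prv {K i : ℕ} (hK : 2 ≤ K) (hi : i < K) : nxt K (prv K i) = i := by
  unfold prv nxt
  by_cases h : i = 0
  · rw [if_pos h, if_pos (by omega), h]
  · rw [if_neg h, if_neg (by omega)]; omega

theorem mem_ctx {P Q : List Λ} {w : Word Λ} {s : Slice Λ} (h : s ∈ ctx P Q w) :
    ∃ t ∈ w, t.p = s.p := by
  obtain ⟨t, ht, rfl⟩ := List.mem_map.1 h
  exact ⟨t, ht, rfl⟩

theorem mem_births {F : List Λ} : ∀ {P : List Λ} {s : Slice Λ}, s ∈ births P F →
    ∃ a, s.p = .birth a := by
  induction F with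
  | nil => intro P s h; simp [births] at h
  | cons a F ih =>
    intro P s h
    rw [births, List.mem_cons] at h
    rcases h with rfl | h
    · exact ⟨a, rfl⟩
    · exact ih h

theorem mem_deaths {F : List Λ} : ∀ {P : List Λ} {s : Slice Λ}, s ∈ deaths P F →
    ∃ a, s.p = .death a := by
  induction F with
  | nil => intro P s h; simp [deaths] at h
  | cons a F ih =>
    intro P s h
    rw [deaths, List.mem_append, List.mem_singleton] at h
    rcases h with h | rfl
    · exact ih h
    · exact ⟨a, rfl⟩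

/-- the crossings of a block -/
theorem block_cr (m m' a d : Λ) (G : List Λ) (w : Word Λ) (s : Slice Λ)
    (hs : s ∈ block m m' (a :: d :: G, w)) (b : Bool) (x y : Λ) (h : s.p = .cr b x y) :
    (x = star m ∧ (y = a ∨ y = d)) ∨ ((x = a ∨ x = d) ∧ y = star m) ∨ (x = star m' ∧ y = a) ∨
      (x = a ∧ y = star m') ∨ ∃ t ∈ w, t.p = .cr b x y := by
  rw [block] at hs
  simp only [List.mem_append, List.mem_cons] at hs
  rcases hs with hs | hs | rfl | rfl | hs | hs | hs
  · obtain ⟨t, ht, e⟩ := mem_ctx hs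
    obtain ⟨z, hz⟩ := mem_births ht
    rw [← e, hz] at h
    cases h
  · simp only [hook, List.mem_cons, List.not_mem_nil, or_false] at hs
    rcases hs with rfl | rfl | rfl | rfl <;> cases h
    · exact Or.inl ⟨rfl, Or.inl rfl⟩
    · exact Or.inl ⟨rfl, Or.inr rfl⟩
    · exact Or.inr (Or.inl ⟨Or.inr rfl, rfl⟩)
    · exact Or.inr (Or.inl ⟨Or.inl rfl, rfl⟩)
  · cases h
  · cases h
  · simp only [weak, List.mem_cons, List.not_mem_nil, or_false] at hs
    rcases hs with rfl | rfl <;> cases h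
    · exact Or.inr (Or.inr (Or.inl ⟨rfl, rfl⟩))
    · exact Or.inr (Or.inr (Or.inr (Or.inl ⟨rfl, rfl⟩)))
  · obtain ⟨t, ht, e⟩ := mem_ctx hs
    exact Or.inr (Or.inr (Or.inr (Or.inr ⟨t, ht, e.trans h⟩)))
  · obtain ⟨t, ht, e⟩ := mem_ctx hs
    obtain ⟨z, hz⟩ := mem_deaths ht
    rw [← e, hz] at h
    cases h

end RingD

open RingD

theorem stRingD : StRingD := by
  intro K R hK hR
  -- the form of the blocks
  have hform : ∀ j < K, ∃ (G : List (Col (ℕ ⊕ ℕ))) (w : Word Pl),
      relabel (fun _ => (⟨Sum.inl j⟩ : Col (ℕ ⊕ ℕ))) (R j) =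
        (⟨Sum.inl j⟩ :: ⟨Sum.inl j⟩ :: G, relabelW (fun _ => ⟨Sum.inl j⟩) w) := by
    intro j hj
    obtain ⟨_, G, hG⟩ := hR j hj
    refine ⟨G.map fun _ => ⟨Sum.inl j⟩, (R j).2, ?_⟩
    rw [relabel_eq, hG]
    rfl
  refine ⟨?_, ?_⟩
  · intro i hi
    have hp := prv_ne (i := i) hK
    have key : ∀ (p q : Col (ℕ ⊕ ℕ) → Bool), (∀ j, (p ⟨Sum.inl j⟩ && q ⟨Sum.inl j⟩) = false) →
        (∀ j < K, c1 p q ⟨Sum.inr j⟩ ⟨Sum.inl j⟩ = 0 ∧ c1 p q ⟨Sum.inl j⟩ ⟨Sum.inr j⟩ = 0) →
        (∀ j < K, c1 p q ⟨Sum.inr (nxt K j)⟩ ⟨Sum.inl j⟩ +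
          c1 p q ⟨Sum.inl j⟩ ⟨Sum.inr (nxt K j)⟩ = if j = prv K i then 1 else 0) →
        cnt p q (ringC K R) = 1 := by
      intro p q h1 h2 h3
      have e : cnt p q (ringC K R) = ∑ j ∈ Finset.range K,
          cw p q (block ⟨Sum.inr j⟩ ⟨Sum.inr (nxt K j)⟩
            (relabel (fun _ => (⟨Sum.inl j⟩ : Col (ℕ ⊕ ℕ))) (R j))) := by
        rw [← cw_flatMap]
        rfl
      rw [e]
      have e2 : ∀ j ∈ Finset.range K, cw p q (block ⟨Sum.inr j⟩ ⟨Sum.inr (nxt K j)⟩
            (relabel (fun _ => (⟨Sum.inl j⟩ : Col (ℕ ⊕ ℕ))) (R j))) =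
            if j = prv K i then 1 else 0 := by
        intro j hj
        have hj := Finset.mem_range.1 hj
        obtain ⟨G, w, hw⟩ := hform j hj
        rw [hw, cw_block, cw_relabel _ _ _ (h1 j)]
        have a1 := h2 j hj
        have a2 := h3 j hj
        have s1 : star (⟨Sum.inr j⟩ : Col (ℕ ⊕ ℕ)) = ⟨Sum.inr j⟩ := rfl
        have s2 : star (⟨Sum.inr (nxt K j)⟩ : Col (ℕ ⊕ ℕ)) = ⟨Sum.inr (nxt K j)⟩ := rfl
        rw [s1, s2]
        omega
      rw [Finset.sum_congr rfl e2, Finset.sum_ite_eq', if_pos (Finset.mem_range.2 (prv_lt hK hi))]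
    have hnx : ∀ j < K, j = prv K i → nxt K j = i := by
      rintro j _ rfl
      exact nxt_prv hK hi
    constructor
    · apply key
      · intro j; simp [isM]
      · intro j _
        constructor
        · simp only [c1, isM, isB, Bool.and_eq_true, decide_eq_true_eq, Sum.inr.injEq,
            Sum.inl.injEq, ite_eq_right_iff, one_ne_zero, imp_false, not_and]
          intro h h'
          exact hp (h'.symm.trans h)
        · simp [c1, isM]
      · intro j hj
        have hn := hnx j hj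
        by_cases h : j = prv K i
        · rw [if_pos h]
          have h' := hn h
          rw [h'] ; simp [c1, isM, isB, h]
        · rw [if_neg h]
          simp [c1, isM, isB, h]
    · apply key
      · intro j; simp [isM]
      · intro j _
        constructor
        · simp [c1, isB]
        · simp only [c1, isM, isB, Bool.and_eq_true, decide_eq_true_eq, Sum.inr.injEq,
            Sum.inl.injEq, ite_eq_right_iff, one_ne_zero, imp_false, not_and]
          intro h h'
          exact hp (h.symm.trans h')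
      · intro j hj
        have hn := hnx j hj
        by_cases h : j = prv K i
        · rw [if_pos h]
          have h' := hn h
          rw [h'] ; simp [c1, isM, isB, h]
        · rw [if_neg h]
          simp [c1, isM, isB, h]
  · intro s hs b x y h
    obtain ⟨j, hj, hs⟩ := List.mem_flatMap.1 hs
    have hj := List.mem_range.1 hj
    obtain ⟨G, w, hw⟩ := hform j hj
    simp only [hw] at hs
    rcases block_cr _ _ _ _ _ _ _ hs b x y h with ⟨h1, h2⟩ | ⟨h1, h2⟩ | ⟨h1, h2⟩ | ⟨h1, h2⟩ |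
      ⟨t, ht, h1⟩
    · refine Or.inr ⟨j, hj, Or.inl ⟨by rw [h1]; rfl, Or.inl ?_⟩⟩
      rcases h2 with h2 | h2 <;> rw [h2]
    · refine Or.inr ⟨j, hj, Or.inr ⟨by rw [h2]; rfl, Or.inl ?_⟩⟩
      rcases h1 with h1 | h1 <;> rw [h1]
    · refine Or.inr ⟨nxt K j, nxt_lt hK hj, Or.inl ⟨by rw [h1]; rfl, Or.inr ?_⟩⟩
      rw [h2, prv_nxt hK hj]
    · refine Or.inr ⟨nxt K j, nxt_lt hK hj, Or.inr ⟨by rw [h2]; rfl, Or.inr ?_⟩⟩
      rw [h1, prv_nxt hK hj]
    · obtain ⟨h2, h3⟩ := relabel_cr _ w t ht b x y h1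
      exact Or.inl (h2.trans h3.symm)

end Pool.Agent.H838R2.PL
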