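import Pool.Agent.H838R2.PL.Stubs

/-!
# Rings of good blocks are not split and not knots
-/

set_option autoImplicit false
set_option linter.unusedSectionVars false

namespace Pool.Agent.H838R2.PL

section

variable {Λ Λ' Λ'' : Type} [Palette Λ] [Palette Λ'] [Palette Λ'']

/-- A positive count gives a crossing. -/
theorem exists_of_cnt_pos {p q : Λ → Bool} {D : Diag Λ} (h : 0 < cnt p q D) :
    ∃ s ∈ D.2, ∃ b x y u v, s.p = Loc.cr b x y ∧ ((u = x ∧ v = y) ∨ (u = y ∧ v = x)) ∧
      p u = true ∧ q v = true ∧ u ∈ s.src ∧ v ∈ s.src := by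
  unfold cnt at h
  obtain ⟨n, hn, hpos⟩ : ∃ n ∈ D.2.map (cntS p q), 0 < n := by
    by_contra hc
    push Not at hc
    have : (D.2.map (cntS p q)).sum = 0 := List.sum_eq_zero (fun x hx => Nat.le_zero.1 (hc x hx))
    omega
  obtain ⟨s, hs, rfl⟩ := List.mem_map.1 hn
  obtain ⟨L, pp, R⟩ := s
  cases pp with
  | birth a => simp [cntS] at hpos
  | death a => simp [cntS] at hpos
  | cr b x y =>
    have hx : x ∈ (⟨L, .cr b x y, R⟩ : Slice Λ).src := by simp [Slice.src, Loc.src]
    have hy : y ∈ (⟨L, .cr b x y, R⟩ : Slice Λ).src := by simp [Slice.src, Loc.src]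
    cases b with
    | true =>
      have h2 : p x = true ∧ q y = true := by
        by_contra hc
        simp [cntS, hc] at hpos
      exact ⟨_, hs, true, x, y, x, y, rfl, Or.inl ⟨rfl, rfl⟩, h2.1, h2.2, hx, hy⟩
    | false =>
      have h2 : p y = true ∧ q x = true := by
        by_contra hc
        simp [cntS, hc] at hpos
      exact ⟨_, hs, false, x, y, y, x, rfl, Or.inr ⟨rfl, rfl⟩, h2.1, h2.2, hy, hx⟩

theorem relabel_relabel (f : Λ → Λ') (g : Λ' → Λ'') (D : Diag Λ) :
    relabel g (relabel f D) = relabel (fun x => g (f x)) D := by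
  obtain ⟨F, w⟩ := D
  simp only [relabel, List.map_map, Prod.mk.injEq]
  refine ⟨rfl, ?_⟩
  apply List.map_congr_left
  intro s _
  obtain ⟨L, p, R⟩ := s
  cases p <;> simp [Slice.map, Loc.map]

theorem plain_relabel (f : Λ → Λ') (D : Diag Λ) : plain (relabel f D) = plain D :=
  relabel_relabel f (fun _ => pt) D

theorem map_src_col {κ κ' : Type} (f : Col κ → Col κ') (s : Slice (Col κ)) :
    (s.map f).src = s.src.map f := by
  obtain ⟨L, p, R⟩ := s
  cases p <;> simp [Slice.map, Loc.map, Slice.src, Loc.src, (hom_col f).star]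

theorem map_tgt_col {κ κ' : Type} (f : Col κ → Col κ') (s : Slice (Col κ)) :
    (s.map f).tgt = s.tgt.map f := by
  obtain ⟨L, p, R⟩ := s
  cases p with
  | birth a => simp [Slice.map, Loc.map, Slice.tgt, Loc.tgt, (hom_col f).star]
  | death a => simp [Slice.map, Loc.map, Slice.tgt, Loc.tgt]
  | cr b x y => simp [Slice.map, Loc.map, Slice.tgt, Loc.tgt, (hom_col f).out]

theorem allIn_relabel_col {κ κ' : Type} (f : Col κ → Col κ') (S : Col κ' → Prop)
    (D : Diag (Col κ)) : AllIn S (relabel f D) ↔ AllIn (fun x => S (f x)) D := by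
  simp only [AllIn, relabel, List.forall_mem_map, map_src_col, map_tgt_col]

end

theorem stRingNonsplit (h1 : StRelabel) (h2 : StLift) (h3 : StPair) (h4 : StRingCol) :
    StRingNonsplit := by
  intro K R hK hG hP
  refine ⟨?_, ?_, ?_⟩
  · intro h
    have := congrArg Prod.fst h
    simp [ring, ringL] at this
  · rintro ⟨E, hEc, hIso, hmono, hconst⟩
    have hIso' : Iso (plain (ringC K R)) (plain E) := by
      rw [hP.plain]; exact Relation.EqvGen.symm _ _ hIso
    obtain ⟨C, hCc, hCE, hCI⟩ := h2 _ _ (fun _ => pt) (hom_pl _) (ringC K R) (plain E) hP.closed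
      hIso'
    obtain ⟨X, hXc, hX1, hX2⟩ := h3 (ℕ ⊕ ℕ) Bool C E hCc hEc hCE
    obtain ⟨r1, r2, r3, r4, -, r6⟩ := h4 K R hK hG hP Bool X hXc
      (by rw [hX1]; exact Relation.EqvGen.symm _ _ hCI)
    have hm : ∀ s ∈ X.2, ∀ b x y, s.p = .cr b x y → x.c.2 = y.c.2 := by
      intro s hs b x y hp
      have hs' : s.map (fun x => (⟨x.c.2⟩ : Col Bool)) ∈ E.2 := by
        rw [← hX2]; exact List.mem_map_of_mem hs
      have := hmono _ hs' b ⟨x.c.2⟩ ⟨y.c.2⟩ (by simp [Slice.map, hp, Loc.map])
      exact congrArg Col.c this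
    have r2' : ∀ i < K, ∃ z, AllIn (fun x => x.c.1 = Sum.inl i → x.c.2 = z) X :=
      fun i hi => r2 i hi fun s hs b x y hp _ _ => hm s hs b x y hp
    choose! z hz using r1
    choose! w hw using r2'
    -- the colour of a circle is the colour of a block crossing it
    have key : ∀ i < K, ∀ j < K, (0 < cnt (fun x => isM i ⟨x.c.1⟩) (fun x => isB j ⟨x.c.1⟩) X ∨
        0 < cnt (fun x => isB j ⟨x.c.1⟩) (fun x => isM i ⟨x.c.1⟩) X) → z i = w j := by
      intro i hi j hj hc
      have aux : ∀ s ∈ X.2, ∀ b x y u v, s.p = Loc.cr b x y →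
          ((u = x ∧ v = y) ∨ (u = y ∧ v = x)) → isM i ⟨u.c.1⟩ = true → isB j ⟨v.c.1⟩ = true →
          u ∈ s.src → v ∈ s.src → z i = w j := by
        intro s hs b x y u v hp huv hu hv hus hvs
        have hu' : u.c.1 = Sum.inr i := by simpa [isM] using hu
        have hv' : v.c.1 = Sum.inl j := by simpa [isB] using hv
        have e1 : u.c.2 = z i := ((hz i hi).2 s hs).1 u hus hu'
        have e2 : v.c.2 = w j := ((hw j hj).2 s hs).1 v hvs hv'
        have e3 := hm s hs b x y hp
        rcases huv with ⟨rfl, rfl⟩ | ⟨rfl, rfl⟩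
        · rw [← e1, ← e2, e3]
        · rw [← e1, ← e2, e3]
      rcases hc with hc | hc
      · obtain ⟨s, hs, b, x, y, u, v, hp, huv, hu, hv, hus, hvs⟩ := exists_of_cnt_pos hc
        exact aux s hs b x y u v hp huv hu hv hus hvs
      · obtain ⟨s, hs, b, x, y, u, v, hp, huv, hu, hv, hus, hvs⟩ := exists_of_cnt_pos hc
        exact aux s hs b x y v u hp (by tauto) hv hu hvs hus
    have k1 : ∀ i < K, z i = w i := by
      intro i hi
      apply key i hi i hi
      have := r3 i hi
      omega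
    have hprv : ∀ i < K, prv K i < K := by
      intro i hi
      unfold prv
      split_ifs <;> omega
    have k2 : ∀ i < K, z i = w (prv K i) := by
      intro i hi
      apply key i hi _ (hprv i hi)
      left
      exact (r4 i hi).1
    have k3 : ∀ i < K, w i = w 0 := by
      intro i
      induction i with
      | zero => intro _; rfl
      | succ i ih =>
        intro hi
        have e1 := k1 (i + 1) hi
        have e2 := k2 (i + 1) hi
        have e3 : prv K (i + 1) = i := by simp [prv]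
        rw [e3] at e2
        rw [← e1, e2]
        exact ih (by omega)
    have hall : AllIn (fun x : Col ((ℕ ⊕ ℕ) × Bool) => x.c.2 = w 0) X := by
      refine ⟨?_, ?_⟩
      · intro a ha
        obtain ⟨i, hi, h | h⟩ := r6.1 a ha
        · rw [(hw i hi).1 a ha h, k3 i hi]
        · rw [(hz i hi).1 a ha h, k1 i hi, k3 i hi]
      · intro s hs
        refine ⟨?_, ?_⟩
        · intro a ha
          obtain ⟨i, hi, h | h⟩ := (r6.2 s hs).1 a ha
          · rw [((hw i hi).2 s hs).1 a ha h, k3 i hi]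
          · rw [((hz i hi).2 s hs).1 a ha h, k1 i hi, k3 i hi]
        · intro a ha
          obtain ⟨i, hi, h | h⟩ := (r6.2 s hs).2 a ha
          · rw [((hw i hi).2 s hs).2 a ha h, k3 i hi]
          · rw [((hz i hi).2 s hs).2 a ha h, k1 i hi, k3 i hi]
    apply hconst
    refine ⟨w 0, ?_⟩
    rw [← hX2, allIn_relabel_col]
    have : (fun x : Col ((ℕ ⊕ ℕ) × Bool) => (⟨x.c.2⟩ : Col Bool) = ⟨w 0⟩) =
        fun x => x.c.2 = w 0 := by
      funext x; simp
    rw [this]
    exact hall
  · rintro ⟨-, hk⟩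
    set f : Col (ℕ ⊕ ℕ) → Col Bool := fun x => ⟨isM 0 x⟩ with hf
    have hc : Closed (relabel f (ringC K R)) :=
      (h1 _ _ f (hom_col f)).1 _ _ _ hP.closed
    obtain ⟨b, hb⟩ := hk (relabel f (ringC K R)) hc (by rw [plain_relabel, hP.plain])
    rw [allIn_relabel_col] at hb
    have hpos : 0 < cnt (isM 0) (isB (prv K 0)) (ringC K R) := by
      rw [(hP.weak 0 (by omega)).1]; omega
    obtain ⟨s, hs, b', x, y, u, v, hp, huv, hu, hv, hus, hvs⟩ := exists_of_cnt_pos hpos
    have e1 : f u = ⟨b⟩ := (hb.2 s hs).1 u hus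
    have e2 : f v = ⟨b⟩ := (hb.2 s hs).1 v hvs
    have e3 : isM 0 u = b := congrArg Col.c e1
    have e4 : isM 0 v = b := congrArg Col.c e2
    have e5 : v.c = Sum.inl (prv K 0) := by simpa [isB] using hv
    have e6 : isM 0 v = false := by simp [isM, e5]
    rw [hu] at e3
    rw [e6] at e4
    rw [← e3] at e4
    exact absurd e4 (by decide)

end Pool.Agent.H838R2.PL
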