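import Pool.Agent.H838R2.PL.Stubs

/-!
# Rings of good blocks are prime
-/

set_option autoImplicit false
set_option linter.unusedSectionVars false
set_option linter.unusedSimpArgs false

namespace Pool.Agent.H838R2.PL

open Relation

namespace RPr

variable {Λ Λ' Λ'' : Type} [Palette Λ] [Palette Λ'] [Palette Λ'']

theorem loc_map_map (f : Λ → Λ') (g : Λ' → Λ'') (p : Loc Λ) :
    (p.map f).map g = p.map (g ∘ f) := by
  cases p <;> rfl

theorem slice_map_map (f : Λ → Λ') (g : Λ' → Λ'') (s : Slice Λ) :
    (s.map f).map g = s.map (g ∘ f) := by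
  simp [Slice.map, loc_map_map]

theorem relabelW_relabelW (f : Λ → Λ') (g : Λ' → Λ'') (w : Word Λ) :
    relabelW g (relabelW f w) = relabelW (g ∘ f) w := by
  simp [relabelW, Function.comp_def, slice_map_map]

theorem relabel_relabel (f : Λ → Λ') (g : Λ' → Λ'') (D : Diag Λ) :
    relabel g (relabel f D) = relabel (g ∘ f) D := by
  rw [relabel_eq, relabel_eq, relabel_eq]
  simp [relabelW_relabelW]

theorem relabelW_append (f : Λ → Λ') (u v : Word Λ) :
    relabelW f (u ++ v) = relabelW f u ++ relabelW f v := by simp [relabelW]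

theorem loc_map_id (p : Loc Λ) : p.map (fun x => x) = p := by cases p <;> rfl

theorem relabelW_id (w : Word Λ) : relabelW (fun x => x) w = w := by
  unfold relabelW
  conv_rhs => rw [← List.map_id w]
  refine List.map_congr_left fun s _ => ?_
  cases s
  simp [Slice.map, loc_map_id]

theorem plain_self (D : Diag Pl) : plain D = D := by
  have h : (fun _ : Pl => pt) = fun x => x := by
    funext x; exact Subsingleton.elim _ _
  unfold plain
  rw [h, relabel_eq, relabelW_id]
  simp

theorem plainW_self (w : Word Pl) : plainW w = w := by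
  have h : (fun _ : Pl => pt) = fun x => x := by
    funext x; exact Subsingleton.elim _ _
  unfold plainW
  rw [h, relabelW_id]

theorem plainW_relabelW (f : Λ → Λ') (w : Word Λ) : plainW (relabelW f w) = plainW w := by
  unfold plainW
  rw [relabelW_relabelW]; rfl

theorem plain_relabel (f : Λ → Λ') (D : Diag Λ) : plain (relabel f D) = plain D := by
  unfold plain
  rw [relabel_relabel]; rfl

theorem plain_one (c : Λ) (w : Word Λ) : plain (([c], w) : Diag Λ) = ([pt], plainW w) := rfl

theorem cntS_map (f : Λ → Λ') (p q : Λ' → Bool) (s : Slice Λ) :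
    cntS p q (s.map f) = cntS (fun x => p (f x)) (fun x => q (f x)) s := by
  obtain ⟨L, c, R⟩ := s
  cases c with
  | birth a => rfl
  | death a => rfl
  | cr b x y => cases b <;> rfl

theorem cnt_relabel (f : Λ → Λ') (p q : Λ' → Bool) (D : Diag Λ) :
    cnt p q (relabel f D) = cnt (fun x => p (f x)) (fun x => q (f x)) D := by
  unfold cnt relabel
  simp [List.map_map, Function.comp_def, cntS_map]

theorem delW_append (K : Λ → Bool) (u v : Word Λ) : delW K (u ++ v) = delW K u ++ delW K v := by
  simp [delW]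

/-- nothing is erased -/
theorem delW_eq_self (K : Λ → Bool) (w : Word Λ)
    (h : AllInW (fun x => K x = true) w) : delW K w = w := by
  induction w with
  | nil => rfl
  | cons s w ih =>
    have hs := h s (List.mem_cons_self)
    have hw : AllInW (fun x => K x = true) w := fun t ht => h t (List.mem_cons_of_mem _ ht)
    have e : delW K (s :: w) = delS K s ++ delW K w := by simp [delW]
    rw [e, ih hw]
    obtain ⟨L, p, R⟩ := s
    obtain ⟨h1, h2⟩ := hs
    have hL : L.filter K = L := by
      rw [List.filter_eq_self]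
      intro a ha; exact h1 a (by simp [Slice.src, ha])
    have hR : R.filter K = R := by
      rw [List.filter_eq_self]
      intro a ha; exact h1 a (by simp [Slice.src, ha])
    have hp : keepLoc K p = true := by
      cases p with
      | birth a => exact h2 a (by simp [Slice.tgt, Loc.tgt])
      | death a => exact h1 a (by simp [Slice.src, Loc.src])
      | cr b x y =>
        simp only [keepLoc, Bool.and_eq_true]
        exact ⟨h1 x (by simp [Slice.src, Loc.src]), h1 y (by simp [Slice.src, Loc.src])⟩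
    simp [delS, hp, hL, hR]

theorem nocol_all {κ : Type} (w : Word (Col κ)) (S : Col κ → Prop)
    (h : ∀ e, ¬ S e → NoCol e w) : AllInW S w := by
  intro s hs
  constructor
  · intro a ha
    by_contra hS
    exact (h a hS s hs).1 ha
  · intro a ha
    by_contra hS
    exact (h a hS s hs).2 ha

theorem nocol_map (f : Λ → Λ') (w : Word Λ) (e : Λ') (h : AllInW (fun x => f x ≠ e) w)
    (hout : ∀ b x y, f x ≠ e → f y ≠ e → (out b (f x) (f y)).1 ≠ e ∧ (out b (f x) (f y)).2 ≠ e)
    (hst : ∀ x, f x ≠ e → star (f x) ≠ e) :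
    NoCol e (relabelW f w) := by
  intro s hs
  simp only [relabelW, List.mem_map] at hs
  obtain ⟨t, ht, rfl⟩ := hs
  obtain ⟨h1, h2⟩ := h t ht
  obtain ⟨L, p, R⟩ := t
  have hL : ∀ a ∈ L, f a ≠ e := fun a ha => h1 a (by simp [Slice.src, ha])
  have hR : ∀ a ∈ R, f a ≠ e := fun a ha => h1 a (by simp [Slice.src, ha])
  cases p with
  | birth a =>
    have ha : f a ≠ e := h2 a (by simp [Slice.tgt, Loc.tgt])
    constructor
    · simp only [Slice.map, Slice.src, Loc.map, Loc.src, List.append_nil, List.mem_append,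
        List.mem_map, not_or, not_exists, not_and]
      exact ⟨fun x hx => hL x hx, fun x hx => hR x hx⟩
    · simp only [Slice.map, Slice.tgt, Loc.map, Loc.tgt, List.mem_append,
        List.mem_map, not_or, not_exists, not_and, List.mem_cons, List.not_mem_nil, not_false_eq_true,
        and_true]
      exact ⟨⟨fun x hx => hL x hx, Ne.symm ha, Ne.symm (hst a ha)⟩, fun x hx => hR x hx⟩
  | death a =>
    have ha : f a ≠ e := h1 a (by simp [Slice.src, Loc.src])
    constructor
    · simp only [Slice.map, Slice.src, Loc.map, Loc.src, List.mem_append,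
        List.mem_map, not_or, not_exists, not_and, List.mem_cons, List.not_mem_nil, not_false_eq_true,
        and_true]
      exact ⟨⟨fun x hx => hL x hx, Ne.symm ha, Ne.symm (hst a ha)⟩, fun x hx => hR x hx⟩
    · simp only [Slice.map, Slice.tgt, Loc.map, Loc.tgt, List.append_nil, List.mem_append,
        List.mem_map, not_or, not_exists, not_and]
      exact ⟨fun x hx => hL x hx, fun x hx => hR x hx⟩
  | cr b x y =>
    have hx : f x ≠ e := h1 x (by simp [Slice.src, Loc.src])
    have hy : f y ≠ e := h1 y (by simp [Slice.src, Loc.src])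
    obtain ⟨o1, o2⟩ := hout b x y hx hy
    constructor
    · simp only [Slice.map, Slice.src, Loc.map, Loc.src, List.mem_append,
        List.mem_map, not_or, not_exists, not_and, List.mem_cons, List.not_mem_nil, not_false_eq_true,
        and_true]
      exact ⟨⟨fun x hx => hL x hx, Ne.symm hx, Ne.symm hy⟩, fun x hx => hR x hx⟩
    · simp only [Slice.map, Slice.tgt, Loc.map, Loc.tgt, List.mem_append,
        List.mem_map, not_or, not_exists, not_and, List.mem_cons, List.not_mem_nil, not_false_eq_true,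
        and_true]
      exact ⟨⟨fun x hx => hL x hx, Ne.symm o1, Ne.symm o2⟩, fun x hx => hR x hx⟩

theorem nocol_map_col {κ κ' : Type} (f : Col κ → Col κ') (w : Word (Col κ)) (e : Col κ')
    (h : AllInW (fun x => f x ≠ e) w) : NoCol e (relabelW f w) := by
  refine nocol_map f w e h ?_ (fun x hx => hx)
  intro b x y hx hy
  cases b
  · exact ⟨hy, hx⟩
  · exact ⟨hy, hx⟩

/-! ### The circle of colours -/

/-- the colours in their cyclic order: block 0, circle 1, block 1, circle 2, ... -/
def col (K j : ℕ) : Col (ℕ ⊕ ℕ) :=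
  if j % 2 = 0 then ⟨Sum.inl (j / 2 % K)⟩ else ⟨Sum.inr ((j / 2 + 1) % K)⟩

theorem col_even (K i : ℕ) : col K (2 * i) = ⟨Sum.inl (i % K)⟩ := by
  simp [col]

theorem col_odd (K i : ℕ) : col K (2 * i + 1) = ⟨Sum.inr ((i + 1) % K)⟩ := by
  have h : (2 * i + 1) % 2 = 1 := by omega
  have h' : (2 * i + 1) / 2 = i := by omega
  simp [col, h, h']

theorem col_inj {K : ℕ} {j j' : ℕ} (h : col K j = col K j') :
    j % (2 * K) = j' % (2 * K) := by
  rcases Nat.even_or_odd' j with ⟨i, rfl | rfl⟩ <;> rcases Nat.even_or_odd' j' with ⟨i', rfl | rfl⟩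
  · rw [col_even, col_even] at h
    injection h with h; injection h with h
    rw [Nat.mul_mod_mul_left, Nat.mul_mod_mul_left, h]
  · rw [col_even, col_odd] at h
    injection h with h; cases h
  · rw [col_even, col_odd] at h
    injection h with h; cases h
  · rw [col_odd, col_odd] at h
    injection h with h; injection h with h
    have h2 : i ≡ i' [MOD K] := Nat.ModEq.add_right_cancel' 1 h
    have h3 : 2 * i + 1 ≡ 2 * i' + 1 [MOD 2 * K] := (Nat.ModEq.mul_left' 2 h2).add_right 1
    exact h3

theorem col_period (K j n : ℕ) : col K (j + 2 * K * n) = col K j := by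
  rcases Nat.even_or_odd' j with ⟨i, rfl | rfl⟩
  · have : 2 * i + 2 * K * n = 2 * (i + K * n) := by ring
    rw [this, col_even, col_even]; simp
  · have : 2 * i + 1 + 2 * K * n = 2 * (i + K * n) + 1 := by ring
    rw [this, col_odd, col_odd]
    have : i + K * n + 1 = (i + 1) + K * n := by ring
    rw [this]; simp

theorem col_mod (K j : ℕ) : col K (j % (2 * K)) = col K j := by
  conv_rhs => rw [← Nat.mod_add_div j (2 * K)]
  rw [col_period]

theorem prv_mod {K : ℕ} (hK : 2 ≤ K) (i : ℕ) : prv K ((i + 1) % K) = i % K := by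
  unfold prv
  have hlt := Nat.mod_lt i (show 0 < K by omega)
  by_cases h : i % K + 1 = K
  · have : (i + 1) % K = 0 := by
      rw [Nat.add_mod, Nat.mod_eq_of_lt (show 1 < K by omega), h, Nat.mod_self]
    rw [if_pos this]; omega
  · have : (i + 1) % K = i % K + 1 := by
      rw [Nat.add_mod, Nat.mod_eq_of_lt (show 1 < K by omega)]
      exact Nat.mod_eq_of_lt (by omega)
    rw [this]; simp

/-- All colours except for `c` are on the same side. -/
theorem connected {K : ℕ} (hK : 2 ≤ K) (P Q : Col (ℕ ⊕ ℕ) → Prop) (c : Col (ℕ ⊕ ℕ)) (j0 : ℕ)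
    (hc : c = col K j0)
    (h1 : ∀ j, col K j ≠ c → P (col K j) ∨ Q (col K j))
    (h2 : ∀ j, col K j ≠ c → col K (j + 1) ≠ c → ¬ (P (col K j) ∧ Q (col K (j + 1))))
    (h3 : ∀ j, col K j ≠ c → col K (j + 1) ≠ c → ¬ (Q (col K j) ∧ P (col K (j + 1)))) :
    (∀ j, col K j ≠ c → P (col K j)) ∨ (∀ j, col K j ≠ c → Q (col K j)) := by
  have ne : ∀ t, 1 ≤ t → t < 2 * K → col K (j0 + t) ≠ c := by
    intro t h1 h2 h
    rw [hc] at h
    have := col_inj h
    have h4 : j0 + t ≡ j0 + 0 [MOD 2 * K] := this
    have h5 := Nat.ModEq.add_left_cancel' j0 h4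
    have h6 := Nat.ModEq.eq_of_lt_of_lt h5 h2 (by omega)
    omega
  have all : ∀ (S : Col (ℕ ⊕ ℕ) → Prop), (∀ t, 1 ≤ t → t < 2 * K → S (col K (j0 + t))) →
      ∀ j, col K j ≠ c → S (col K j) := by
    intro S hS j hj
    have key : ∃ t, t < 2 * K ∧ j ≡ j0 + t [MOD 2 * K] := by
      refine ⟨(j + (2 * K * j0 - j0)) % (2 * K), Nat.mod_lt _ (by omega), ?_⟩
      have e : j0 + (j + (2 * K * j0 - j0)) = j + 2 * K * j0 := by
        have : j0 ≤ 2 * K * j0 := Nat.le_mul_of_pos_left _ (by omega)
        omega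
      have h4 : j0 + (j + (2 * K * j0 - j0)) % (2 * K) ≡ j0 + (j + (2 * K * j0 - j0)) [MOD 2 * K] :=
        Nat.ModEq.add_left _ (Nat.mod_modEq _ _)
      rw [e] at h4
      have h5 : j + 2 * K * j0 ≡ j [MOD 2 * K] := by
        simp [Nat.ModEq]
      exact (h4.trans h5).symm
    obtain ⟨t, ht, hjt⟩ := key
    have e : col K j = col K (j0 + t) := by
      rw [← col_mod K j, ← col_mod K (j0 + t)]
      rw [show j % (2 * K) = (j0 + t) % (2 * K) from hjt]
    rcases Nat.eq_zero_or_pos t with rfl | hpos
    · exfalso; apply hj; rw [e, hc]; simp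
    · rw [e]; exact hS t hpos ht
  rcases h1 (j0 + 1) (ne 1 (le_refl _) (by omega)) with hP | hQ
  · left
    apply all
    intro t ht
    induction t, ht using Nat.le_induction with
    | base => intro _; exact hP
    | succ t ht ih =>
      intro hlt
      have ih' := ih (by omega)
      rcases h1 (j0 + (t + 1)) (ne (t + 1) (by omega) hlt) with h | h
      · exact h
      · exact absurd ⟨ih', h⟩ (h2 (j0 + t) (ne t ht (by omega)) (ne (t + 1) (by omega) hlt))
  · right
    apply all
    intro t ht
    induction t, ht using Nat.le_induction with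
    | base => intro _; exact hQ
    | succ t ht ih =>
      intro hlt
      have ih' := ih (by omega)
      rcases h1 (j0 + (t + 1)) (ne (t + 1) (by omega) hlt) with h | h
      · exact absurd ⟨ih', h⟩ (h3 (j0 + t) (ne t ht (by omega)) (ne (t + 1) (by omega) hlt))
      · exact h

/-! ### the trivial diagram -/

theorem trivial_pt : IsTrivialKnot ([pt], []) := by
  have key : ∀ {Λ : Type} [Palette Λ] (E : Diag Λ), plain E = ([pt], []) → ∃ x, E = ([x], []) := by
    intro Λ _ E h
    obtain ⟨F, w⟩ := E
    simp only [plain, relabel, Prod.mk.injEq] at h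
    obtain ⟨h1, h2⟩ := h
    rw [List.map_eq_nil_iff] at h2
    subst h2
    rw [List.map_eq_singleton_iff] at h1
    obtain ⟨x, hx, _⟩ := h1
    exact ⟨x, by rw [hx]⟩
  refine ⟨⟨by simp, ?_⟩, ?_⟩
  · intro E _ h
    obtain ⟨x, rfl⟩ := key E h
    refine ⟨x.c, ?_, ?_⟩
    · intro a ha; simp at ha; exact ha
    · intro s hs; simp at hs
  · intro G _ E _ h
    obtain ⟨x, rfl⟩ := key E h
    refine ⟨x.m, ?_, ?_⟩
    · intro a ha; simp at ha; rw [ha]
    · intro s hs; simp at hs

theorem diagram_pt : IsDiagram ([pt], []) := ⟨rfl, ([⟨(), true⟩], []), rfl, rfl⟩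

end RPr

open RPr

/-- the final step -/
theorem RPr.final (hRel : StRelabel) (hDel : StDel) (hInv : StInv) (hRet : StRetract)
    (K : ℕ) (R : ℕ → Diag Pl) (hG : ∀ i < K, Good (R i)) (hR : RingProps K R)
    (c : Col (ℕ ⊕ ℕ)) (A B : Word (Col (ℕ ⊕ ℕ))) (pA : Path [c] A [c]) (pB : Path [c] B [c])
    (hiso : Iso (ringC K R) ([c], A ++ B)) (hc : ∃ i < K, c.c = Sum.inl i ∨ c.c = Sum.inr i)
    (hB : ∀ e, e ≠ c → NoCol e B) : IsTrivialKnot ([pt], plainW B) := by
  have hBc : AllInW (fun x => x = c) B := nocol_all B _ fun e he => hB e he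
  obtain ⟨i, hi, hc | hc⟩ := hc
  · -- block
    have ec : c = ⟨Sum.inl i⟩ := by cases c; simp at hc; rw [hc]
    have h1 := (hDel (Col (ℕ ⊕ ℕ)) (fun x => isB i x || isM i x) (keep_col _)).2 _ _ hiso
    have h2 := (hR.lens i hi).symm.trans _ _ _ h1
    have hKc : (isB i c || isM i c) = true := by rw [ec]; simp [isB]
    have e1 : del (fun x => isB i x || isM i x) (([c], A ++ B) : Diag _) =
        ([c], delW (fun x => isB i x || isM i x) A ++ B) := by
      have : delW (fun x => isB i x || isM i x) B = B :=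
        delW_eq_self _ _ fun s hs => ⟨fun a ha => by rw [(hBc s hs).1 a ha]; exact hKc,
          fun a ha => by rw [(hBc s hs).2 a ha]; exact hKc⟩
      simp only [del]
      rw [delW_append, this]
      simp [hKc]
    rw [e1] at h2
    let g : Col (ℕ ⊕ ℕ) → Col Bool := fun x => ⟨isM i x⟩
    have h3 := (hRel _ _ g (hom_col g)).2.1 _ _ h2
    have gc : g c = ⟨false⟩ := by rw [ec]; simp [g, isM]
    obtain ⟨F, hF⟩ := (hG i hi).front
    have e2 : relabel g (lens ⟨Sum.inr i⟩ (relabel (fun _ => ⟨Sum.inl i⟩) (R i))) = lens2 (R i) := by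
      rcases hRi : R i with ⟨F', w⟩
      rw [hRi] at hF
      simp only at hF
      subst hF
      have gi : g ⟨Sum.inl i⟩ = ⟨false⟩ := by simp [g, isM]
      have gm : g ⟨Sum.inr i⟩ = ⟨true⟩ := by simp [g, isM]
      have hst : ∀ {κ : Type} (x : Col κ), star x = x := fun _ => rfl
      have hw : relabelW g (relabelW (fun _ : Pl => (⟨Sum.inl i⟩ : Col (ℕ ⊕ ℕ))) w) =
          relabelW (fun _ : Pl => (⟨false⟩ : Col Bool)) w := by
        rw [relabelW_relabelW]
        have : (g ∘ fun _ : Pl => (⟨Sum.inl i⟩ : Col (ℕ ⊕ ℕ))) = fun _ : Pl => (⟨false⟩ : Col Bool) := by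
          funext x
          exact gi
        rw [this]
      have hw' : List.map (Slice.map g) (List.map (Slice.map (fun _ : Pl => (⟨Sum.inl i⟩ : Col (ℕ ⊕ ℕ)))) w) =
        List.map (Slice.map (fun _ : Pl => (⟨false⟩ : Col Bool))) w := hw
      simp only [lens2, relabel, lens, hook, List.map_cons, List.map_append, List.map_nil,
        Slice.map, Loc.map, gi, gm, hst, hw', List.cons_append, List.nil_append, List.map_map,
        Function.comp_def]
    rw [e2] at h3
    have e3 : relabel g (([c], delW (fun x => isB i x || isM i x) A ++ B) : Diag _) =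
        ([⟨false⟩], relabelW g (delW (fun x => isB i x || isM i x) A) ++ relabelW g B) := by
      rw [relabel_eq, relabelW_append]; simp [gc]
    rw [e3] at h3
    have pA' := (hDel _ (fun x => isB i x || isM i x) (keep_col _)).1 _ _ _ pA
    have eF : [c].filter (fun x => isB i x || isM i x) = [c] := by simp [hKc]
    rw [eF] at pA'
    have pA2 := (hRel _ _ g (hom_col g)).1 _ _ _ pA'
    have pB2 := (hRel _ _ g (hom_col g)).1 _ _ _ pB
    simp only [List.map_cons, List.map_nil, gc] at pA2 pB2
    have hno : NoCol ⟨true⟩ (relabelW g B) := by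
      apply nocol_map_col
      intro s hs
      refine ⟨fun a ha => ?_, fun a ha => ?_⟩
      · rw [(hBc s hs).1 a ha]; show g c ≠ _; rw [gc]; simp
      · rw [(hBc s hs).2 a ha]; show g c ≠ _; rw [gc]; simp
    have := (hG i hi).prime _ _ pA2 pB2 h3 hno
    rw [plainW_relabelW] at this
    exact this
  · -- circle
    have ec : c = ⟨Sum.inr i⟩ := by cases c; simp at hc; rw [hc]
    have h1 := (hDel (Col (ℕ ⊕ ℕ)) (isM i) (keep_col _)).2 _ _ hiso
    have h2 := (hR.circle i hi).symm.trans _ _ _ h1
    have hKc : isM i c = true := by rw [ec]; simp [isM]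
    have e1 : del (isM i) (([c], A ++ B) : Diag _) = ([c], delW (isM i) A ++ B) := by
      have : delW (isM i) B = B :=
        delW_eq_self _ _ fun s hs => ⟨fun a ha => by rw [(hBc s hs).1 a ha]; exact hKc,
          fun a ha => by rw [(hBc s hs).2 a ha]; exact hKc⟩
      simp only [del]
      rw [delW_append, this]
      simp [hKc]
    rw [e1] at h2
    have h3 := (hRel _ _ (fun _ => pt) (hom_pl _)).2.1 _ _ h2
    have e3 : relabel (fun _ => pt) (([c], delW (isM i) A ++ B) : Diag _) =
        ([pt], plainW (delW (isM i) A) ++ plainW B) := by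
      rw [relabel_eq, relabelW_append]; rfl
    have e4 : relabel (fun _ => pt) (([⟨Sum.inr i⟩], []) : Diag (Col (ℕ ⊕ ℕ))) = ([pt], []) := rfl
    rw [e3, e4] at h3
    have pA' := (hDel _ (isM i) (keep_col _)).1 _ _ _ pA
    have eF : [c].filter (isM i) = [c] := by simp [hKc]
    rw [eF] at pA'
    have pA2 : Path [pt] (plainW (delW (isM i) A)) [pt] :=
      (hRel _ _ (fun _ => pt) (hom_pl _)).1 _ _ _ pA'
    have pB2 : Path [pt] (plainW B) [pt] := (hRel _ _ (fun _ => pt) (hom_pl _)).1 _ _ _ pB
    obtain ⟨i1, _, _, i4, _, _⟩ := hInv _ _ h3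
    exact (hRet _ _ pA2 pB2 (i1.1 diagram_pt) ((i4 rfl).1 trivial_pt)).2

theorem stRingPrime (hRel : StRelabel) (hDel : StDel) (hSub : StSub) (hInv : StInv)
    (hSum : StSum) (hSide : StSide) (hCross : StCross) (hRet : StRetract) (hKns : StKnotNonsplit)
    (hCol : StRingCol) (hNs : StRingNonsplit) : StRingPrime := by
  intro K R hK hG hR
  obtain ⟨n1, n2, n3⟩ := hNs K R hK hG hR
  refine ⟨n1, n2, fun h => n3 h.1, ?_⟩
  intro A B pA pB hiso
  have hiso' : Iso (plain (ringC K R)) ([pt], A ++ B) := by rw [hR.plain]; exact hiso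
  obtain ⟨c, A', B', pA', pB', rfl, rfl, hI⟩ := hSum _ (ringC K R) A B hR.closed pA pB hiso'
  -- the colour of the cut
  have hAll : AllIn (fun x => ∃ i < K, x.c = Sum.inl i ∨ x.c = Sum.inr i)
      (([c], A' ++ B') : Diag (Col (ℕ ⊕ ℕ))) :=
    (hSub _ _ ⟨fun x h => h, fun x y h _ => h, fun x y h _ => h⟩ _ _ hI).1 hR.colours
  have hc : ∃ i < K, c.c = Sum.inl i ∨ c.c = Sum.inr i := hAll.1 c (by simp)
  obtain ⟨j0, hj0⟩ : ∃ j0, c = col K j0 := by
    obtain ⟨i, hi, h | h⟩ := hc
    · refine ⟨2 * i, ?_⟩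
      rw [col_even, Nat.mod_eq_of_lt hi]
      cases c; simp at h; rw [h]
    · refine ⟨2 * (i + (K - 1)) + 1, ?_⟩
      have : (i + (K - 1) + 1) % K = i := by
        rw [show i + (K - 1) + 1 = i + K by omega]; simp [Nat.mod_eq_of_lt hi]
      rw [col_odd, this]
      cases c; simp at h; rw [h]
  -- the linked colours
  let X : Diag (Col ((ℕ ⊕ ℕ) × Unit)) := relabel (fun x => ⟨(x.c, ())⟩) (([c], A' ++ B') : Diag _)
  have hXc : Closed X := (hRel _ _ _ (hom_col _)).1 _ _ _ (pA'.append pB')
  have hXf : relabel (fun x : Col ((ℕ ⊕ ℕ) × Unit) => (⟨x.c.1⟩ : Col (ℕ ⊕ ℕ))) X =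
      (([c], A' ++ B') : Diag _) := by
    show relabel _ (relabel _ _) = _
    rw [relabel_relabel]
    have : ((fun x : Col ((ℕ ⊕ ℕ) × Unit) => (⟨x.c.1⟩ : Col (ℕ ⊕ ℕ))) ∘
        fun x : Col (ℕ ⊕ ℕ) => (⟨(x.c, ())⟩ : Col ((ℕ ⊕ ℕ) × Unit))) = fun x => x := by
      funext x; rfl
    rw [this, relabel_eq, relabelW_id]; simp
  obtain ⟨-, -, q3, q4, -, -⟩ := hCol K R hK hG hR Unit X hXc (by rw [hXf]; exact hI.symm)
  have q3' : ∀ i < K, 4 ≤ cnt (isM i) (isB i) (([c], A' ++ B') : Diag _) +
      cnt (isB i) (isM i) (([c], A' ++ B') : Diag _) := by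
    intro i hi
    have := q3 i hi
    rw [show X = relabel (fun x => ⟨(x.c, ())⟩) (([c], A' ++ B') : Diag _) from rfl, cnt_relabel,
      cnt_relabel] at this
    exact this
  have q4' : ∀ i < K, 1 ≤ cnt (isM i) (isB (prv K i)) (([c], A' ++ B') : Diag _) ∧
      1 ≤ cnt (isB (prv K i)) (isM i) (([c], A' ++ B') : Diag _) := by
    intro i hi
    have := q4 i hi
    rw [show X = relabel (fun x => ⟨(x.c, ())⟩) (([c], A' ++ B') : Diag _) from rfl, cnt_relabel,
      cnt_relabel] at this
    exact this
  have bEq : ∀ i (e : Col (ℕ ⊕ ℕ)), isB i e = true → e = ⟨Sum.inl i⟩ := by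
    intro i e he; cases e; simp [isB] at he; rw [he]
  have mEq : ∀ i (e : Col (ℕ ⊕ ℕ)), isM i e = true → e = ⟨Sum.inr i⟩ := by
    intro i e he; cases e; simp [isM] at he; rw [he]
  have zero : ∀ i j, (NoCol ⟨Sum.inr i⟩ A' ∧ NoCol ⟨Sum.inl j⟩ B') ∨
      (NoCol ⟨Sum.inr i⟩ B' ∧ NoCol ⟨Sum.inl j⟩ A') →
      cnt (isM i) (isB j) (([c], A' ++ B') : Diag _) = 0 ∧
      cnt (isB j) (isM i) (([c], A' ++ B') : Diag _) = 0 := by
    intro i j h
    rcases h with ⟨h1, h2⟩ | ⟨h1, h2⟩
    · exact hCross _ c A' B' (isM i) (isB j) (fun e he => by rw [mEq i e he]; exact h1)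
        (fun e he => by rw [bEq j e he]; exact h2)
    · exact (hCross _ c A' B' (isB j) (isM i) (fun e he => by rw [bEq j e he]; exact h2)
        (fun e he => by rw [mEq i e he]; exact h1)).symm
  -- each colour is on one side
  have one : ∀ j, col K j ≠ c → NoCol (col K j) B' ∨ NoCol (col K j) A' := by
    intro j hj
    rcases Nat.even_or_odd' j with ⟨i, rfl | rfl⟩
    · rw [col_even] at hj ⊢
      have hi : i % K < K := Nat.mod_lt _ (by omega)
      have hs : ¬ IsSplit (plain (del (isB (i % K)) (ringC K R))) := by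
        have h1 := (hRel _ _ (fun _ => pt) (hom_pl _)).2.1 _ _ (hR.block _ hi)
        have h2 : Iso (plain (del (isB (i % K)) (ringC K R))) (R (i % K)) := by
          have e : relabel (fun _ => pt) (relabel (fun _ => (⟨Sum.inl (i % K)⟩ : Col (ℕ ⊕ ℕ)))
              (R (i % K))) = R (i % K) := by
            have := plain_relabel (fun _ => (⟨Sum.inl (i % K)⟩ : Col (ℕ ⊕ ℕ))) (R (i % K))
            rw [plain_self] at this
            exact this
          rw [e] at h1
          exact h1
        rw [(hInv _ _ h2).2.2.2.2.1]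
        exact (hG _ hi).nonsplit
      have hKc : isB (i % K) c = false := by
        cases h : isB (i % K) c
        · rfl
        · exact absurd (bEq _ _ h).symm hj
      rcases hSide _ (ringC K R) c A' B' (isB (i % K)) hKc pA' pB' hI hs with h | h
      · exact Or.inr (h _ (by simp [isB]))
      · exact Or.inl (h _ (by simp [isB]))
    · rw [col_odd] at hj ⊢
      have hi : (i + 1) % K < K := Nat.mod_lt _ (by omega)
      have hs : ¬ IsSplit (plain (del (isM ((i + 1) % K)) (ringC K R))) := by
        have h1 := (hRel _ _ (fun _ => pt) (hom_pl _)).2.1 _ _ (hR.circle _ hi)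
        have h2 : Iso (plain (del (isM ((i + 1) % K)) (ringC K R))) ([pt], []) := h1
        rw [(hInv _ _ h2).2.2.2.2.1]
        exact hKns _ rfl trivial_pt.1
      have hKc : isM ((i + 1) % K) c = false := by
        cases h : isM ((i + 1) % K) c
        · rfl
        · exact absurd (mEq _ _ h).symm hj
      rcases hSide _ (ringC K R) c A' B' (isM ((i + 1) % K)) hKc pA' pB' hI hs with h | h
      · exact Or.inr (h _ (by simp [isM]))
      · exact Or.inl (h _ (by simp [isM]))
  -- linked colours are on the same side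
  have two : ∀ j, ((NoCol (col K j) B' ∧ NoCol (col K (j + 1)) A') ∨
      (NoCol (col K j) A' ∧ NoCol (col K (j + 1)) B')) → False := by
    intro j h
    rcases Nat.even_or_odd' j with ⟨i, rfl | rfl⟩
    · rw [col_even, col_odd] at h
      have hi : (i + 1) % K < K := Nat.mod_lt _ (by omega)
      have hz := zero ((i + 1) % K) (i % K) (by tauto)
      have := q4' _ hi
      rw [prv_mod hK] at this
      omega
    · have e : 2 * i + 1 + 1 = 2 * (i + 1) := by ring
      rw [e, col_even, col_odd] at h
      have hi : (i + 1) % K < K := Nat.mod_lt _ (by omega)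
      have hz := zero ((i + 1) % K) ((i + 1) % K) (by tauto)
      have := q3' _ hi
      omega
  -- colours which do not belong to the ring
  have other : ∀ e : Col (ℕ ⊕ ℕ), (∀ j, e ≠ col K j) → NoCol e A' ∧ NoCol e B' := by
    intro e he
    have hno : ¬ ∃ i < K, e.c = Sum.inl i ∨ e.c = Sum.inr i := by
      rintro ⟨i, hi, h | h⟩
      · apply he (2 * i)
        rw [col_even, Nat.mod_eq_of_lt hi]
        cases e; simp at h; rw [h]
      · apply he (2 * (i + (K - 1)) + 1)
        have : (i + (K - 1) + 1) % K = i := by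
          rw [show i + (K - 1) + 1 = i + K by omega]; simp [Nat.mod_eq_of_lt hi]
        rw [col_odd, this]
        cases e; simp at h; rw [h]
    constructor
    · intro s hs
      have := hAll.2 s (by simp [hs])
      exact ⟨fun h => hno (this.1 e h), fun h => hno (this.2 e h)⟩
    · intro s hs
      have := hAll.2 s (by simp [hs])
      exact ⟨fun h => hno (this.1 e h), fun h => hno (this.2 e h)⟩
  rcases connected hK (fun e => NoCol e B') (fun e => NoCol e A') c j0 hj0 one
    (fun j _ _ h => two j (Or.inl h)) (fun j _ _ h => two j (Or.inr h)) with h | h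
  · right
    refine RPr.final hRel hDel hInv hRet K R hG hR c A' B' pA' pB' hI hc ?_
    intro e he
    by_cases hj : ∃ j, e = col K j
    · obtain ⟨j, rfl⟩ := hj
      exact h j he
    · exact (other e (by simpa using hj)).2
  · left
    refine RPr.final hRel hDel hInv hRet K R hG hR c B' A' pB' pA' ?_ hc ?_
    · exact hI.trans _ _ _ (EqvGen.rel _ _ (Step.conj pA' pB'))
    intro e he
    by_cases hj : ∃ j, e = col K j
    · obtain ⟨j, rfl⟩ := hj
      exact h j he
    · exact (other e (by simpa using hj)).1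

end Pool.Agent.H838R2.PL
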