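import Pool.Agent.H838R2.PL.Stubs

/-!
# Rooting a diagram at two strands, rotating a crossing (A8, A9)
-/

set_option autoImplicit false
set_option linter.unusedSectionVars false

namespace Pool.Agent.H838R2.PL

open Relation

namespace A8

variable {Λ : Type} [Palette Λ]

/-- crossings of slices -/
def isCr (s : Slice Λ) : Bool := match s.p with
  | .cr _ _ _ => true
  | _ => false

theorem cross_eq (F : List Λ) (w : Word Λ) : cross (F, w) = w.countP isCr := rfl

theorem countP_ctx (P Q : List Λ) (w : Word Λ) : (ctx P Q w).countP isCr = w.countP isCr := by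
  unfold ctx
  rw [List.countP_map]
  rfl

/-- moving the first strands at the cut away -/
theorem root_aux (x y : Λ) (Q : List Λ) : ∀ (P : List Λ) (w : Word Λ),
    Path (P ++ x :: y :: Q) w (P ++ x :: y :: Q) →
    ∃ w', Path (x :: y :: Q) w' (x :: y :: Q) ∧
      Iso (P ++ x :: y :: Q, w) (x :: y :: Q, w') ∧ w'.countP isCr = w.countP isCr := by
  intro P
  induction P with
  | nil => intro w hw; exact ⟨w, hw, EqvGen.refl _, rfl⟩
  | cons a P ih =>
    intro w hw
    have hs := Step.left (a := a) (F := P ++ x :: y :: Q) (w := w) hw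
    obtain ⟨w', h1, h2, h3⟩ := ih _ hs.closed.2
    refine ⟨w', h1, EqvGen.trans _ _ _ (EqvGen.rel _ _ hs) h2, ?_⟩
    rw [h3, List.countP_cons, List.countP_append, countP_ctx]
    simp [isCr]

end A8

open A8

theorem stRoot : StRoot := by
  intro Λ _ F P Q u v x y hu hv
  have hs := Step.conj hu hv
  obtain ⟨w, h1, h2, h3⟩ := root_aux x y Q P (v ++ u) (hv.append hu)
  refine ⟨w, h1, EqvGen.trans _ _ _ (EqvGen.rel _ _ hs) h2, ?_⟩
  rw [cross_eq, cross_eq, h3, List.countP_append, List.countP_append, Nat.add_comm]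

theorem stRotate : StRotate := by
  intro Λ _ F L R u v b p q z hz hc
  obtain ⟨G, hu, hs, hv⟩ := path_append.1 hc
  have hG : G = L ++ p :: q :: R := by
    rw [← hs]; simp [Slice.src, Loc.src]
  subst hG
  clear hs
  -- labels
  have h1 : (out b p q).1 = z := by
    cases b <;> simp [out] at hz ⊢ <;> exact hz.symm
  have h2 : out (!b) (star z) p = ((out b p q).2, star q) := by
    cases b <;> simp at hz <;> subst hz <;> simp [out, ← Palette.star_r]
  have h3 : q = if (!b) then z else Palette.r z p := by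
    cases b <;> simp at hz <;> subst hz <;> simp
  obtain ⟨o, ho⟩ : ∃ o, o = (out b p q).2 := ⟨_, rfl⟩
  rw [← ho] at h2
  have hv' : Path (L ++ z :: o :: R) v F := by
    have : (⟨L, .cr b p q, R⟩ : Slice Λ).tgt = L ++ z :: o :: R := by
      simp [Slice.tgt, Loc.tgt, h1, ho]
    rw [← this]; exact hv
  -- the words
  have hs1 : Step (F, u ++ ctx (L ++ [p]) R [⟨[], .birth q, [q]⟩, ⟨[q], .death (star q), []⟩] ++
      ⟨L, .cr b p q, R⟩ :: v) (F, u ++ ctx (L ++ [p]) R [] ++ ⟨L, .cr b p q, R⟩ :: v) := by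
    refine Step.loc F (L ++ [p]) R u _ (BM.zig1 q) (by simpa using hu) ?_
    refine ⟨by simp [Slice.src, Loc.src], ?_⟩
    simpa [Slice.tgt, Loc.tgt, h1, ho] using hv'
  have hs2 : Step (F, (u ++ [⟨L ++ [p], .birth q, q :: R⟩]) ++
      ctx L R [⟨[], .cr b p q, [] ++ (Loc.death (star q)).src⟩,
        ⟨(Loc.cr b p q).tgt ++ [], .death (star q), []⟩] ++ v)
      (F, (u ++ [⟨L ++ [p], .birth q, q :: R⟩]) ++
      ctx L R [⟨(Loc.cr b p q).src ++ [], .death (star q), []⟩,
        ⟨[], .cr b p q, [] ++ (Loc.death (star q)).tgt⟩] ++ v) := by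
    refine Step.loc F L R _ _ (BM.far (.cr b p q) (.death (star q)) []) ?_ ?_
    · refine Path.append hu ?_
      simp [Path, Slice.src, Slice.tgt, Loc.src, Loc.tgt]
    · simpa [Slice.tgt, Loc.tgt, h1, ho] using hv'
  have hs3 : Step (F, u ++ ctx L (q :: R) [⟨[], .birth z, [p]⟩, ⟨[z], .cr (!b) (star z) p, []⟩] ++
      (⟨L ++ [z, o], .death (star q), R⟩ :: v))
      (F, u ++ ctx L (q :: R) [⟨[p], .birth q, []⟩, ⟨[], .cr (!(!b)) p q, [star q]⟩] ++
      (⟨L ++ [z, o], .death (star q), R⟩ :: v)) := by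
    refine Step.loc F L (q :: R) u _ (BM.sb (!b) z p q h3) (by simpa using hu) ?_
    rw [h2]
    refine ⟨by simp [Slice.src, Loc.src], ?_⟩
    simpa [Slice.tgt, Loc.tgt] using hv'
  refine ⟨⟨L ++ [z], .cr (!b) (star z) p, q :: R⟩ :: ⟨L ++ [z, o], .death (star q), R⟩ :: v,
    ?_, ?_, ?_, ?_⟩
  · refine Path.append hu ?_
    simp [Path, Slice.src, Slice.tgt, Loc.src, Loc.tgt]
  · refine ⟨by simp [Slice.src, Loc.src], by simp [Slice.src, Slice.tgt, Loc.src, Loc.tgt, h2], ?_⟩
    simpa [Slice.tgt, Loc.tgt] using hv'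
  · refine EqvGen.trans _ _ _ (EqvGen.symm _ _ (EqvGen.rel _ _ ?_))
      (EqvGen.trans _ _ _ (EqvGen.symm _ _ (EqvGen.rel _ _ hs2))
        (EqvGen.symm _ _ (EqvGen.rel _ _ ?_)))
    · simpa [Loc.src, Loc.tgt] using hs1
    · simpa [Loc.src, Loc.tgt, h1, ho] using hs3
  · simp only [cross_eq, List.countP_append, List.countP_cons]
    simp [isCr]

end Pool.Agent.H838R2.PL
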