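import Pool.Agent.H838R2.PL.Stubs

/-!
# (B3) A non-split part of a link is on one side of a connected sum
-/

set_option autoImplicit false
set_option linter.unusedSectionVars false

namespace Pool.Agent.H838R2.PL

section

variable {Λ Λ' : Type} [Palette Λ] [Palette Λ']

/-- if a word has no slice left after erasing, and no strand above is left, it has no strands with
`K e = true` at all -/
theorem side_noCol {K : Λ → Bool}
    (hP : ∀ (w : Word Λ) (F G : List Λ), Path F w G → Path (F.filter K) (delW K w) (G.filter K)) :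
    ∀ (w : Word Λ) (F G : List Λ), Path F w G → F.filter K = [] → delW K w = [] →
      ∀ e, K e = true → NoCol e w := by
  intro w
  induction w with
  | nil => intro F G _ _ _ e _ s hs; cases hs
  | cons s w ih =>
    intro F G h hF hw e he
    obtain ⟨hs, hw'⟩ := h
    have hw1 : delS K s = [] ∧ delW K w = [] := by
      unfold delW at hw
      rw [List.flatMap_cons] at hw
      exact List.append_eq_nil_iff.1 hw
    have h1 : Path s.src [s] s.tgt := ⟨rfl, rfl⟩
    have h2 := hP _ _ _ h1
    have e1 : delW K [s] = [] := by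
      unfold delW
      simp [hw1.1]
    rw [e1] at h2
    have h3 : s.src.filter K = s.tgt.filter K := h2
    have h4 : s.src.filter K = [] := by rw [hs]; exact hF
    have h5 : s.tgt.filter K = [] := by rw [← h3]; exact h4
    have hno : ∀ l : List Λ, l.filter K = [] → e ∉ l := by
      intro l hl hel
      have : e ∈ l.filter K := List.mem_filter.2 ⟨hel, he⟩
      rw [hl] at this
      cases this
    intro t ht
    rcases List.mem_cons.1 ht with rfl | ht
    · exact ⟨hno _ h4, hno _ h5⟩
    · exact ih _ _ hw' h5 hw1.2 e he t ht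

/-- every slice contains a strand -/
theorem side_slice_ne (s : Slice Λ) : s.src ≠ [] ∨ s.tgt ≠ [] := by
  obtain ⟨L, p, R⟩ := s
  cases p <;> simp [Slice.src, Slice.tgt, Loc.src, Loc.tgt]

theorem side_map_src {κ κ' : Type} (f : Col κ → Col κ') (s : Slice (Col κ)) :
    (s.map f).src = s.src.map f := by
  obtain ⟨L, p, R⟩ := s
  cases p
  · simp [Slice.map, Slice.src, Loc.map, Loc.src]
  · simp only [Slice.map, Slice.src, Loc.map, Loc.src, List.map_append, List.map_cons, List.map_nil]
    rfl
  · simp [Slice.map, Slice.src, Loc.map, Loc.src]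

theorem side_map_tgt {κ κ' : Type} (c : Col κ') (s : Slice (Col κ)) :
    (s.map (fun _ => c)).tgt = s.tgt.map (fun _ => c) := by
  obtain ⟨L, p, R⟩ := s
  cases p with
  | birth a =>
    simp only [Slice.map, Slice.tgt, Loc.map, Loc.tgt, List.map_append, List.map_cons, List.map_nil]
    rfl
  | death a => simp [Slice.map, Slice.tgt, Loc.map, Loc.tgt]
  | cr b x y =>
    cases b <;>
    · simp only [Slice.map, Slice.tgt, Loc.map, Loc.tgt, List.map_append, List.map_cons,
        List.map_nil, out]
      rfl

/-- all labels of a word coloured with one colour -/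
theorem side_const {κ κ' : Type} (c c' : Col κ') (w : Word (Col κ)) (hw : w ≠ [])
    (h : ∀ s ∈ relabelW (fun _ => c) w, (∀ a ∈ s.src, a = c') ∧ ∀ a ∈ s.tgt, a = c') : c = c' := by
  cases w with
  | nil => exact absurd rfl hw
  | cons s w =>
    have hs := h (s.map (fun _ => c)) (by simp [relabelW])
    rw [side_map_src, side_map_tgt] at hs
    rcases side_slice_ne s with h1 | h1
    · obtain ⟨a, l, hl⟩ := List.exists_cons_of_ne_nil h1
      exact hs.1 c (by rw [hl]; simp)
    · obtain ⟨a, l, hl⟩ := List.exists_cons_of_ne_nil h1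
      exact hs.2 c (by rw [hl]; simp)

theorem side_cr {κ κ' : Type} (c : Col κ') (w : Word (Col κ)) :
    ∀ s ∈ relabelW (fun _ => c) w, ∀ b x y, s.p = .cr b x y → x = y := by
  intro s hs b x y hp
  obtain ⟨t, _, rfl⟩ := List.mem_map.1 hs
  obtain ⟨L, p, R⟩ := t
  cases p with
  | birth a => simp [Slice.map, Loc.map] at hp
  | death a => simp [Slice.map, Loc.map] at hp
  | cr b' x' y' =>
    simp only [Slice.map, Loc.map, Loc.cr.injEq] at hp
    rw [← hp.2.1, ← hp.2.2]

end

/-- (B3) -/
theorem stSide (h1 : StRelabel) (h2 : StDel) : StSide := by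
  intro κ D c A B K hc hA hB hI hns
  have hd := h2 (Col κ) K (keep_col K)
  have hFc : ([c] : List (Col κ)).filter K = [] := by simp [hc]
  by_contra hcon
  rw [not_or] at hcon
  have key : ∀ w : Word (Col κ), Path [c] w [c] → ¬ (∀ e, K e = true → NoCol e w) →
      delW K w ≠ [] := by
    intro w hw hne h0
    exact hne (side_noCol hd.1 w _ _ hw hFc h0)
  have hA' := key A hA hcon.1
  have hB' := key B hB hcon.2
  apply hns
  have pA : Path [] (delW K A) [] := by
    have := hd.1 _ _ _ hA
    rwa [hFc] at this
  have pB : Path [] (delW K B) [] := by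
    have := hd.1 _ _ _ hB
    rwa [hFc] at this
  have hr : ∀ b : Bool, Hom (fun _ : Col κ => (⟨b⟩ : Col Bool)) := fun b => hom_col _
  have pA2 : Path [] (relabelW (fun _ => (⟨false⟩ : Col Bool)) (delW K A)) [] :=
    (h1 _ _ _ (hr false)).1 _ _ _ pA
  have pB2 : Path [] (relabelW (fun _ => (⟨true⟩ : Col Bool)) (delW K B)) [] :=
    (h1 _ _ _ (hr true)).1 _ _ _ pB
  refine ⟨([], relabelW (fun _ => (⟨false⟩ : Col Bool)) (delW K A) ++
    relabelW (fun _ => (⟨true⟩ : Col Bool)) (delW K B)), pA2.append pB2, ?_, ?_, ?_⟩
  · have e1 : plain (([], relabelW (fun _ => (⟨false⟩ : Col Bool)) (delW K A) ++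
        relabelW (fun _ => (⟨true⟩ : Col Bool)) (delW K B)) : Diag (Col Bool)) =
        plain (del K ([c], A ++ B)) := by
      have hmm : ∀ (f : Col κ → Col Bool) (w : Word (Col κ)),
          (relabelW f w).map (Slice.map (fun _ => pt)) = w.map (Slice.map (fun _ => pt)) := by
        intro f w
        unfold relabelW
        rw [List.map_map]
        apply List.map_congr_left
        intro s _
        obtain ⟨L, p, R⟩ := s
        have hL : ∀ l : List (Col κ), (l.map f).map (fun _ => pt) = l.map (fun _ => pt) := by
          intro l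
          rw [List.map_map]
          rfl
        cases p <;> simp only [Function.comp_apply, Slice.map, Loc.map, hL]
      have hdel : delW K (A ++ B) = delW K A ++ delW K B := by
        unfold delW; rw [List.flatMap_append]
      simp only [plain, relabel, del, hFc, hdel, List.map_append, hmm, List.map_nil]
    rw [e1]
    exact (h1 _ _ _ (hom_pl _)).2.1 _ _ (hd.2 _ _ (Relation.EqvGen.symm _ _ hI))
  · intro s hs
    rcases List.mem_append.1 hs with hs | hs
    · exact side_cr _ _ s hs
    · exact side_cr _ _ s hs
  · rintro ⟨b, hb⟩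
    have h3 : (⟨false⟩ : Col Bool) = ⟨b⟩ := side_const _ _ _ hA' fun s hs =>
      hb.2 s (List.mem_append.2 (Or.inl hs))
    have h4 : (⟨true⟩ : Col Bool) = ⟨b⟩ := side_const _ _ _ hB' fun s hs =>
      hb.2 s (List.mem_append.2 (Or.inr hs))
    have h5 := h3.trans h4.symm
    simp at h5

end Pool.Agent.H838R2.PL
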