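import Pool.Agent.H838R2.PL.Stubs

/-!
# Closed sets of labels (task A5 of h838b_tasks, helper89)
-/

set_option autoImplicit false
set_option linter.unusedSectionVars false
set_option linter.unusedSimpArgs false

namespace Pool.Agent.H838R2.PL.A5

variable {Λ : Type} [Palette Λ]

/-- the labels of the births of a slice satisfy `S` -/
def BS (S : Λ → Prop) (s : Slice Λ) : Prop := ∀ a, s.p = .birth a → S a

/-- the labels of the births of a word satisfy `S` -/
def BW (S : Λ → Prop) (w : Word Λ) : Prop := ∀ s ∈ w, BS S s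

theorem BW_nil (S : Λ → Prop) : BW S ([] : Word Λ) ↔ True := by simp [BW]

theorem BW_cons (S : Λ → Prop) (s : Slice Λ) (w : Word Λ) :
    BW S (s :: w) ↔ BS S s ∧ BW S w := by simp [BW]

theorem BW_append (S : Λ → Prop) (u v : Word Λ) :
    BW S (u ++ v) ↔ BW S u ∧ BW S v := by
  simp only [BW, List.mem_append]
  constructor
  · intro h; exact ⟨fun s hs => h s (Or.inl hs), fun s hs => h s (Or.inr hs)⟩
  · rintro ⟨h1, h2⟩ s (hs | hs)
    · exact h1 s hs
    · exact h2 s hs

theorem BW_ctx (S : Λ → Prop) (P Q : List Λ) (w : Word Λ) : BW S (ctx P Q w) ↔ BW S w := by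
  induction w with
  | nil => simp [BW]
  | cons s w ih => rw [ctx_cons, BW_cons, BW_cons, ih]; rfl

theorem out_mem {S : Λ → Prop} (hS : SubP S) {b : Bool} {x y : Λ} (hx : S x) (hy : S y) :
    S (out b x y).1 ∧ S (out b x y).2 := by
  cases b
  · exact ⟨hy, hS.r x y hx hy⟩
  · exact ⟨hS.l y x hy hx, hx⟩

theorem slice_iff {S : Λ → Prop} (hS : SubP S) {s : Slice Λ} (h : ∀ a ∈ s.src, S a) :
    (∀ a ∈ s.tgt, S a) ↔ BS S s := by
  have hL : ∀ a ∈ s.L, S a := fun a ha => h a (by simp [Slice.src, ha])
  have hR : ∀ a ∈ s.R, S a := fun a ha => h a (by simp [Slice.src, ha])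
  have hp : ∀ a ∈ s.p.src, S a := fun a ha => h a (by simp [Slice.src, ha])
  constructor
  · intro h' a ha
    exact h' a (by simp [Slice.tgt, ha, Loc.tgt])
  · intro hb a ha
    simp only [Slice.tgt, List.mem_append] at ha
    rcases ha with (ha | ha) | ha
    · exact hL a ha
    · cases hpp : s.p with
      | birth c =>
        have hc : S c := hb c hpp
        rw [hpp] at ha
        simp only [Loc.tgt, List.mem_cons, List.not_mem_nil, or_false] at ha
        rcases ha with rfl | rfl
        · exact hc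
        · exact hS.star c hc
      | death c =>
        rw [hpp] at ha
        simp [Loc.tgt] at ha
      | cr b x y =>
        rw [hpp] at ha hp
        have hx : S x := hp x (by simp [Loc.src])
        have hy : S y := hp y (by simp [Loc.src])
        have := out_mem hS (b := b) hx hy
        simp only [Loc.tgt, List.mem_cons, List.not_mem_nil, or_false] at ha
        rcases ha with rfl | rfl
        · exact this.1
        · exact this.2
    · exact hR a ha

/-- all labels of a word satisfy `S` -/
def AW (S : Λ → Prop) (w : Word Λ) : Prop := ∀ s ∈ w, (∀ a ∈ s.src, S a) ∧ ∀ a ∈ s.tgt, S a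

theorem path_iff {S : Λ → Prop} (hS : SubP S) {w : Word Λ} : ∀ {F G : List Λ}, Path F w G →
    (∀ a ∈ F, S a) → ((AW S w ↔ BW S w) ∧ (BW S w → ∀ a ∈ G, S a)) := by
  induction w with
  | nil =>
    intro F G h hF
    refine ⟨by simp [AW, BW], fun _ => ?_⟩
    have : F = G := h
    rw [← this]; exact hF
  | cons s w ih =>
    intro F G h hF
    have hsrc : ∀ a ∈ s.src, S a := by rw [h.1]; exact hF
    have hsl := slice_iff hS hsrc
    constructor
    · rw [BW_cons]
      constructor
      · intro hA
        have h1 := hA s (List.mem_cons_self)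
        refine ⟨hsl.1 h1.2, ((ih h.2 h1.2).1).1 fun t ht => hA t (List.mem_cons_of_mem _ ht)⟩
      · rintro ⟨h1, h2⟩ t ht
        rcases List.mem_cons.1 ht with rfl | ht
        · exact ⟨hsrc, hsl.2 h1⟩
        · exact ((ih h.2 (hsl.2 h1)).1).2 h2 t ht
    · intro hB
      rw [BW_cons] at hB
      exact (ih h.2 (hsl.2 hB.1)).2 hB.2

theorem allIn_iff {S : Λ → Prop} (hS : SubP S) {D : Diag Λ} (hD : Closed D) :
    AllIn S D ↔ (∀ a ∈ D.1, S a) ∧ BW S D.2 := by
  constructor
  · intro h
    exact ⟨h.1, ((path_iff hS hD h.1).1).1 h.2⟩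
  · intro h
    exact ⟨h.1, ((path_iff hS hD h.1).1).2 h.2⟩

theorem star_iff {S : Λ → Prop} (hS : SubP S) (a : Λ) : S (star a) ↔ S a :=
  ⟨fun h => by have := hS.star _ h; rwa [Palette.star_star] at this, hS.star a⟩

theorem BM_iff {S : Λ → Prop} (hS : SubP S) {A A' : List Λ} {l r : Word Λ} (h : BM A l r A')
    (hA : ∀ a ∈ A, S a) : BW S l ↔ BW S r := by
  cases h with
  | zig1 x =>
    have hx : S x := hA x (by simp)
    simp [BW, BS, hx]
  | zig2 x =>
    have hx : S x := hA x (by simp)
    simp [BW, BS, star_iff hS, hx]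
  | rb b a => simp [BW, BS, star_iff hS]
  | rd b a => simp [BW, BS]
  | r2 b x y => simp [BW, BS]
  | r3 a b c h x y z u₁ u₂ v₁ v₂ w₁ w₂ p₁ p₂ q₁ hu hv hw hp q₂ hq => simp [BW, BS]
  | sb b a s a' h =>
    have hs : S s := hA s (by simp)
    cases b
    · have h' : a' = Palette.r a s := by simpa using h
      subst h'
      have : S a ↔ S (Palette.r a s) :=
        ⟨fun ha => hS.r a s ha hs, fun ha => by
          have := hS.l _ s ha hs
          rwa [Palette.l_r] at this⟩
      simp [BW, BS, this]
    · have h' : a' = a := by simpa using h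
      subst h'
      simp [BW, BS]
  | sd b x y z h => simp [BW, BS]
  | far p q M =>
    simp only [BW_cons, BW_nil, and_true]
    exact and_comm

theorem step_iff {S : Λ → Prop} (hS : SubP S) {D E : Diag Λ} (h : Step D E) :
    AllIn S D ↔ AllIn S E := by
  obtain ⟨hD, hE⟩ := h.closed
  rw [allIn_iff hS hD, allIn_iff hS hE]
  cases h with
  | @loc A A' l r F P Q x y hb hx hy =>
    simp only [BW_append, BW_ctx]
    refine and_congr_right fun hF => ?_
    constructor
    · rintro ⟨⟨h1, h2⟩, h3⟩
      have hlev := (path_iff hS hx hF).2 h1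
      have := BM_iff hS hb (fun a ha => hlev a (by simp [ha]))
      exact ⟨⟨h1, this.1 h2⟩, h3⟩
    · rintro ⟨⟨h1, h2⟩, h3⟩
      have hlev := (path_iff hS hx hF).2 h1
      have := BM_iff hS hb (fun a ha => hlev a (by simp [ha]))
      exact ⟨⟨h1, this.2 h2⟩, h3⟩
  | @conj F G u v hu hv =>
    simp only [BW_append]
    constructor
    · rintro ⟨hF, h1, h2⟩
      exact ⟨(path_iff hS hu hF).2 h1, h2, h1⟩
    · rintro ⟨hG, h2, h1⟩
      exact ⟨(path_iff hS hv hG).2 h2, h1, h2⟩
  | @left a F w hw =>
    simp only [BW_cons, BW_append, BW_ctx, BW_nil, List.mem_cons, forall_eq_or_imp]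
    have e1 : BS S (⟨[], .birth (star a), F⟩ : Slice Λ) ↔ S a := by
      simp [BS, star_iff hS]
    have e2 : BS S (⟨[], .death (star a), F⟩ : Slice Λ) ↔ True := by simp [BS]
    rw [e1, e2]
    tauto
  | @right a F w hw =>
    simp only [BW_cons, BW_append, BW_ctx, BW_nil]
    have e1 : BS S (⟨F, .birth a, []⟩ : Slice Λ) ↔ S a := by simp [BS]
    have e2 : BS S (⟨F, .death a, []⟩ : Slice Λ) ↔ True := by simp [BS]
    have e3 : (∀ b ∈ F ++ [a], S b) ↔ (∀ b ∈ F, S b) ∧ S a := by
      simp only [List.mem_append, List.mem_singleton]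
      constructor
      · intro h; exact ⟨fun b hb => h b (Or.inl hb), h a (Or.inr rfl)⟩
      · rintro ⟨h1, h2⟩ b (hb | rfl)
        · exact h1 b hb
        · exact h2
    rw [e1, e2, e3]
    tauto

end Pool.Agent.H838R2.PL.A5

namespace Pool.Agent.H838R2.PL

/-- (A5) closed sets of labels -/
theorem stSub : StSub := by
  intro Λ _ S hS D E h
  induction h with
  | rel _ _ h => exact A5.step_iff hS h
  | refl _ => exact Iff.rfl
  | symm _ _ _ ih => exact ih.symm
  | trans _ _ _ _ _ ih1 ih2 => exact ih1.trans ih2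

end Pool.Agent.H838R2.PL
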