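import Pool.Agent.H838R2.PL.Stubs

/-!
# B2: StSum, StCross, StRetractKnot, StKnotNonsplit
-/

set_option autoImplicit false

namespace Pool.Agent.H838R2.PL

namespace SumAux

theorem map_pt_list (f : Pl → Pl) (l : List Pl) : l.map f = l := by
  induction l with
  | nil => rfl
  | cons a l ih => rw [List.map_cons, ih, Subsingleton.elim (f a) a]

theorem map_pt_loc (f : Pl → Pl) (p : Loc Pl) : p.map f = p := by
  cases p with
  | birth a => exact congrArg Loc.birth (Subsingleton.elim _ _)
  | death a => exact congrArg Loc.death (Subsingleton.elim _ _)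
  | cr b x y => simp only [Loc.map, Subsingleton.elim (f x) x, Subsingleton.elim (f y) y]

theorem map_pt_slice (f : Pl → Pl) (s : Slice Pl) : s.map f = s := by
  obtain ⟨L, p, R⟩ := s
  simp only [Slice.map, map_pt_list, map_pt_loc]

theorem relabelW_pt (f : Pl → Pl) (w : Word Pl) : relabelW f w = w := by
  unfold relabelW
  induction w with
  | nil => rfl
  | cons s w ih => rw [List.map_cons, ih, map_pt_slice]

theorem slice_map_map {Λ Λ' Λ'' : Type} [Palette Λ] [Palette Λ'] [Palette Λ''] (g : Λ' → Λ'')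
    (f : Λ → Λ') (s : Slice Λ) : (s.map f).map g = s.map (fun x => g (f x)) := by
  obtain ⟨L, p, R⟩ := s
  cases p <;> simp [Slice.map, Loc.map, Function.comp_def]

theorem relabelW_relabelW {Λ Λ' Λ'' : Type} [Palette Λ] [Palette Λ'] [Palette Λ''] (g : Λ' → Λ'')
    (f : Λ → Λ') (w : Word Λ) : relabelW g (relabelW f w) = relabelW (fun x => g (f x)) w := by
  unfold relabelW
  rw [List.map_map]
  apply List.map_congr_left
  intro s _
  exact slice_map_map g f s

theorem plainW_const {κ : Type} (c : Col κ) (w : Word Pl) :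
    plainW (relabelW (fun _ => c) w) = w := by
  unfold plainW
  rw [relabelW_relabelW]
  exact relabelW_pt _ w

theorem plain_eq {Λ : Type} [Palette Λ] {E : Diag Λ} {w : Word Pl} (h : plain E = ([pt], w)) :
    ∃ (c : Λ) (w' : Word Λ), E = ([c], w') ∧ plainW w' = w := by
  obtain ⟨F, w'⟩ := E
  unfold plain at h
  rw [relabel_eq, Prod.mk.injEq] at h
  obtain ⟨h1, h2⟩ := h
  rw [List.map_eq_singleton_iff] at h1
  obtain ⟨c, hc, -⟩ := h1
  dsimp only at hc
  subst hc
  exact ⟨c, w', rfl, h2⟩

theorem plain_mk {Λ : Type} [Palette Λ] (c : Λ) (w : Word Λ) :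
    plain (([c], w) : Diag Λ) = ([pt], plainW w) := rfl

theorem plainW_append {Λ : Type} [Palette Λ] (u v : Word Λ) :
    plainW (u ++ v) = plainW u ++ plainW v := by
  unfold plainW relabelW
  exact List.map_append

theorem cntS_zero {κ : Type} (p q : Col κ → Bool) (s : Slice (Col κ))
    (h : (∀ e, p e = true → e ∉ s.src) ∨ (∀ e, q e = true → e ∉ s.src)) : cntS p q s = 0 := by
  obtain ⟨L, loc, R⟩ := s
  cases loc with
  | birth a => rfl
  | death a => rfl
  | cr b x y =>
    have hx : x ∈ (⟨L, .cr b x y, R⟩ : Slice (Col κ)).src := by simp [Slice.src, Loc.src]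
    have hy : y ∈ (⟨L, .cr b x y, R⟩ : Slice (Col κ)).src := by simp [Slice.src, Loc.src]
    have hxy : ∀ c : Bool, (if c then x else y) ∈ (⟨L, .cr b x y, R⟩ : Slice (Col κ)).src := by
      intro c; cases c
      · exact hy
      · exact hx
    have hyx : ∀ c : Bool, (if c then y else x) ∈ (⟨L, .cr b x y, R⟩ : Slice (Col κ)).src := by
      intro c; cases c
      · exact hx
      · exact hy
    simp only [cntS]
    rw [if_neg]
    intro hc
    rw [Bool.and_eq_true] at hc
    rcases h with h | h
    · exact h _ hc.1 (hxy b)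
    · exact h _ hc.2 (hyx b)

end SumAux

open SumAux

/-- (B2) -/
theorem stSum (h1 : StRelabel) (h2 : StLift) (h3 : StFrontCol) : StSum := by
  intro κ D A B hD hA hB hI
  obtain ⟨E, hE, hEr, hDE⟩ := h2 (Col κ) Pl (fun _ => pt) (hom_pl _) D ([pt], A ++ B) hD hI
  obtain ⟨c, w', rfl, hw⟩ := plain_eq (E := E) (w := A ++ B) hEr
  unfold plainW relabelW at hw
  rw [List.map_eq_append_iff] at hw
  obtain ⟨A', B', rfl, hA', hB'⟩ := hw
  have hcl : Path [c] (A' ++ B') [c] := hE
  rw [path_append] at hcl
  obtain ⟨G, hG1, hG2⟩ := hcl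
  have hp := (h1 (Col κ) Pl (fun _ => pt) (hom_pl _)).1 A' [c] G hG1
  have hp' : Path [pt] A (G.map fun _ => pt) := by
    have e : relabelW (fun _ : Col κ => pt) A' = A := hA'
    rw [e] at hp
    exact hp
  have hG := hp'.tgt_unique hA
  rw [List.map_eq_singleton_iff] at hG
  obtain ⟨c', rfl, -⟩ := hG
  have hcc := h3 κ A' c c' hG1
  subst hcc
  exact ⟨c, A', B', hG1, hG2, hA', hB', hDE⟩

/-- (B4) -/
theorem stCross : StCross := by
  intro κ c A B p q hp hq
  constructor
  · unfold cnt
    rw [List.sum_eq_zero]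
    intro x hx
    rw [List.mem_map] at hx
    obtain ⟨s, hs, rfl⟩ := hx
    rcases List.mem_append.mp hs with hs | hs
    · exact cntS_zero p q s (Or.inl fun e he => (hp e he s hs).1)
    · exact cntS_zero p q s (Or.inr fun e he => (hq e he s hs).1)
  · unfold cnt
    rw [List.sum_eq_zero]
    intro x hx
    rw [List.mem_map] at hx
    obtain ⟨s, hs, rfl⟩ := hx
    rcases List.mem_append.mp hs with hs | hs
    · exact cntS_zero q p s (Or.inr fun e he => (hp e he s hs).1)
    · exact cntS_zero q p s (Or.inl fun e he => (hq e he s hs).1)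

/-- (B6) -/
theorem stRetractKnot (h1 : StRelabel) : StRetractKnot := by
  intro A B hA hB hK
  have hrel : ∀ (c : Col Bool) (w : Word Pl), Path [pt] w [pt] →
      Path [c] (relabelW (fun _ => c) w) [c] := by
    intro c w hw
    exact (h1 Pl (Col Bool) (fun _ => c) (hom_col _)).1 w [pt] [pt] hw
  constructor
  · refine ⟨fun h => ?_, ?_⟩
    · exact absurd (congrArg Prod.fst h) (by simp)
    · intro E hE hpl
      obtain ⟨c, w', rfl, hw⟩ := plain_eq hpl
      obtain ⟨b, hb⟩ := hK.2 ([c], w' ++ relabelW (fun _ => c) B)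
        (Path.append (G := [c]) hE (hrel c B hB))
        (by rw [plain_mk, plainW_append, plainW_const, hw])
      refine ⟨b, hb.1, fun s hs => hb.2 s ?_⟩
      exact List.mem_append_left _ hs
  · refine ⟨fun h => ?_, ?_⟩
    · exact absurd (congrArg Prod.fst h) (by simp)
    · intro E hE hpl
      obtain ⟨c, w', rfl, hw⟩ := plain_eq hpl
      obtain ⟨b, hb⟩ := hK.2 ([c], relabelW (fun _ => c) A ++ w')
        (Path.append (G := [c]) (hrel c A hA) hE)
        (by rw [plain_mk, plainW_append, plainW_const, hw])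
      refine ⟨b, hb.1, fun s hs => hb.2 s ?_⟩
      exact List.mem_append_right _ hs

/-- (B7) -/
theorem stKnotNonsplit (h : StInv) : StKnotNonsplit := by
  intro D hD hK hS
  obtain ⟨E, hE, hI, -, hne⟩ := hS
  have hcl : Closed (plain E) := hI.closed_iff.2 hD
  have hk : IsKnot (plain E) := ((h (plain E) D hI).2.2.1 hcl).2 hK
  exact hne (hk.2 E hE rfl)

end Pool.Agent.H838R2.PL
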