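import Pool.Agent.H838R2.PL.Stubs

/-!
# (B8) Knots with a non-abelian group have at least three crossings
-/

set_option autoImplicit false
set_option linter.unusedSectionVars false
set_option linter.unusedSimpArgs false

namespace Pool.Agent.H838R2.PL

namespace Three

variable {G : Type} [Group G]

/-- the colouring of the strands whose meridian is `u` -/
noncomputable def colU (u : G) (x : Mer G) : Col Bool :=
  ⟨@decide (x.m = u) (Classical.propDecidable _)⟩

/-- directed number of the strands with the meridian `u` -/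
noncomputable def wt (u : G) (x : Mer G) : ℤ :=
  @ite _ (x.m = u) (Classical.propDecidable _) (if x.d then 1 else -1) 0

noncomputable def S (u : G) (F : List (Mer G)) : ℤ := (F.map (wt u)).sum

/-- the change at a slice -/
noncomputable def dl (u : G) (p : Loc (Mer G)) : ℤ := S u p.tgt - S u p.src

theorem S_append (u : G) (F F' : List (Mer G)) : S u (F ++ F') = S u F + S u F' := by
  simp [S]

theorem dl_path (u : G) : ∀ (w : Word (Mer G)) (F F' : List (Mer G)), Path F w F' →
    (w.map fun s => dl u s.p).sum = S u F' - S u F := by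
  intro w
  induction w with
  | nil => intro F F' h; cases h; simp
  | cons s w ih =>
    intro F F' h
    have h1 := ih _ _ h.2
    rw [List.map_cons, List.sum_cons, h1, ← h.1]
    simp only [Slice.src, Slice.tgt, S_append, dl]
    ring

theorem wt_star (u : G) (a : Mer G) : wt u (star a) = - wt u a := by
  obtain ⟨m, d⟩ := a
  unfold wt
  cases d <;> by_cases h : m = u <;> simp [star, h]

theorem dl_birth (u : G) (a : Mer G) : dl u (.birth a) = 0 := by
  simp [dl, S, Loc.tgt, Loc.src, wt_star]

theorem dl_death (u : G) (a : Mer G) : dl u (.death a) = 0 := by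
  simp [dl, S, Loc.tgt, Loc.src, wt_star]

/-- the lower strand above -/
def lo (b : Bool) (x y : Mer G) : Mer G := if b then y else x
/-- the upper strand -/
def up (b : Bool) (x y : Mer G) : Mer G := if b then x else y
/-- the lower strand below -/
def lo' (b : Bool) (x y : Mer G) : Mer G := if b then Palette.l y x else Palette.r x y

theorem lo'_d (b : Bool) (x y : Mer G) : (lo' b x y).d = (lo b x y).d := by
  cases b <;> rfl

theorem dl_cr (u : G) (b : Bool) (x y : Mer G) :
    dl u (.cr b x y) = wt u (lo' b x y) - wt u (lo b x y) := by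
  cases b <;> simp [dl, S, Loc.tgt, Loc.src, out, lo, lo'] <;> ring

theorem dl_cr_one (u : G) (b : Bool) (x y : Mer G) (h : dl u (.cr b x y) = 1) :
    u = if (lo b x y).d then (lo' b x y).m else (lo b x y).m := by
  rw [dl_cr] at h
  unfold wt at h
  rw [lo'_d] at h
  by_contra hne
  cases hd : (lo b x y).d
  · rw [hd] at h hne
    have h1 : ¬ ((lo b x y).m = u) := fun e => hne (by simp [e])
    rw [if_neg h1] at h
    by_cases h2 : (lo' b x y).m = u
    · rw [if_pos h2] at h; simp at h
    · rw [if_neg h2] at h; simp at h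
  · rw [hd] at h hne
    have h1 : ¬ ((lo' b x y).m = u) := fun e => hne (by simp [e])
    rw [if_neg h1] at h
    by_cases h2 : (lo b x y).m = u
    · rw [if_pos h2] at h; simp at h
    · rw [if_neg h2] at h; simp at h

theorem dl_le (u : G) (p : Loc (Mer G)) : dl u p ≤ 1 := by
  cases p with
  | birth a => rw [dl_birth]; norm_num
  | death a => rw [dl_death]; norm_num
  | cr b x y =>
    rw [dl_cr]
    unfold wt
    rw [lo'_d]
    split_ifs <;> norm_num

theorem dl_zero (u : G) (b : Bool) (x y : Mer G) (h : dl u (.cr b x y) = 0) :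
    (lo' b x y).m = u ↔ (lo b x y).m = u := by
  rw [dl_cr] at h
  unfold wt at h
  rw [lo'_d] at h
  split_ifs at h with h1 h2 <;> simp_all

theorem lo'_conj (b : Bool) (x y : Mer G) : ∃ v : G, (lo' b x y).m = v * (lo b x y).m * v⁻¹ ∧
    v * (up b x y).m * v⁻¹ = (up b x y).m := by
  obtain ⟨m, d⟩ := x
  obtain ⟨m', d'⟩ := y
  cases b
  · refine ⟨(Mer.val ⟨m', d'⟩)⁻¹, ?_, ?_⟩
    · simp [lo, lo', Palette.r]
    · cases d' <;> simp [up, Mer.val]
  · refine ⟨(Mer.val ⟨m, d⟩), ?_, ?_⟩
    · simp [lo, lo', Palette.l]
    · cases d <;> simp [up, Mer.val]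

theorem up_ne (b : Bool) (x y : Mer G) (h : (lo' b x y).m ≠ (lo b x y).m) :
    (up b x y).m ≠ (lo b x y).m ∧ (up b x y).m ≠ (lo' b x y).m := by
  obtain ⟨v, h1, h2⟩ := lo'_conj b x y
  refine ⟨fun e => h ?_, fun e => h ?_⟩
  · rw [h1, ← e, h2]
  · rw [e, h1] at h2
    have h3 : v * (lo b x y).m * v⁻¹ = (lo b x y).m := by
      have := congrArg (fun t => v⁻¹ * t * v) h2
      simpa [mul_assoc] using this
    rw [h1, h3]

theorem relabel_relabel {Λ Λ' Λ'' : Type} [Palette Λ] [Palette Λ'] [Palette Λ''] (f : Λ → Λ')
    (g : Λ' → Λ'') (D : Diag Λ) : relabel g (relabel f D) = relabel (g ∘ f) D := by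
  have h : ∀ s : Slice Λ, Slice.map g (Slice.map f s) = Slice.map (g ∘ f) s := by
    intro s
    obtain ⟨L, p, R⟩ := s
    cases p <;> simp [Slice.map, Loc.map]
  simp [relabel, Function.comp_def, h]

theorem plain_relabel {Λ Λ' : Type} [Palette Λ] [Palette Λ'] (f : Λ → Λ') (D : Diag Λ) :
    plain (relabel f D) = plain D := by
  unfold plain; rw [relabel_relabel]; rfl

/-- the condition of `StRelabelOn` -/
def Compat (f : Mer G → Col Bool) (p : Loc (Mer G)) : Prop :=
  match p with
    | .birth a => f (star a) = star (f a)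
    | .death a => f (star a) = star (f a)
    | .cr b x y => out b (f x) (f y) = (f (out b x y).1, f (out b x y).2)

theorem colU_eq (u : G) (x y : Mer G) : colU u x = colU u y ↔ (x.m = u ↔ y.m = u) := by
  unfold colU
  by_cases h1 : x.m = u <;> by_cases h2 : y.m = u <;> simp [h1, h2]

theorem compat_of_dl (u : G) (p : Loc (Mer G)) (h : dl u p = 0) : Compat (colU u) p := by
  cases p with
  | birth a => rfl
  | death a => rfl
  | cr b x y =>
    have h2 := dl_zero u b x y h
    have h3 : colU u (lo' b x y) = colU u (lo b x y) := (colU_eq _ _ _).2 h2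
    cases b
    · simp only [Compat, out, lo, lo', if_false, Bool.false_eq_true] at h3 ⊢
      rw [h3]; rfl
    · simp only [Compat, out, lo, lo', if_true] at h3 ⊢
      rw [h3]; rfl

theorem map_src (f : Mer G → Col Bool) (p : Loc (Mer G)) (h : Compat f p) :
    (p.map f).src = p.src.map f := by
  cases p with
  | birth a => rfl
  | death a => simp [Loc.map, Loc.src]; exact h.symm
  | cr b x y => rfl

theorem map_tgt (f : Mer G → Col Bool) (p : Loc (Mer G)) (h : Compat f p) :
    (p.map f).tgt = p.tgt.map f := by
  cases p with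
  | birth a => simp [Loc.map, Loc.tgt]; exact h.symm
  | death a => rfl
  | cr b x y =>
    have h' : out b (f x) (f y) = (f (out b x y).1, f (out b x y).2) := h
    simp [Loc.map, Loc.tgt, h']

theorem allIn_relabel (f : Mer G → Col Bool) (E : Diag (Mer G)) (hc : ∀ s ∈ E.2, Compat f s.p)
    (P : Col Bool → Prop) (h : AllIn P (relabel f E)) : AllIn (fun a => P (f a)) E := by
  refine ⟨fun a ha => h.1 _ (List.mem_map_of_mem ha), fun s hs => ?_⟩
  have h2 := h.2 (Slice.map f s) (List.mem_map_of_mem hs)
  have e1 : (Slice.map f s).src = s.src.map f := by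
    simp [Slice.src, Slice.map, map_src f s.p (hc s hs)]
  have e2 : (Slice.map f s).tgt = s.tgt.map f := by
    simp [Slice.tgt, Slice.map, map_tgt f s.p (hc s hs)]
  rw [e1, e2] at h2
  exact ⟨fun a ha => h2.1 _ (List.mem_map_of_mem ha), fun a ha => h2.2 _ (List.mem_map_of_mem ha)⟩

/-- If the number of strands with the meridian `u` does not change at any slice, all strands have
the meridian `u` or none has. -/
theorem const_of_dl (hrel : StRelabelOn) (E : Diag (Mer G)) (hE : Closed E)
    (hK : IsKnot (plain E)) (u : G) (h : ∀ s ∈ E.2, dl u s.p = 0) :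
    AllIn (fun a => a.m = u) E ∨ AllIn (fun a => a.m ≠ u) E := by
  have hc : ∀ s ∈ E.2, Compat (colU u) s.p := fun s hs => compat_of_dl u s.p (h s hs)
  have h1 : Closed (relabel (colU u) E) := hrel _ _ (colU u) E.2 E.1 E.1 hE (fun s hs => by
    have h7 := hc s hs
    revert h7
    unfold Compat
    cases s.p <;> exact id)
  obtain ⟨b, hb⟩ := hK.2 _ h1 (plain_relabel _ _)
  have h2 := allIn_relabel (colU u) E hc _ hb
  cases b
  · right
    refine ⟨fun a ha => ?_, fun s hs => ⟨fun a ha => ?_, fun a ha => ?_⟩⟩
    · have := h2.1 a ha; simpa [colU] using this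
    · have := (h2.2 s hs).1 a ha; simpa [colU] using this
    · have := (h2.2 s hs).2 a ha; simpa [colU] using this
  · left
    refine ⟨fun a ha => ?_, fun s hs => ⟨fun a ha => ?_, fun a ha => ?_⟩⟩
    · have := h2.1 a ha; simpa [colU] using this
    · have := (h2.2 s hs).1 a ha; simpa [colU] using this
    · have := (h2.2 s hs).2 a ha; simpa [colU] using this

/-- a list of numbers `≤ 1` with sum zero, without the number 1 -/
theorem all_zero {α : Type} (f : α → ℤ) : ∀ (w : List α), (∀ s ∈ w, f s ≤ 0) →
    (w.map f).sum = 0 → ∀ s ∈ w, f s = 0 := by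
  intro w
  induction w with
  | nil => intro _ _ s hs; simp at hs
  | cons a w ih =>
    intro h1 h2 s hs
    have h3 : (w.map f).sum ≤ 0 := by
      have : ∀ w : List α, (∀ s ∈ w, f s ≤ 0) → (w.map f).sum ≤ 0 := by
        intro w
        induction w with
        | nil => intro _; simp
        | cons a w ih =>
          intro h
          rw [List.map_cons, List.sum_cons]
          have := h a (by simp)
          have := ih (fun s hs => h s (by simp [hs]))
          omega
      exact this w (fun s hs => h1 s (by simp [hs]))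
    rw [List.map_cons, List.sum_cons] at h2
    have h4 := h1 a (by simp)
    rcases List.mem_cons.1 hs with rfl | hs
    · omega
    · exact ih (fun s hs => h1 s (by simp [hs])) (by omega) s hs

/-- If `u` is the meridian of some strand but not of all, some crossing enters `u`. -/
theorem enter (hrel : StRelabelOn) (E : Diag (Mer G)) (hE : Closed E)
    (hK : IsKnot (plain E)) (u : G) (h1 : ¬ AllIn (fun a => a.m = u) E)
    (h2 : ¬ AllIn (fun a => a.m ≠ u) E) : ∃ s ∈ E.2, dl u s.p = 1 := by
  by_contra hn
  push Not at hn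
  have h3 : ∀ s ∈ E.2, dl u s.p ≤ 0 := by
    intro s hs
    have := dl_le u s.p
    have := hn s hs
    omega
  have h4 := dl_path u E.2 E.1 E.1 hE
  have h5 := all_zero (fun s : Slice (Mer G) => dl u s.p) E.2 h3 (by rw [h4]; ring)
  rcases const_of_dl hrel E hE hK u h5 with h | h
  · exact h1 h
  · exact h2 h

/-- crossings -/
def isCr : Loc (Mer G) → Bool
  | .cr _ _ _ => true
  | _ => false

theorem count_three (u v w : G) (huv : u ≠ v) (huw : u ≠ w) (hvw : v ≠ w) :
    ∀ (W : Word (Mer G)),
    W.countP (fun s => decide (dl u s.p = 1)) + W.countP (fun s => decide (dl v s.p = 1)) +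
      W.countP (fun s => decide (dl w s.p = 1)) ≤ W.countP (fun s => isCr s.p) := by
  intro W
  induction W with
  | nil => simp
  | cons s W ih =>
    simp only [List.countP_cons]
    obtain ⟨L, p, R⟩ := s
    have key : (if dl u p = 1 then 1 else 0) + (if dl v p = 1 then 1 else 0) +
        (if dl w p = 1 then 1 else 0) ≤ (if isCr p = true then 1 else 0) := by
      cases p with
      | birth a => simp [dl_birth]
      | death a => simp [dl_death]
      | cr b x y =>
        have hu := dl_cr_one u b x y
        have hv := dl_cr_one v b x y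
        have hw := dl_cr_one w b x y
        by_cases h1 : dl u (.cr b x y) = 1 <;> by_cases h2 : dl v (.cr b x y) = 1 <;>
          by_cases h3 : dl w (.cr b x y) = 1 <;> simp [h1, h2, h3, isCr]
        all_goals first
          | exact absurd ((hu h1).trans (hv h2).symm) huv
          | exact absurd ((hu h1).trans (hw h3).symm) huw
          | exact absurd ((hv h2).trans (hw h3).symm) hvw
    simp only [decide_eq_true_eq]
    omega

end Three

open Three in
theorem stThree (h1 : StRelabel) (h2 : StRelabelOn) : StThree := by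
  intro D hD hK hT
  have h3 : ¬ ∀ (G : Type) [Group G] (E : Diag (Mer G)), Closed E → plain E = D →
    ∃ g, AllIn (fun a => a.m = g) E := fun h => hT ⟨hK, h⟩
  push Not at h3
  obtain ⟨G, hG, E, hE, hp, hE2⟩ := h3
  subst hp
  -- some strand
  obtain ⟨a, ha⟩ : ∃ a : Mer G, ∀ P : Mer G → Prop, AllIn P E → P a := by
    by_contra hn
    push Not at hn
    apply hK.1
    obtain ⟨F, w⟩ := E
    cases F with
    | cons a F =>
      obtain ⟨P, hP, hPa⟩ := hn a
      exact absurd (hP.1 a (by simp)) hPa
    | nil =>
      cases w with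
      | nil => rfl
      | cons s w =>
        exfalso
        obtain ⟨L, p, R⟩ := s
        cases p with
        | birth a =>
          obtain ⟨P, hP, hPa⟩ := hn a
          exact hPa ((hP.2 ⟨L, .birth a, R⟩ (by simp)).2 a (by simp [Slice.tgt, Loc.tgt]))
        | death a =>
          obtain ⟨P, hP, hPa⟩ := hn a
          exact hPa ((hP.2 ⟨L, .death a, R⟩ (by simp)).1 a (by simp [Slice.src, Loc.src]))
        | cr b x y =>
          obtain ⟨P, hP, hPa⟩ := hn x
          exact hPa ((hP.2 ⟨L, .cr b x y, R⟩ (by simp)).1 x (by simp [Slice.src, Loc.src]))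
  -- some crossing at which the meridian changes
  obtain ⟨s, hs, b, x, y, hsp, hne⟩ : ∃ s ∈ E.2, ∃ b x y, s.p = .cr b x y ∧
      (lo' b x y).m ≠ (lo b x y).m := by
    by_contra hn
    push Not at hn
    rcases const_of_dl h2 E hE hK a.m (by
      intro s hs
      cases hsp : s.p with
      | birth a => exact dl_birth _ _
      | death a => exact dl_death _ _
      | cr b x y =>
        rw [dl_cr]
        have h4 := hn s hs b x y hsp
        unfold wt
        rw [lo'_d, h4]
        simp) with h | h
    · exact hE2 a.m h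
    · exact ha _ h rfl
  obtain ⟨hne1, hne2⟩ := up_ne b x y hne
  have hsrc : ∀ P : Mer G → Prop, AllIn P E → P (lo b x y) ∧ P (up b x y) ∧ P (lo' b x y) := by
    intro P hP
    have h4 := hP.2 s hs
    have e1 : ∀ z ∈ s.p.src, P z := fun z hz => h4.1 z (by simp [Slice.src, hz])
    have e2 : ∀ z ∈ s.p.tgt, P z := fun z hz => h4.2 z (by simp [Slice.tgt, hz])
    rw [hsp] at e1 e2
    cases b
    · exact ⟨e1 x (by simp [Loc.src]), e1 y (by simp [Loc.src]),
        e2 _ (by simp [Loc.tgt, out, lo'])⟩
    · exact ⟨e1 y (by simp [Loc.src]), e1 x (by simp [Loc.src]),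
        e2 _ (by simp [Loc.tgt, out, lo'])⟩
  have k1 := enter h2 E hE hK (lo b x y).m (fun h => hne1 (hsrc _ h).2.1)
    (fun h => (hsrc _ h).1 rfl)
  have k2 := enter h2 E hE hK (up b x y).m (fun h => hne1 (hsrc _ h).1.symm)
    (fun h => (hsrc _ h).2.1 rfl)
  have k3 := enter h2 E hE hK (lo' b x y).m (fun h => hne (hsrc _ h).1.symm)
    (fun h => (hsrc _ h).2.2 rfl)
  have h5 : cross (plain E) = cross E := (h1 _ _ (fun _ => pt) (hom_pl _)).2.2 E
  rw [h5]
  have h6 := count_three _ _ _ (hne1.symm) hne.symm hne2 E.2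
  have c1 : ∀ u : G, (∃ s ∈ E.2, dl u s.p = 1) →
      1 ≤ E.2.countP (fun s => decide (dl u s.p = 1)) := by
    rintro u ⟨s, hs, hd⟩
    exact List.countP_pos_iff.2 ⟨s, hs, by simpa using hd⟩
  have := c1 _ k1
  have := c1 _ k2
  have := c1 _ k3
  have h8 : cross E = E.2.countP (fun s => isCr s.p) := by
    unfold cross
    congr 1
    funext s
    cases s.p <;> rfl
  rw [h8]
  omega

end Pool.Agent.H838R2.PL
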