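import Pool.Agent.H838R2.PL.Stubs

/-!
# The trefoil
-/

set_option autoImplicit false
set_option linter.unusedSectionVars false

namespace Pool.Agent.H838R2.PL

variable {Λ : Type} [Palette Λ]

/-- the trefoil -/
def trefR : Diag Pl :=
  ([pt, pt, pt, pt], [⟨[pt], .cr true pt pt, [pt]⟩, ⟨[pt], .cr true pt pt, [pt]⟩,
    ⟨[], .death pt, [pt, pt]⟩, ⟨[], .death pt, []⟩, ⟨[], .birth pt, []⟩,
    ⟨[pt, pt], .birth pt, []⟩, ⟨[pt], .cr true pt pt, [pt]⟩])

/-- the trefoil with labels -/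
def trefL (a b β γ δ u : Λ) : Diag Λ :=
  ([a, β, γ, δ], [⟨[a], .cr true β γ, [δ]⟩, ⟨[a], .cr true u β, [δ]⟩,
    ⟨[], .death a, [u, δ]⟩, ⟨[], .death u, []⟩, ⟨[], .birth a, []⟩,
    ⟨[a, γ], .birth b, []⟩, ⟨[a], .cr true γ b, [δ]⟩])

theorem plain_trefL (a b β γ δ u : Λ) : plain (trefL a b β γ δ u) = trefR := rfl

theorem trefL_closed_iff (a b β γ δ u : Λ) : Closed (trefL a b β γ δ u) ↔
    (u = Palette.l γ β ∧ star a = Palette.l β u ∧ star u = δ ∧ γ = star a ∧ δ = star b ∧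
      Palette.l b γ = β) := by
  simp only [Closed, trefL, Path, Slice.src, Slice.tgt, Loc.src, Loc.tgt, out_true,
    List.cons_append, List.nil_append, List.append_nil, List.cons.injEq, and_true, true_and]

theorem tref_smap_cr {s : Slice Λ} {b : Bool}
    (h : s.map (fun _ => pt) = ⟨[pt], .cr b pt pt, [pt]⟩) :
    ∃ x y z t : Λ, s = ⟨[x], .cr b y z, [t]⟩ := by
  obtain ⟨L, p, R⟩ := s
  simp only [Slice.map, Slice.mk.injEq, List.map_eq_cons_iff, List.map_eq_nil_iff] at h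
  obtain ⟨⟨x, L', rfl, -, rfl⟩, h2, ⟨t, R', rfl, -, rfl⟩⟩ := h
  cases p with
  | birth a => simp [Loc.map] at h2
  | death a => simp [Loc.map] at h2
  | cr b' y z =>
    simp only [Loc.map, Loc.cr.injEq] at h2
    obtain ⟨rfl, -, -⟩ := h2
    exact ⟨x, y, z, t, rfl⟩

theorem tref_smap_death {s : Slice Λ} {R₀ : List Pl}
    (h : s.map (fun _ => pt) = ⟨[], .death pt, R₀⟩) :
    ∃ (x : Λ) (R : List Λ), s = ⟨[], .death x, R⟩ ∧ R.map (fun _ => pt) = R₀ := by
  obtain ⟨L, p, R⟩ := s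
  simp only [Slice.map, Slice.mk.injEq, List.map_eq_nil_iff] at h
  obtain ⟨rfl, h2, h3⟩ := h
  cases p with
  | birth a => simp [Loc.map] at h2
  | death a => exact ⟨a, R, rfl, h3⟩
  | cr b' y z => simp [Loc.map] at h2

theorem tref_smap_birth {s : Slice Λ} {L₀ : List Pl}
    (h : s.map (fun _ => pt) = ⟨L₀, .birth pt, []⟩) :
    ∃ (x : Λ) (L : List Λ), s = ⟨L, .birth x, []⟩ ∧ L.map (fun _ => pt) = L₀ := by
  obtain ⟨L, p, R⟩ := s
  simp only [Slice.map, Slice.mk.injEq, List.map_eq_nil_iff] at h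
  obtain ⟨h1, h2, rfl⟩ := h
  cases p with
  | birth a => exact ⟨a, L, rfl, h1⟩
  | death a => simp [Loc.map] at h2
  | cr b' y z => simp [Loc.map] at h2

/-- every labelling of the trefoil -/
theorem tref_form (D : Diag Λ) (hD : Closed D) (h : plain D = trefR) :
    ∃ a b β γ δ u : Λ, D = trefL a b β γ δ u := by
  obtain ⟨F, w⟩ := D
  simp only [plain, relabel, trefR, Prod.mk.injEq, List.map_eq_cons_iff, List.map_eq_nil_iff] at h
  obtain ⟨⟨f1, _, rfl, -, f2, _, rfl, -, f3, _, rfl, -, f4, _, rfl, -, rfl⟩,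
    s1, _, rfl, h1, s2, _, rfl, h2, s3, _, rfl, h3, s4, _, rfl, h4, s5, _, rfl, h5,
    s6, _, rfl, h6, s7, _, rfl, h7, rfl⟩ := h
  obtain ⟨x1, y1, z1, t1, rfl⟩ := tref_smap_cr h1
  obtain ⟨x2, y2, z2, t2, rfl⟩ := tref_smap_cr h2
  obtain ⟨x7, y7, z7, t7, rfl⟩ := tref_smap_cr h7
  obtain ⟨x3, R3, rfl, k3⟩ := tref_smap_death h3
  obtain ⟨x4, R4, rfl, k4⟩ := tref_smap_death h4
  obtain ⟨x5, L5, rfl, k5⟩ := tref_smap_birth h5
  obtain ⟨x6, L6, rfl, k6⟩ := tref_smap_birth h6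
  clear h1 h2 h3 h4 h5 h6 h7
  simp only [List.map_eq_cons_iff, List.map_eq_nil_iff] at k3 k4 k5 k6
  obtain ⟨x31, _, rfl, -, x32, _, rfl, -, rfl⟩ := k3
  obtain ⟨x61, _, rfl, -, x62, _, rfl, -, rfl⟩ := k6
  subst k4 k5
  simp only [Closed, Path, Slice.src, Slice.tgt, Loc.src, Loc.tgt, out_true,
    List.cons_append, List.nil_append, List.append_nil, List.cons.injEq, and_true, true_and] at hD
  obtain ⟨⟨rfl, rfl, rfl, rfl⟩, ⟨rfl, rfl, rfl, rfl⟩, hD⟩ := hD
  obtain ⟨⟨rfl, -, rfl, rfl⟩, ⟨rfl, -⟩, ⟨rfl, rfl⟩, ⟨rfl, rfl, rfl, rfl⟩, h1, h2, h3, h4⟩ := hD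
  subst h1
  refine ⟨x7, z7, z2, z1, star z7, Palette.l z1 z2, ?_⟩
  unfold trefL
  rw [← h3, ← h4]

/-- the directions -/
def trefE : Diag (Mer PUnit) :=
  trefL ⟨1, true⟩ ⟨1, false⟩ ⟨1, false⟩ ⟨1, false⟩ ⟨1, true⟩ ⟨1, false⟩

theorem trefE_closed : Closed trefE := by
  rw [trefE, trefL_closed_iff]
  refine ⟨rfl, rfl, rfl, rfl, rfl, rfl⟩

theorem tref_diagram : IsDiagram trefR :=
  ⟨by
    have : trefR = trefL pt pt pt pt pt pt := rfl
    rw [this, trefL_closed_iff]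
    refine ⟨rfl, rfl, rfl, rfl, rfl, rfl⟩, trefE, trefE_closed, rfl⟩

theorem tref_knot : IsKnot trefR := by
  refine ⟨by simp [trefR], ?_⟩
  intro E hE hp
  obtain ⟨a, b, β, γ, δ, u, rfl⟩ := tref_form E hE hp
  rw [trefL_closed_iff] at hE
  obtain ⟨h1, h2, h3, h4, h5, h6⟩ := hE
  change u = γ at h1
  change a = β at h2
  change u = δ at h3
  change γ = a at h4
  change δ = b at h5
  subst h4 h1 h2 h3 h5
  refine ⟨u.c, ?_⟩
  constructor
  · intro x hx
    simp only [trefL, List.mem_cons, List.not_mem_nil, or_false, or_self] at hx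
    rw [hx]
  · intro s hs
    simp only [trefL, List.mem_cons, List.not_mem_nil, or_false] at hs
    rcases hs with rfl | rfl | rfl | rfl | rfl | rfl | rfl <;>
      simp [Slice.src, Slice.tgt, Loc.src, Loc.tgt, out_true, Palette.l, star]

/-- three reflections -/
def trS : Equiv.Perm (Fin 3) := Equiv.swap 0 1
def trT : Equiv.Perm (Fin 3) := Equiv.swap 1 2
def trU : Equiv.Perm (Fin 3) := Equiv.swap 0 2

/-- a labelling by the symmetric group -/
def trefG : Diag (Mer (Equiv.Perm (Fin 3))) :=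
  trefL ⟨trS, true⟩ ⟨trT, false⟩ ⟨trU, false⟩ ⟨trS, false⟩ ⟨trT, true⟩ ⟨trT, false⟩

theorem trefG_closed : Closed trefG := by
  rw [trefG, trefL_closed_iff]
  refine ⟨?_, ?_, rfl, rfl, rfl, ?_⟩
  · show (⟨trT, false⟩ : Mer (Equiv.Perm (Fin 3))) = ⟨trU⁻¹ * trS * trU⁻¹⁻¹, false⟩
    have : trT = trU⁻¹ * trS * trU⁻¹⁻¹ := by decide
    rw [← this]
  · show (⟨trS, false⟩ : Mer (Equiv.Perm (Fin 3))) = ⟨trT⁻¹ * trU * trT⁻¹⁻¹, false⟩
    have : trS = trT⁻¹ * trU * trT⁻¹⁻¹ := by decide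
    rw [← this]
  · show (⟨trS⁻¹ * trT * trS⁻¹⁻¹, false⟩ : Mer (Equiv.Perm (Fin 3))) = ⟨trU, false⟩
    have : trU = trS⁻¹ * trT * trS⁻¹⁻¹ := by decide
    rw [← this]

theorem tref_not_trivial : ¬ IsTrivialKnot trefR := by
  rintro ⟨-, h⟩
  obtain ⟨g, h1, -⟩ := h (Equiv.Perm (Fin 3)) trefG trefG_closed rfl
  have h2 : trS = g := h1 ⟨trS, true⟩ (by simp [trefG, trefL])
  have h3 : trT = g := h1 ⟨trT, true⟩ (by simp [trefG, trefL])
  have h4 : trS ≠ trT := by decide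
  exact h4 (h2.trans h3.symm)

theorem tref_allIn {G : Type} [Group G] (g : G) (a b β γ δ u : Mer G) (h : Closed (trefL a b β γ δ u))
    (h1 : a.m = g) (h2 : b.m = g) (h3 : β.m = g) (h4 : γ.m = g) (h5 : δ.m = g) (h6 : u.m = g) :
    AllIn (fun x => x.m = g) (trefL a b β γ δ u) := by
  have hs : ∀ (x : Mer G), x.m = g → (star x).m = g := fun x hx => hx
  rw [trefL_closed_iff] at h
  obtain ⟨k1, k2, k3, k4, k5, k6⟩ := h
  constructor
  · intro x hx
    simp only [trefL, List.mem_cons, List.not_mem_nil, or_false] at hx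
    rcases hx with rfl | rfl | rfl | rfl <;> assumption
  · intro s hs
    simp only [trefL, List.mem_cons, List.not_mem_nil, or_false] at hs
    rcases hs with rfl | rfl | rfl | rfl | rfl | rfl | rfl <;>
      simp [Slice.src, Slice.tgt, Loc.src, Loc.tgt, out_true, h1, h2, h3, h4, h5, h6, ← k1, ← k2,
        k3, ← k4, ← k5, k6]

theorem tref_rigid {G : Type} [Group G] (a b β γ δ u : Mer G) (h : Closed (trefL a b β γ δ u))
    (h1 : a.val * β.val = 1) : ∃ g, AllIn (fun x => x.m = g) (trefL a b β γ δ u) := by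
  have h' := h
  rw [trefL_closed_iff] at h
  obtain ⟨k1, k2, k3, k4, k5, k6⟩ := h
  obtain ⟨m, d⟩ := a
  obtain ⟨n, e⟩ := b
  subst k4 k5 k6 k1
  have he : e = !d := (congrArg Mer.d k2).symm
  subst he
  have hn : n = m := by
    cases d
    · simp only [Mer.val, Palette.l, star] at h1
      simp at h1
      have h2 : m⁻¹ * (m * n * m⁻¹) = 1 := by
        simpa [mul_assoc] using h1
      have h3 : n * m⁻¹ = 1 := by
        simpa [mul_assoc] using h2
      exact mul_inv_eq_one.1 h3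
    · simp only [Mer.val, Palette.l, star] at h1
      simp at h1
      have h3 : n⁻¹ * m = 1 := by
        simpa [mul_assoc] using h1
      exact (inv_mul_eq_one.1 h3)
  subst hn
  refine ⟨n, tref_allIn n _ _ _ _ _ _ h' rfl rfl ?_ rfl rfl ?_⟩
  · cases d <;> simp [Mer.val, Palette.l, star]
  · cases d <;> simp [Mer.val, Palette.l, star]

theorem stTrefoil (hK : StKnotNonsplit) (hR : StPrimeRigid) (hH : StHook) (hT : StThree)
    (hI : StInv) : StTrefoil := by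
  refine ⟨trefR, ⟨tref_diagram, ⟨[pt, pt], rfl⟩, hK trefR tref_diagram.1 tref_knot, ?_, ?_⟩, rfl, ?_⟩
  · refine hR trefE ⟨1, true⟩ ⟨1, false⟩ _ trefE_closed rfl (by simp) tref_knot ?_
    intro G _ E' a' d' F' hE' hp hF hv
    obtain ⟨a, b, β, γ, δ, u, rfl⟩ := tref_form E' hE' hp
    simp only [trefL, List.cons.injEq] at hF
    obtain ⟨rfl, rfl, -⟩ := hF
    exact tref_rigid a b β γ δ u hE' hv
  · exact hH (Equiv.Perm (Fin 3)) trefG ⟨trS, true⟩ ⟨trU, false⟩ _ trefG_closed rfl (by simp)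
      (by show trS ≠ trU; decide)
  · intro E hE
    have hi := hI trefR E hE
    have hc := tref_diagram.1
    refine hT E (hE.closed hc) ((hi.2.2.1 hc).1 tref_knot) ?_
    intro h
    exact tref_not_trivial ((hi.2.2.2.1 hc).2 h)

end Pool.Agent.H838R2.PL
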