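import Pool.Agent.H838R2.PL.Stubs

/-!
# Two rings with the same diagram and the same circles (D4a)
-/

set_option autoImplicit false
set_option linter.unusedSectionVars false
set_option linter.unusedSimpArgs false

namespace Pool.Agent.H838R2.PL

open Relation

namespace TwoRings

variable {Λ Λ' Λ'' : Type} [Palette Λ] [Palette Λ'] [Palette Λ'']

theorem map_src (f : Λ → Λ') (hf : Hom f) (s : Slice Λ) : (s.map f).src = s.src.map f := by
  obtain ⟨L, p, R⟩ := s
  cases p <;> simp [Slice.map, Slice.src, Loc.map, Loc.src, hf.star]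

theorem map_tgt (f : Λ → Λ') (hf : Hom f) (s : Slice Λ) : (s.map f).tgt = s.tgt.map f := by
  obtain ⟨L, p, R⟩ := s
  cases p <;> simp [Slice.map, Slice.tgt, Loc.map, Loc.tgt, hf.star, hf.out]

theorem allIn_relabel {f : Λ → Λ'} (hf : Hom f) (S : Λ' → Prop) (D : Diag Λ) :
    AllIn S (relabel f D) ↔ AllIn (fun x => S (f x)) D := by
  simp [AllIn, relabel, map_src f hf, map_tgt f hf]

theorem relabel_relabel (f : Λ → Λ') (g : Λ' → Λ'') (D : Diag Λ) :
    relabel g (relabel f D) = relabel (fun x => g (f x)) D := by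
  obtain ⟨F, w⟩ := D
  simp only [relabel, List.map_map, Prod.mk.injEq]
  refine ⟨rfl, ?_⟩
  apply List.map_congr_left
  rintro ⟨L, p, R⟩ _
  cases p <;> simp [Slice.map, Loc.map, Function.comp_def]

theorem plain_relabel (f : Λ → Λ') (D : Diag Λ) : plain (relabel f D) = plain D :=
  relabel_relabel f _ D

theorem cnt_relabel (f : Λ → Λ') (p q : Λ' → Bool) (D : Diag Λ) :
    cnt p q (relabel f D) = cnt (fun x => p (f x)) (fun x => q (f x)) D := by
  obtain ⟨F, w⟩ := D
  simp only [cnt, relabel, List.map_map]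
  congr 1
  apply List.map_congr_left
  rintro ⟨L, c, R⟩ _
  cases c with
  | birth a => simp [Slice.map, Loc.map, cntS]
  | death a => simp [Slice.map, Loc.map, cntS]
  | cr b x y => cases b <;> simp [Slice.map, Loc.map, cntS]

theorem keepLoc_congr {K₁ K₂ : Λ → Bool} (s : Slice Λ) (h : ∀ a ∈ s.src, K₁ a = K₂ a)
    (h' : ∀ a ∈ s.tgt, K₁ a = K₂ a) : delS K₁ s = delS K₂ s := by
  obtain ⟨L, p, R⟩ := s
  have e1 : L.filter K₁ = L.filter K₂ := by
    apply List.filter_congr
    intro a ha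
    exact h a (by simp [Slice.src, ha])
  have e2 : R.filter K₁ = R.filter K₂ := by
    apply List.filter_congr
    intro a ha
    exact h a (by simp [Slice.src, ha])
  have e3 : keepLoc K₁ p = keepLoc K₂ p := by
    cases p with
    | birth a => exact h' a (by simp [Slice.tgt, Loc.tgt])
    | death a => exact h a (by simp [Slice.src, Loc.src])
    | cr b x y =>
      simp only [keepLoc]
      rw [h x (by simp [Slice.src, Loc.src]), h y (by simp [Slice.src, Loc.src])]
  simp [delS, e1, e2, e3]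

theorem del_congr {K₁ K₂ : Λ → Bool} {D : Diag Λ} (h : AllIn (fun x => K₁ x = K₂ x) D) :
    del K₁ D = del K₂ D := by
  obtain ⟨F, w⟩ := D
  simp only [del, Prod.mk.injEq]
  refine ⟨List.filter_congr h.1, ?_⟩
  unfold delW
  have : ∀ s ∈ w, delS K₁ s = delS K₂ s := fun s hs =>
    keepLoc_congr s (h.2 s hs).1 (h.2 s hs).2
  clear h
  induction w with
  | nil => rfl
  | cons s w ih =>
    rw [List.flatMap_cons, List.flatMap_cons, this s (by simp), ih (fun t ht => this t (by simp [ht]))]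

theorem del_relabel (f : Λ → Λ') (K : Λ' → Bool) (D : Diag Λ) :
    del K (relabel f D) = relabel f (del (fun x => K (f x)) D) := by
  obtain ⟨F, w⟩ := D
  simp only [del, relabel, List.filter_map, Prod.mk.injEq]
  refine ⟨rfl, ?_⟩
  unfold delW
  induction w with
  | nil => rfl
  | cons s w ih =>
    rw [List.map_cons, List.flatMap_cons, List.flatMap_cons, List.map_append, ih]
    congr 1
    obtain ⟨L, p, R⟩ := s
    have e : keepLoc K (p.map f) = keepLoc (fun x => K (f x)) p := by cases p <;> rfl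
    simp only [delS, Slice.map, e]
    split_ifs with h
    · simp [List.filter_map, Slice.map, Function.comp_def]
    · rfl

theorem cnt_congr {p q p' q' : Λ → Bool} {D : Diag Λ} (h : AllIn (fun x => p x = p' x) D)
    (h' : AllIn (fun x => q x = q' x) D) : cnt p q D = cnt p' q' D := by
  obtain ⟨F, w⟩ := D
  simp only [cnt]
  congr 1
  apply List.map_congr_left
  rintro ⟨L, c, R⟩ hs
  cases c with
  | birth a => simp [cntS]
  | death a => simp [cntS]
  | cr b x y =>
    have h1 := (h.2 _ hs).1 x (by simp [Slice.src, Loc.src])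
    have h2 := (h.2 _ hs).1 y (by simp [Slice.src, Loc.src])
    have h3 := (h'.2 _ hs).1 x (by simp [Slice.src, Loc.src])
    have h4 := (h'.2 _ hs).1 y (by simp [Slice.src, Loc.src])
    cases b <;> simp_all [cntS]

theorem cnt_pos {p q : Λ → Bool} {D : Diag Λ} (h : cnt p q D ≠ 0) :
    ∃ s ∈ D.2, ∃ b x y, s.p = .cr b x y ∧ p (if b then x else y) = true ∧
      q (if b then y else x) = true := by
  by_contra hc
  apply h
  unfold cnt
  apply List.sum_eq_zero
  intro n hn
  rw [List.mem_map] at hn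
  obtain ⟨s, hs, rfl⟩ := hn
  unfold cntS
  cases e : s.p with
  | birth a => rfl
  | death a => rfl
  | cr b x y =>
    simp only [Bool.and_eq_true, ite_eq_right_iff, one_ne_zero, imp_false]
    rintro ⟨h1, h2⟩
    exact hc ⟨s, hs, b, x, y, e, h1, h2⟩

/-- the labels of a crossing satisfy `S` -/
theorem allIn_cr {S : Λ → Prop} {D : Diag Λ} (h : AllIn S D) {s : Slice Λ} (hs : s ∈ D.2)
    {b : Bool} {x y : Λ} (e : s.p = .cr b x y) : S x ∧ S y := by
  have := (h.2 s hs).1
  constructor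
  · exact this x (by simp [Slice.src, Loc.src, e])
  · exact this y (by simp [Slice.src, Loc.src, e])

theorem subP_col {κ : Type} (S : Col κ → Prop) : SubP S :=
  ⟨fun _ h => h, fun _ _ h _ => h, fun _ _ h _ => h⟩

/-- pairs of colours -/
abbrev N2 : Type := (ℕ ⊕ ℕ) × (ℕ ⊕ ℕ)

def fs : Col N2 → Col (ℕ ⊕ ℕ) := fun x => ⟨x.c.1⟩
def sn : Col N2 → Col (ℕ ⊕ ℕ) := fun x => ⟨x.c.2⟩
def sw : Col N2 → Col N2 := fun x => ⟨(x.c.2, x.c.1)⟩

/-- everything that is known about a diagram which represents two rings -/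
structure Two (K : ℕ) (R R' : ℕ → Diag Pl) (X : Diag (Col N2)) : Prop where
  hK : 2 ≤ K
  good : ∀ i < K, Good (R i)
  good' : ∀ i < K, Good (R' i)
  ring : RingProps K R
  ring' : RingProps K R'
  closed : Closed X
  iso : Iso (relabel fs X) (ringC K R)
  iso' : Iso (relabel sn X) (ringC K R')
  circ : ∀ i < K, ∃ j < K, AllIn (fun x => x.c.1 = Sum.inr i → x.c.2 = Sum.inr j) X
  circ' : ∀ i < K, ∃ j < K, AllIn (fun x => x.c.2 = Sum.inr i → x.c.1 = Sum.inr j) X

theorem Two.swap (hr : StRelabel) {K : ℕ} {R R' : ℕ → Diag Pl} {X : Diag (Col N2)}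
    (h : Two K R R' X) : Two K R' R (relabel sw X) where
  hK := h.hK
  good := h.good'
  good' := h.good
  ring := h.ring'
  ring' := h.ring
  closed := (hr _ _ sw (hom_col _)).1 _ _ _ h.closed
  iso := by rw [relabel_relabel]; exact h.iso'
  iso' := by rw [relabel_relabel]; exact h.iso
  circ i hi := by
    obtain ⟨j, hj, h1⟩ := h.circ' i hi
    exact ⟨j, hj, by rw [allIn_relabel (hom_col _)]; exact h1⟩
  circ' i hi := by
    obtain ⟨j, hj, h1⟩ := h.circ i hi
    exact ⟨j, hj, by rw [allIn_relabel (hom_col _)]; exact h1⟩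

theorem Two.move (hr : StRelabel) (hs : StSub) {K : ℕ} {R R' : ℕ → Diag Pl} {X Y : Diag (Col N2)}
    (h : Two K R R' X) (hXY : Iso X Y) : Two K R R' Y where
  hK := h.hK
  good := h.good
  good' := h.good'
  ring := h.ring
  ring' := h.ring'
  closed := hXY.closed h.closed
  iso := ((hr _ _ fs (hom_col _)).2.1 _ _ hXY).symm.trans _ _ _ h.iso
  iso' := ((hr _ _ sn (hom_col _)).2.1 _ _ hXY).symm.trans _ _ _ h.iso'
  circ i hi := by
    obtain ⟨j, hj, h1⟩ := h.circ i hi
    exact ⟨j, hj, (hs _ _ (subP_col _) _ _ hXY).1 h1⟩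
  circ' i hi := by
    obtain ⟨j, hj, h1⟩ := h.circ' i hi
    exact ⟨j, hj, (hs _ _ (subP_col _) _ _ hXY).1 h1⟩

/-- isotopic diagram whose second colouring is exactly the one of the ring -/
theorem Two.lift (hr : StRelabel) (hl : StLift) (hs : StSub) {K : ℕ} {R R' : ℕ → Diag Pl}
    {X : Diag (Col N2)} (h : Two K R R' X) :
    ∃ Y, Iso X Y ∧ Two K R R' Y ∧ relabel sn Y = ringC K R' := by
  obtain ⟨Y, hY, e, hXY⟩ := hl _ _ sn (hom_col _) X _ h.closed h.iso'
  exact ⟨Y, hXY, h.move hr hs hXY, e⟩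

/-- a crossing in a diagram whose second colouring is the ring -/
theorem other_of {K : ℕ} {R' : ℕ → Diag Pl} (hR : RingProps K R') {Y : Diag (Col N2)}
    (e : relabel sn Y = ringC K R') {s : Slice (Col N2)} (hs : s ∈ Y.2) {b : Bool} {x y : Col N2}
    (hp : s.p = .cr b x y) : x.c.2 = y.c.2 ∨ ∃ i < K,
    (x.c.2 = Sum.inr i ∧ (y.c.2 = Sum.inl i ∨ y.c.2 = Sum.inl (prv K i))) ∨
    (y.c.2 = Sum.inr i ∧ (x.c.2 = Sum.inl i ∨ x.c.2 = Sum.inl (prv K i))) := by
  have h := hR.other (s.map sn) (by rw [← e]; exact List.mem_map_of_mem hs) b (sn x) (sn y)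
    (by simp [Slice.map, Loc.map, hp])
  rcases h with h | h
  · left; exact congrArg Col.c h
  · right; exact h

theorem colours_of {K : ℕ} {R' : ℕ → Diag Pl} (hR : RingProps K R') {Y : Diag (Col N2)}
    (e : relabel sn Y = ringC K R') :
    AllIn (fun x => ∃ i < K, x.c.2 = Sum.inl i ∨ x.c.2 = Sum.inr i) Y := by
  have h := hR.colours
  rw [← e, allIn_relabel (hom_col _)] at h
  exact h

/-- every block is a block -/
theorem Two.half (hr : StRelabel) (hl : StLift) (hs : StSub) (hc : StRingCol) {K : ℕ}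
    {R R' : ℕ → Diag Pl} {X : Diag (Col N2)} (h : Two K R R' X) :
    ∀ i < K, ∃ j < K, AllIn (fun x => x.c.1 = Sum.inl i → x.c.2 = Sum.inl j) X := by
  intro i hi
  obtain ⟨Y, hXY, hY, e⟩ := h.lift hr hl hs
  obtain ⟨-, c2, c3, -, -, -⟩ := hc K R hY.hK hY.good hY.ring _ Y hY.closed hY.iso
  have hcol := colours_of hY.ring' e
  -- the second colour of a strand of the block is not a circle
  have key2 : ∀ s ∈ Y.2, ∀ b x y, s.p = .cr b x y → x.c.1 = Sum.inl i →
      ∃ j < K, x.c.2 = Sum.inl j := by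
    intro s hs b x y hp hx
    obtain ⟨j, hj, h1 | h1⟩ := (allIn_cr hcol hs hp).1
    · exact ⟨j, hj, h1⟩
    · obtain ⟨k, hk, h2⟩ := hY.circ' j hj
      have := (allIn_cr h2 hs hp).1 h1
      rw [this] at hx; cases hx
  have key3 : ∀ s ∈ Y.2, ∀ b x y, s.p = .cr b x y → y.c.1 = Sum.inl i →
      ∃ j < K, y.c.2 = Sum.inl j := by
    intro s hs b x y hp hx
    obtain ⟨j, hj, h1 | h1⟩ := (allIn_cr hcol hs hp).2
    · exact ⟨j, hj, h1⟩
    · obtain ⟨k, hk, h2⟩ := hY.circ' j hj
      have := (allIn_cr h2 hs hp).2 h1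
      rw [this] at hx; cases hx
  obtain ⟨z, hz⟩ := c2 i hi (by
    intro s hs b x y hp hx hy
    obtain ⟨j, hj, h1⟩ := key2 s hs b x y hp hx
    obtain ⟨j', hj', h1'⟩ := key3 s hs b x y hp hy
    rcases other_of hY.ring' e hs hp with h2 | ⟨k, hk, h2⟩
    · exact h2
    · rw [h1, h1'] at h2
      rcases h2 with ⟨h2, -⟩ | ⟨h2, -⟩ <;> cases h2)
  -- there is a strand
  have hz2 : ∃ j < K, z = Sum.inl j := by
    have c3i := c3 i hi
    have : cnt (fun x : Col N2 => isM i ⟨x.c.1⟩) (fun x => isB i ⟨x.c.1⟩) Y ≠ 0 ∨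
        cnt (fun x : Col N2 => isB i ⟨x.c.1⟩) (fun x => isM i ⟨x.c.1⟩) Y ≠ 0 := by
      by_contra hcon
      simp only [not_or, not_not] at hcon
      rw [hcon.1, hcon.2] at c3i
      omega
    rcases this with h1 | h1
    · obtain ⟨s, hs, b, x, y, hp, h2, h3⟩ := cnt_pos h1
      have h3' : (if b then y else x).c.1 = Sum.inl i := by simpa [isB] using h3
      cases b with
      | true =>
        simp only [if_true] at h3'
        obtain ⟨j, hj, h4⟩ := key3 s hs _ x y hp h3'
        exact ⟨j, hj, by rw [← h4]; exact ((allIn_cr hz hs hp).2 h3').symm⟩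
      | false =>
        simp only [Bool.false_eq_true, if_false] at h3'
        obtain ⟨j, hj, h4⟩ := key2 s hs _ x y hp h3'
        exact ⟨j, hj, by rw [← h4]; exact ((allIn_cr hz hs hp).1 h3').symm⟩
    · obtain ⟨s, hs, b, x, y, hp, h2, h3⟩ := cnt_pos h1
      have h3' : (if b then x else y).c.1 = Sum.inl i := by simpa [isB] using h2
      cases b with
      | true =>
        simp only [if_true] at h3'
        obtain ⟨j, hj, h4⟩ := key2 s hs _ x y hp h3'
        exact ⟨j, hj, by rw [← h4]; exact ((allIn_cr hz hs hp).1 h3').symm⟩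
      | false =>
        simp only [Bool.false_eq_true, if_false] at h3'
        obtain ⟨j, hj, h4⟩ := key3 s hs _ x y hp h3'
        exact ⟨j, hj, by rw [← h4]; exact ((allIn_cr hz hs hp).2 h3').symm⟩
  obtain ⟨j, hj, rfl⟩ := hz2
  exact ⟨j, hj, (hs _ _ (subP_col _) _ _ hXY).2 hz⟩

theorem prv_ne {K i : ℕ} (hK : 2 ≤ K) (hi : i < K) : prv K i ≠ i := by
  unfold prv; split_ifs <;> omega

theorem prv_lt {K i : ℕ} (hK : 2 ≤ K) (hi : i < K) : prv K i < K := by
  unfold prv; split_ifs <;> omega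

theorem prv_eq {K m n : ℕ} (hK : 2 ≤ K) (hm : m < K) (h : prv K m = n) : m = (n + 1) % K := by
  unfold prv at h
  split_ifs at h with h0
  · subst h0 h
    rw [Nat.sub_add_cancel (by omega), Nat.mod_self]
  · rw [← h, Nat.sub_add_cancel (by omega), Nat.mod_eq_of_lt hm]

/-- the main step -/
theorem Two.main (hr : StRelabel) (hl : StLift) (hs : StSub) (hc : StRingCol) {K : ℕ}
    {R R' : ℕ → Diag Pl} {X : Diag (Col N2)} (h : Two K R R' X) :
    ∃ s < K, ∀ i < K, Iso (R i) (R' ((i + s) % K)) := by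
  have hK := h.hK
  obtain ⟨X', hXY, hY, e⟩ := h.lift hr hl hs
  clear h hXY X
  obtain ⟨-, -, c3, c4, c5, -⟩ := hc K R hY.hK hY.good hY.ring _ X' hY.closed hY.iso
  have hY' := hY.swap hr
  obtain ⟨-, -, -, -, c5', -⟩ := hc K R' hY'.hK hY'.good hY'.ring _ _ hY'.closed hY'.iso
  have hσ := hY.half hr hl hs hc
  have hσ' := hY'.half hr hl hs hc
  choose! σ σK hσ using hσ
  choose! σ' σK' hσ' using hσ'
  choose! τ τK hτ using hY.circ
  choose! τ' τK' hτ' using hY.circ'
  replace hσ' : ∀ i < K, AllIn (fun x => x.c.2 = Sum.inl i → x.c.1 = Sum.inl (σ' i)) X' := by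
    intro i hi
    have := hσ' i hi
    rw [allIn_relabel (hom_col _)] at this
    exact this
  -- existence of strands with both kinds of colours at a crossing
  have ex : ∀ i < K, (∃ x : Col N2, x.c.1 = Sum.inl i ∧ (x.c.1 = Sum.inl i → x.c.2 = Sum.inl (σ i)) ∧
      (x.c.2 = Sum.inl (σ i) → x.c.1 = Sum.inl (σ' (σ i)))) ∧
      (∃ x : Col N2, x.c.1 = Sum.inr i ∧ (x.c.1 = Sum.inr i → x.c.2 = Sum.inr (τ i)) ∧
      (x.c.2 = Sum.inr (τ i) → x.c.1 = Sum.inr (τ' (τ i)))) := by
    intro i hi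
    have c3i := c3 i hi
    have : cnt (fun x : Col N2 => isM i ⟨x.c.1⟩) (fun x => isB i ⟨x.c.1⟩) X' ≠ 0 ∨
        cnt (fun x : Col N2 => isB i ⟨x.c.1⟩) (fun x => isM i ⟨x.c.1⟩) X' ≠ 0 := by
      by_contra hcon
      simp only [not_or, not_not] at hcon
      rw [hcon.1, hcon.2] at c3i
      omega
    rcases this with h1 | h1
    · obtain ⟨s, hs, b, x, y, hp, h2, h3⟩ := cnt_pos h1
      have h2' : (if b then x else y).c.1 = Sum.inr i := by simpa [isM] using h2
      have h3' : (if b then y else x).c.1 = Sum.inl i := by simpa [isB] using h3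
      have s1 := allIn_cr (hσ i hi) hs hp
      have s2 := allIn_cr (hσ' _ (σK i hi)) hs hp
      have s3 := allIn_cr (hτ i hi) hs hp
      have s4 := allIn_cr (hτ' _ (τK i hi)) hs hp
      cases b with
      | true => exact ⟨⟨y, h3', s1.2, s2.2⟩, ⟨x, h2', s3.1, s4.1⟩⟩
      | false => exact ⟨⟨x, h3', s1.1, s2.1⟩, ⟨y, h2', s3.2, s4.2⟩⟩
    · obtain ⟨s, hs, b, x, y, hp, h2, h3⟩ := cnt_pos h1
      have h2' : (if b then x else y).c.1 = Sum.inl i := by simpa [isB] using h2
      have h3' : (if b then y else x).c.1 = Sum.inr i := by simpa [isM] using h3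
      have s1 := allIn_cr (hσ i hi) hs hp
      have s2 := allIn_cr (hσ' _ (σK i hi)) hs hp
      have s3 := allIn_cr (hτ i hi) hs hp
      have s4 := allIn_cr (hτ' _ (τK i hi)) hs hp
      cases b with
      | true => exact ⟨⟨x, h2', s1.1, s2.1⟩, ⟨y, h3', s3.2, s4.2⟩⟩
      | false => exact ⟨⟨y, h2', s1.2, s2.2⟩, ⟨x, h3', s3.1, s4.1⟩⟩
  have inv : ∀ i < K, σ' (σ i) = i := by
    intro i hi
    obtain ⟨⟨x, h1, h2, h3⟩, -⟩ := ex i hi
    have := h3 (h2 h1)
    rw [h1] at this
    exact (Sum.inl.inj this).symm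
  have inv2 : ∀ i < K, τ' (τ i) = i := by
    intro i hi
    obtain ⟨-, ⟨x, h1, h2, h3⟩⟩ := ex i hi
    have := h3 (h2 h1)
    rw [h1] at this
    exact (Sum.inr.inj this).symm
  have eqB : ∀ i < K, AllIn (fun x : Col N2 => isB i ⟨x.c.1⟩ = isB (σ i) ⟨x.c.2⟩) X' := by
    intro i hi
    have h1 := hσ i hi
    have h2 := hσ' _ (σK i hi)
    rw [inv i hi] at h2
    have h3 : ∀ x : Col N2, (x.c.1 = Sum.inl i → x.c.2 = Sum.inl (σ i)) →
        (x.c.2 = Sum.inl (σ i) → x.c.1 = Sum.inl i) → isB i ⟨x.c.1⟩ = isB (σ i) ⟨x.c.2⟩ := by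
      intro x ha hb
      simp only [isB]
      exact decide_eq_decide.2 ⟨ha, hb⟩
    exact ⟨fun a ha => h3 a (h1.1 a ha) (h2.1 a ha), fun s hs =>
      ⟨fun a ha => h3 a ((h1.2 s hs).1 a ha) ((h2.2 s hs).1 a ha),
        fun a ha => h3 a ((h1.2 s hs).2 a ha) ((h2.2 s hs).2 a ha)⟩⟩
  have eqM : ∀ i < K, AllIn (fun x : Col N2 => isM i ⟨x.c.1⟩ = isM (τ i) ⟨x.c.2⟩) X' := by
    intro i hi
    have h1 := hτ i hi
    have h2 := hτ' _ (τK i hi)
    rw [inv2 i hi] at h2
    have h3 : ∀ x : Col N2, (x.c.1 = Sum.inr i → x.c.2 = Sum.inr (τ i)) →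
        (x.c.2 = Sum.inr (τ i) → x.c.1 = Sum.inr i) → isM i ⟨x.c.1⟩ = isM (τ i) ⟨x.c.2⟩ := by
      intro x ha hb
      simp only [isM]
      exact decide_eq_decide.2 ⟨ha, hb⟩
    exact ⟨fun a ha => h3 a (h1.1 a ha) (h2.1 a ha), fun s hs =>
      ⟨fun a ha => h3 a ((h1.2 s hs).1 a ha) ((h2.2 s hs).1 a ha),
        fun a ha => h3 a ((h1.2 s hs).2 a ha) ((h2.2 s hs).2 a ha)⟩⟩
  -- counts in the second ring
  have cntMB : ∀ i < K, ∀ j < K, cnt (fun x : Col N2 => isM i ⟨x.c.1⟩) (fun x => isB j ⟨x.c.1⟩) X' =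
      cnt (isM (τ i)) (isB (σ j)) (ringC K R') := by
    intro i hi j hj
    rw [cnt_congr (eqM i hi) (eqB j hj), ← e, cnt_relabel]
    rfl
  have cntBM : ∀ i < K, ∀ j < K, cnt (fun x : Col N2 => isB j ⟨x.c.1⟩) (fun x => isM i ⟨x.c.1⟩) X' =
      cnt (isB (σ j)) (isM (τ i)) (ringC K R') := by
    intro i hi j hj
    rw [cnt_congr (eqB j hj) (eqM i hi), ← e, cnt_relabel]
    rfl
  have adjMB : ∀ m n, cnt (isM m) (isB n) (ringC K R') ≠ 0 → n = m ∨ n = prv K m := by
    intro m n hmn
    obtain ⟨s, hs, b, x, y, hp, h1, h2⟩ := cnt_pos hmn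
    have h1' : (if b then x else y).c = Sum.inr m := by simpa [isM] using h1
    have h2' : (if b then y else x).c = Sum.inl n := by simpa [isB] using h2
    rcases hY.ring'.other s hs b x y hp with h3 | ⟨k, hk, h3⟩
    · subst h3
      simp only [ite_self] at h1' h2'
      rw [h1'] at h2'; cases h2'
    · cases b
      · simp only [Bool.false_eq_true, if_false] at h1' h2'
        rw [h1', h2'] at h3
        rcases h3 with ⟨h3, _⟩ | ⟨h3, h4⟩
        · cases h3
        · cases h3
          rcases h4 with h4 | h4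
          · left; exact Sum.inl.inj h4
          · right; exact Sum.inl.inj h4
      · simp only [if_true] at h1' h2'
        rw [h1', h2'] at h3
        rcases h3 with ⟨h3, h4⟩ | ⟨h3, _⟩
        · cases h3
          rcases h4 with h4 | h4
          · left; exact Sum.inl.inj h4
          · right; exact Sum.inl.inj h4
        · cases h3
  have adjBM : ∀ m n, cnt (isB n) (isM m) (ringC K R') ≠ 0 → n = m ∨ n = prv K m := by
    intro m n hmn
    obtain ⟨s, hs, b, x, y, hp, h2, h1⟩ := cnt_pos hmn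
    have h1' : (if b then y else x).c = Sum.inr m := by simpa [isM] using h1
    have h2' : (if b then x else y).c = Sum.inl n := by simpa [isB] using h2
    rcases hY.ring'.other s hs b x y hp with h3 | ⟨k, hk, h3⟩
    · subst h3
      simp only [ite_self] at h1' h2'
      rw [h1'] at h2'; cases h2'
    · cases b
      · simp only [Bool.false_eq_true, if_false] at h1' h2'
        rw [h1', h2'] at h3
        rcases h3 with ⟨h3, h4⟩ | ⟨h3, _⟩
        · cases h3
          rcases h4 with h4 | h4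
          · left; exact Sum.inl.inj h4
          · right; exact Sum.inl.inj h4
        · cases h3
      · simp only [if_true] at h1' h2'
        rw [h1', h2'] at h3
        rcases h3 with ⟨h3, _⟩ | ⟨h3, h4⟩
        · cases h3
        · cases h3
          rcases h4 with h4 | h4
          · left; exact Sum.inl.inj h4
          · right; exact Sum.inl.inj h4
  have στ : ∀ i < K, σ i = τ i := by
    intro i hi
    have c3i := c3 i hi
    rw [cntMB i hi i hi, cntBM i hi i hi] at c3i
    have hw := hY.ring'.weak (τ i) (τK i hi)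
    by_contra hne
    have hn : σ i = prv K (τ i) := by
      have : cnt (isM (τ i)) (isB (σ i)) (ringC K R') ≠ 0 ∨
          cnt (isB (σ i)) (isM (τ i)) (ringC K R') ≠ 0 := by
        by_contra hcon
        push Not at hcon
        omega
      rcases this with h1 | h1
      · exact (adjMB _ _ h1).resolve_left hne
      · exact (adjBM _ _ h1).resolve_left hne
    rw [hn, hw.1, hw.2] at c3i
    omega
  have hσp : ∀ i < K, σ (prv K i) = prv K (σ i) := by
    intro i hi
    have c4i := (c4 i hi).1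
    rw [cntMB i hi _ (prv_lt hK hi)] at c4i
    rcases adjMB _ _ (by omega : cnt (isM (τ i)) (isB (σ (prv K i))) (ringC K R') ≠ 0) with h1 | h1
    · rw [← στ i hi] at h1
      have h2 := inv _ (prv_lt hK hi)
      rw [h1, inv i hi] at h2
      exact absurd h2.symm (prv_ne hK hi)
    · rw [h1, στ i hi]
  have hσi : ∀ i < K, σ i = (i + σ 0) % K := by
    intro i
    induction i with
    | zero => intro h0; rw [Nat.zero_add, Nat.mod_eq_of_lt (σK 0 h0)]
    | succ i ih =>
      intro hi
      have h1 := hσp (i + 1) hi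
      have h2 : prv K (i + 1) = i := by simp [prv]
      rw [h2] at h1
      have h3 := prv_eq hK (σK _ hi) h1.symm
      rw [h3, ih (by omega), Nat.mod_add_mod]
      congr 1; omega
  refine ⟨σ 0, σK 0 (by omega), fun i hi => ?_⟩
  rw [← hσi i hi]
  have h5 := c5 i hi
  have h5' := c5' (σ i) (σK i hi)
  have e1 : del (fun x : Col N2 => isB i ⟨x.c.1⟩) X' = del (fun x : Col N2 => isB (σ i) ⟨x.c.2⟩) X' :=
    del_congr (eqB i hi)
  have e2 : plain (del (fun x : Col N2 => isB (σ i) ⟨x.c.1⟩) (relabel sw X')) =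
      plain (del (fun x : Col N2 => isB (σ i) ⟨x.c.2⟩) X') := by
    rw [del_relabel, plain_relabel]
    rfl
  rw [e1] at h5
  rw [e2] at h5'
  exact h5.symm.trans _ _ _ h5'

/-- the circles -/
theorem circles {K : ℕ} {X : Diag (Col N2)} {P P' : ℕ → ℕ}
    (h1 : ∀ i < K, ∃ z, AllIn (fun x : Col N2 => x.c.1 = Sum.inr i → x.c.2 = z) X)
    (hP : ∀ i < K, ∃ b x y, ((relabel fs X).2[P i]?).map Slice.p = some (.cr b x y) ∧
      (if b then x else y).c = Sum.inr i)
    (hP' : ∀ i < K, ∃ b x y, ((relabel sn X).2[P' i]?).map Slice.p = some (.cr b x y) ∧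
      (if b then x else y).c = Sum.inr i)
    (himg : (Finset.range K).image P ⊆ (Finset.range K).image P') :
    ∀ i < K, ∃ j < K, AllIn (fun x : Col N2 => x.c.1 = Sum.inr i → x.c.2 = Sum.inr j) X := by
  intro i hi
  have h2 : P i ∈ (Finset.range K).image P' := himg (Finset.mem_image_of_mem _ (by simpa using hi))
  obtain ⟨j, hj, hPj⟩ := Finset.mem_image.1 h2
  rw [Finset.mem_range] at hj
  obtain ⟨b, x, y, e1, e2⟩ := hP i hi
  obtain ⟨b', x', y', e1', e2'⟩ := hP' j hj
  rw [hPj] at e1'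
  refine ⟨j, hj, ?_⟩
  obtain ⟨z, hz⟩ := h1 i hi
  have key : z = Sum.inr j := by
    simp only [relabel, List.getElem?_map, Option.map_map] at e1 e1'
    rcases hs : X.2[P i]? with _ | s
    · rw [hs] at e1; simp at e1
    · rw [hs] at e1 e1'
      have hs' : s ∈ X.2 := List.mem_of_getElem? hs
      simp only [Option.map_some, Function.comp_apply, Option.some.injEq, Slice.map] at e1 e1'
      rcases hp : s.p with a | a | ⟨c, u, v⟩
      · rw [hp] at e1; cases e1
      · rw [hp] at e1; cases e1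
      · rw [hp] at e1 e1'
        simp only [Loc.map, Loc.cr.injEq] at e1 e1'
        obtain ⟨rfl, rfl, rfl⟩ := e1
        obtain ⟨rfl, rfl, rfl⟩ := e1'
        have h3 := allIn_cr hz hs' hp
        cases c
        · simp only [Bool.false_eq_true, if_false, fs, sn] at e2 e2'
          rw [← h3.2 e2, e2']
        · simp only [if_true, fs, sn] at e2 e2'
          rw [← h3.1 e2, e2']
  rw [← key]
  exact hz

end TwoRings

open TwoRings in
/-- (D4a) -/
theorem stTwoRings (hr : StRelabel) (hl : StLift) (hs : StSub) (hp : StPair) (hc : StRingCol) :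
    StTwoRings := by
  intro K hK R R' hG hG' hR hR' E E' hE hE' hplain hPP
  obtain ⟨P, hP, P', hP', himg⟩ := hPP
  obtain ⟨X, hX, rfl, rfl⟩ := hp _ _ E E' (hE.closed hR.closed) (hE'.closed hR'.closed) hplain
  have iso1 : Iso (relabel fs X) (ringC K R) := hE.symm
  have iso2 : Iso (relabel sn X) (ringC K R') := hE'.symm
  have h1 := (hc K R hK hG hR _ X hX iso1).1
  have hXs : Closed (relabel sw X) := (hr _ _ sw (hom_col _)).1 _ _ _ hX
  have h1' := (hc K R' hK hG' hR' _ (relabel sw X) hXs (by rw [relabel_relabel]; exact iso2)).1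
  have c1 := circles h1 hP hP' himg.subset
  have c2 := circles (X := relabel sw X) h1' (by rw [relabel_relabel]; exact hP')
    (by rw [relabel_relabel]; exact hP) himg.symm.subset
  have two : Two K R R' X := {
    hK := hK
    good := hG
    good' := hG'
    ring := hR
    ring' := hR'
    closed := hX
    iso := iso1
    iso' := iso2
    circ := c1
    circ' := by
      intro i hi
      obtain ⟨j, hj, h2⟩ := c2 i hi
      rw [allIn_relabel (hom_col _)] at h2
      exact ⟨j, hj, h2⟩ }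
  exact two.main hr hl hs hc

end Pool.Agent.H838R2.PL
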