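import Pool.Agent.H838R2.PL.Stubs

/-!
# The diagram `lens` with meridians, homomorphisms (C0a, C0e)
-/

set_option autoImplicit false
set_option linter.unusedSectionVars false
set_option linter.unusedSimpArgs false

namespace Pool.Agent.H838R2.PL

theorem stHoms : StHoms := by
  refine ⟨?_, ?_, ?_, ?_, ?_, ?_, ?_⟩
  · intro G X _ _
    refine ⟨?_, ?_⟩
    · intro x; cases x <;> rfl
    · intro x y; cases x <;> cases y <;> rfl
  · intro G X _ _
    refine ⟨?_, ?_⟩
    · intro x; cases x <;> rfl
    · intro x y; cases x <;> cases y <;> rfl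
  · intro G X _ _
    refine ⟨?_, ?_, ?_⟩
    · intro x; cases x <;> rfl
    · intro x y; cases x <;> cases y <;> rfl
    · intro x y; cases x <;> cases y <;> intro h1 h2 <;> first | rfl | simp [isK] at h1 h2
  · intro G X _ _
    exact ⟨fun _ => rfl, fun _ _ => rfl⟩
  · intro G _ g
    refine ⟨fun _ => rfl, ?_⟩
    rintro ⟨m, d⟩ ⟨m', d'⟩
    cases d' <;> simp [Palette.r, Mer.val]
  · intro G _
    refine ⟨fun _ => rfl, ?_⟩
    rintro ⟨m, d⟩ ⟨m', d'⟩
    cases d' <;> simp [Palette.r, Mer.val, mul_assoc]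
  · intro G _ g
    refine ⟨?_, ?_⟩
    · intro x; cases x <;> rfl
    · intro x y
      rcases x with ⟨m, d⟩ | ⟨n⟩ <;> rcases y with ⟨m', d'⟩ | ⟨n'⟩
      · cases d' <;> simp [Palette.r, Mer.val]
      · rfl
      · cases d'
        · simp [Palette.r, Mer.act, QAct.A, Equiv.Perm.inv_def, zpow_sub]
        · simp [Palette.r, Mer.act, QAct.A, zpow_add]
      · rfl

/-! ### C0a -/

private theorem k_inj {G X : Type} : Function.Injective (Hk.k : Mer G → Hk G X) := by
  intro a b h; cases h; rfl

private theorem locmap_inj {Λ Λ' : Type} {f : Λ → Λ'} (hf : Function.Injective f) :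
    Function.Injective (Loc.map f) := by
  intro p q h
  cases p <;> cases q <;> simp [Loc.map] at h ⊢
  · exact hf h
  · exact hf h
  · exact ⟨h.1, hf h.2.1, hf h.2.2⟩

private theorem slicemap_inj {Λ Λ' : Type} {f : Λ → Λ'} (hf : Function.Injective f) :
    Function.Injective (Slice.map f) := by
  rintro ⟨L, p, R⟩ ⟨L', p', R'⟩ h
  simp only [Slice.map, Slice.mk.injEq] at h ⊢
  exact ⟨hf.list_map h.1, locmap_inj hf h.2.1, hf.list_map h.2.2⟩

private theorem relabel_inj {Λ Λ' : Type} [Palette Λ] [Palette Λ'] {f : Λ → Λ'}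
    (hf : Function.Injective f) {D E : Diag Λ} (h : relabel f D = relabel f E) : D = E := by
  obtain ⟨F, w⟩ := D
  obtain ⟨F', w'⟩ := E
  simp only [relabel, Prod.mk.injEq] at h
  rw [hf.list_map h.1, (slicemap_inj hf).list_map h.2]

private theorem relabel_relabel {Λ Λ' Λ'' : Type} [Palette Λ] [Palette Λ'] [Palette Λ''] (f : Λ → Λ')
    (g : Λ' → Λ'') (D : Diag Λ) : relabel g (relabel f D) = relabel (g ∘ f) D := by
  obtain ⟨F, w⟩ := D
  simp only [relabel, List.map_map, Prod.mk.injEq, true_and]
  apply List.map_congr_left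
  rintro ⟨L, p, R⟩ _
  cases p <;> simp [Slice.map, Loc.map]

private theorem lens_length {Λ : Type} [Palette Λ] (m : Λ) (D : Diag Λ) :
    (lens m D).1 = D.1 := by
  obtain ⟨F, w⟩ := D
  rcases F with _ | ⟨a, _ | ⟨b, F⟩⟩ <;> rfl

private theorem relabelW_relabelW {Λ Λ' Λ'' : Type} [Palette Λ] [Palette Λ'] [Palette Λ''] (f : Λ → Λ')
    (g : Λ' → Λ'') (w : Word Λ) : relabelW g (relabelW f w) = relabelW (g ∘ f) w := by
  simp only [relabelW, List.map_map]
  apply List.map_congr_left
  rintro ⟨L, p, R⟩ _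
  cases p <;> simp [Slice.map, Loc.map]

theorem stUnitLens (h : StRelabel) : StUnitLens := by
  intro G _ E a d F hE hF
  obtain ⟨F0, w⟩ := E
  simp only at hF
  subst hF
  refine ⟨?_, ?_, ?_⟩
  · have hk := (h (Mer G) (Hk G Unit) Hk.k (stHoms.2.2.2.1 G Unit)).1 w _ _ hE
    simp only [relabel_eq, List.map_cons] at hk ⊢
    simp only [lens, hook, Closed]
    simp [Path, Slice.src, Slice.tgt, Loc.src, Loc.tgt, out]
    exact ⟨rfl, rfl, rfl, rfl, hk⟩
  · simp only [relabel_eq, List.map_cons, lens2, lens, hook, plain, relabelW_relabelW,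
      List.map_map]
    have e : List.map (Slice.map (hkCol : Hk G Unit → Col Bool) ∘ Slice.map Hk.k) w =
        List.map (Slice.map ((fun _ : Pl => (⟨false⟩ : Col Bool)) ∘ fun _ : Mer G => pt)) w := by
      apply List.map_congr_left
      rintro ⟨L, p, R⟩ _
      cases p <;> simp [Slice.map, Loc.map, hkCol, Function.comp_def]
    simp only [relabelW, List.map_cons, List.map_append, List.map_nil, Slice.map, Loc.map,
      List.map_map, e]
    rfl
  · intro E' hE'
    obtain ⟨F', w'⟩ := E'
    have hfront : F' = a :: d :: F := by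
      have h1 := congrArg Prod.fst hE'
      rw [lens_length, lens_length] at h1
      exact k_inj.list_map h1
    subst hfront
    have h2 := congrArg Prod.snd hE'
    simp only [relabel_eq, List.map_cons, lens, hook, List.cons.injEq, List.cons_append,
      List.nil_append, true_and] at h2
    rw [(slicemap_inj k_inj).list_map h2]

end Pool.Agent.H838R2.PL
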