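import Pool.Agent.H838R2.PL.Close
import Pool.Agent.H838R2.PL.Count2
import Pool.Agent.H838R2.PL.Del
import Pool.Agent.H838R2.PL.DelBM
import Pool.Agent.H838R2.PL.Ext
import Pool.Agent.H838R2.PL.GoodKnot
import Pool.Agent.H838R2.PL.GoodLink
import Pool.Agent.H838R2.PL.Hook
import Pool.Agent.H838R2.PL.Hopf
import Pool.Agent.H838R2.PL.HtLens
import Pool.Agent.H838R2.PL.Inv
import Pool.Agent.H838R2.PL.Lift
import Pool.Agent.H838R2.PL.LiftBM
import Pool.Agent.H838R2.PL.Limit
import Pool.Agent.H838R2.PL.Mult
import Pool.Agent.H838R2.PL.Parity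
import Pool.Agent.H838R2.PL.PrimeKnot
import Pool.Agent.H838R2.PL.PrimeRigid
import Pool.Agent.H838R2.PL.Prod
import Pool.Agent.H838R2.PL.Relabel
import Pool.Agent.H838R2.PL.Retract
import Pool.Agent.H838R2.PL.RgLens
import Pool.Agent.H838R2.PL.RingA
import Pool.Agent.H838R2.PL.RingB
import Pool.Agent.H838R2.PL.RingC
import Pool.Agent.H838R2.PL.RingCol
import Pool.Agent.H838R2.PL.RingCross
import Pool.Agent.H838R2.PL.RingD
import Pool.Agent.H838R2.PL.RingNonsplit
import Pool.Agent.H838R2.PL.RingPrime
import Pool.Agent.H838R2.PL.RingAsm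
import Pool.Agent.H838R2.PL.Root
import Pool.Agent.H838R2.PL.Side
import Pool.Agent.H838R2.PL.Sub
import Pool.Agent.H838R2.PL.Sum
import Pool.Agent.H838R2.PL.Three
import Pool.Agent.H838R2.PL.Trefoil
import Pool.Agent.H838R2.PL.TwoRings
import Pool.Agent.H838R2.PL.UnitLens

/-!
# Assembly
-/

set_option autoImplicit false

namespace Pool.Agent.H838R2.PL

theorem final : StProduct ∧ StFinal := by
  have hRel : StRelabel := stRelabel
  have hLift : StLift := stLift hRel stLiftBM
  have hDel : StDel := stDel stDelBM
  have hPar : StParity := stParity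
  have hSub : StSub := stSub
  have hProd : StProd := stProd
  have hOn : StRelabelOn := stRelabelOn
  have hPair : StPair := stPair
  have hFC : StFrontCol := stFrontCol
  have hRoot : StRoot := stRoot
  have hRot : StRotate := stRotate
  have hClose : StClose := stClose
  have hInv : StInv := stInv hLift hSub
  have hSum : StSum := stSum hRel hLift hFC
  have hSide : StSide := stSide hRel hDel
  have hCross : StCross := stCross
  have hRet : StRetract := stRetract hRel hProd
  have hRetK : StRetractKnot := stRetractKnot hRel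
  have hKN : StKnotNonsplit := stKnotNonsplit hInv
  have h3 : StThree := stThree hRel hOn
  have hUL : StUnitLens := stUnitLens hRel
  have hRg : StRgLens := stRgLens
  have hHt : StHtLens := stHtLens hRel
  have hFH : StFrontHk := stFrontHk hProd
  have hHoms : StHoms := stHoms
  have hE1 : StExtConst := stExtConst hOn
  have hE2 : StExtLeft := stExtLeft
  have hGL : StGoodLink := stGoodLink hRel hLift hDel hPar hFC hRoot hInv hCross
  have hHook : StHook := stHook hLift hPar hUL hRg hHoms hE1 hE2
  have hPK : StPrimeKnot := stPrimeKnot hRel hLift hDel hOn hUL hRg hHt hFH hHoms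
  have hPR : StPrimeRigid := stPrimeRigid hRel hLift hDel hSub hInv hRetK hUL hRg hHt hFH hHoms
  have hGK : StGoodKnot := stGoodKnot hRel hOn hRoot hRot hInv hHook hPK
  have hHopf : StHopf := stHopf hRel hLift hDel hPar hSub hInv hSum hSide hRet hKN hGL
  have hTref : StTrefoil := stTrefoil hKN hPR hHook h3 hInv
  have hRing : StRing := stRing stRingA (stRingB hRel hClose) (stRingC hRel hClose) stRingD
  have hCol : StRingCol := stRingCol hRel hLift hDel hPar hSub
  have hNs : StRingNonsplit := stRingNonsplit hRel hLift hPair hCol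
  have hRP : StRingPrime := stRingPrime hRel hDel hSub hInv hSum hSide hCross hRet hKN hCol hNs
  have hRC : StRingCross := stRingCross hRel hLift hCol
  have hTwo : StTwoRings := stTwoRings hRel hLift hSub hPair hCol
  have hMult : StMult := stMult hLift hPar hTwo
  have hCount : StCount := stCount hInv hGL hGK hHopf hTref hRing hRP hRC hMult
  exact ⟨stProduct hInv hGL hGK hRing hRP hRC hMult, stFinal hCount stLimit⟩

end Pool.Agent.H838R2.PL
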