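import Pool.Agent.H838R2.PL.Stubs

/-!
# The parity of the number of crossings of different colours (task A4)
-/

set_option autoImplicit false
set_option linter.unusedSectionVars false

namespace Pool.Agent.H838R2.PL

open Relation

namespace ParityAux

variable {Λ : Type} [Palette Λ]

theorem inv_l {p : Λ → Bool} (hp : Inv p) (x y : Λ) : p (Palette.l x y) = p x := by
  rw [← Palette.r_star, hp.r]

theorem out_fst {p : Λ → Bool} (hp : Inv p) (b : Bool) (x y : Λ) : p (out b x y).1 = p y := by
  cases b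
  · rfl
  · exact inv_l hp y x

theorem out_snd {p : Λ → Bool} (hp : Inv p) (b : Bool) (x y : Λ) : p (out b x y).2 = p x := by
  cases b
  · exact hp.r x y
  · rfl

/-- the number of crossings of a word -/
def cw (p q : Λ → Bool) (w : Word Λ) : ℕ := (w.map (cntS p q)).sum

theorem cw_nil (p q : Λ → Bool) : cw p q [] = 0 := rfl

theorem cw_cons (p q : Λ → Bool) (s : Slice Λ) (w : Word Λ) :
    cw p q (s :: w) = cntS p q s + cw p q w := by simp [cw]

theorem cw_append (p q : Λ → Bool) (u v : Word Λ) : cw p q (u ++ v) = cw p q u + cw p q v := by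
  simp [cw]

theorem cw_ctx (p q : Λ → Bool) (P Q : List Λ) (w : Word Λ) : cw p q (ctx P Q w) = cw p q w := by
  induction w with
  | nil => rfl
  | cons s w ih =>
    rw [ctx_cons, cw_cons, cw_cons, ih]
    rfl

theorem cntS_birth (p q : Λ → Bool) (L R : List Λ) (a : Λ) : cntS p q ⟨L, .birth a, R⟩ = 0 := rfl
theorem cntS_death (p q : Λ → Bool) (L R : List Λ) (a : Λ) : cntS p q ⟨L, .death a, R⟩ = 0 := rfl
theorem cntS_true (p q : Λ → Bool) (L R : List Λ) (x y : Λ) :
    cntS p q ⟨L, .cr true x y, R⟩ = if p x && q y then 1 else 0 := rfl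
theorem cntS_false (p q : Λ → Bool) (L R : List Λ) (x y : Λ) :
    cntS p q ⟨L, .cr false x y, R⟩ = if p y && q x then 1 else 0 := rfl

/-- the count only depends on the values of `p` and `q` -/
theorem cntS_congr {p q : Λ → Bool} {L R L' R' : List Λ} {b : Bool} {x y x' y' : Λ}
    (h1 : p x = p x') (h2 : p y = p y') (h3 : q x = q x') (h4 : q y = q y') :
    cntS p q ⟨L, .cr b x y, R⟩ = cntS p q ⟨L', .cr b x' y', R'⟩ := by
  cases b
  · rw [cntS_false, cntS_false, h2, h3]
  · rw [cntS_true, cntS_true, h1, h4]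

/-- seen from the other side -/
theorem cntS_swap {p q : Λ → Bool} {L R L' R' : List Λ} {b : Bool} {x y x' y' : Λ}
    (h1 : p x = p y') (h2 : p y = p x') (h3 : q x = q y') (h4 : q y = q x') :
    cntS p q ⟨L, .cr b x y, R⟩ = cntS p q ⟨L', .cr (!b) x' y', R'⟩ := by
  cases b
  · simp only [Bool.not_false]
    rw [cntS_false, cntS_true, h2, h3]
  · simp only [Bool.not_true]
    rw [cntS_true, cntS_false, h1, h4]

theorem cntS_same {p q : Λ → Bool} (hpq : ∀ x, ¬ (p x = true ∧ q x = true)) {L R : List Λ}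
    {b : Bool} {x y : Λ} (h1 : p y = p x) (h2 : q y = q x) :
    cntS p q ⟨L, .cr b x y, R⟩ = 0 := by
  have h := hpq x
  cases b
  · rw [cntS_false, h1]
    simp only [Bool.and_eq_true, if_neg h]
  · rw [cntS_true, h2]
    simp only [Bool.and_eq_true, if_neg h]

theorem bm {p q : Λ → Bool} (hp : Inv p) (hq : Inv q) (hpq : ∀ x, ¬ (p x = true ∧ q x = true))
    {A B : List Λ} {l r : Word Λ} (h : BM A l r B) : cw p q l % 2 = cw p q r % 2 := by
  cases h with
  | zig1 x => rfl
  | zig2 x => rfl
  | rb b a =>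
    simp only [cw_cons, cw_nil, cntS_birth, cntS_same hpq (hp.star a) (hq.star a)]
  | rd b a =>
    simp only [cw_cons, cw_nil, cntS_death, cntS_same hpq (hp.star a) (hq.star a)]
  | r2 b x y =>
    simp only [cw_cons, cw_nil, add_zero]
    rw [← cntS_swap (L := []) (R := []) (b := b) (x := x) (y := y) (out_snd hp b x y).symm
      (out_fst hp b x y).symm (out_snd hq b x y).symm (out_fst hq b x y).symm]
    omega
  | r3 a b c h x y z u₁ u₂ v₁ v₂ w₁ w₂ p₁ p₂ q₁ hu hv hw hp' q₂ hq' =>
    have key : ∀ f : Λ → Bool, Inv f → f u₁ = f y ∧ f u₂ = f x ∧ f v₁ = f z ∧ f p₁ = f z ∧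
        f p₂ = f y := by
      intro f hf
      have a1 : f u₁ = f y := by rw [← out_fst hf a x y, hu]
      have a2 : f u₂ = f x := by rw [← out_snd hf a x y, hu]
      have a3 : f v₁ = f z := by rw [← out_fst hf b u₂ z, hv]
      have a4 : f p₁ = f z := by rw [← out_fst hf c y z, hp']
      have a5 : f p₂ = f y := by rw [← out_snd hf c y z, hp']
      exact ⟨a1, a2, a3, a4, a5⟩
    have key2 : ∀ f : Λ → Bool, Inv f → f q₂ = f x := by
      intro f hf
      rw [← out_snd hf b x p₁, hq']
    obtain ⟨a1, a2, a3, a4, a5⟩ := key p hp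
    obtain ⟨b1, b2, b3, b4, b5⟩ := key q hq
    have a6 := key2 p hp
    have b6 := key2 q hq
    simp only [cw_cons, cw_nil, add_zero]
    rw [cntS_congr (L := [u₁]) (R := []) (L' := []) (R' := [p₂]) (b := b) (x := u₂) (y := z)
        (x' := x) (y' := p₁) a2 a4.symm b2 b4.symm,
      cntS_congr (L := []) (R := [v₂]) (L' := [x]) (R' := []) (b := c) (x := u₁) (y := v₁)
        (x' := y) (y' := z) a1 a3 b1 b3,
      cntS_congr (L := []) (R := [z]) (L' := [q₁]) (R' := []) (b := a) (x := x) (y := y)
        (x' := q₂) (y' := p₂) a6.symm a5.symm b6.symm b5.symm]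
    congr 1
    omega
  | sb b a s a' h =>
    have key : ∀ f : Λ → Bool, Inv f → f a' = f a := by
      intro f hf
      rw [h]
      cases b
      · exact hf.r a s
      · rfl
    simp only [cw_cons, cw_nil, cntS_birth, add_zero, zero_add]
    rw [cntS_swap (L := [a]) (R := []) (L' := []) (R' := [star a']) (b := b) (x := star a)
      (y := s) (x' := s) (y' := a') (by rw [hp.star, key p hp]) rfl (by rw [hq.star, key q hq]) rfl]
  | sd b x y z h =>
    have key : ∀ f : Λ → Bool, Inv f → f z = f x := by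
      intro f hf
      rw [h]
      cases b
      · exact hf.star x
      · show f (Palette.r (star x) y) = f x
        rw [hf.r, hf.star]
    simp only [cw_cons, cw_nil, cntS_death, add_zero]
    rw [cntS_swap (L := [x]) (R := []) (L' := []) (R' := [z]) (b := b) (x := y)
      (y := z) (x' := x) (y' := y) rfl (key p hp) rfl (key q hq)]
  | far p' q' M =>
    simp only [cw_cons, cw_nil, add_zero]
    have h1 : ∀ (L R L' R' : List Λ) (u : Loc Λ), cntS p q ⟨L, u, R⟩ = cntS p q ⟨L', u, R'⟩ :=
      fun _ _ _ _ _ => rfl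
    rw [h1 [] (M ++ q'.src) [] (M ++ q'.tgt) p', h1 (p'.tgt ++ M) [] (p'.src ++ M) [] q']
    congr 1
    omega

theorem step {p q : Λ → Bool} (hp : Inv p) (hq : Inv q) (hpq : ∀ x, ¬ (p x = true ∧ q x = true))
    {D E : Diag Λ} (h : Step D E) : cnt p q D % 2 = cnt p q E % 2 := by
  cases h with
  | @loc A A' l r F P Q x y hb h1 h2 =>
    show cw p q (x ++ ctx P Q l ++ y) % 2 = cw p q (x ++ ctx P Q r ++ y) % 2
    have := bm hp hq hpq hb
    simp only [cw_append, cw_ctx]
    omega
  | @conj F G u v h1 h2 =>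
    show cw p q (u ++ v) % 2 = cw p q (v ++ u) % 2
    simp only [cw_append]
    congr 1
    omega
  | @left a F w h1 =>
    show cw p q w % 2 = cw p q (⟨[], .birth (star a), F⟩ :: (ctx [star a] [] w ++
        [⟨[], .death (star a), F⟩])) % 2
    simp only [cw_cons, cw_append, cw_ctx, cw_nil, cntS_birth, cntS_death, add_zero, zero_add]
  | @right a F w h1 =>
    show cw p q w % 2 = cw p q (⟨F, .birth a, []⟩ :: (ctx [] [star a] w ++
        [⟨F, .death a, []⟩])) % 2
    simp only [cw_cons, cw_append, cw_ctx, cw_nil, cntS_birth, cntS_death, add_zero, zero_add]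

end ParityAux

open ParityAux

theorem stParity : StParity := by
  intro Λ _ p q hp hq hpq D E h
  induction h with
  | rel _ _ h => exact step hp hq hpq h
  | refl _ => rfl
  | symm _ _ _ ih => exact ih.symm
  | trans _ _ _ _ _ ih1 ih2 => exact ih1.trans ih2

end Pool.Agent.H838R2.PL
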