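import Pool.Agent.H838R2.PL.Stubs

/-!
# Assembling the properties of the rings
-/

set_option autoImplicit false

namespace Pool.Agent.H838R2.PL

theorem stRing (ha : StRingA) (hb : StRingB) (hc : StRingC) (hd : StRingD) : StRing := by
  intro K R hK h
  obtain ⟨a1, a2, a3, a4, a5⟩ := ha K R hK h
  obtain ⟨b1, b2⟩ := hb K R hK h
  obtain ⟨d1, d2⟩ := hd K R hK h
  exact ⟨a1, a2, a3, a4, a5, b1, b2, hc K R hK h, d1, d2⟩

theorem stFinal (h1 : StCount) (h2 : StLimit) : StFinal := h2 l h1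

end Pool.Agent.H838R2.PL
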