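import Pool.Agent.H838R2.PL.Tools

/-!
# Exact statements of the parts of the proof
-/

set_option autoImplicit false
set_option linter.unusedSectionVars false

namespace Pool.Agent.H838R2.PL

/-! ## Part A: the calculus of labelled diagrams -/

/-- (A1) relabelling -/
def StRelabel : Prop := ∀ (Λ Λ' : Type) [Palette Λ] [Palette Λ'] (f : Λ → Λ'), Hom f →
  (∀ (w : Word Λ) (F G : List Λ), Path F w G → Path (F.map f) (relabelW f w) (G.map f)) ∧
  (∀ D E : Diag Λ, Iso D E → Iso (relabel f D) (relabel f E)) ∧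
  (∀ D : Diag Λ, cross (relabel f D) = cross D)

/-- (A2a) local moves can be lifted (in both directions) -/
def StLiftBM : Prop := ∀ (Λ Λ' : Type) [Palette Λ] [Palette Λ'] (f : Λ → Λ'), Hom f →
  ∀ (A' B' P' Q' : List Λ') (l' r' : Word Λ'), BM A' l' r' B' →
  (∀ (F G : List Λ) (m : Word Λ), Path F m G → F.map f = P' ++ A' ++ Q' →
    relabelW f m = ctx P' Q' l' → ∃ (P Q A B : List Λ) (l r : Word Λ), F = P ++ A ++ Q ∧
      G = P ++ B ++ Q ∧ m = ctx P Q l ∧ relabelW f l = l' ∧ relabelW f r = r' ∧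
      P.map f = P' ∧ Q.map f = Q' ∧ BM A l r B) ∧
  (∀ (F G : List Λ) (m : Word Λ), Path F m G → F.map f = P' ++ A' ++ Q' →
    relabelW f m = ctx P' Q' r' → ∃ (P Q A B : List Λ) (l r : Word Λ), F = P ++ A ++ Q ∧
      G = P ++ B ++ Q ∧ m = ctx P Q r ∧ relabelW f l = l' ∧ relabelW f r = r' ∧
      P.map f = P' ∧ Q.map f = Q' ∧ BM A l r B)

/-- (A2b) isotopies can be lifted -/
def StLift : Prop := ∀ (Λ Λ' : Type) [Palette Λ] [Palette Λ'] (f : Λ → Λ'), Hom f →
  ∀ (D : Diag Λ) (E' : Diag Λ'), Closed D → Iso (relabel f D) E' →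
    ∃ E : Diag Λ, Closed E ∧ relabel f E = E' ∧ Iso D E

/-- (A3a) erasing strands of a local move -/
def StDelBM : Prop := ∀ (Λ : Type) [Palette Λ] (K : Λ → Bool), Keep K →
  ∀ (A B : List Λ) (l r : Word Λ), BM A l r B →
    delW K l = delW K r ∨ ∃ (P Q A' B' : List Λ) (l' r' : Word Λ), A.filter K = P ++ A' ++ Q ∧
      B.filter K = P ++ B' ++ Q ∧ delW K l = ctx P Q l' ∧ delW K r = ctx P Q r' ∧ BM A' l' r' B'

/-- (A3b) erasing strands -/
def StDel : Prop := ∀ (Λ : Type) [Palette Λ] (K : Λ → Bool), Keep K →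
  (∀ (w : Word Λ) (F G : List Λ), Path F w G → Path (F.filter K) (delW K w) (G.filter K)) ∧
  (∀ D E : Diag Λ, Iso D E → Iso (del K D) (del K E))

/-- (A4) the parity of the number of crossings of different colours does not change -/
def StParity : Prop := ∀ (Λ : Type) [Palette Λ] (p q : Λ → Bool), Inv p → Inv q →
  (∀ x, ¬ (p x = true ∧ q x = true)) → ∀ D E : Diag Λ, Iso D E → cnt p q D % 2 = cnt p q E % 2

/-- (A5) closed sets of labels -/
def StSub : Prop := ∀ (Λ : Type) [Palette Λ] (S : Λ → Prop), SubP S →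
  ∀ D E : Diag Λ, Iso D E → (AllIn S D ↔ AllIn S E)

/-- (A6) products of labels -/
def StProd : Prop := ∀ (Λ : Type) [Palette Λ] (G : Type) [Group G] (v : Λ → G),
  (∀ x, v (star x) = (v x)⁻¹) →
  (∀ b x y, v (out b x y).1 * v (out b x y).2 = v x * v y) →
  ∀ (w : Word Λ) (F F' : List Λ), Path F w F' → (F.map v).prod = (F'.map v).prod

/-- (A7) a relabelling which is compatible with all slices of a word -/
def StRelabelOn : Prop := ∀ (Λ Λ' : Type) [Palette Λ] [Palette Λ'] (f : Λ → Λ')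
  (w : Word Λ) (F G : List Λ), Path F w G →
  (∀ s ∈ w, match s.p with
    | .birth a => f (star a) = star (f a)
    | .death a => f (star a) = star (f a)
    | .cr b x y => out b (f x) (f y) = (f (out b x y).1, f (out b x y).2)) →
  Path (F.map f) (relabelW f w) (G.map f)

/-- (A7') two colourings of the same diagram -/
def StPair : Prop := ∀ (κ κ' : Type) (E : Diag (Col κ)) (E' : Diag (Col κ')), Closed E →
  Closed E' → plain E = plain E' → ∃ X : Diag (Col (κ × κ')), Closed X ∧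
    relabel (fun x => (⟨x.c.1⟩ : Col κ)) X = E ∧ relabel (fun x => (⟨x.c.2⟩ : Col κ')) X = E'

/-- (A7'') one strand above and below: the colour is the same -/
def StFrontCol : Prop := ∀ (κ : Type) (w : Word (Col κ)) (c c' : Col κ), Path [c] w [c'] → c = c'

/-- (A8) rooting: the strands `x, y` at some level become the first strands at the cut -/
def StRoot : Prop := ∀ (Λ : Type) [Palette Λ] (F P Q : List Λ) (u v : Word Λ) (x y : Λ),
  Path F u (P ++ x :: y :: Q) → Path (P ++ x :: y :: Q) v F →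
  ∃ w, Path (x :: y :: Q) w (x :: y :: Q) ∧ Iso (F, u ++ v) (x :: y :: Q, w) ∧
    cross (x :: y :: Q, w) = cross (F, u ++ v)

/-- (A9) rotating a crossing -/
def StRotate : Prop := ∀ (Λ : Type) [Palette Λ] (F L R : List Λ) (u v : Word Λ) (b : Bool)
  (p q z : Λ), z = (if b then Palette.l q p else q) →
  Closed (F, u ++ ⟨L, .cr b p q, R⟩ :: v) →
  ∃ v' : Word Λ, Path F (u ++ [⟨L, .birth z, p :: q :: R⟩]) (L ++ z :: star z :: p :: q :: R) ∧
    Path (L ++ z :: star z :: p :: q :: R) v' F ∧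
    Iso (F, u ++ ⟨L, .cr b p q, R⟩ :: v) (F, (u ++ [⟨L, .birth z, p :: q :: R⟩]) ++ v') ∧
    cross (F, (u ++ [⟨L, .birth z, p :: q :: R⟩]) ++ v') = cross (F, u ++ ⟨L, .cr b p q, R⟩ :: v)

/-- (A10) closing a diagram on the right -/
def StClose : Prop := ∀ (Λ : Type) [Palette Λ] (D : Diag Λ), Closed D →
  Closed (closeUp D) ∧ Iso D (closeUp D) ∧ cross (closeUp D) = cross D

/-! ## Part B: invariance, connected sums -/

/-- (B1) the properties of diagrams used in the definitions do not change under isotopies -/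
def StInv : Prop := ∀ D E : Diag Pl, Iso D E → (IsDiagram D ↔ IsDiagram E) ∧
  (D = ([], []) ↔ E = ([], [])) ∧ (Closed D → (IsKnot D ↔ IsKnot E)) ∧
  (Closed D → (IsTrivialKnot D ↔ IsTrivialKnot E)) ∧ (IsSplit D ↔ IsSplit E) ∧
  (Closed D → (IsPrimeDiag D ↔ IsPrimeDiag E))

/-- (B2) a coloured link whose underlying link is a connected sum -/
def StSum : Prop := ∀ (κ : Type) (D : Diag (Col κ)) (A B : Word Pl), Closed D →
  Path [pt] A [pt] → Path [pt] B [pt] → Iso (plain D) ([pt], A ++ B) →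
  ∃ (c : Col κ) (A' B' : Word (Col κ)), Path [c] A' [c] ∧ Path [c] B' [c] ∧ plainW A' = A ∧
    plainW B' = B ∧ Iso D ([c], A' ++ B')

/-- (B3) a non-split part of a link is on one side of a connected sum -/
def StSide : Prop := ∀ (κ : Type) (D : Diag (Col κ)) (c : Col κ) (A B : Word (Col κ))
  (K : Col κ → Bool), K c = false → Path [c] A [c] → Path [c] B [c] → Iso D ([c], A ++ B) →
  ¬ IsSplit (plain (del K D)) → (∀ e, K e = true → NoCol e A) ∨ (∀ e, K e = true → NoCol e B)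

/-- (B4) strands on different sides of a connected sum do not cross -/
def StCross : Prop := ∀ (κ : Type) (c : Col κ) (A B : Word (Col κ)) (p q : Col κ → Bool),
  (∀ e, p e = true → NoCol e A) → (∀ e, q e = true → NoCol e B) →
    cnt p q ([c], A ++ B) = 0 ∧ cnt q p ([c], A ++ B) = 0

/-- (B5) the summands of a trivial knot are trivial -/
def StRetract : Prop := ∀ A B : Word Pl, Path [pt] A [pt] → Path [pt] B [pt] →
  IsDiagram ([pt], A ++ B) → IsTrivialKnot ([pt], A ++ B) →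
    IsTrivialKnot ([pt], A) ∧ IsTrivialKnot ([pt], B)

/-- (B6) the summands of a knot are knots -/
def StRetractKnot : Prop := ∀ A B : Word Pl, Path [pt] A [pt] → Path [pt] B [pt] →
  IsKnot ([pt], A ++ B) → IsKnot ([pt], A) ∧ IsKnot ([pt], B)

/-- (B7) knots are non-split -/
def StKnotNonsplit : Prop := ∀ D : Diag Pl, Closed D → IsKnot D → ¬ IsSplit D

/-- (B8) knots with non-abelian group have at least three crossings -/
def StThree : Prop := ∀ D : Diag Pl, Closed D → IsKnot D → ¬ IsTrivialKnot D → 3 ≤ cross D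

/-! ## Part C: circles around two strands -/

/-- strands of the knot -/
def isK {G X : Type} : Hk G X → Bool
  | .k _ => true
  | .h _ => false

/-- strands of the circle -/
def isH {G X : Type} : Hk G X → Bool
  | .k _ => false
  | .h _ => true

/-- (C0a) the diagram `lens` with meridians -/
def StUnitLens : Prop := ∀ (G : Type) [Group G] (E : Diag (Mer G)) (a d : Mer G)
  (F : List (Mer G)), Closed E → E.1 = a :: d :: F →
  Closed (lens (.h ()) (relabel .k E) : Diag (Hk G Unit)) ∧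
  relabel hkCol (lens (.h ()) (relabel .k E) : Diag (Hk G Unit)) = lens2 (plain E) ∧
  (∀ E' : Diag (Mer G), (lens (.h ()) (relabel .k E') : Diag (Hk G Unit)) =
    lens (.h ()) (relabel .k E) → E' = E)

/-- (C0b) the class of the circle -/
def StRgLens : Prop := ∀ (G : Type) [Group G] (R : Diag Pl) (X : Diag (Hk G (Rg G))), Closed X →
  relabel hkCol X = lens2 R → (∃ F, R.1 = pt :: pt :: F) →
  ∃ (E : Diag (Mer G)) (a d : Mer G) (F : List (Mer G)), Closed E ∧ plain E = R ∧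
    E.1 = a :: d :: F ∧ a.val * d.val = 1 ∧ relabel hkForget X = lens (.h ()) (relabel .k E)

/-- (C0c) heights -/
def StHtLens : Prop := ∀ (G : Type) [Group G] (E : Diag (Mer G)) (a d : Mer G)
  (F : List (Mer G)), Closed E → E.1 = a :: d :: F → a.d ≠ d.d →
  ∃ Y : Diag (Hk G Ht), Closed Y ∧ relabel hkForget Y = lens (.h ()) (relabel .k E)

/-- (C0d) one strand above and below -/
def StFrontHk : Prop := ∀ (G X : Type) [Group G] [QAct G X] (w : Word (Hk G X)) (y : Mer G)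
  (F : List (Hk G X)), Path [.k y] w F → F.map hkCol = [⟨false⟩] → F = [.k y]

/-- (C0e) homomorphisms -/
def StHoms : Prop := (∀ (G X : Type) [Group G] [QAct G X], Hom (hkCol : Hk G X → Col Bool)) ∧
  (∀ (G X : Type) [Group G] [QAct G X], Hom (hkForget : Hk G X → Hk G Unit)) ∧
  (∀ (G X : Type) [Group G] [QAct G X], Keep (isK : Hk G X → Bool)) ∧
  (∀ (G X : Type) [Group G] [QAct G X], Hom (Hk.k : Mer G → Hk G X)) ∧
  (∀ (G : Type) [Group G] (g : G), Hom (fun a : Mer PUnit => (⟨g, a.d⟩ : Mer G))) ∧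
  (∀ (G : Type) [Group G], Hom (fun a : Mer G => (⟨a.m⁻¹, !a.d⟩ : Mer G))) ∧
  (∀ (G : Type) [Group G] (g : G), Hom (fun a : Hk PUnit Ht => (match a with
    | .k a => .k ⟨g, a.d⟩
    | .h n => .h ⟨g ^ n.n⟩ : Hk G (Rg G))))

/-- (C0f) if `K` never passes above the circle, the classes exist -/
def StExtConst : Prop := ∀ (G : Type) [Group G] (X : Diag (Hk G Unit)), Closed X →
  cnt isK isH X = 0 → ∃ X' : Diag (Hk G (Rg G)), Closed X' ∧ relabel hkForget X' = X

/-- (C0g) if `K` never passes below the circle, the classes exist -/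
def StExtLeft : Prop := ∀ (G : Type) [Group G] (X : Diag (Hk G Unit)), Closed X →
  cnt isH isK X = 0 → ∃ X' : Diag (Hk G (Rg G)), Closed X' ∧ relabel hkForget X' = X

/-- (C1) links with at least two components -/
def StGoodLink : Prop := ∀ D : Diag Pl, IsDiagram D → IsPrimeDiag D → ¬ IsKnot D →
  ∃ R, Good R ∧ Iso D R ∧ cross R = cross D

/-- (C2) if the meridians of the two strands are different for some homomorphism to a group, and the
two strands have opposite directions, there are at least four crossings -/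
def StHook : Prop := ∀ (G : Type) [Group G] (E : Diag (Mer G)) (a d : Mer G) (F : List (Mer G)),
  Closed E → E.1 = a :: d :: F → a.d ≠ d.d → a.m ≠ d.m →
  ∀ E' : Diag (Col Bool), Iso (lens2 (plain E)) E' →
    4 ≤ cnt (fun x => x.c) (fun x => !x.c) E' + cnt (fun x => !x.c) (fun x => x.c) E'

/-- (C3) the property `Good.prime` for prime knots -/
def StPrimeKnot : Prop := ∀ (G : Type) [Group G] (E : Diag (Mer G)) (a d : Mer G)
  (F : List (Mer G)), Closed E → E.1 = a :: d :: F → a.d ≠ d.d → a.m ≠ d.m →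
  IsPrimeDiag (plain E) → IsKnot (plain E) →
  ∀ A B : Word (Col Bool), Path [⟨false⟩] A [⟨false⟩] → Path [⟨false⟩] B [⟨false⟩] →
    Iso (lens2 (plain E)) ([⟨false⟩], A ++ B) → NoCol ⟨true⟩ B → IsTrivialKnot ([pt], plainW B)

/-- (C4) the property `Good.prime` for knots such that the equality of the meridians of the two
strands implies that all meridians are equal -/
def StPrimeRigid : Prop := ∀ (E : Diag (Mer PUnit)) (a d : Mer PUnit) (F : List (Mer PUnit)),
  Closed E → E.1 = a :: d :: F → a.d ≠ d.d → IsKnot (plain E) →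
  (∀ (G : Type) [Group G] (E' : Diag (Mer G)) (a' d' : Mer G) (F' : List (Mer G)), Closed E' →
    plain E' = plain E → E'.1 = a' :: d' :: F' → a'.val * d'.val = 1 →
      ∃ g, AllIn (fun x => x.m = g) E') →
  ∀ A B : Word (Col Bool), Path [⟨false⟩] A [⟨false⟩] → Path [⟨false⟩] B [⟨false⟩] →
    Iso (lens2 (plain E)) ([⟨false⟩], A ++ B) → NoCol ⟨true⟩ B → IsTrivialKnot ([pt], plainW B)

/-- (C5) prime knots -/
def StGoodKnot : Prop := ∀ D : Diag Pl, IsDiagram D → IsPrimeDiag D → IsKnot D →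
  ∃ R, Good R ∧ Iso D R ∧ cross R = cross D

/-- (C6) the Hopf link, with its crossing number -/
def StHopf : Prop := ∃ R, Good R ∧ cross R = 2 ∧ ∀ E, Iso R E → 2 ≤ cross E

/-- (C7) the trefoil, with its crossing number -/
def StTrefoil : Prop := ∃ R, Good R ∧ cross R = 3 ∧ ∀ E, Iso R E → 3 ≤ cross E

/-! ## Part D: rings -/

/-- the strands of the block `i` -/
def isB (i : ℕ) : Col (ℕ ⊕ ℕ) → Bool := fun x => x.c = Sum.inl i
/-- the circle `i` -/
def isM (i : ℕ) : Col (ℕ ⊕ ℕ) → Bool := fun x => x.c = Sum.inr i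

/-- the previous block -/
def prv (K i : ℕ) : ℕ := if i = 0 then K - 1 else i - 1

/-- The properties of the ring. -/
structure RingProps (K : ℕ) (R : ℕ → Diag Pl) : Prop where
  closed : Closed (ringC K R)
  plain : plain (ringC K R) = ring K R
  diagram : IsDiagram (ring K R)
  cross : cross (ring K R) = ∑ i ∈ Finset.range K, (cross (R i) + 6)
  /-- all colours are among those of the blocks and circles -/
  colours : AllIn (fun x => ∃ i < K, x.c = Sum.inl i ∨ x.c = Sum.inr i) (ringC K R)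
  /-- erasing everything but one block -/
  block : ∀ i < K, Iso (del (isB i) (ringC K R)) (relabel (fun _ => ⟨Sum.inl i⟩) (R i))
  /-- erasing everything but one circle -/
  circle : ∀ i < K, Iso (del (isM i) (ringC K R)) ([⟨Sum.inr i⟩], [])
  /-- erasing everything but one block and the circle which hooks two of its strands -/
  lens : ∀ i < K, Iso (del (fun x => isB i x || isM i x) (ringC K R))
    (lens ⟨Sum.inr i⟩ (relabel (fun _ => ⟨Sum.inl i⟩) (R i)))
  /-- the circle and the previous block -/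
  weak : ∀ i < K, cnt (isM i) (isB (prv K i)) (ringC K R) = 1 ∧
    cnt (isB (prv K i)) (isM i) (ringC K R) = 1
  /-- there are no other crossings of strands with different colours -/
  other : ∀ s ∈ (ringC K R).2, ∀ b x y, s.p = .cr b x y → x = y ∨ ∃ i < K,
    (x.c = Sum.inr i ∧ (y.c = Sum.inl i ∨ y.c = Sum.inl (prv K i))) ∨
    (y.c = Sum.inr i ∧ (x.c = Sum.inl i ∨ x.c = Sum.inl (prv K i)))

/-- (D1a) -/
def StRingA : Prop := ∀ (K : ℕ) (R : ℕ → Diag Pl), 2 ≤ K →
  (∀ i < K, IsDiagram (R i) ∧ ∃ G, (R i).1 = pt :: pt :: G) →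
  Closed (ringC K R) ∧ plain (ringC K R) = ring K R ∧ IsDiagram (ring K R) ∧
  cross (ring K R) = ∑ i ∈ Finset.range K, (cross (R i) + 6) ∧
  AllIn (fun x => ∃ i < K, x.c = Sum.inl i ∨ x.c = Sum.inr i) (ringC K R)

/-- (D1b) -/
def StRingB : Prop := ∀ (K : ℕ) (R : ℕ → Diag Pl), 2 ≤ K →
  (∀ i < K, IsDiagram (R i) ∧ ∃ G, (R i).1 = pt :: pt :: G) →
  (∀ i < K, Iso (del (isB i) (ringC K R)) (relabel (fun _ => ⟨Sum.inl i⟩) (R i))) ∧
  (∀ i < K, Iso (del (isM i) (ringC K R)) ([⟨Sum.inr i⟩], []))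

/-- (D1c) -/
def StRingC : Prop := ∀ (K : ℕ) (R : ℕ → Diag Pl), 2 ≤ K →
  (∀ i < K, IsDiagram (R i) ∧ ∃ G, (R i).1 = pt :: pt :: G) →
  ∀ i < K, Iso (del (fun x => isB i x || isM i x) (ringC K R))
    (lens ⟨Sum.inr i⟩ (relabel (fun _ => ⟨Sum.inl i⟩) (R i)))

/-- (D1d) -/
def StRingD : Prop := ∀ (K : ℕ) (R : ℕ → Diag Pl), 2 ≤ K →
  (∀ i < K, IsDiagram (R i) ∧ ∃ G, (R i).1 = pt :: pt :: G) →
  (∀ i < K, cnt (isM i) (isB (prv K i)) (ringC K R) = 1 ∧
    cnt (isB (prv K i)) (isM i) (ringC K R) = 1) ∧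
  (∀ s ∈ (ringC K R).2, ∀ b x y, s.p = .cr b x y → x = y ∨ ∃ i < K,
    (x.c = Sum.inr i ∧ (y.c = Sum.inl i ∨ y.c = Sum.inl (prv K i))) ∨
    (y.c = Sum.inr i ∧ (x.c = Sum.inl i ∨ x.c = Sum.inl (prv K i))))

/-- (D1) = D1a + D1b + D1c + D1d -/
def StRing : Prop := ∀ (K : ℕ) (R : ℕ → Diag Pl), 2 ≤ K →
  (∀ i < K, IsDiagram (R i) ∧ ∃ G, (R i).1 = pt :: pt :: G) → RingProps K R

/-- (D1e) diagrams `X` of a ring with an additional colouring of the components by `κ` -/
def StRingCol : Prop := ∀ (K : ℕ) (R : ℕ → Diag Pl), 2 ≤ K → (∀ i < K, Good (R i)) →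
  RingProps K R → ∀ (κ : Type) (X : Diag (Col ((ℕ ⊕ ℕ) × κ))), Closed X →
  Iso (relabel (fun x => ⟨x.c.1⟩) X) (ringC K R) →
  (∀ i < K, ∃ z, AllIn (fun x => x.c.1 = Sum.inr i → x.c.2 = z) X) ∧
  (∀ i < K, (∀ s ∈ X.2, ∀ b x y, s.p = .cr b x y → x.c.1 = Sum.inl i → y.c.1 = Sum.inl i →
      x.c.2 = y.c.2) → ∃ z, AllIn (fun x => x.c.1 = Sum.inl i → x.c.2 = z) X) ∧
  (∀ i < K, 4 ≤ cnt (fun x => isM i ⟨x.c.1⟩) (fun x => isB i ⟨x.c.1⟩) X +
    cnt (fun x => isB i ⟨x.c.1⟩) (fun x => isM i ⟨x.c.1⟩) X) ∧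
  (∀ i < K, 1 ≤ cnt (fun x => isM i ⟨x.c.1⟩) (fun x => isB (prv K i) ⟨x.c.1⟩) X ∧
    1 ≤ cnt (fun x => isB (prv K i) ⟨x.c.1⟩) (fun x => isM i ⟨x.c.1⟩) X) ∧
  (∀ i < K, Iso (plain (del (fun x => isB i ⟨x.c.1⟩) X)) (R i)) ∧
  AllIn (fun x => ∃ i < K, x.c.1 = Sum.inl i ∨ x.c.1 = Sum.inr i) X

/-- (D2a) rings of good blocks are not split and not knots -/
def StRingNonsplit : Prop := ∀ (K : ℕ) (R : ℕ → Diag Pl), 2 ≤ K → (∀ i < K, Good (R i)) →
  RingProps K R → ring K R ≠ ([], []) ∧ ¬ IsSplit (ring K R) ∧ ¬ IsKnot (ring K R)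

/-- (D2b) rings of good blocks are prime -/
def StRingPrime : Prop := ∀ (K : ℕ) (R : ℕ → Diag Pl), 2 ≤ K → (∀ i < K, Good (R i)) →
  RingProps K R → IsPrimeDiag (ring K R)

/-- (D3) the crossing number of a ring -/
def StRingCross : Prop := ∀ (K : ℕ) (R : ℕ → Diag Pl) (c : ℕ → ℕ), 2 ≤ K →
  (∀ i < K, Good (R i)) → RingProps K R → (∀ i < K, ∀ E, Iso (R i) E → c i ≤ cross E) →
  ∀ E, Iso (ring K R) E → ∑ i ∈ Finset.range K, (c i + 6) ≤ cross E

/-- (D4a) two rings with the same diagram `D` and the same circles -/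
def StTwoRings : Prop := ∀ (K : ℕ), 2 ≤ K → ∀ (R R' : ℕ → Diag Pl), (∀ i < K, Good (R i)) →
  (∀ i < K, Good (R' i)) → RingProps K R → RingProps K R' →
  ∀ (E E' : Diag (Col (ℕ ⊕ ℕ))), Iso (ringC K R) E → Iso (ringC K R') E' → plain E = plain E' →
  (∃ P : ℕ → ℕ, (∀ i < K, ∃ b x y, (E.2[P i]?).map Slice.p = some (.cr b x y) ∧
      (if b then x else y).c = Sum.inr i) ∧
    ∃ P' : ℕ → ℕ, (∀ i < K, ∃ b x y, (E'.2[P' i]?).map Slice.p = some (.cr b x y) ∧
      (if b then x else y).c = Sum.inr i) ∧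
    (Finset.range K).image P = (Finset.range K).image P') →
  ∃ s < K, ∀ i < K, Iso (R i) (R' ((i + s) % K))

/-- (D4b) the number of rings with the same diagram -/
def StMult : Prop := ∀ (K : ℕ), 2 ≤ K → ∀ (D : Diag Pl), Closed D →
  ∀ (ι : Type) [Fintype ι] (R : ι → ℕ → Diag Pl), (∀ t, ∀ i < K, Good (R t i)) →
  (∀ t, RingProps K (R t)) → (∀ t, Iso (ring K (R t)) D) →
  (∀ t t', (∀ i < K, Iso (R t i) (R t' i)) → t = t') →
  Fintype.card ι ≤ (cross D).choose K * K

/-! ## Part E: counting -/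

/-- (E1) -/
def StCount : Prop := ∀ (m k a b N K f : ℕ), K = k + a + b → 3 ≤ K →
  N = k * (m + 6) + 8 * a + 9 * b → (f : ℕ∞) ≤ l m →
  ((f ^ k : ℕ) : ℕ∞) ≤ l N * ((N.choose K * K ^ 2 : ℕ) : ℕ∞)

/-- (E2) -/
def StLimit : Prop := ∀ l : ℕ → ℕ∞, (∀ (m k a b N K f : ℕ), K = k + a + b → 3 ≤ K →
  N = k * (m + 6) + 8 * a + 9 * b → (f : ℕ∞) ≤ l m →
  ((f ^ k : ℕ) : ℕ∞) ≤ l N * ((N.choose K * K ^ 2 : ℕ) : ℕ∞)) →
  ∃ c : ENNReal, Filter.Tendsto (fun n : ℕ => ((l n : ℕ∞) : ENNReal) ^ ((1 : ℝ) / n))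
    Filter.atTop (nhds c)

/-- the final result -/
def StFinal : Prop := ∃ c : ENNReal, Filter.Tendsto
  (fun n : ℕ => ((l n : ℕ∞) : ENNReal) ^ ((1 : ℝ) / n)) Filter.atTop (nhds c)

end Pool.Agent.H838R2.PL
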