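import Pool.Agent.H838R2.PL.Basic

/-!
# Tools for labelled diagrams: definitions

Homomorphisms of palettes, erasing strands, counting crossings, the labels used for the circle
hooking two strands, the diagrams of the proof.
-/

set_option autoImplicit false
set_option linter.unusedSectionVars false

namespace Pool.Agent.H838R2.PL

variable {Λ Λ' : Type} [Palette Λ] [Palette Λ']

/-! ### Homomorphisms -/

structure Hom (f : Λ → Λ') : Prop where
  star : ∀ x, f (star x) = star (f x)
  r : ∀ x y, f (Palette.r x y) = Palette.r (f x) (f y)

theorem Hom.l {f : Λ → Λ'} (hf : Hom f) (x y : Λ) : f (Palette.l x y) = Palette.l (f x) (f y) := by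
  rw [← Palette.r_star, hf.r, hf.star, Palette.r_star]

theorem Hom.out {f : Λ → Λ'} (hf : Hom f) (b : Bool) (x y : Λ) :
    out b (f x) (f y) = (f (out b x y).1, f (out b x y).2) := by
  cases b <;> simp [PL.out, hf.r, hf.l]

/-- relabelling words -/
def relabelW (f : Λ → Λ') (w : Word Λ) : Word Λ' := w.map (Slice.map f)

/-- words without labels -/
def plainW (w : Word Λ) : Word Pl := relabelW (fun _ => pt) w

theorem relabel_eq (f : Λ → Λ') (D : Diag Λ) : relabel f D = (D.1.map f, relabelW f D.2) := rfl

/-- maps between sets of colours are homomorphisms -/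
theorem hom_col {κ κ' : Type} (g : Col κ → Col κ') : Hom g := ⟨fun _ => rfl, fun _ _ => rfl⟩

instance : Subsingleton Pl := ⟨fun a b => by cases a; cases b; rfl⟩

/-- every map to the trivial labels is a homomorphism -/
theorem hom_pl (g : Λ → Pl) : Hom g :=
  ⟨fun _ => Subsingleton.elim _ _, fun _ _ => Subsingleton.elim _ _⟩

/-! ### Erasing strands -/

/-- The strands with the labels `x` such that `K x = false` can be erased. -/
structure Keep (K : Λ → Bool) : Prop where
  star : ∀ x, K (star x) = K x
  r : ∀ x y, K (Palette.r x y) = K x
  act : ∀ x y, K x = true → K y = false → Palette.r x y = x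

def keepLoc (K : Λ → Bool) : Loc Λ → Bool
  | .birth a => K a
  | .death a => K a
  | .cr _ x y => K x && K y

def delS (K : Λ → Bool) (s : Slice Λ) : Word Λ :=
  if keepLoc K s.p then [⟨s.L.filter K, s.p, s.R.filter K⟩] else []

def delW (K : Λ → Bool) (w : Word Λ) : Word Λ := w.flatMap (delS K)

/-- Erasing the strands with `K x = false`. -/
def del (K : Λ → Bool) (D : Diag Λ) : Diag Λ := (D.1.filter K, delW K D.2)

theorem keep_col {κ : Type} (K : Col κ → Bool) : Keep K := ⟨fun _ => rfl, fun _ _ => rfl,
  fun _ _ _ _ => rfl⟩

/-! ### Counting crossings -/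

/-- one, if the slice is a crossing whose upper strand satisfies `p` and whose lower strand satisfies
`q`, and zero otherwise -/
def cntS (p q : Λ → Bool) (s : Slice Λ) : ℕ :=
  match s.p with
  | .cr b x y => if p (if b then x else y) && q (if b then y else x) then 1 else 0
  | _ => 0

/-- the number of crossings whose upper strand satisfies `p` and whose lower strand satisfies `q` -/
def cnt (p q : Λ → Bool) (D : Diag Λ) : ℕ := (D.2.map (cntS p q)).sum

/-- `p` does not change along a component -/
structure Inv (p : Λ → Bool) : Prop where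
  star : ∀ x, p (star x) = p x
  r : ∀ x y, p (Palette.r x y) = p x

/-- sets of labels which are closed under the operations -/
structure SubP (S : Λ → Prop) : Prop where
  star : ∀ x, S x → S (star x)
  r : ∀ x y, S x → S y → S (Palette.r x y)
  l : ∀ x y, S x → S y → S (Palette.l x y)

/-- no strand of the word has the label `e` -/
def NoCol (e : Λ) (w : Word Λ) : Prop := ∀ s ∈ w, e ∉ s.src ∧ e ∉ s.tgt

/-- all labels in a word satisfy `S` -/
def AllInW (S : Λ → Prop) (w : Word Λ) : Prop :=
  ∀ s ∈ w, (∀ a ∈ s.src, S a) ∧ ∀ a ∈ s.tgt, S a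

/-! ### Closing a diagram on the right -/

/-- the labels of the strands which return on the right -/
def bar (F : List Λ) : List Λ := (F.map star).reverse

def births : List Λ → List Λ → Word Λ
  | _, [] => []
  | P, a :: F => ⟨P, .birth a, bar P⟩ :: births (P ++ [a]) F

def deaths : List Λ → List Λ → Word Λ
  | _, [] => []
  | P, a :: F => deaths (P ++ [a]) F ++ [⟨P, .death a, bar P⟩]

/-- the diagram whose strands at the cut are closed on the right -/
def closeUp (D : Diag Λ) : Diag Λ := ([], births [] D.1 ++ (ctx [] (bar D.1) D.2 ++ deaths [] D.1))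

/-! ### The circle around the first two strands -/

/-- the strand with the label `m` passes over two strands with the labels `a`, `d` to the right and
returns below them -/
def hook (m₀ m a d : Λ) (G : List Λ) : Word Λ :=
  [⟨[m₀], .cr true m a, d :: G⟩, ⟨[m₀, a], .cr true m d, G⟩, ⟨[m₀, a], .cr true d m, G⟩,
    ⟨[m₀], .cr true a m, d :: G⟩]

/-- the same with one strand -/
def weak (m₀ m a : Λ) (G : List Λ) : Word Λ :=
  [⟨[m₀], .cr true m a, G⟩, ⟨[m₀], .cr true a m, G⟩]

/-- The diagram with a circle (with the label `m`) around the first two strands at the cut. -/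
def lens (m : Λ) : Diag Λ → Diag Λ
  | (a :: d :: G, w) => (a :: d :: G, ⟨[], .birth m, a :: d :: G⟩ :: (hook m (star m) a d G ++
      (⟨[], .death m, a :: d :: G⟩ :: w)))
  | D => D

/-- `lens` with the colour `true` for the circle and the colour `false` for the other strands -/
def lens2 (R : Diag Pl) : Diag (Col Bool) := lens ⟨true⟩ (relabel (fun _ => ⟨false⟩) R)

/-! ### Rings -/

/-- One block of a ring: `D` is a diagram, its first two strands are hooked by the circle `m`
coming from above, its first strand is hooked by the circle `m'` which continues below. -/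
def block (m m' : Λ) : Diag Λ → Word Λ
  | (a :: d :: G, w) =>
    ctx [m, star m] [] (births [] (a :: d :: G)) ++
    (hook m (star m) a d (G ++ bar (a :: d :: G)) ++
    (⟨[], .death m, a :: d :: G ++ bar (a :: d :: G)⟩ ::
    (⟨[], .birth m', a :: d :: G ++ bar (a :: d :: G)⟩ ::
    (weak m' (star m') a (d :: G ++ bar (a :: d :: G)) ++
    (ctx [m', star m'] (bar (a :: d :: G)) w ++
    ctx [m', star m'] [] (deaths [] (a :: d :: G)))))))
  | _ => []

/-- the index of the next block in a ring of `K` blocks -/
def nxt (K i : ℕ) : ℕ := if i + 1 = K then 0 else i + 1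

/-- The ring of the blocks `D 0, ..., D (K - 1)`; the circle `m i` hooks two strands of the block
`i` and one strand of the previous block. -/
def ringL (K : ℕ) (m : ℕ → Λ) (D : ℕ → Diag Λ) : Diag Λ :=
  ([m 0, star (m 0)], (List.range K).flatMap fun i => block (m i) (m (nxt K i)) (D i))

/-- the ring without labels -/
def ring (K : ℕ) (R : ℕ → Diag Pl) : Diag Pl := ringL K (fun _ => pt) R

/-- the ring; the strands of the block `i` have the colour `inl i`, the circle `i` has the colour
`inr i` -/
def ringC (K : ℕ) (R : ℕ → Diag Pl) : Diag (Col (ℕ ⊕ ℕ)) :=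
  ringL K (fun i => ⟨Sum.inr i⟩) fun i => relabel (fun _ => ⟨Sum.inl i⟩) (R i)

/-! ### Rooted diagrams which can be used in rings -/

structure Good (R : Diag Pl) : Prop where
  diag : IsDiagram R
  front : ∃ G, R.1 = pt :: pt :: G
  nonsplit : ¬ IsSplit R
  prime : ∀ A B : Word (Col Bool), Path [⟨false⟩] A [⟨false⟩] → Path [⟨false⟩] B [⟨false⟩] →
    Iso (lens2 R) ([⟨false⟩], A ++ B) → NoCol ⟨true⟩ B → IsTrivialKnot ([pt], plainW B)
  hook : ∀ E : Diag (Col Bool), Iso (lens2 R) E →
    4 ≤ cnt (fun x => x.c) (fun x => !x.c) E + cnt (fun x => !x.c) (fun x => x.c) E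

/-! ### Labels for a knot `K` and a circle -/

/-- a meridian labelling of the strands of `K`, and labels in `X` for the strands of the circle -/
inductive Hk (G X : Type) : Type
  | k (a : Mer G)
  | h (n : X)

/-- an action of the meridians on `X`: if the circle passes below a strand with the meridian `g` as
the meridian does, its label `n` changes to `A g n` -/
class QAct (G X : Type) [Group G] where
  A : G → Equiv.Perm X
  conj : ∀ y z : G, A (z⁻¹ * y * z) = A z * A y * (A z)⁻¹

section

variable {G X : Type} [Group G] [QAct G X]

/-- the action of a strand passed from the left to the right -/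
def Mer.act (X : Type) [QAct G X] (y : Mer G) : Equiv.Perm X :=
  if y.d then QAct.A y.m else (QAct.A y.m)⁻¹

theorem QAct.conj' (y z : G) : (QAct.A (z * y * z⁻¹) : Equiv.Perm X) =
    (QAct.A z)⁻¹ * QAct.A y * QAct.A z := by
  have h := QAct.conj (X := X) (z * y * z⁻¹) z
  have e : z⁻¹ * (z * y * z⁻¹) * z = y := by group
  rw [e] at h
  rw [h]; group

instance : Palette (Hk G X) where
  star x := match x with
    | .k a => .k (star a)
    | .h n => .h n
  r x y := match x, y with
    | .k a, .k b => .k (Palette.r a b)
    | .k a, .h _ => .k a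
    | .h n, .k b => .h (b.act X n)
    | .h n, .h _ => .h n
  l x y := match x, y with
    | .k a, .k b => .k (Palette.l a b)
    | .k a, .h _ => .k a
    | .h n, .k b => .h ((b.act X)⁻¹ n)
    | .h n, .h _ => .h n
  star_star x := by cases x <;> simp
  l_r x y := by cases x <;> cases y <;> simp
  r_l x y := by cases x <;> cases y <;> simp
  r_star x y := by
    cases x <;> cases y <;> simp
    rename_i n b
    obtain ⟨m, d⟩ := b
    cases d
    · simp [Mer.act, star]; rfl
    · simp [Mer.act, star]
  star_r x y := by cases x <;> cases y <;> simp [Palette.star_r]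
  r_self x := by cases x <;> simp
  r_r x y z := by
    rcases x with a | n <;> rcases y with b | m <;> rcases z with c | k <;> try rfl
    · exact congrArg Hk.k (Palette.r_r a b c)
    · obtain ⟨m, d⟩ := b
      obtain ⟨m', d'⟩ := c
      cases d <;> cases d' <;>
        simp [Mer.act, Palette.r, Mer.val, QAct.conj, QAct.conj']

end

/-- no labels for the circle -/
instance (G : Type) [Group G] : QAct G Unit := ⟨fun _ => 1, fun _ _ => by simp⟩

/-- Heights: the linking number of the part of the circle already passed with `K`. -/
structure Ht : Type where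
  n : ℤ

instance (G : Type) [Group G] : QAct G Ht where
  A _ := ⟨fun x => ⟨x.n + 1⟩, fun x => ⟨x.n - 1⟩, fun x => by simp, fun x => by simp⟩
  conj _ _ := by ext x; simp

/-- The class of the part of the circle already passed. -/
structure Rg (G : Type) : Type where
  g : G

instance (G : Type) [Group G] : QAct G (Rg G) where
  A y := ⟨fun x => ⟨x.g * y⟩, fun x => ⟨x.g * y⁻¹⟩, fun x => by simp, fun x => by simp⟩
  conj y z := by ext x; simp [mul_assoc]

/-- forgetting the labels except for the colours of `K` (`false`) and of the circle (`true`) -/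
def hkCol {G X : Type} : Hk G X → Col Bool
  | .k _ => ⟨false⟩
  | .h _ => ⟨true⟩

/-- forgetting the labels of the circle -/
def hkForget {G X : Type} : Hk G X → Hk G Unit
  | .k a => .k a
  | .h _ => .h ()

end Pool.Agent.H838R2.PL
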